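import Pool.Agent.Run7.h310.SP.A5

set_option autoImplicit false

/-!
# Large values of zeta near the critical line, twisted and at sample points: statements

Project SQ of helper310, on top of project SP (`Run7/h310/SP`) and `N748/MG`.
`pw δ t = 1/2 + δ + i t`, `mz δ t = |ζ(pw δ t)|`, `ph a b t = (a/b)^(it)`, `dS s` the coefficients of `ζ^s`,
`wN δ n = n^(-1/2-δ)`.
-/

namespace Run7.h310.SQ

open Finset Filter MeasureTheory Topology Complex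
open Pool.Agent.N748.MG Run7.h310.SP

/-- the terms of the twisted diagonal series, complex exponent -/
noncomputable def tfc (s : ℂ) (δ : ℝ) (a b g : ℕ) : ℂ :=
  dS s (a * g) * dS s (b * g) * ((wN δ (a * g) * wN δ (b * g) : ℝ) : ℂ)

/-- the twisted diagonal series, complex exponent -/
noncomputable def TC (s : ℂ) (δ : ℝ) (a b : ℕ) : ℂ := ∑' g : ℕ, tfc s δ a b g

/-- the truncated twisted diagonal sum, complex exponent -/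
noncomputable def TCt (s : ℂ) (δ y : ℝ) (K a b : ℕ) : ℂ :=
  ∑ q ∈ (FS y K ×ˢ FS y K).filter (fun q => q.1 * b = q.2 * a),
    dS s q.1 * dS s q.2 * ((wN δ q.1 * wN δ q.2 : ℝ) : ℂ)

/-- (CTW) complex twisted moments over the set of good points; the complex form of `SP.S_TWR`, proof as
`SP/A4.lean` (`t_twr`), with `MVS`-type mean value of the product of two Dirichlet polynomials (`SP.tw_mean` with complex
coefficients `dS s n`, the second factor is `conj (AS (conj s))`, `CM.conj_dS`). -/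
def S_CTW : Prop := ∀ R D C : ℝ, 0 < R → 0 < D → 0 < C → Ev fun X δ =>
  ∃ (y : ℝ) (K : ℕ) (N : Set ℝ), 2 ≤ y ∧ C * Real.log (1 / δ) ≤ δ * Real.log y ∧ C * Real.log (1 / δ) ≤ K ∧
    MeasurableSet N ∧ N ⊆ Set.Icc 0 X ∧ volume (Set.Icc 0 X \ N) ≤ ENNReal.ofReal (δ ^ D * X) ∧
    (∀ t ∈ N, riemannZeta (pw δ t) ≠ 0) ∧
    ∀ s : ℂ, ‖s‖ ≤ R → IntegrableOn (fun t => ((‖riemannZeta (pw δ t)‖ : ℝ) : ℂ) ^ (2 * s)) N ∧
      ∀ a b : ℕ, 1 ≤ a → 1 ≤ b →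
        ‖(∫ t in N, ((‖riemannZeta (pw δ t)‖ : ℝ) : ℂ) ^ (2 * s) * ph a b t) - X * TCt s δ y K a b‖ ≤
          δ ^ D * X * (a * b)

/-- (GLD) the local limit theorem for `log |ζ|` for general families of measures (Lebesgue measure with a weight, or
sample points): from the complex moments to the law at the scale `V log (1/(2d))`; proof as `N748/MG/LD.lean` with
`Λ T = log (1/(2 d T))` and `LLT.main`. -/
def S_GLD : Prop := ∀ (μ : ℝ → Measure ℝ) (d : ℝ → ℝ) (A : ℂ → ℂ) (V r : ℝ), (∀ᶠ T in atTop, IsFiniteMeasure (μ T)) →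
  (∀ᶠ T in atTop, 0 < d T) → Tendsto d atTop (𝓝 0) → Continuous A → 0 < r → A V = r →
  (∀ R D ε : ℝ, 0 < R → 0 < D → 0 < ε → ∀ᶠ T in atTop, ∃ N : Set ℝ, MeasurableSet N ∧
    μ T Nᶜ ≤ ENNReal.ofReal (d T ^ D) ∧ (∀ t ∈ N, riemannZeta (pw (d T) t) ≠ 0) ∧
    ∀ s : ℂ, ‖s‖ ≤ R → IntegrableOn (fun t => ((‖riemannZeta (pw (d T) t)‖ : ℝ) : ℂ) ^ (2 * s)) N (μ T) ∧
      ‖((2 * d T : ℝ) : ℂ) ^ (s ^ 2) * (∫ t in N, ((‖riemannZeta (pw (d T) t)‖ : ℝ) : ℂ) ^ (2 * s) ∂(μ T)) - A s‖ ≤ ε) →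
  ∀ (h : ℝ → ℝ) (S : Finset ℝ), Measurable h → (∀ x, x ∉ S → ContinuousAt h x) → (∃ C : ℝ, ∀ x, |h x| ≤ C) →
    (∃ C : ℝ, ∀ x, |h x| * (1 + x ^ 2) ≤ C * Real.exp (2 * V * x)) →
    Tendsto (fun T : ℝ => Real.sqrt (Real.pi * Real.log (1 / (2 * d T))) * (2 * d T) ^ (-(V ^ 2)) *
      ∫ t, h (Real.log ‖riemannZeta (pw (d T) t)‖ - V * Real.log (1 / (2 * d T))) ∂(μ T)) atTop
      (𝓝 (r * ∫ x, Real.exp (-(2 * V * x)) * h x))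

/-- (CRED) the complex moments at sample points in terms of the polynomials: the complex form of `SP.S_RED`
(`Run7/h701/SP_RED.lean`). -/
def S_CRED : Prop := ∀ c R D : ℝ, 0 < c → 0 < R → 0 < D → ∀ C : ℝ, 0 < C → Ev fun X δ =>
  ∃ (y : ℝ) (K : ℕ), 2 ≤ y ∧ C * Real.log (1 / δ) ≤ δ * Real.log y ∧ C * Real.log (1 / δ) ≤ K ∧
    C * ((K + 1) * Real.log y) ≤ Real.log X ∧
    ∀ S : Finset ℝ, Sep c X S → ∃ G : Finset ℝ, G ⊆ S ∧ ((S \ G).card : ℝ) ≤ δ ^ D * X ∧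
      (∀ s ∈ G, riemannZeta (pw δ s) ≠ 0) ∧
      ∀ z : ℂ, ‖z‖ ≤ R →
        ‖(∑ s ∈ G, ((‖riemannZeta (pw δ s)‖ : ℝ) : ℂ) ^ (2 * z)) -
          ∑ s ∈ S, AS z y K (pw δ s) * (starRingEnd ℂ) (AS ((starRingEnd ℂ) z) y K (pw δ s))‖ ≤ δ ^ D * X

/-! ### twisted diagonal sums -/

/-- (TCT) truncation -/
def S_TCT : Prop := ∀ (R D : ℝ), 0 < R → 0 < D → ∀ a b : ℕ, 1 ≤ a → 1 ≤ b → Nat.Coprime a b →
  ∃ C δ0 : ℝ, 0 < C ∧ 0 < δ0 ∧ ∀ δ : ℝ, 0 < δ → δ ≤ δ0 →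
  ∀ (y : ℝ) (K : ℕ), 2 ≤ y → C * Real.log (1 / δ) ≤ δ * Real.log y → C * Real.log (1 / δ) ≤ K → ∀ s : ℂ, ‖s‖ ≤ R →
    ‖TCt s δ y K a b - TC s δ a b‖ ≤ δ ^ D

/-- (LTC) the limit of the twisted sums, locally uniformly in the exponent -/
def S_LTC : Prop := ∀ a b : ℕ, 1 ≤ a → 1 ≤ b → Nat.Coprime a b → ∃ aT : ℂ → ℂ, Continuous aT ∧
  (∀ V : ℝ, 0 < V → aT V = (((aC V).re * tw V a b : ℝ) : ℂ)) ∧
  ∀ R ε : ℝ, 0 < R → 0 < ε → ∃ δ0 : ℝ, 0 < δ0 ∧ ∀ δ : ℝ, 0 < δ → δ ≤ δ0 → ∀ s : ℂ, ‖s‖ ≤ R →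
    ‖((2 * δ : ℝ) : ℂ) ^ (s ^ 2) * TC s δ a b - aT s‖ ≤ ε

/-! ### results -/

/-- (TLD) large deviations twisted by a rational number -/
def S_TLD : Prop := ∀ d : ℝ → ℝ, Ad d → ∀ V : ℝ, 0 < V → ∀ a b : ℕ, 1 ≤ a → 1 ≤ b → Nat.Coprime a b →
  ∀ (h : ℝ → ℝ) (S : Finset ℝ), Measurable h →
  (∀ x, x ∉ S → ContinuousAt h x) → (∃ C : ℝ, ∀ x, |h x| ≤ C) →
  (∃ C : ℝ, ∀ x, |h x| * (1 + x ^ 2) ≤ C * Real.exp (2 * V * x)) →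
  Tendsto (fun T : ℝ => ((Real.sqrt (Real.pi * Real.log (1 / (2 * d T))) * (2 * d T) ^ (-(V ^ 2)) : ℝ) : ℂ) *
    (((1 / T : ℝ) : ℂ) * ∫ t in (0:ℝ)..T,
      ((h (Real.log ‖riemannZeta (pw (d T) t)‖ - V * Real.log (1 / (2 * d T))) : ℝ) : ℂ) * ph a b t)) atTop
    (𝓝 ((((aC V).re * tw V a b * ∫ x, Real.exp (-(2 * V * x)) * h x : ℝ)) : ℂ))

end Run7.h310.SQ
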