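import Pool.Agent.Run7.h310.SQ.D1

set_option autoImplicit false

/-! # Project SQ: complex twisted moments over the set of good points (CTW) -/

namespace Run7.h310.SQ

open Finset Filter MeasureTheory Topology Complex
open Pool.Agent.N748.MG Run7.h310.SP

/-- the twisted mean value of a product of two Dirichlet polynomials -/
lemma tw_mean_c (F : Finset ℕ) (N : ℝ) (u v : ℕ → ℂ) (hF : ∀ n ∈ F, 1 ≤ n ∧ (n:ℝ) ≤ N) {a b : ℕ} (ha : 1 ≤ a) (hb : 1 ≤ b)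
    {δ X : ℝ} (hδ : 0 ≤ δ) :
    ‖(∫ t in (0:ℝ)..X, ((∑ n ∈ F, u n * (n:ℂ) ^ (-(pw δ t))) *
      (starRingEnd ℂ) (∑ n ∈ F, v n * (n:ℂ) ^ (-(pw δ t)))) * ph a b t) -
      X * (∑ q ∈ (F ×ˢ F).filter (fun q => q.1 * b = q.2 * a), u q.1 * (starRingEnd ℂ) (v q.2) *
        ((wN δ q.1 * wN δ q.2 : ℝ) : ℂ))‖ ≤
      2 * (N * (a * b)) * ((∑ n ∈ F, ‖u n‖) * (∑ n ∈ F, ‖v n‖)) := by
  have h2 : ∀ t : ℝ, ((∑ n ∈ F, u n * (n:ℂ) ^ (-(pw δ t))) *
      (starRingEnd ℂ) (∑ n ∈ F, v n * (n:ℂ) ^ (-(pw δ t)))) * ph a b t =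
      ∑ q ∈ F ×ˢ F, (u q.1 * (starRingEnd ℂ) (v q.2) * ((wN δ q.1 * wN δ q.2 : ℝ) : ℂ)) *
        exp ((t * (Real.log ((q.2 * a : ℕ) : ℝ) - Real.log ((q.1 * b : ℕ) : ℝ)) : ℝ) * I) := by
    intro t
    rw [map_sum, Finset.sum_mul_sum, Finset.sum_mul, Finset.sum_product]
    refine Finset.sum_congr rfl fun n hn => ?_
    rw [Finset.sum_mul]
    refine Finset.sum_congr rfl fun m hm => ?_
    obtain ⟨hn1, -⟩ := hF n hn
    obtain ⟨hm1, -⟩ := hF m hm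
    simp only
    rw [map_mul, MVS.conj_cpow_eq δ t hm1, MVS.cpow_eq δ t hn1, wN_eq, wN_eq]
    have hnR : ((n : ℕ) : ℝ) ≠ 0 := by exact_mod_cast (by omega : n ≠ 0)
    have hmR : ((m : ℕ) : ℝ) ≠ 0 := by exact_mod_cast (by omega : m ≠ 0)
    have haR : ((a : ℕ) : ℝ) ≠ 0 := by exact_mod_cast (by omega : a ≠ 0)
    have hbR : ((b : ℕ) : ℝ) ≠ 0 := by exact_mod_cast (by omega : b ≠ 0)
    have e : exp ((t * (Real.log ((m * a : ℕ) : ℝ) - Real.log ((n * b : ℕ) : ℝ)) : ℝ) * I) =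
        exp (-(t * Real.log n : ℝ) * I) * exp ((t * Real.log m : ℝ) * I) * ph a b t := by
      unfold ph
      rw [← Complex.exp_add, ← Complex.exp_add]
      congr 1
      push_cast
      rw [Real.log_mul hmR haR, Real.log_mul hnR hbR]
      push_cast
      ring
    rw [e]
    push_cast
    ring
  simp only [h2]
  rw [intervalIntegral.integral_finsetSum]
  swap
  · intro q _
    refine Continuous.intervalIntegrable ?_ _ _
    fun_prop
  have h3 : ∀ q : ℕ × ℕ, (∫ t in (0:ℝ)..X, (u q.1 * (starRingEnd ℂ) (v q.2) * ((wN δ q.1 * wN δ q.2 : ℝ) : ℂ)) *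
      exp ((t * (Real.log ((q.2 * a : ℕ) : ℝ) - Real.log ((q.1 * b : ℕ) : ℝ)) : ℝ) * I)) =
      (u q.1 * (starRingEnd ℂ) (v q.2) * ((wN δ q.1 * wN δ q.2 : ℝ) : ℂ)) * MVS.JJ X (q.1 * b) (q.2 * a) := by
    intro q
    rw [intervalIntegral.integral_const_mul]
    rfl
  simp only [h3]
  have h4 : (X:ℂ) * (∑ q ∈ (F ×ˢ F).filter (fun q => q.1 * b = q.2 * a), u q.1 * (starRingEnd ℂ) (v q.2) *
      ((wN δ q.1 * wN δ q.2 : ℝ) : ℂ)) =
      ∑ q ∈ F ×ˢ F, (u q.1 * (starRingEnd ℂ) (v q.2) * ((wN δ q.1 * wN δ q.2 : ℝ) : ℂ)) *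
        (if q.1 * b = q.2 * a then (X:ℂ) else 0) := by
    rw [Finset.sum_filter, Finset.mul_sum]
    refine Finset.sum_congr rfl fun q _ => ?_
    split_ifs
    · ring
    · ring
  rw [h4, ← Finset.sum_sub_distrib]
  refine (norm_sum_le _ _).trans ?_
  have h5 : ∀ q ∈ F ×ˢ F, ‖(u q.1 * (starRingEnd ℂ) (v q.2) * ((wN δ q.1 * wN δ q.2 : ℝ) : ℂ)) * MVS.JJ X (q.1 * b) (q.2 * a) -
      (u q.1 * (starRingEnd ℂ) (v q.2) * ((wN δ q.1 * wN δ q.2 : ℝ) : ℂ)) * (if q.1 * b = q.2 * a then (X:ℂ) else 0)‖ ≤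
      2 * (N * (a * b)) * (‖u q.1‖ * ‖v q.2‖) := by
    intro q hq
    rw [Finset.mem_product] at hq
    obtain ⟨hn1, hnN⟩ := hF q.1 hq.1
    obtain ⟨hm1, hmN⟩ := hF q.2 hq.2
    have haR : (1:ℝ) ≤ a := by exact_mod_cast ha
    have hbR : (1:ℝ) ≤ b := by exact_mod_cast hb
    have hN0 : 0 ≤ N := le_trans (Nat.cast_nonneg _) hnN
    have hw1 : wN δ q.1 ≤ 1 := MVS.cc_le_one hδ hn1
    have hw2 : wN δ q.2 ≤ 1 := MVS.cc_le_one hδ hm1
    have hw : wN δ q.1 * wN δ q.2 ≤ 1 := mul_le_one₀ hw1 (wN_nonneg _ _) hw2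
    have hw0 : 0 ≤ wN δ q.1 * wN δ q.2 := mul_nonneg (wN_nonneg _ _) (wN_nonneg _ _)
    rw [← mul_sub, norm_mul, norm_mul, norm_mul, Complex.norm_real, Real.norm_of_nonneg hw0, RCLike.norm_conj]
    have h6 : ‖MVS.JJ X (q.1 * b) (q.2 * a) - (if q.1 * b = q.2 * a then (X:ℂ) else 0)‖ ≤ 2 * (N * (a * b)) := by
      split_ifs with h
      · rw [h, MVS.JJ_self, sub_self, norm_zero]
        positivity
      · rw [sub_zero]
        refine MVS.JJ_bound X (Nat.mul_pos hn1 hb) (Nat.mul_pos hm1 ha) ?_ ?_ h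
        · push_cast
          calc (q.1:ℝ) * b ≤ N * b := mul_le_mul_of_nonneg_right hnN (by linarith)
            _ ≤ N * (a * b) := mul_le_mul_of_nonneg_left (by nlinarith) hN0
        · push_cast
          calc (q.2:ℝ) * a ≤ N * a := mul_le_mul_of_nonneg_right hmN (by linarith)
            _ ≤ N * (a * b) := mul_le_mul_of_nonneg_left (by nlinarith) hN0
    calc ‖u q.1‖ * ‖v q.2‖ * (wN δ q.1 * wN δ q.2) * ‖MVS.JJ X (q.1 * b) (q.2 * a) - (if q.1 * b = q.2 * a then (X:ℂ) else 0)‖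
        ≤ ‖u q.1‖ * ‖v q.2‖ * 1 * (2 * (N * (a * b))) := by
          refine mul_le_mul (mul_le_mul_of_nonneg_left hw (by positivity)) h6 (norm_nonneg _) (by positivity)
      _ = _ := by ring
  refine (Finset.sum_le_sum h5).trans (le_of_eq ?_)
  rw [← Finset.mul_sum, Finset.sum_mul_sum, Finset.sum_product]

theorem t_ctw (hN : S_NIC) : S_CTW := by
  intro R D C' hR hD hC'
  obtain ⟨C4, hC40, hC4⟩ := L4.main MVS.main SIZ.main R hR.le
  obtain ⟨D1, hD1⟩ : ∃ D1, D1 = C4 + 2 * (D + 1) + 2 := ⟨_, rfl⟩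
  have hD1D : D ≤ D1 := by rw [hD1]; linarith
  obtain ⟨ca, hca, hN'⟩ := hN D1 (by linarith)
  obtain ⟨Cc, hCc0, hCc⟩ := CMP.main EUL.main R hR.le
  obtain ⟨C0, hC00, hC0⟩ := SIZ.main R hR.le
  obtain ⟨B, hB⟩ : ∃ B, B = Cc * (ca + 3) := ⟨_, rfl⟩
  have hB0 : 0 < B := by rw [hB]; positivity
  obtain ⟨A, hA⟩ : ∃ A, A = B + (D + 1) := ⟨_, rfl⟩
  have hA0 : 0 < A := by rw [hA]; positivity
  obtain ⟨C, hCd⟩ : ∃ C, C = 5 * (A + B) + C4 + C' + 4 * (1 + 2 * C0) := ⟨_, rfl⟩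
  have hCA : 5 * (A + B) ≤ C := by rw [hCd]; linarith
  have hCC4 : C4 ≤ C := by rw [hCd]; linarith
  have hCC1 : C' ≤ C := by rw [hCd]; linarith
  have hCC0 : 4 * (1 + 2 * C0) ≤ C := by rw [hCd]; linarith
  have hC0' : 0 < C := by linarith
  have hEv := ((hN' C hC0').and (Ev.win (D := D + 1) (c := 1 / 2) (e := 3 / 4) (by norm_num)
    (by norm_num))).and (Ev.small (C := 4) (c := 1) (e := 1) (by norm_num) (by norm_num))
  refine hEv.mono ?_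
  rintro X δ hX hδ hδ16 ⟨⟨⟨y, K, N, hy, hy1, hK1, hKX, hv, hNm, hNX, hNv, hNt⟩, hwin⟩, hsm⟩
  obtain ⟨L, hL⟩ : ∃ L, L = Real.log (1 / δ) := ⟨_, rfl⟩
  have hL1 : 1 ≤ L := by rw [hL]; exact log_inv_ge hδ hδ16
  have hL0 : 0 < L := by linarith
  have hX0 : (0 : ℝ) < X := by linarith
  have hδ1' : δ ≤ 1 := by linarith
  have hrp : ∀ a : ℝ, δ ^ a = Real.exp (-(a * L)) := fun a => by rw [hL]; exact CM.rpow_eq hδ a
  have hly : 0 < Real.log y := Real.log_pos (by linarith)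
  rw [← hL] at hy1 hK1 hv hNt
  have hKly : 0 ≤ (K + 1) * Real.log y := by positivity
  have hexpE : ∀ s : ℝ, s = Cc * (ca * L + 2 * L + 1) → Real.exp s ≤ Real.exp (B * L) := by
    intro s hs
    rw [hs, hB]
    apply Real.exp_le_exp.2
    nlinarith
  have hK45 : ((4 : ℝ) / 5) ^ K ≤ Real.exp (-((A + B) * L)) := by
    have g1 : (4 : ℝ) / 5 ≤ Real.exp (-(1 / 5)) := by
      have := Real.add_one_le_exp (-(1 / 5 : ℝ))
      linarith
    calc ((4 : ℝ) / 5) ^ K ≤ Real.exp (-(1 / 5)) ^ K := pow_le_pow_left₀ (by norm_num) g1 K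
      _ = Real.exp (-(K / 5)) := by
        rw [← Real.exp_nat_mul]
        congr 1
        ring
      _ ≤ _ := by
        apply Real.exp_le_exp.2
        nlinarith
  obtain ⟨q, hq⟩ : ∃ q : ℝ, q = δ ^ (D + 1) := ⟨_, rfl⟩
  have hq0 : 0 < q := by rw [hq]; exact Real.rpow_pos_of_pos hδ _
  refine ⟨y, K, N, hy, ?_, ?_, hNm, hNX, hNv.trans (ENNReal.ofReal_le_ofReal (mul_le_mul_of_nonneg_right
    (Real.rpow_le_rpow_of_exponent_ge hδ hδ1' hD1D) hX0.le)), ?_, ?_⟩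
  · rw [← hL]
    exact (mul_le_mul_of_nonneg_right hCC1 hL0.le).trans hy1
  · rw [← hL]
    exact (mul_le_mul_of_nonneg_right hCC1 hL0.le).trans hK1
  · intro t ht h0
    have g2 := (hNt t ht).2
    rw [h0, zero_mul, zero_sub, norm_neg, norm_one] at g2
    have : δ ^ C < 1 := Real.rpow_lt_one hδ.le (by linarith) hC0'
    linarith
  intro s hs
  obtain ⟨s', hs'⟩ : ∃ s' : ℂ, s' = (starRingEnd ℂ) s := ⟨_, rfl⟩
  have hsn' : ‖s'‖ ≤ R := by rw [hs', RCLike.norm_conj]; exact hs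
  -- pointwise comparison
  obtain ⟨P, hP⟩ : ∃ P : ℝ → ℂ, P = fun t => AS s y K (pw δ t) := ⟨_, rfl⟩
  obtain ⟨P2, hP2⟩ : ∃ P : ℝ → ℂ, P = fun t => AS s' y K (pw δ t) := ⟨_, rfl⟩
  have hPc : Continuous P := by rw [hP]; exact CM.AS_cont _ y K δ
  have hP2c : Continuous P2 := by rw [hP2]; exact CM.AS_cont _ y K δ
  have hpt : ∀ t ∈ N, ‖((‖riemannZeta (pw δ t)‖ : ℝ) : ℂ) ^ (2 * s) - P t * (starRingEnd ℂ) (P2 t)‖ ≤ q := by
    intro t ht
    obtain ⟨g1, g2⟩ := hNt t ht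
    have hre : 1 / 2 ≤ (pw δ t).re := by
      unfold pw
      simp
      linarith
    have k1 : ‖riemannZeta (pw δ t) * AS (-1) y K (pw δ t) - 1‖ ≤ δ ^ A :=
      g2.trans (Real.rpow_le_rpow_of_exponent_ge hδ hδ1' (by linarith))
    have k2 : (4 / 5 : ℝ) ^ K * Real.exp (Cc * (ca * L + 2 * L + 1)) ≤ δ ^ A := by
      rw [hrp]
      calc _ ≤ Real.exp (-((A + B) * L)) * Real.exp (B * L) :=
            mul_le_mul hK45 (hexpE _ rfl) (Real.exp_pos _).le (Real.exp_pos _).le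
        _ = Real.exp (-(A * L)) := by
          rw [← Real.exp_add]
          congr 1
          ring
    have k3 : δ ^ A * Real.exp (Cc * (ca * L + 2 * L + 1)) ≤ q := by
      rw [hq, hrp, hrp]
      calc _ ≤ Real.exp (-(A * L)) * Real.exp (B * L) :=
            mul_le_mul_of_nonneg_left (hexpE _ rfl) (Real.exp_pos _).le
        _ = _ := by
          rw [← Real.exp_add, hA]
          congr 1
          ring
    have k4 : q ≤ 1 := by rw [hq]; exact Real.rpow_le_one hδ.le hδ1' (by positivity)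
    have k5 := (hCc y K (pw δ t) (ca * L) (2 * L) (δ ^ A) hy hre g1 hv (Real.rpow_pos_of_pos hδ _) k1 k2
      (k3.trans k4) s hs).trans k3
    rw [hP, hP2, hs']
    exact k5
  have hm1 : Measurable fun t : ℝ => ((‖riemannZeta (pw δ t)‖ : ℝ) : ℂ) ^ (2 * s) := CM.zeta_meas δ hδ hδ16 s
  have hint : IntegrableOn (fun t => ((‖riemannZeta (pw δ t)‖ : ℝ) : ℂ) ^ (2 * s)) N := by
    have hfin : volume N < ⊤ := (measure_mono hNX).trans_lt (by rw [Real.volume_Icc]; exact ENNReal.ofReal_lt_top)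
    have hcont : Continuous fun t => P t * (starRingEnd ℂ) (P2 t) := hPc.mul (Complex.continuous_conj.comp hP2c)
    have hPi : IntegrableOn (fun t => P t * (starRingEnd ℂ) (P2 t)) N := (hcont.integrableOn_Icc (a := 0) (b := X)).mono_set hNX
    have hd : IntegrableOn (fun t => ((‖riemannZeta (pw δ t)‖ : ℝ) : ℂ) ^ (2 * s) - P t * (starRingEnd ℂ) (P2 t)) N :=
      Measure.integrableOn_of_bounded (M := q) hfin.ne (hm1.sub hcont.measurable).aestronglyMeasurable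
        ((ae_restrict_iff' hNm).2 (Eventually.of_forall hpt))
    refine (hd.add hPi).congr_fun (fun t _ => ?_) hNm
    simp
  refine ⟨hint, ?_⟩
  intro a b ha hb
  have haR : (1:ℝ) ≤ a := by exact_mod_cast ha
  have hbR : (1:ℝ) ≤ b := by exact_mod_cast hb
  have hab1 : (1:ℝ) ≤ a * b := by nlinarith
  obtain ⟨Q, hQ⟩ : ∃ Q : ℝ → ℂ, Q = fun t => P2 t * (starRingEnd ℂ) (ph a b t) := ⟨_, rfl⟩
  have hQc : Continuous Q := by rw [hQ]; exact hP2c.mul (Complex.continuous_conj.comp (ph_cont a b))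
  have hPQ : ∀ t, P t * (starRingEnd ℂ) (Q t) = (P t * (starRingEnd ℂ) (P2 t)) * ph a b t := by
    intro t
    rw [hQ]
    simp only [map_mul, Complex.conj_conj]
    ring
  have hQn : ∀ t, ‖Q t‖ = ‖P2 t‖ := by
    intro t
    rw [hQ]
    simp only [norm_mul, RCLike.norm_conj, ph_norm, mul_one]
  have hKC4 : C4 * ((K + 1) * Real.log y) ≤ Real.log X :=
    (mul_le_mul_of_nonneg_right hCC4 hKly).trans hKX
  have hM4 : ∫ t in (0:ℝ)..X, ‖P t‖ ^ 4 ≤ X * δ ^ (-C4) := by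
    rw [hP]
    exact hC4 y K δ X hy hδ hδ16 hX0 hKC4 s hs
  have hM4' : ∫ t in (0:ℝ)..X, ‖P2 t‖ ^ 4 ≤ X * δ ^ (-C4) := by
    rw [hP2]
    exact hC4 y K δ X hy hδ hδ16 hX0 hKC4 s' hsn'
  obtain ⟨Z, hZ⟩ : ∃ Z : ℂ, Z = ∫ t in N, ((‖riemannZeta (pw δ t)‖ : ℝ) : ℂ) ^ (2 * s) * ph a b t := ⟨_, rfl⟩
  obtain ⟨I1, hI1⟩ : ∃ I1 : ℂ, I1 = ∫ t in N, P t * (starRingEnd ℂ) (Q t) := ⟨_, rfl⟩
  obtain ⟨I2, hI2⟩ : ∃ I2 : ℂ, I2 = ∫ t in (0:ℝ)..X, P t * (starRingEnd ℂ) (Q t) := ⟨_, rfl⟩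
  have t1 : ‖Z - I1‖ ≤ q * X := by
    rw [hZ, hI1]
    refine CM.cmpN _ _ (hm1.mul (ph_cont a b).measurable) (hPc.mul (Complex.continuous_conj.comp hQc)) X hX0.le N
      hNm hNX q hq0.le ?_
    intro t ht
    show ‖((‖riemannZeta (pw δ t)‖ : ℝ) : ℂ) ^ (2 * s) * ph a b t - P t * (starRingEnd ℂ) (Q t)‖ ≤ q
    rw [hPQ, ← sub_mul, norm_mul, ph_norm, mul_one]
    exact hpt t ht
  have t2 : ‖I1 - I2‖ ≤ q * X := by
    rw [hI1, hI2]
    have hl0 : 0 < δ ^ ((D1 + C4) / 2) := Real.rpow_pos_of_pos hδ _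
    have g1 := CM.bad P Q hPc hQc X hX0.le N hNm hNX (X * δ ^ (-C4)) (δ ^ D1 * X)
      (δ ^ ((D1 + C4) / 2)) hl0 (by positivity) hM4
      (by simp only [hQn]; exact hM4') hNv
    refine g1.trans ?_
    have g2 : δ ^ ((D1 + C4) / 2) * δ ^ (-C4) = δ ^ ((D1 - C4) / 2) := by
      rw [← Real.rpow_add hδ]
      congr 1
      ring
    have g3 : δ ^ D1 / δ ^ ((D1 + C4) / 2) = δ ^ ((D1 - C4) / 2) := by
      rw [← Real.rpow_sub hδ]
      congr 1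
      ring
    have g4 : δ ^ ((D1 - C4) / 2) ≤ q := by
      rw [hq]
      exact Real.rpow_le_rpow_of_exponent_ge hδ hδ1' (by linarith)
    have e : δ ^ ((D1 + C4) / 2) / 2 * (X * δ ^ (-C4)) + δ ^ D1 * X / (2 * δ ^ ((D1 + C4) / 2)) =
        (δ ^ ((D1 + C4) / 2) * δ ^ (-C4)) * X / 2 + (δ ^ D1 / δ ^ ((D1 + C4) / 2)) * X / 2 := by
      field_simp
    rw [e, g2, g3]
    nlinarith
  have t3 : ‖I2 - X * TCt s δ y K a b‖ ≤ q * X * (a * b) := by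
    have g1 := tw_mean_c (FS y K) (Real.exp (K * Real.log y)) (dS s) (dS s') (hC0 y hy K).1 ha hb (X := X) hδ.le
    have e2 : (∫ t in (0:ℝ)..X, ((∑ n ∈ FS y K, dS s n * (n:ℂ) ^ (-(pw δ t))) *
      (starRingEnd ℂ) (∑ n ∈ FS y K, dS s' n * (n:ℂ) ^ (-(pw δ t)))) * ph a b t) = I2 := by
      rw [hI2]
      congr 1
      funext t
      rw [hPQ, hP, hP2]
      rfl
    have e3 : (∑ q ∈ (FS y K ×ˢ FS y K).filter (fun q => q.1 * b = q.2 * a), dS s q.1 * (starRingEnd ℂ) (dS s' q.2) *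
        ((wN δ q.1 * wN δ q.2 : ℝ) : ℂ)) = TCt s δ y K a b := by
      unfold TCt
      refine Finset.sum_congr rfl fun q _ => ?_
      rw [hs', CM.conj_dS, Complex.conj_conj]
    rw [e2, e3] at g1
    refine g1.trans ?_
    have g2 := (hC0 y hy K).2 s hs
    have g2' := (hC0 y hy K).2 s' hsn'
    have g3 : 0 ≤ ∑ n ∈ FS y K, ‖dS s n‖ := Finset.sum_nonneg fun _ _ => norm_nonneg _
    have g3' : 0 ≤ ∑ n ∈ FS y K, ‖dS s' n‖ := Finset.sum_nonneg fun _ _ => norm_nonneg _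
    have g4 : (∑ n ∈ FS y K, ‖dS s n‖) * (∑ n ∈ FS y K, ‖dS s' n‖) ≤ Real.exp (C0 * ((K + 1) * Real.log y)) ^ 2 := by
      rw [sq]
      exact mul_le_mul g2 g2' g3' (Real.exp_pos _).le
    have g5 : 2 * Real.exp (K * Real.log y) * Real.exp (C0 * ((K + 1) * Real.log y)) ^ 2 ≤ 2 * X ^ ((1 : ℝ) / 4) := by
      rw [← Real.exp_nat_mul, mul_assoc, ← Real.exp_add, Real.rpow_def_of_pos hX0]
      refine mul_le_mul_of_nonneg_left (Real.exp_le_exp.2 ?_) (by norm_num)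
      have k1 := (mul_le_mul_of_nonneg_right hCC0 hKly).trans hKX
      push_cast
      nlinarith
    have g6 : q * δ ^ (-(D + 1)) = 1 := by
      rw [hq, ← Real.rpow_add hδ, add_neg_cancel, Real.rpow_zero]
    have g7 : X ^ ((1 : ℝ) / 4) * X ^ ((3 : ℝ) / 4) = X := by
      rw [← Real.rpow_add hX0]
      norm_num
    have g8 : 0 < X ^ ((1 : ℝ) / 4) := Real.rpow_pos_of_pos hX0 _
    have g9 : 1 ≤ q * (1 / 2 * X ^ ((3 : ℝ) / 4)) :=
      g6.symm.le.trans (mul_le_mul_of_nonneg_left hwin hq0.le)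
    have g10 : 2 * X ^ ((1 : ℝ) / 4) ≤ q * X := by
      have : X ^ ((1 : ℝ) / 4) * 1 ≤ X ^ ((1 : ℝ) / 4) * (q * (1 / 2 * X ^ ((3 : ℝ) / 4))) :=
        mul_le_mul_of_nonneg_left g9 g8.le
      have e3 : X ^ ((1 : ℝ) / 4) * (q * (1 / 2 * X ^ ((3 : ℝ) / 4))) = q / 2 * X := by
        calc X ^ ((1 : ℝ) / 4) * (q * (1 / 2 * X ^ ((3 : ℝ) / 4)))
            = q / 2 * (X ^ ((1 : ℝ) / 4) * X ^ ((3 : ℝ) / 4)) := by ring
          _ = q / 2 * X := by rw [g7]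
      have e4 : 2 * X ^ ((1 : ℝ) / 4) ≤ q / 2 * X * 2 := by linarith
      linarith
    calc 2 * (Real.exp (K * Real.log y) * (a * b)) * ((∑ n ∈ FS y K, ‖dS s n‖) * (∑ n ∈ FS y K, ‖dS s' n‖))
        ≤ 2 * (Real.exp (K * Real.log y) * (a * b)) * Real.exp (C0 * ((K + 1) * Real.log y)) ^ 2 :=
          mul_le_mul_of_nonneg_left g4 (by positivity)
      _ = (2 * Real.exp (K * Real.log y) * Real.exp (C0 * ((K + 1) * Real.log y)) ^ 2) * (a * b) := by ring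
      _ ≤ (q * X) * (a * b) := mul_le_mul_of_nonneg_right (g5.trans g10) (by positivity)
  rw [← hZ]
  have e : Z - X * TCt s δ y K a b = (Z - I1) + (I1 - I2) + (I2 - X * TCt s δ y K a b) := by ring
  rw [e]
  have k1 := norm_add_le ((Z - I1) + (I1 - I2)) (I2 - X * TCt s δ y K a b)
  have k2 := norm_add_le (Z - I1) (I1 - I2)
  have k3 : q * X ≤ q * X * (a * b) := le_mul_of_one_le_right (by positivity) hab1
  have k4 : 3 * (q * X * (a * b)) ≤ δ ^ D * X * (a * b) := by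
    have k5 : q = δ ^ D * δ := by rw [hq, Real.rpow_add hδ, Real.rpow_one]
    rw [Real.rpow_one] at hsm
    have k6 : 3 * q ≤ δ ^ D := by
      rw [k5]
      have : 0 < δ ^ D := Real.rpow_pos_of_pos hδ _
      nlinarith
    calc 3 * (q * X * (a * b)) = (3 * q) * (X * (a * b)) := by ring
      _ ≤ δ ^ D * (X * (a * b)) := mul_le_mul_of_nonneg_right k6 (by positivity)
      _ = _ := by ring
  linarith

end Run7.h310.SQ
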