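import Pool.Agent.Run7.h310.SQ.Stm

set_option autoImplicit false

/-! # Project SQ: the coefficients with complex exponents, truncation (TCT), analyticity -/

namespace Run7.h310.SQ

open Finset Filter MeasureTheory Topology Complex
open Pool.Agent.N748.MG Run7.h310.SP

lemma lC_norm_le {s : ℂ} {R : ℝ} (hs : ‖s‖ ≤ R) (m : ℕ) : ‖lC s m‖ ≤ CON.lR R m := by
  unfold lC CON.lR
  rw [norm_prod]
  refine Finset.prod_le_prod (fun i _ => norm_nonneg _) fun i _ => ?_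
  rw [norm_div]
  have h1 : ‖(i:ℂ) + 1‖ = (i:ℝ) + 1 := by
    have : ((i:ℂ) + 1) = (((i:ℝ) + 1 : ℝ) : ℂ) := by push_cast; ring
    rw [this, Complex.norm_real, Real.norm_of_nonneg (by positivity)]
  rw [h1]
  refine div_le_div_of_nonneg_right ?_ (by positivity)
  refine (norm_add_le _ _).trans ?_
  rw [Complex.norm_natCast]
  linarith

lemma dS_norm_le {s : ℂ} {R : ℝ} (hs : ‖s‖ ≤ R) (n : ℕ) : ‖dS s n‖ ≤ dR R n := by
  unfold dS dR
  rw [norm_prod]
  exact Finset.prod_le_prod (fun i _ => norm_nonneg _) fun i _ => lC_norm_le hs _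

lemma tfc_norm_le {s : ℂ} {R : ℝ} (hs : ‖s‖ ≤ R) (δ : ℝ) (a b g : ℕ) : ‖tfc s δ a b g‖ ≤ tf R δ a b g := by
  unfold tfc tf
  have hw : 0 ≤ wN δ (a * g) * wN δ (b * g) := mul_nonneg (wN_nonneg _ _) (wN_nonneg _ _)
  rw [norm_mul, norm_mul, Complex.norm_real, Real.norm_of_nonneg hw]
  refine mul_le_mul_of_nonneg_right ?_ hw
  exact mul_le_mul (dS_norm_le hs _) (dS_norm_le hs _) (norm_nonneg _) ((norm_nonneg _).trans (dS_norm_le hs _))

lemma tfc_summable {s : ℂ} {R : ℝ} (hR : 0 < R) (hs : ‖s‖ ≤ R) {δ : ℝ} (hδ : 0 < δ) {a b : ℕ} (ha : 1 ≤ a) (hb : 1 ≤ b) :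
    Summable (tfc s δ a b) :=
  Summable.of_norm_bounded (tf_summable hR hδ ha hb) (tfc_norm_le hs δ a b)

/-- the sums over the pairs `m b = n a` -/
lemma diag_sum {E : Type*} [AddCommMonoid E] (φ : ℕ → ℕ → E) (y : ℝ) (K : ℕ) {a b : ℕ} (ha : 1 ≤ a)
    (hab : Nat.Coprime a b) : ∑ q ∈ (FS y K ×ˢ FS y K).filter (fun q => q.1 * b = q.2 * a), φ q.1 q.2 =
      ∑ g ∈ (((FS y K ×ˢ FS y K).filter (fun q => q.1 * b = q.2 * a)).image (fun q => q.1 / a)), φ (a * g) (b * g) := by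
  classical
  have ha0 : 0 < a := ha
  rw [Finset.sum_image]
  · refine Finset.sum_congr rfl fun q hq => ?_
    obtain ⟨m, n⟩ := q
    rw [mem_filter, mem_product] at hq
    obtain ⟨⟨hm, hn⟩, he⟩ := hq
    simp only at hm hn he ⊢
    have h3 : a ∣ m := by
      have : a ∣ m * b := ⟨n, by rw [he, mul_comm]⟩
      exact hab.dvd_of_dvd_mul_right this
    obtain ⟨c, rfl⟩ := h3
    have h4 : n = b * c := by
      have : a * n = a * (b * c) := by
        rw [mul_comm a n, ← he]; ring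
      exact Nat.eq_of_mul_eq_mul_left ha0 this
    subst h4
    rw [Nat.mul_div_cancel_left _ ha0]
  · rintro ⟨m, n⟩ h1 ⟨m', n'⟩ h2 h
    rw [mem_coe, mem_filter, mem_product] at h1 h2
    obtain ⟨⟨hm, hn⟩, he⟩ := h1
    obtain ⟨⟨hm', hn'⟩, he'⟩ := h2
    simp only at hm hn he hm' hn' he' h
    have h3 : a ∣ m := hab.dvd_of_dvd_mul_right ⟨n, by rw [he, mul_comm]⟩
    have h3' : a ∣ m' := hab.dvd_of_dvd_mul_right ⟨n', by rw [he', mul_comm]⟩
    have h5 : m = m' := by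
      rw [← Nat.mul_div_cancel' h3, ← Nat.mul_div_cancel' h3', h]
    subst h5
    have h6 : n * a = n' * a := by rw [← he, ← he']
    rw [Nat.eq_of_mul_eq_mul_right ha0 h6]

/-- the error of the truncation is bounded by the one for the real exponent `R` -/
lemma TCt_sub_le {s : ℂ} {R : ℝ} (hR : 0 < R) (hs : ‖s‖ ≤ R) {δ : ℝ} (hδ : 0 < δ) {a b : ℕ} (ha : 1 ≤ a) (hb : 1 ≤ b)
    (hab : Nat.Coprime a b) (y : ℝ) (K : ℕ) : ‖TCt s δ y K a b - TC s δ a b‖ ≤ TD R δ a b - TDt R δ y K a b := by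
  obtain ⟨T, hT⟩ : ∃ T : Finset ℕ, T = (((FS y K ×ˢ FS y K).filter (fun q => q.1 * b = q.2 * a)).image (fun q => q.1 / a)) :=
    ⟨_, rfl⟩
  have e1 : TCt s δ y K a b = ∑ g ∈ T, tfc s δ a b g := by
    rw [hT]
    exact diag_sum (fun m n => dS s m * dS s n * ((wN δ m * wN δ n : ℝ) : ℂ)) y K ha hab
  have e2 : TDt R δ y K a b = ∑ g ∈ T, tf R δ a b g := by
    rw [hT]
    exact diag_sum (fun m n => dR R m * dR R n * (wN δ m * wN δ n)) y K ha hab
  have hsc := tfc_summable hR hs hδ ha hb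
  have hsr := tf_summable hR hδ ha hb
  rw [e1, e2, norm_sub_rev, TD_eq]
  have e3 : TC s δ a b - ∑ g ∈ T, tfc s δ a b g = ∑' g : {g // g ∉ T}, tfc s δ a b g := by
    have := hsc.sum_add_tsum_subtype_compl T
    unfold TC
    rw [← this]
    ring
  have e4 : ∑' g, tf R δ a b g - ∑ g ∈ T, tf R δ a b g = ∑' g : {g // g ∉ T}, tf R δ a b g := by
    have := hsr.sum_add_tsum_subtype_compl T
    rw [← this]
    ring
  rw [e3, e4]
  refine tsum_of_norm_bounded ((hsr.subtype _).hasSum) fun g => ?_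
  exact tfc_norm_le hs δ a b g

/-- (TCT) -/
theorem t_tct : S_TCT := by
  intro R D hR hD a b ha hb hab
  obtain ⟨C, δ0, hC, hδ0, h⟩ := t_tdt R D hR hD a b ha hb hab
  refine ⟨C, δ0, hC, hδ0, fun δ hδ hδ1 y K hy h1 h2 s hs => ?_⟩
  refine (TCt_sub_le hR hs hδ ha hb hab y K).trans ?_
  have := h δ hδ hδ1 y K hy h1 h2
  rw [abs_sub_comm] at this
  exact (le_abs_self _).trans this

/-! ### analyticity in the exponent -/

lemma lC_diff (m : ℕ) : Differentiable ℂ fun s : ℂ => lC s m := by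
  unfold lC
  fun_prop

lemma dS_diff (n : ℕ) : Differentiable ℂ fun s : ℂ => dS s n := by
  unfold dS
  exact Differentiable.fun_finsetProd fun p _ => lC_diff _

lemma tfc_diff (δ : ℝ) (a b g : ℕ) : Differentiable ℂ fun s : ℂ => tfc s δ a b g := by
  unfold tfc
  exact ((dS_diff _).mul (dS_diff _)).mul_const _

/-- sums of series which are bounded locally uniformly in the exponent are entire -/
lemma diff_tsum {F : ℕ → ℂ → ℂ} (hF : ∀ n, Differentiable ℂ (F n)) {u : ℝ → ℕ → ℝ} (hu : ∀ R : ℝ, 0 < R → Summable (u R))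
    (hb : ∀ R : ℝ, 0 < R → ∀ n, ∀ s : ℂ, ‖s‖ ≤ R → ‖F n s‖ ≤ u R n) : Differentiable ℂ fun s => ∑' n, F n s := by
  intro s
  have hR : 0 < ‖s‖ + 1 := by positivity
  have h1 : DifferentiableOn ℂ (fun s => ∑' n, F n s) (Metric.ball (0:ℂ) (‖s‖ + 1)) := by
    refine Complex.differentiableOn_tsum_of_summable_norm (hu _ hR) (fun n => (hF n).differentiableOn)
      Metric.isOpen_ball fun n w hw => ?_
    refine hb _ hR n w ?_
    rw [mem_ball_zero_iff] at hw
    exact hw.le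
  exact h1.differentiableAt (Metric.isOpen_ball.mem_nhds (by rw [mem_ball_zero_iff]; linarith))

lemma TC_diff {δ : ℝ} (hδ : 0 < δ) {a b : ℕ} (ha : 1 ≤ a) (hb : 1 ≤ b) : Differentiable ℂ fun s : ℂ => TC s δ a b := by
  unfold TC
  exact diff_tsum (F := fun g s => tfc s δ a b g) (fun g => tfc_diff δ a b g) (u := fun R g => tf R δ a b g)
    (fun R hR => tf_summable hR hδ ha hb) fun R _ g s hs => tfc_norm_le hs δ a b g

/-- real exponents -/
lemma TC_real {k : ℝ} (δ : ℝ) (a b : ℕ) : TC (k:ℂ) δ a b = ((TD k δ a b : ℝ) : ℂ) := by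
  unfold TC
  rw [TD_eq, Complex.ofReal_tsum]
  refine tsum_congr fun g => ?_
  unfold tfc tf
  rw [dS_real, dS_real]
  push_cast
  ring

end Run7.h310.SQ
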