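import Pool.Agent.Run7.h310.SQ.D1

set_option autoImplicit false

/-! # Project SQ: the twisted sums as products of a sum over the numbers coprime to `ab` and local series -/

namespace Run7.h310.SQ

open Finset Filter MeasureTheory Topology Complex
open Pool.Agent.N748.MG Run7.h310.SP

/-- the local series, complex exponent -/
noncomputable def LFc (s : ℂ) (δ : ℝ) (p u v : ℕ) : ℂ :=
  ∑' m : ℕ, lC s (m + u) * lC s (m + v) * ((wN δ (p ^ (m + u)) * wN δ (p ^ (m + v)) : ℝ) : ℂ)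

/-- the terms of the local series, real exponent -/
noncomputable def lt (R δ : ℝ) (p u v m : ℕ) : ℝ :=
  CON.lR R (m + u) * CON.lR R (m + v) * (wN δ (p ^ (m + u)) * wN δ (p ^ (m + v)))

lemma lt_nonneg {R : ℝ} (hR : 0 < R) (δ : ℝ) (p u v m : ℕ) : 0 ≤ lt R δ p u v m :=
  mul_nonneg (mul_nonneg (lR_pos hR _).le (lR_pos hR _).le) (mul_nonneg (wN_nonneg _ _) (wN_nonneg _ _))

lemma lt_anti {R : ℝ} (hR : 0 < R) {δ : ℝ} (hδ : 0 ≤ δ) {p : ℕ} (hp : p ≠ 0) (u v m : ℕ) :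
    lt R δ p u v m ≤ lt R 0 p u v m := by
  unfold lt
  refine mul_le_mul_of_nonneg_left ?_ (mul_nonneg (lR_pos hR _).le (lR_pos hR _).le)
  exact mul_le_mul (wN_anti hδ (pow_ne_zero _ hp)) (wN_anti hδ (pow_ne_zero _ hp)) (wN_nonneg _ _) (wN_nonneg _ _)

lemma lt_summable {R : ℝ} (hR : 0 < R) {δ : ℝ} (hδ : 0 ≤ δ) {p : ℕ} (hp : p.Prime) (u v : ℕ) : Summable (lt R δ p u v) :=
  Summable.of_nonneg_of_le (lt_nonneg hR δ p u v) (lt_anti hR hδ hp.ne_zero u v) (LF_summable hR hp u v)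

lemma ltc_norm_le {s : ℂ} {R : ℝ} (hs : ‖s‖ ≤ R) (δ : ℝ) (p u v m : ℕ) :
    ‖lC s (m + u) * lC s (m + v) * ((wN δ (p ^ (m + u)) * wN δ (p ^ (m + v)) : ℝ) : ℂ)‖ ≤ lt R δ p u v m := by
  unfold lt
  have hw : 0 ≤ wN δ (p ^ (m + u)) * wN δ (p ^ (m + v)) := mul_nonneg (wN_nonneg _ _) (wN_nonneg _ _)
  rw [norm_mul, norm_mul, Complex.norm_real, Real.norm_of_nonneg hw]
  refine mul_le_mul_of_nonneg_right ?_ hw
  exact mul_le_mul (lC_norm_le hs _) (lC_norm_le hs _) (norm_nonneg _) ((norm_nonneg _).trans (lC_norm_le hs _))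

lemma ltc_summable {s : ℂ} {R : ℝ} (hR : 0 < R) (hs : ‖s‖ ≤ R) {δ : ℝ} (hδ : 0 ≤ δ) {p : ℕ} (hp : p.Prime) (u v : ℕ) :
    Summable fun m : ℕ => lC s (m + u) * lC s (m + v) * ((wN δ (p ^ (m + u)) * wN δ (p ^ (m + v)) : ℝ) : ℂ) :=
  Summable.of_norm_bounded (lt_summable hR hδ hp u v) (ltc_norm_le hs δ p u v)

lemma LFc_norm_le {s : ℂ} {R : ℝ} (hR : 0 < R) (hs : ‖s‖ ≤ R) {δ : ℝ} (hδ : 0 ≤ δ) {p : ℕ} (hp : p.Prime) (u v : ℕ) :
    ‖LFc s δ p u v‖ ≤ LF R 0 p u v := by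
  have h1 : ‖LFc s δ p u v‖ ≤ ∑' m, lt R δ p u v m :=
    tsum_of_norm_bounded (lt_summable hR hδ hp u v).hasSum (ltc_norm_le hs δ p u v)
  exact h1.trans ((lt_summable hR hδ hp u v).tsum_le_tsum (lt_anti hR hδ hp.ne_zero u v) (LF_summable hR hp u v))

lemma LFc_real (k δ : ℝ) (p u v : ℕ) : LFc (k:ℂ) δ p u v = ((LF k δ p u v : ℝ) : ℂ) := by
  unfold LFc LF
  rw [Complex.ofReal_tsum]
  refine tsum_congr fun m => ?_
  rw [CON.lC_ofReal, CON.lC_ofReal]
  push_cast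
  ring

lemma LFc_diff {δ : ℝ} (hδ : 0 ≤ δ) {p : ℕ} (hp : p.Prime) (u v : ℕ) : Differentiable ℂ fun s : ℂ => LFc s δ p u v := by
  unfold LFc
  exact diff_tsum (F := fun m s => lC s (m + u) * lC s (m + v) * ((wN δ (p ^ (m + u)) * wN δ (p ^ (m + v)) : ℝ) : ℂ))
    (fun m => ((lC_diff _).mul (lC_diff _)).mul_const _) (u := fun R m => lt R δ p u v m)
    (fun R hR => lt_summable hR hδ hp u v) fun R _ m s hs => ltc_norm_le hs δ p u v m

/-- the difference of the local series at `δ` and at `0`, uniformly in the exponent -/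
lemma LFc_sub_le {s : ℂ} {R : ℝ} (hR : 0 < R) (hs : ‖s‖ ≤ R) {δ : ℝ} (hδ : 0 ≤ δ) {p : ℕ} (hp : p.Prime) (u v : ℕ) :
    ‖LFc s δ p u v - LFc s 0 p u v‖ ≤ LF R 0 p u v - LF R δ p u v := by
  have h1 := ltc_summable hR hs hδ hp u v
  have h2 := ltc_summable hR hs le_rfl hp u v
  have h3 := lt_summable hR hδ hp u v
  have h4 : Summable (lt R 0 p u v) := LF_summable hR hp u v
  unfold LFc
  rw [← h1.tsum_sub h2]
  have e : LF R 0 p u v - LF R δ p u v = ∑' m, (lt R 0 p u v m - lt R δ p u v m) := (h4.tsum_sub h3).symm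
  rw [e]
  refine tsum_of_norm_bounded (h4.sub h3).hasSum fun m => ?_
  have hw : 0 ≤ wN 0 (p ^ (m + u)) * wN 0 (p ^ (m + v)) - wN δ (p ^ (m + u)) * wN δ (p ^ (m + v)) :=
    sub_nonneg.2 (mul_le_mul (wN_anti hδ (pow_ne_zero _ hp.ne_zero)) (wN_anti hδ (pow_ne_zero _ hp.ne_zero))
      (wN_nonneg _ _) (wN_nonneg _ _))
  have e2 : lC s (m + u) * lC s (m + v) * ((wN δ (p ^ (m + u)) * wN δ (p ^ (m + v)) : ℝ) : ℂ) -
      lC s (m + u) * lC s (m + v) * ((wN 0 (p ^ (m + u)) * wN 0 (p ^ (m + v)) : ℝ) : ℂ) =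
      -(lC s (m + u) * lC s (m + v) * ((wN 0 (p ^ (m + u)) * wN 0 (p ^ (m + v)) -
        wN δ (p ^ (m + u)) * wN δ (p ^ (m + v)) : ℝ) : ℂ)) := by
    push_cast
    ring
  rw [e2, norm_neg, norm_mul, norm_mul, Complex.norm_real, Real.norm_of_nonneg hw]
  have e3 : lt R 0 p u v m - lt R δ p u v m = CON.lR R (m + u) * CON.lR R (m + v) *
      (wN 0 (p ^ (m + u)) * wN 0 (p ^ (m + v)) - wN δ (p ^ (m + u)) * wN δ (p ^ (m + v))) := by
    unfold lt
    ring
  rw [e3]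
  refine mul_le_mul_of_nonneg_right ?_ hw
  exact mul_le_mul (lC_norm_le hs _) (lC_norm_le hs _) (norm_nonneg _) ((norm_nonneg _).trans (lC_norm_le hs _))

/-! ### the sum over the numbers without prime factors in `P` -/

open Classical in
/-- the terms -/
noncomputable def fP (P : Finset ℕ) (s : ℂ) (δ : ℝ) (n : ℕ) : ℂ := if ∀ p ∈ P, ¬ p ∣ n then DIA2.ft s δ n else 0

/-- the sum -/
noncomputable def SPc (P : Finset ℕ) (s : ℂ) (δ : ℝ) : ℂ := ∑' n, fP P s δ n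

lemma fP_norm (P : Finset ℕ) (s : ℂ) (δ : ℝ) (n : ℕ) : ‖fP P s δ n‖ ≤ ‖DIA2.ft s δ n‖ := by
  unfold fP
  split_ifs
  · exact le_rfl
  · rw [norm_zero]
    exact norm_nonneg _

lemma ft_norm_le {s : ℂ} {R : ℝ} (hs : ‖s‖ ≤ R) {δ : ℝ} (hδ : 0 < δ) (n : ℕ) : ‖DIA2.ft s δ n‖ ≤ tf R δ 1 1 n := by
  have h1 : DIA2.ft s δ n = tfc s δ 1 1 n := by
    unfold DIA2.ft tfc
    rcases eq_or_ne n 0 with rfl | hn
    · rw [mul_zero, wN_zero hδ, Nat.cast_zero, Real.zero_rpow (by linarith)]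
      simp
    · rw [one_mul, wN_sq δ hn]
      ring
  rw [h1]
  exact tfc_norm_le hs δ 1 1 n

lemma fP_summable {P : Finset ℕ} {s : ℂ} {R : ℝ} (hR : 0 < R) (hs : ‖s‖ ≤ R) {δ : ℝ} (hδ : 0 < δ) :
    Summable fun n => ‖fP P s δ n‖ :=
  Summable.of_nonneg_of_le (fun n => norm_nonneg _) (fun n => (fP_norm P s δ n).trans (ft_norm_le hs hδ n))
    (tf11_summable hR hδ)

lemma ft_diff (δ : ℝ) (n : ℕ) : Differentiable ℂ fun s : ℂ => DIA2.ft s δ n := by
  unfold DIA2.ft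
  exact ((dS_diff _).pow 2).mul_const _

lemma SPc_diff (P : Finset ℕ) {δ : ℝ} (hδ : 0 < δ) : Differentiable ℂ fun s : ℂ => SPc P s δ := by
  unfold SPc
  refine diff_tsum (F := fun n s => fP P s δ n) (fun n => ?_) (u := fun R n => tf R δ 1 1 n)
    (fun R hR => tf11_summable hR hδ) fun R _ n s hs => (fP_norm P s δ n).trans (ft_norm_le hs hδ n)
  unfold fP
  split_ifs
  · exact ft_diff δ n
  · exact differentiable_const _

/-- the local factor -/
noncomputable def fl (s : ℂ) (δ : ℝ) (p : ℕ) : ℂ := ∑' m : ℕ, lC s m ^ 2 * ((L4.ph (1 + 2 * δ) p : ℝ) : ℂ) ^ m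

lemma fl_eq (s : ℂ) {δ : ℝ} {p : ℕ} (hp : p.Prime) : fl s δ p = LFc s δ p 0 0 := by
  unfold fl LFc
  refine tsum_congr fun m => ?_
  simp only [add_zero]
  rw [wN_sq δ (pow_ne_zero m hp.ne_zero)]
  have h1 : (((p ^ m : ℕ) : ℝ)) ^ (-(1 + 2 * δ)) = (L4.ph (1 + 2 * δ) p) ^ m := by
    rw [← map_pow]
    rfl
  rw [h1]
  push_cast
  ring

/-- the Euler product -/
lemma SPc_hasProd {P : Finset ℕ} (hP : ∀ p ∈ P, p.Prime) (s : ℂ) {δ : ℝ} (hδ : 0 < δ) :
    HasProd (fun p : Nat.Primes => if (p:ℕ) ∈ P then 1 else fl s δ p) (SPc P s δ) := by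
  have hR : 0 < ‖s‖ + 1 := by positivity
  have h1 := EulerProduct.eulerProduct_hasProd (f := fP P s δ) ?_ ?_ (fP_summable (P := P) hR (by linarith) hδ) ?_
  · have h2 : (fun p : Nat.Primes => ∑' m : ℕ, fP P s δ ((p : ℕ) ^ m)) =
        fun p : Nat.Primes => if (p:ℕ) ∈ P then 1 else fl s δ p := by
      funext p
      split_ifs with hp
      · rw [tsum_eq_single 0]
        · unfold fP
          rw [if_pos, pow_zero, DIA2.ft_one]
          intro q hq hd
          rw [pow_zero, Nat.dvd_one] at hd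
          exact (hP q hq).one_lt.ne' hd
        · intro m hm
          unfold fP
          rw [if_neg]
          intro h
          exact h p hp (dvd_pow_self _ hm)
      · unfold fl
        refine tsum_congr fun m => ?_
        unfold fP
        rw [if_pos, DIA2.ft_pow s δ p.2 m]
        intro q hq hd
        have := (Nat.prime_dvd_prime_iff_eq (hP q hq) p.2).1 ((hP q hq).dvd_of_dvd_pow hd)
        rw [this] at hq
        exact hp hq
    rw [← h2]
    exact h1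
  · unfold fP
    rw [if_pos, DIA2.ft_one]
    intro q hq hd
    rw [Nat.dvd_one] at hd
    exact (hP q hq).one_lt.ne' hd
  · intro m n hmn
    unfold fP
    by_cases h1 : ∀ p ∈ P, ¬ p ∣ m
    · by_cases h2 : ∀ p ∈ P, ¬ p ∣ n
      · rw [if_pos h1, if_pos h2, if_pos, DIA2.ft_mul s δ hmn]
        intro p hp hd
        rcases ((hP p hp).dvd_mul).1 hd with h | h
        · exact h1 p hp h
        · exact h2 p hp h
      · rw [if_neg h2, if_neg, mul_zero]
        intro h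
        exact h2 fun p hp hd => h p hp (hd.mul_left _)
    · rw [if_neg h1, if_neg, zero_mul]
      intro h
      exact h1 fun p hp hd => h p hp (hd.mul_right _)
  · unfold fP
    split_ifs
    · exact DIA2.ft_zero s hδ
    · rfl

/-- a set of primes as a set of elements of the type of primes -/
lemma exists_primes {P : Finset ℕ} (hP : ∀ p ∈ P, p.Prime) : ∃ P' : Finset Nat.Primes,
    (∀ p : Nat.Primes, p ∈ P' ↔ (p:ℕ) ∈ P) ∧ ∀ f : ℕ → ℂ, ∏ p ∈ P', f p = ∏ p ∈ P, f p := by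
  refine ⟨P.attach.map ⟨fun q => (⟨q.1, hP q.1 q.2⟩ : Nat.Primes), fun q q' h => by
        have := congrArg (fun r : Nat.Primes => (r : ℕ)) h
        exact Subtype.ext this⟩, fun p => ?_, fun f => ?_⟩
  · rw [Finset.mem_map]
    constructor
    · rintro ⟨q, -, rfl⟩
      exact q.2
    · intro h
      exact ⟨⟨(p:ℕ), h⟩, Finset.mem_attach _ _, rfl⟩
  · rw [Finset.prod_map]
    exact Finset.prod_attach P f

lemma SPc_mul {P : Finset ℕ} (hP : ∀ p ∈ P, p.Prime) (s : ℂ) {δ : ℝ} (hδ : 0 < δ) :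
    SPc P s δ * ∏ p ∈ P, LFc s δ p 0 0 = TC s δ 1 1 := by
  obtain ⟨P', hP', hprod⟩ := exists_primes hP
  have h1 := SPc_hasProd hP s hδ
  have h2 : HasProd (fun p : Nat.Primes => if (p:ℕ) ∈ P then fl s δ p else 1) (∏ p ∈ P, LFc s δ p 0 0) := by
    have h3 : ∏ p ∈ P, LFc s δ p 0 0 = ∏ p ∈ P', (fun p : Nat.Primes => if (p:ℕ) ∈ P then fl s δ p else 1) p := by
      rw [← hprod fun p => LFc s δ p 0 0]
      refine Finset.prod_congr rfl fun p hp => ?_
      simp only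
      rw [if_pos ((hP' p).1 hp), fl_eq s p.2]
    rw [h3]
    refine hasProd_prod_of_ne_finset_one fun p hp => ?_
    rw [if_neg fun h => hp ((hP' p).2 h)]
  have h4 := h1.mul h2
  obtain ⟨n, hn⟩ := exists_nat_ge ‖s‖
  have h5 := DIA2.ft_euler s n hn hδ
  have h6 : (fun p : Nat.Primes => (if (p:ℕ) ∈ P then 1 else fl s δ p) * (if (p:ℕ) ∈ P then fl s δ p else 1)) =
      fun p : Nat.Primes => ∑' m : ℕ, lC s m ^ 2 * ((L4.ph (1 + 2 * δ) (p : ℕ) : ℝ) : ℂ) ^ m := by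
    funext p
    split_ifs
    · rw [one_mul]
      rfl
    · rw [mul_one]
      rfl
  rw [h6] at h4
  rw [h4.unique h5]
  unfold TC
  refine tsum_congr fun n => ?_
  unfold DIA2.ft tfc
  rcases eq_or_ne n 0 with rfl | hn
  · rw [mul_zero, wN_zero hδ, Nat.cast_zero, Real.zero_rpow (by linarith)]
    simp
  · rw [one_mul, wN_sq δ hn]
    ring

/-- real exponents -/
lemma TC_prod_real {k : ℝ} (hk : 0 < k) {δ : ℝ} (hδ : 0 < δ) {a b : ℕ} (ha : 1 ≤ a) (hb : 1 ≤ b) :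
    TC (k:ℂ) δ a b = SPc (a * b).primeFactors (k:ℂ) δ *
      ∏ p ∈ (a * b).primeFactors, LFc (k:ℂ) δ p (a.factorization p) (b.factorization p) := by
  have hP : ∀ p ∈ (a * b).primeFactors, p.Prime := fun p hp => Nat.prime_of_mem_primeFactors hp
  have h1 := SPc_mul hP (k:ℂ) hδ
  have h2 := ratio hk hδ ha hb
  have h3 : 0 < TD k δ 1 1 := (t_tdb k δ hk hδ 1 1 le_rfl le_rfl).2.1
  rw [div_eq_iff h3.ne'] at h2
  rw [TC_real, h2]
  rw [TC_real] at h1
  push_cast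
  rw [← h1]
  have hne : ∀ p ∈ (a * b).primeFactors, LFc (k:ℂ) δ p 0 0 ≠ 0 := by
    intro p hp h0
    have h4 : (((TD k δ 1 1 : ℝ)) : ℂ) = 0 := by
      rw [← h1, Finset.prod_eq_zero hp h0, mul_zero]
    exact h3.ne' (by exact_mod_cast h4)
  simp only [← LFc_real]
  rw [Finset.prod_div_distrib]
  have h5 : ∏ p ∈ (a * b).primeFactors, LFc (k:ℂ) δ p 0 0 ≠ 0 := Finset.prod_ne_zero_iff.2 hne
  field_simp

/-- all exponents -/
lemma TC_prod (s : ℂ) {δ : ℝ} (hδ : 0 < δ) {a b : ℕ} (ha : 1 ≤ a) (hb : 1 ≤ b) :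
    TC s δ a b = SPc (a * b).primeFactors s δ *
      ∏ p ∈ (a * b).primeFactors, LFc s δ p (a.factorization p) (b.factorization p) := by
  have hP : ∀ p ∈ (a * b).primeFactors, p.Prime := fun p hp => Nat.prime_of_mem_primeFactors hp
  have h1 : AnalyticOnNhd ℂ (fun s => TC s δ a b) Set.univ :=
    (TC_diff hδ ha hb).differentiableOn.analyticOnNhd isOpen_univ
  have h2 : AnalyticOnNhd ℂ (fun s => SPc (a * b).primeFactors s δ *
      ∏ p ∈ (a * b).primeFactors, LFc s δ p (a.factorization p) (b.factorization p)) Set.univ := by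
    refine (Differentiable.differentiableOn ?_).analyticOnNhd isOpen_univ
    refine (SPc_diff _ hδ).mul ?_
    exact Differentiable.fun_finsetProd fun p hp => LFc_diff hδ.le (hP p hp) _ _
  have h3 := h1.eqOn_of_preconnected_of_frequently_eq h2 isPreconnected_univ (Set.mem_univ (1:ℂ)) ?_
  · exact h3 (Set.mem_univ s)
  · have h4 : Tendsto (fun n : ℕ => ((1 + 1 / ((n:ℝ) + 1) : ℝ) : ℂ)) atTop (𝓝[≠] 1) := by
      rw [tendsto_nhdsWithin_iff]
      refine ⟨?_, Eventually.of_forall fun n => ?_⟩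
      · have h5 : Tendsto (fun n : ℕ => (1 + 1 / ((n:ℝ) + 1) : ℝ)) atTop (𝓝 1) := by
          have := tendsto_one_div_add_atTop_nhds_zero_nat (𝕜 := ℝ)
          simpa using this.const_add 1
        have h6 := (Complex.continuous_ofReal.tendsto (1:ℝ)).comp h5
        rw [Complex.ofReal_one] at h6
        exact h6
      · show ((1 + 1 / ((n:ℝ) + 1) : ℝ) : ℂ) ≠ 1
        rw [← Complex.ofReal_one, Ne, Complex.ofReal_inj]
        have : (0:ℝ) < 1 / ((n:ℝ) + 1) := by positivity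
        linarith
    refine h4.frequently (Eventually.of_forall fun n => ?_).frequently
    exact TC_prod_real (by positivity) hδ ha hb

end Run7.h310.SQ
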