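import Pool.Agent.Run7.h310.SQ.D2

set_option autoImplicit false

/-! # Project SQ: the limit of the twisted sums, locally uniformly in the exponent (LTC) -/

namespace Run7.h310.SQ

open Finset Filter MeasureTheory Topology Complex
open Pool.Agent.N748.MG Run7.h310.SP

/-- the regularised local factors -/
noncomputable def EP (P : Finset ℕ) (s : ℂ) (p : ℕ) (x : ℝ) : ℂ := if p ∈ P then 1 else DIA2.E s x

/-- the sum of the logarithms over `P` -/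
noncomputable def lP (P : Finset ℕ) (δ : ℝ) : ℝ := ∑ p ∈ P, Real.log (1 - L4.ph (1 + 2 * δ) p)

lemma EP_hasProd {P : Finset ℕ} (hP : ∀ p ∈ P, p.Prime) (s : ℂ) {δ : ℝ} (hδ : 0 < δ) :
    HasProd (fun p : Nat.Primes => EP P s p (L4.ph (1 + 2 * δ) p))
      (exp (((DIA2.Lm δ - lP P δ : ℝ) : ℂ) * s ^ 2) * SPc P s δ) := by
  have h0 := (DIA2.ell_summable hδ).hasSum
  have h00 : HasSum (fun p : Nat.Primes => if (p:ℕ) ∈ P then Real.log (1 - L4.ph (1 + 2 * δ) (p:ℕ)) else 0) (lP P δ) := by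
    obtain ⟨P', hP', hprod⟩ : ∃ P' : Finset Nat.Primes,
        (∀ p : Nat.Primes, p ∈ P' ↔ (p:ℕ) ∈ P) ∧ ∀ f : ℕ → ℝ, ∑ p ∈ P', f p = ∑ p ∈ P, f p := by
      refine ⟨P.attach.map ⟨fun q => (⟨q.1, hP q.1 q.2⟩ : Nat.Primes), fun q q' h => by
            have := congrArg (fun r : Nat.Primes => (r : ℕ)) h
            exact Subtype.ext this⟩, fun p => ?_, fun f => ?_⟩
      · rw [Finset.mem_map]
        constructor
        · rintro ⟨q, -, rfl⟩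
          exact q.2
        · intro h
          exact ⟨⟨(p:ℕ), h⟩, Finset.mem_attach _ _, rfl⟩
      · rw [Finset.sum_map]
        exact Finset.sum_attach P f
    have h3 : lP P δ = ∑ p ∈ P', (fun p : Nat.Primes => if (p:ℕ) ∈ P then Real.log (1 - L4.ph (1 + 2 * δ) (p:ℕ)) else 0) p := by
      unfold lP
      rw [← hprod fun p => Real.log (1 - L4.ph (1 + 2 * δ) p)]
      refine Finset.sum_congr rfl fun p hp => ?_
      simp only
      rw [if_pos ((hP' p).1 hp)]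
    rw [h3]
    refine hasSum_sum_of_ne_finset_zero fun p hp => ?_
    rw [if_neg fun h => hp ((hP' p).2 h)]
  have h01 := h0.sub h00
  have h1 : HasSum (fun p : Nat.Primes => (((Real.log (1 - L4.ph (1 + 2 * δ) (p : ℕ)) -
      (if (p:ℕ) ∈ P then Real.log (1 - L4.ph (1 + 2 * δ) (p:ℕ)) else 0)) : ℝ) : ℂ) * s ^ 2)
      (((DIA2.Lm δ - lP P δ : ℝ) : ℂ) * s ^ 2) := (Complex.hasSum_ofReal.2 h01).mul_right _
  have h2 := h1.cexp.mul (SPc_hasProd hP s hδ)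
  convert h2 using 2 with p
  simp only [Function.comp_apply]
  unfold EP
  split_ifs with hp
  · simp
  · rw [sub_zero]
    unfold DIA2.E fl
    congr 1
    have h3 := L4.ph_le_half (σ := 1 + 2 * δ) (by linarith) p.2
    have h4 : (1 - ((L4.ph (1 + 2 * δ) (p : ℕ) : ℝ) : ℂ)) = ((1 - L4.ph (1 + 2 * δ) (p : ℕ) : ℝ) : ℂ) := by
      push_cast; ring
    rw [h4, Complex.cpow_def_of_ne_zero (by
      rw [Complex.ofReal_ne_zero]
      linarith), Complex.ofReal_log (by linarith)]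

/-- the limit factor -/
noncomputable def aP (P : Finset ℕ) (s : ℂ) : ℂ := ∏' p : Nat.Primes, EP P s p ((p:ℝ)⁻¹)

/-- constants of the local factors -/
structure Cst (k : ℕ) (C : ℝ) : Prop where
  nn : 0 ≤ C
  d : ∀ s : ℂ, ‖s‖ ≤ k → ∀ x y : ℝ, 0 ≤ y → y ≤ x → x ≤ 1 / 2 → ‖DIA2.E s x - DIA2.E s y‖ ≤ C * x * (x - y)

lemma Cst.one {k : ℕ} {C : ℝ} (h : Cst k C) {s : ℂ} (hs : ‖s‖ ≤ k) {x : ℝ} (hx0 : 0 ≤ x) (hx : x ≤ 1 / 2) :
    ‖DIA2.E s x - 1‖ ≤ C * x * x := by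
  have := h.d s hs x 0 le_rfl hx0 hx
  rw [DIA2.E_zero, sub_zero] at this
  exact this

lemma prime_inv (p : Nat.Primes) : 0 ≤ ((p : ℕ) : ℝ)⁻¹ ∧ ((p : ℕ) : ℝ)⁻¹ ≤ 1 / 2 := by
  have hp0 : (0 : ℝ) < (p : ℕ) := by exact_mod_cast p.2.pos
  refine ⟨by positivity, ?_⟩
  rw [one_div]
  apply inv_anti₀ (by norm_num)
  exact_mod_cast p.2.two_le

lemma prime_sq (p : Nat.Primes) : ((p : ℕ) : ℝ) ^ (-(1 + 1 : ℝ)) = ((p : ℕ) : ℝ)⁻¹ * ((p : ℕ) : ℝ)⁻¹ := by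
  have hp0 : (0 : ℝ) < (p : ℕ) := by exact_mod_cast p.2.pos
  rw [← Real.rpow_neg_one, ← Real.rpow_add hp0]
  norm_num

lemma sum1 (C : ℝ) : Summable fun p : Nat.Primes => C * ((p : ℕ) : ℝ) ^ (-(1 + 1 : ℝ)) :=
  ((L4.summ one_pos).comp_injective Nat.Primes.coe_nat_injective).mul_left C

lemma sum2 (C : ℝ) : Summable fun p : Nat.Primes => C * (4 * ((p : ℕ) : ℝ) ^ (-(1 + 1 / 2 : ℝ))) :=
  (((L4.summ (by norm_num : (0 : ℝ) < 1 / 2)).comp_injective Nat.Primes.coe_nat_injective).mul_left 4).mul_left C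

lemma Cst.bd {k : ℕ} {C : ℝ} (h : Cst k C) {s : ℂ} (hs : ‖s‖ ≤ k) (P : Finset ℕ) (x : ℝ) (p : Nat.Primes) (hx0 : 0 ≤ x)
    (hx : x ≤ ((p : ℕ) : ℝ)⁻¹) : ‖EP P s p x‖ ≤ 1 + C * ((p : ℕ) : ℝ) ^ (-(1 + 1 : ℝ)) := by
  unfold EP
  split_ifs
  · rw [norm_one]
    have : 0 ≤ C * ((p : ℕ) : ℝ) ^ (-(1 + 1 : ℝ)) := mul_nonneg h.nn (Real.rpow_nonneg (Nat.cast_nonneg _) _)
    linarith
  · have h1 := h.one hs hx0 (hx.trans (prime_inv p).2)
    have h2 : ‖DIA2.E s x‖ ≤ ‖DIA2.E s x - 1‖ + 1 := by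
      have := norm_add_le (DIA2.E s x - 1) 1
      rw [sub_add_cancel, norm_one] at this
      exact this
    rw [prime_sq]
    have h3 : C * x * x ≤ C * (((p : ℕ) : ℝ)⁻¹ * ((p : ℕ) : ℝ)⁻¹) := by
      rw [mul_assoc]
      exact mul_le_mul_of_nonneg_left (mul_le_mul hx hx hx0 (prime_inv p).1) h.nn
    linarith

lemma aP_hasProd {k : ℕ} {C : ℝ} (h : Cst k C) {s : ℂ} (hs : ‖s‖ ≤ k) (P : Finset ℕ) :
    HasProd (fun p : Nat.Primes => EP P s p ((p : ℝ)⁻¹)) (aP P s) := by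
  have h1 : Summable fun p : Nat.Primes => ‖EP P s p ((p : ℝ)⁻¹) - 1‖ := by
    refine Summable.of_nonneg_of_le (fun p => norm_nonneg _) (fun p => ?_) (sum1 C)
    unfold EP
    split_ifs
    · rw [sub_self, norm_zero]
      exact mul_nonneg h.nn (Real.rpow_nonneg (Nat.cast_nonneg _) _)
    · have h3 := h.one hs (prime_inv p).1 (prime_inv p).2
      rw [prime_sq]
      linarith
  have h2 := (multipliable_one_add_of_summable h1).hasProd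
  have h3 : (fun p : Nat.Primes => 1 + (EP P s p ((p : ℝ)⁻¹) - 1)) = fun p : Nat.Primes => EP P s p ((p : ℝ)⁻¹) := by
    funext p; ring
  rw [h3] at h2
  exact h2

lemma ph_bd {δ : ℝ} (hδ : 0 < δ) (p : Nat.Primes) :
    0 ≤ L4.ph (1 + 2 * δ) (p : ℕ) ∧ L4.ph (1 + 2 * δ) (p : ℕ) ≤ ((p : ℕ) : ℝ)⁻¹ :=
  ⟨(L4.ph_pos _ p.2).le, L4.ph_le_inv (by linarith) p.2⟩

/-- the regularised product -/
noncomputable def QP (P : Finset ℕ) (s : ℂ) (δ : ℝ) : ℂ := exp (((DIA2.Lm δ - lP P δ : ℝ) : ℂ) * s ^ 2) * SPc P s δ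

/-- the exponent -/
noncomputable def LP (P : Finset ℕ) (δ : ℝ) : ℝ := Real.log (2 * δ) - DIA2.Lm δ + lP P δ

lemma key_eq (P : Finset ℕ) (s : ℂ) {δ : ℝ} (hδ : 0 < δ) :
    ((2 * δ : ℝ) : ℂ) ^ (s ^ 2) * SPc P s δ = exp ((LP P δ : ℂ) * s ^ 2) * QP P s δ := by
  unfold QP LP
  rw [← mul_assoc, ← Complex.exp_add, Complex.cpow_def_of_ne_zero (by
    rw [Complex.ofReal_ne_zero]
    positivity), ← Complex.ofReal_log (by positivity)]
  congr 2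
  push_cast
  ring

lemma norm_QP {k : ℕ} {C : ℝ} (h : Cst k C) {s : ℂ} (hs : ‖s‖ ≤ k) {P : Finset ℕ} (hP : ∀ p ∈ P, p.Prime) {δ : ℝ}
    (hδ : 0 < δ) : ‖QP P s δ‖ ≤ Real.exp (∑' p : Nat.Primes, C * ((p : ℕ) : ℝ) ^ (-(1 + 1 : ℝ))) :=
  DIA2.tprod_bd _ _ (fun p => mul_nonneg h.nn (Real.rpow_nonneg (Nat.cast_nonneg _) _)) (sum1 C)
    (fun p => h.bd hs P _ p (ph_bd hδ p).1 (ph_bd hδ p).2) (EP_hasProd hP s hδ)

lemma QP_sub {k : ℕ} {C : ℝ} (h : Cst k C) {s : ℂ} (hs : ‖s‖ ≤ k) {P : Finset ℕ} (hP : ∀ p ∈ P, p.Prime) {δ : ℝ}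
    (hδ : 0 < δ) : ‖QP P s δ - aP P s‖ ≤ Real.exp (∑' p : Nat.Primes, C * ((p : ℕ) : ℝ) ^ (-(1 + 1 : ℝ))) *
      (δ * ∑' p : Nat.Primes, C * (4 * ((p : ℕ) : ℝ) ^ (-(1 + 1 / 2 : ℝ)))) := by
  have h1 := DIA2.tprod_diff _ _ (fun p : Nat.Primes => C * ((p : ℕ) : ℝ) ^ (-(1 + 1 : ℝ)))
      (fun p : Nat.Primes => δ * (C * (4 * ((p : ℕ) : ℝ) ^ (-(1 + 1 / 2 : ℝ)))))
      (fun p => mul_nonneg h.nn (Real.rpow_nonneg (Nat.cast_nonneg _) _)) (sum1 C)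
      (fun p => h.bd hs P _ p (ph_bd hδ p).1 (ph_bd hδ p).2) (fun p => h.bd hs P _ p (prime_inv p).1 le_rfl) (by
        intro p
        unfold EP
        split_ifs
        · rw [sub_self, norm_zero]
          have := h.nn
          positivity
        · rw [norm_sub_rev]
          have h2 := h.d s hs (((p : ℕ) : ℝ)⁻¹) (L4.ph (1 + 2 * δ) (p : ℕ)) (ph_bd hδ p).1 (ph_bd hδ p).2 (prime_inv p).2
          have h3 := DIA2.inv_sub_ph hδ p.2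
          refine h2.trans ?_
          calc C * ((p : ℕ) : ℝ)⁻¹ * (((p : ℕ) : ℝ)⁻¹ - L4.ph (1 + 2 * δ) (p : ℕ))
              = C * (((p : ℕ) : ℝ)⁻¹ * (((p : ℕ) : ℝ)⁻¹ - L4.ph (1 + 2 * δ) (p : ℕ))) := by ring
            _ ≤ C * (4 * δ * ((p : ℕ) : ℝ) ^ (-(1 + 1 / 2 : ℝ))) := mul_le_mul_of_nonneg_left h3 h.nn
            _ = _ := by ring) ((sum2 C).mul_left δ) (EP_hasProd hP s hδ) (aP_hasProd h hs P)
  have e : ∑' p : Nat.Primes, δ * (C * (4 * ((p : ℕ) : ℝ) ^ (-(1 + 1 / 2 : ℝ)))) =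
      δ * ∑' p : Nat.Primes, C * (4 * ((p : ℕ) : ℝ) ^ (-(1 + 1 / 2 : ℝ))) := tsum_mul_left
  rw [e] at h1
  exact h1

lemma lP_tendsto {P : Finset ℕ} (hP : ∀ p ∈ P, p.Prime) : Tendsto (lP P) (𝓝[>] 0) (𝓝 (∑ p ∈ P, Real.log (1 - (p:ℝ)⁻¹))) := by
  unfold lP
  refine tendsto_finsetSum _ fun p hp => ?_
  have hpp := hP p hp
  have hp0 : (0:ℝ) < p := by exact_mod_cast hpp.pos
  have hp2 : (2:ℝ) ≤ p := by exact_mod_cast hpp.two_le
  have h1 : Continuous fun δ : ℝ => (p:ℝ) ^ (-(1 + 2 * δ)) :=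
    Continuous.rpow continuous_const (by fun_prop) fun x => Or.inl hp0.ne'
  have h2 : Tendsto (fun δ : ℝ => L4.ph (1 + 2 * δ) p) (𝓝[>] 0) (𝓝 ((p:ℝ)⁻¹)) := by
    have := (h1.tendsto 0).mono_left (nhdsWithin_le_nhds (s := Set.Ioi 0))
    simp only [mul_zero, add_zero, Real.rpow_neg_one] at this
    exact this
  have h3 : (p:ℝ)⁻¹ ≤ 1 / 2 := by
    rw [one_div]
    exact inv_anti₀ (by norm_num) hp2
  exact (h2.const_sub 1).log (by linarith)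

lemma lP_abs {P : Finset ℕ} (hP : ∀ p ∈ P, p.Prime) {δ : ℝ} (hδ : 0 < δ) : |lP P δ| ≤ P.card := by
  unfold lP
  refine (Finset.abs_sum_le_sum_abs _ _).trans ?_
  have h1 : ∑ p ∈ P, |Real.log (1 - L4.ph (1 + 2 * δ) p)| ≤ ∑ _p ∈ P, (1:ℝ) := by
    refine Finset.sum_le_sum fun p hp => ?_
    have h2 := L4.ph_le_half (σ := 1 + 2 * δ) (by linarith) (hP p hp)
    have h3 := DIA2.log_bd (L4.ph_pos (1 + 2 * δ) (hP p hp)).le h2
    linarith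
  simpa using h1

/-- the bound, uniformly in `P` -/
theorem sp_bd (R : ℝ) : ∃ C δ0 : ℝ, 1 ≤ C ∧ 0 < δ0 ∧ ∀ P : Finset ℕ, (∀ p ∈ P, p.Prime) → ∀ δ : ℝ, 0 < δ → δ ≤ δ0 →
    ∀ s : ℂ, ‖s‖ ≤ R → ‖((2 * δ : ℝ) : ℂ) ^ (s ^ 2) * SPc P s δ‖ ≤ C * C ^ P.card := by
  obtain ⟨k, hk⟩ := exists_nat_ge R
  obtain ⟨C, hC, hEd⟩ := DIA2.E_diff k
  have hc : Cst k C := ⟨hC, hEd⟩
  obtain ⟨δ1, hδ1, hL⟩ := Metric.tendsto_nhdsWithin_nhds.1 DIA2.tendsto_Lam 1 one_pos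
  obtain ⟨W, hW⟩ : ∃ W : ℝ, W = ∑' p : Nat.Primes, C * ((p : ℕ) : ℝ) ^ (-(1 + 1 : ℝ)) := ⟨_, rfl⟩
  have hW0 : 0 ≤ W := by
    rw [hW]
    exact tsum_nonneg fun p => mul_nonneg hC (Real.rpow_nonneg (Nat.cast_nonneg _) _)
  refine ⟨Real.exp ((k:ℝ) ^ 2 + W), δ1 / 2, Real.one_le_exp (by positivity), by positivity, fun P hP δ hδ hδ2 s hs => ?_⟩
  have hsk : ‖s‖ ≤ k := hs.trans hk
  have h1 : |Real.log (2 * δ) - DIA2.Lm δ| < 1 := by
    have := hL (x := δ) hδ (by rw [dist_zero_right, Real.norm_of_nonneg hδ.le]; linarith)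
    rwa [dist_zero_right] at this
  have h2 : |LP P δ| ≤ 1 + P.card := by
    unfold LP
    refine (abs_add_le _ _).trans ?_
    have := lP_abs hP hδ
    linarith
  rw [key_eq P s hδ, norm_mul]
  have h3 : ‖exp ((LP P δ : ℂ) * s ^ 2)‖ ≤ Real.exp ((1 + P.card) * (k:ℝ) ^ 2) := by
    rw [Complex.norm_exp]
    refine Real.exp_le_exp.2 ((Complex.re_le_norm _).trans ?_)
    rw [norm_mul, norm_pow, Complex.norm_real, Real.norm_eq_abs]
    exact mul_le_mul h2 (pow_le_pow_left₀ (norm_nonneg _) hsk 2) (by positivity) (by positivity)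
  have h4 := norm_QP hc hsk hP hδ
  rw [← hW] at h4
  calc ‖exp ((LP P δ : ℂ) * s ^ 2)‖ * ‖QP P s δ‖ ≤ Real.exp ((1 + P.card) * (k:ℝ) ^ 2) * Real.exp W :=
        mul_le_mul h3 h4 (norm_nonneg _) (Real.exp_pos _).le
    _ ≤ Real.exp ((k:ℝ) ^ 2 + W) * Real.exp ((k:ℝ) ^ 2 + W) ^ P.card := by
        rw [← Real.exp_nat_mul, ← Real.exp_add, ← Real.exp_add]
        refine Real.exp_le_exp.2 ?_
        have : (0:ℝ) ≤ P.card * W := by positivity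
        nlinarith

/-- the limit for fixed `P` -/
theorem sp_lim {P : Finset ℕ} (hP : ∀ p ∈ P, p.Prime) (R ε : ℝ) (hε : 0 < ε) : ∃ δ0 : ℝ, 0 < δ0 ∧ ∀ δ : ℝ, 0 < δ → δ ≤ δ0 →
    ∀ s : ℂ, ‖s‖ ≤ R → ‖((2 * δ : ℝ) : ℂ) ^ (s ^ 2) * SPc P s δ -
      exp (((∑ p ∈ P, Real.log (1 - (p:ℝ)⁻¹) : ℝ) : ℂ) * s ^ 2) * aP P s‖ ≤ ε := by
  obtain ⟨k, hk⟩ := exists_nat_ge R
  obtain ⟨C, hC, hEd⟩ := DIA2.E_diff k
  have hc : Cst k C := ⟨hC, hEd⟩
  obtain ⟨W1, hW1⟩ : ∃ W : ℝ, W = ∑' p : Nat.Primes, C * ((p : ℕ) : ℝ) ^ (-(1 + 1 : ℝ)) := ⟨_, rfl⟩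
  obtain ⟨W2, hW2⟩ : ∃ W : ℝ, W = ∑' p : Nat.Primes, C * (4 * ((p : ℕ) : ℝ) ^ (-(1 + 1 / 2 : ℝ))) := ⟨_, rfl⟩
  have hW2nn : 0 ≤ W2 := by
    rw [hW2]
    exact tsum_nonneg fun p => mul_nonneg hC (mul_nonneg (by norm_num) (Real.rpow_nonneg (Nat.cast_nonneg _) _))
  obtain ⟨ℓ, hℓ⟩ : ∃ ℓ : ℝ, ℓ = ∑ p ∈ P, Real.log (1 - (p:ℝ)⁻¹) := ⟨_, rfl⟩
  obtain ⟨M, hM⟩ : ∃ M : ℝ, M = Real.exp W1 := ⟨_, rfl⟩
  obtain ⟨N, hN⟩ : ∃ N : ℝ, N = Real.exp (|ℓ| * (k:ℝ) ^ 2) := ⟨_, rfl⟩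
  have hM0 : 0 < M := by rw [hM]; exact Real.exp_pos _
  have hN0 : 0 < N := by rw [hN]; exact Real.exp_pos _
  obtain ⟨ε', hε'⟩ : ∃ ε' : ℝ, ε' = ε / N := ⟨_, rfl⟩
  have hε0 : 0 < ε' := by rw [hε']; positivity
  obtain ⟨η, hη⟩ : ∃ η : ℝ, η = min (1 / ((k : ℝ) ^ 2 + 1)) (ε' / (4 * ((k : ℝ) ^ 2 + 1) * M)) := ⟨_, rfl⟩
  have hη0 : 0 < η := by rw [hη]; positivity
  have hT : Tendsto (LP P) (𝓝[>] 0) (𝓝 ℓ) := by
    have := DIA2.tendsto_Lam.add (lP_tendsto hP)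
    rw [zero_add, ← hℓ] at this
    exact this
  obtain ⟨δ1, hδ1, hL'⟩ := Metric.tendsto_nhdsWithin_nhds.1 hT η hη0
  refine ⟨min (δ1 / 2) (ε' / (2 * (M * W2 + 1))), by positivity, ?_⟩
  intro δ hδ hδ2 s hs
  have hsk : ‖s‖ ≤ k := hs.trans hk
  have hδa : δ < δ1 := by
    have := hδ2.trans (min_le_left _ _)
    linarith
  have hδb : δ ≤ ε' / (2 * (M * W2 + 1)) := hδ2.trans (min_le_right _ _)
  obtain ⟨Λ, hΛ⟩ : ∃ Λ : ℝ, Λ = LP P δ - ℓ := ⟨_, rfl⟩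
  have hLam : |Λ| < η := by
    have := hL' (x := δ) hδ (by rw [dist_zero_right, Real.norm_of_nonneg hδ.le]; exact hδa)
    rw [Real.dist_eq] at this
    rw [hΛ]
    exact this
  have hPn : ‖QP P s δ‖ ≤ M := by rw [hM, hW1]; exact norm_QP hc hsk hP hδ
  have hPA : ‖QP P s δ - aP P s‖ ≤ M * (δ * W2) := by rw [hM, hW1, hW2]; exact QP_sub hc hsk hP hδ
  have hz : ‖(Λ : ℂ) * s ^ 2‖ ≤ |Λ| * (k : ℝ) ^ 2 := by
    rw [norm_mul, norm_pow, Complex.norm_real, Real.norm_eq_abs]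
    exact mul_le_mul_of_nonneg_left (pow_le_pow_left₀ (norm_nonneg _) hsk 2) (abs_nonneg _)
  have hk2 : (k : ℝ) ^ 2 ≤ (k : ℝ) ^ 2 + 1 := by linarith
  have hz1 : |Λ| * (k : ℝ) ^ 2 ≤ 1 := by
    have h1 : |Λ| ≤ 1 / ((k : ℝ) ^ 2 + 1) := hLam.le.trans (by rw [hη]; exact min_le_left _ _)
    calc |Λ| * (k : ℝ) ^ 2 ≤ 1 / ((k : ℝ) ^ 2 + 1) * ((k : ℝ) ^ 2 + 1) :=
          mul_le_mul h1 hk2 (by positivity) (by positivity)
      _ = 1 := by field_simp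
  have hz2 : 2 * (|Λ| * (k : ℝ) ^ 2) * M ≤ ε' / 2 := by
    have h1 : |Λ| ≤ ε' / (4 * ((k : ℝ) ^ 2 + 1) * M) := hLam.le.trans (by rw [hη]; exact min_le_right _ _)
    calc 2 * (|Λ| * (k : ℝ) ^ 2) * M ≤ 2 * (ε' / (4 * ((k : ℝ) ^ 2 + 1) * M) * ((k : ℝ) ^ 2 + 1)) * M := by
          gcongr
      _ = ε' / 2 := by field_simp; ring
  have hex := Complex.norm_exp_sub_one_le (hz.trans hz1)
  have hgoal : ((2 * δ : ℝ) : ℂ) ^ (s ^ 2) * SPc P s δ - exp ((ℓ : ℂ) * s ^ 2) * aP P s =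
      exp ((ℓ : ℂ) * s ^ 2) * ((exp ((Λ : ℂ) * s ^ 2) - 1) * QP P s δ + (QP P s δ - aP P s)) := by
    rw [key_eq P s hδ]
    have e : exp ((LP P δ : ℂ) * s ^ 2) = exp ((ℓ : ℂ) * s ^ 2) * exp ((Λ : ℂ) * s ^ 2) := by
      rw [← Complex.exp_add, hΛ]
      congr 1
      push_cast
      ring
    rw [e]
    ring
  rw [← hℓ, hgoal, norm_mul]
  have h1 : ‖(exp ((Λ : ℂ) * s ^ 2) - 1) * QP P s δ‖ ≤ ε' / 2 := by
    rw [norm_mul]
    calc ‖exp ((Λ : ℂ) * s ^ 2) - 1‖ * ‖QP P s δ‖ ≤ (2 * (|Λ| * (k : ℝ) ^ 2)) * M :=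
          mul_le_mul (hex.trans (by linarith)) hPn (norm_nonneg _) (by positivity)
      _ ≤ ε' / 2 := hz2
  have h2 : ‖QP P s δ - aP P s‖ ≤ ε' / 2 := by
    refine hPA.trans ?_
    have h3 : 0 < M * W2 + 1 := by positivity
    calc M * (δ * W2) ≤ δ * (M * W2 + 1) := by nlinarith
      _ ≤ ε' / (2 * (M * W2 + 1)) * (M * W2 + 1) := mul_le_mul_of_nonneg_right hδb h3.le
      _ = ε' / 2 := by field_simp
  have h3 : ‖exp ((ℓ : ℂ) * s ^ 2)‖ ≤ N := by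
    rw [Complex.norm_exp, hN]
    refine Real.exp_le_exp.2 ((Complex.re_le_norm _).trans ?_)
    rw [norm_mul, norm_pow, Complex.norm_real, Real.norm_eq_abs]
    exact mul_le_mul_of_nonneg_left (pow_le_pow_left₀ (norm_nonneg _) hsk 2) (abs_nonneg _)
  calc ‖exp ((ℓ : ℂ) * s ^ 2)‖ * ‖(exp ((Λ : ℂ) * s ^ 2) - 1) * QP P s δ + (QP P s δ - aP P s)‖
      ≤ N * (ε' / 2 + ε' / 2) := by
        refine mul_le_mul h3 ((norm_add_le _ _).trans (add_le_add h1 h2)) (norm_nonneg _) hN0.le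
    _ = ε := by rw [hε']; field_simp; ring

/-- (LTC) -/
theorem t_ltc : S_LTC := by
  intro a b ha hb hab
  obtain ⟨P, hPdef⟩ : ∃ P : Finset ℕ, P = (a * b).primeFactors := ⟨_, rfl⟩
  have hP : ∀ p ∈ P, p.Prime := fun p hp => by rw [hPdef] at hp; exact Nat.prime_of_mem_primeFactors hp
  obtain ⟨x, hx⟩ : ∃ x : ℂ → ℂ, x = fun s => exp (((∑ p ∈ P, Real.log (1 - (p:ℝ)⁻¹) : ℝ) : ℂ) * s ^ 2) * aP P s := ⟨_, rfl⟩
  obtain ⟨y, hy⟩ : ∃ y : ℝ → ℂ → ℂ, y = fun δ s => ∏ p ∈ P, LFc s δ p (a.factorization p) (b.factorization p) := ⟨_, rfl⟩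
  -- uniform convergence
  have hunif : ∀ R ε : ℝ, 0 < R → 0 < ε → ∃ δ0 : ℝ, 0 < δ0 ∧ ∀ δ : ℝ, 0 < δ → δ ≤ δ0 → ∀ s : ℂ, ‖s‖ ≤ R →
      ‖((2 * δ : ℝ) : ℂ) ^ (s ^ 2) * TC s δ a b - x s * y 0 s‖ ≤ ε := by
    intro R ε hR hε
    -- the local series
    obtain ⟨α, hα⟩ : ∃ α : ℕ → ℝ, α = fun p => LF R 0 p (a.factorization p) (b.factorization p) := ⟨_, rfl⟩
    have hα0 : ∀ p ∈ P, 0 ≤ α p := fun p hp => by
      rw [hα]
      exact (norm_nonneg _).trans (LFc_norm_le hR (by rw [norm_zero]; exact hR.le : ‖(0:ℂ)‖ ≤ R) le_rfl (hP p hp) _ _)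
    obtain ⟨M, hM⟩ : ∃ M : ℝ, M = ∏ p ∈ P, (1 + |α p|) := ⟨_, rfl⟩
    have hM0 : 0 < M := by rw [hM]; exact Finset.prod_pos fun p _ => by positivity
    have hy1 : ∀ δ : ℝ, 0 ≤ δ → ∀ s : ℂ, ‖s‖ ≤ R → ‖y δ s‖ ≤ M := by
      intro δ hδ s hs
      rw [hy, hM]
      simp only
      rw [norm_prod]
      refine Finset.prod_le_prod (fun _ _ => norm_nonneg _) fun p hp => ?_
      have := LFc_norm_le hR hs hδ (hP p hp) (a.factorization p) (b.factorization p)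
      have h2 := le_abs_self (α p)
      rw [hα] at h2 ⊢
      simp only at h2 ⊢
      linarith
    have hy2 : ∀ δ : ℝ, 0 ≤ δ → ∀ s : ℂ, ‖s‖ ≤ R → ‖y δ s - y 0 s‖ ≤ M * ∑ p ∈ P,
        (LF R 0 p (a.factorization p) (b.factorization p) - LF R δ p (a.factorization p) (b.factorization p)) := by
      intro δ hδ s hs
      have hb1 : ∀ δ : ℝ, 0 ≤ δ → ∀ p : ℕ, ‖(if p ∈ P then LFc s δ p (a.factorization p) (b.factorization p) else 1)‖ ≤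
          1 + |α p| := by
        intro δ hδ p
        split_ifs with hp
        · have := LFc_norm_le hR hs hδ (hP p hp) (a.factorization p) (b.factorization p)
          have h2 := le_abs_self (α p)
          rw [hα] at h2 ⊢
          simp only at h2 ⊢
          linarith
        · rw [norm_one]
          have := abs_nonneg (α p)
          linarith
      have h1 := DIA2.prod_diff P (fun p => if p ∈ P then LFc s δ p (a.factorization p) (b.factorization p) else 1)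
        (fun p => if p ∈ P then LFc s 0 p (a.factorization p) (b.factorization p) else 1) (fun p => |α p|)
        (fun p => abs_nonneg _) (hb1 δ hδ) (hb1 0 le_rfl)
      have e1 : ∀ δ : ℝ, ∏ p ∈ P, (if p ∈ P then LFc s δ p (a.factorization p) (b.factorization p) else 1) = y δ s := by
        intro δ
        rw [hy]
        exact Finset.prod_congr rfl fun p hp => if_pos hp
      rw [e1, e1, ← hM] at h1
      refine h1.trans (mul_le_mul_of_nonneg_left ?_ hM0.le)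
      refine Finset.sum_le_sum fun p hp => ?_
      rw [if_pos hp, if_pos hp]
      exact LFc_sub_le hR hs hδ (hP p hp) _ _
    obtain ⟨C, δ1, hC, hδ1, hbd⟩ := sp_bd R
    obtain ⟨B, hB⟩ : ∃ B : ℝ, B = C * C ^ P.card + 1 := ⟨_, rfl⟩
    have hB0 : 0 < B := by rw [hB]; positivity
    obtain ⟨δ2, hδ2, hlim⟩ := sp_lim hP R (min 1 (ε / (2 * M))) (by positivity)
    have hxB : ∀ s : ℂ, ‖s‖ ≤ R → ‖x s‖ ≤ B := by
      intro s hs
      have h1 := hbd P hP (min δ1 δ2) (by positivity) (min_le_left _ _) s hs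
      have h2 := hlim (min δ1 δ2) (by positivity) (min_le_right _ _) s hs
      have h3 : ‖x s‖ ≤ ‖((2 * (min δ1 δ2) : ℝ) : ℂ) ^ (s ^ 2) * SPc P s (min δ1 δ2)‖ +
          ‖((2 * (min δ1 δ2) : ℝ) : ℂ) ^ (s ^ 2) * SPc P s (min δ1 δ2) - x s‖ := by
        have := norm_sub_le (((2 * (min δ1 δ2) : ℝ) : ℂ) ^ (s ^ 2) * SPc P s (min δ1 δ2))
          (((2 * (min δ1 δ2) : ℝ) : ℂ) ^ (s ^ 2) * SPc P s (min δ1 δ2) - x s)
        rwa [sub_sub_cancel] at this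
      have h4 := h2.trans (min_le_left _ _)
      rw [hx] at h3 ⊢
      simp only at h3 ⊢
      rw [hB]
      linarith
    have hsum : Tendsto (fun δ : ℝ => ∑ p ∈ P, (LF R 0 p (a.factorization p) (b.factorization p) -
        LF R δ p (a.factorization p) (b.factorization p))) (𝓝[>] 0) (𝓝 0) := by
      have h1 : Tendsto (fun δ : ℝ => ∑ p ∈ P, (LF R 0 p (a.factorization p) (b.factorization p) -
          LF R δ p (a.factorization p) (b.factorization p))) (𝓝[>] 0) (𝓝 (∑ p ∈ P, (LF R 0 p (a.factorization p) (b.factorization p) -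
          LF R 0 p (a.factorization p) (b.factorization p)))) :=
        tendsto_finsetSum _ fun p hp => tendsto_const_nhds.sub (LF_tendsto hR (hP p hp) _ _)
      simpa using h1
    obtain ⟨δ3, hδ3, hs3⟩ := Metric.tendsto_nhdsWithin_nhds.1 hsum (ε / (2 * B * M)) (by positivity)
    refine ⟨min δ2 (δ3 / 2), by positivity, fun δ hδ hδm s hs => ?_⟩
    have g1 := hlim δ hδ (hδm.trans (min_le_left _ _)) s hs
    have g2 := hy2 δ hδ.le s hs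
    have g3 := hs3 (x := δ) hδ (by
      rw [dist_zero_right, Real.norm_of_nonneg hδ.le]
      have := hδm.trans (min_le_right _ _)
      linarith)
    rw [dist_zero_right, Real.norm_eq_abs] at g3
    have g4 := (le_abs_self _).trans g3.le
    have g5 := hy1 δ hδ.le s hs
    have g6 := hxB s hs
    have e1 : TC s δ a b = SPc P s δ * y δ s := by
      rw [hPdef, hy, TC_prod s hδ ha hb, hPdef]
    rw [e1]
    have e2 : ((2 * δ : ℝ) : ℂ) ^ (s ^ 2) * (SPc P s δ * y δ s) - x s * y 0 s =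
        (((2 * δ : ℝ) : ℂ) ^ (s ^ 2) * SPc P s δ - x s) * y δ s + x s * (y δ s - y 0 s) := by ring
    rw [e2]
    refine (norm_add_le _ _).trans ?_
    rw [norm_mul, norm_mul]
    have g7 : ‖((2 * δ : ℝ) : ℂ) ^ (s ^ 2) * SPc P s δ - x s‖ ≤ ε / (2 * M) := by
      rw [hx]
      exact g1.trans (min_le_right _ _)
    have g8 : ‖((2 * δ : ℝ) : ℂ) ^ (s ^ 2) * SPc P s δ - x s‖ * ‖y δ s‖ ≤ ε / (2 * M) * M :=
      mul_le_mul g7 g5 (norm_nonneg _) (by positivity)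
    have g9 : ‖x s‖ * ‖y δ s - y 0 s‖ ≤ B * (M * (ε / (2 * B * M))) :=
      mul_le_mul g6 (g2.trans (mul_le_mul_of_nonneg_left g4 hM0.le)) (norm_nonneg _) hB0.le
    have g10 : ε / (2 * M) * M = ε / 2 := by field_simp
    have g11 : B * (M * (ε / (2 * B * M))) = ε / 2 := by field_simp
    linarith
  refine ⟨fun s => x s * y 0 s, ?_, ?_, hunif⟩
  · -- continuity
    refine continuous_of_locally_uniform_approx_of_continuousAt fun s u hu => ?_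
    obtain ⟨ε, hε, hεu⟩ := Metric.mem_uniformity_dist.1 hu
    obtain ⟨δ0, hδ0, h⟩ := hunif (‖s‖ + 1) (ε / 2) (by positivity) (by positivity)
    refine ⟨Metric.ball 0 (‖s‖ + 1), Metric.isOpen_ball.mem_nhds (by rw [mem_ball_zero_iff]; linarith),
      fun s => ((2 * δ0 : ℝ) : ℂ) ^ (s ^ 2) * TC s δ0 a b, ?_, fun z hz => ?_⟩
    · refine Continuous.continuousAt (Continuous.mul ?_ (TC_diff hδ0 ha hb).continuous)
      refine Continuous.const_cpow (by fun_prop) (Or.inl ?_)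
      rw [Complex.ofReal_ne_zero]
      positivity
    · apply hεu
      rw [mem_ball_zero_iff] at hz
      have := h δ0 hδ0 le_rfl z hz.le
      rw [dist_comm, dist_eq_norm]
      linarith
  · -- the value
    intro V hV
    have l1 := t_td1 V hV
    have l2 := t_tdl V hV a b ha hb hab
    have l3 : Tendsto (fun δ : ℝ => (2 * δ) ^ (V ^ 2) * TD V δ a b) (𝓝[>] 0) (𝓝 ((aC V).re * tw V a b)) := by
      refine (l1.mul l2).congr' ?_
      filter_upwards [self_mem_nhdsWithin] with δ hδ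
      have hδ' : (0:ℝ) < δ := hδ
      have h0 : 0 < TD V δ 1 1 := (t_tdb V δ hV hδ' a b ha hb).2.1
      field_simp
    have l4 : Tendsto (fun δ : ℝ => (((2 * δ) ^ (V ^ 2) * TD V δ a b : ℝ) : ℂ)) (𝓝[>] 0)
        (𝓝 (((aC V).re * tw V a b : ℝ) : ℂ)) := (Complex.continuous_ofReal.tendsto _).comp l3
    have l5 : Tendsto (fun δ : ℝ => (((2 * δ) ^ (V ^ 2) * TD V δ a b : ℝ) : ℂ)) (𝓝[>] 0) (𝓝 (x V * y 0 V)) := by
      rw [Metric.tendsto_nhdsWithin_nhds]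
      intro ε hε
      obtain ⟨δ0, hδ0, h⟩ := hunif V (ε / 2) hV (by positivity)
      refine ⟨δ0, hδ0, fun δ hδ hd => ?_⟩
      have hδ' : (0:ℝ) < δ := hδ
      rw [dist_zero_right, Real.norm_of_nonneg hδ'.le] at hd
      have h1 := h δ hδ' hd.le (V:ℂ) (by rw [Complex.norm_real, Real.norm_of_nonneg hV.le])
      have h3 : ((2 * δ : ℝ) : ℂ) ^ ((V:ℂ) ^ 2) = (((2 * δ) ^ (V ^ 2) : ℝ) : ℂ) := by
        rw [Complex.ofReal_cpow (by positivity)]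
        push_cast
        rfl
      rw [h3, TC_real, ← Complex.ofReal_mul] at h1
      rw [dist_eq_norm]
      linarith
    exact tendsto_nhds_unique l5 l4

end Run7.h310.SQ
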