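import Pool.Agent.Run7.h310.SQ.GLD
import Pool.Agent.Run7.h310.SQ.D3
import Pool.Agent.Run7.h310.SQ.CTW

set_option autoImplicit false

/-! # Project SQ: large deviations twisted by a rational number (TLD) -/

namespace Run7.h310.SQ

open Finset Filter MeasureTheory Topology Complex
open Pool.Agent.N748.MG Run7.h310.SP

lemma ph_conj (a b : ℕ) (t : ℝ) : (starRingEnd ℂ) (ph a b t) = ph b a t := by
  unfold ph
  rw [← Complex.exp_conj]
  congr 1
  rw [map_mul, Complex.conj_ofReal, Complex.conj_I]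
  push_cast
  ring

/-- the weight -/
noncomputable def wt (u : ℂ) (a b : ℕ) (t : ℝ) : ℝ := 2 + (u * ph a b t).re

lemma wt_bd {u : ℂ} (hu : ‖u‖ ≤ 1) (a b : ℕ) (t : ℝ) : 1 ≤ wt u a b t ∧ wt u a b t ≤ 3 := by
  have h1 : |(u * ph a b t).re| ≤ 1 := by
    refine (Complex.abs_re_le_norm _).trans ?_
    rw [norm_mul, ph_norm, mul_one]
    exact hu
  obtain ⟨h2, h3⟩ := abs_le.1 h1
  unfold wt
  constructor <;> linarith

lemma wt_cont (u : ℂ) (a b : ℕ) : Continuous (wt u a b) := by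
  unfold wt
  have := ph_cont a b
  fun_prop

lemma wt_eq (u : ℂ) (a b : ℕ) (t : ℝ) : ((wt u a b t : ℝ) : ℂ) =
    2 * ph 1 1 t + (u * ph a b t + (starRingEnd ℂ) u * ph b a t) / 2 := by
  rw [ph_one]
  have h1 : (((u * ph a b t).re : ℝ) : ℂ) = (u * ph a b t + (starRingEnd ℂ) (u * ph a b t)) / 2 := by
    rw [Complex.add_conj]
    push_cast
    ring
  unfold wt
  push_cast
  rw [h1, map_mul, ph_conj]
  ring

/-- the measures -/
noncomputable def muT (u : ℂ) (a b : ℕ) (T : ℝ) : Measure ℝ :=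
  (volume.restrict (Set.Icc 0 T)).withDensity (fun t => ENNReal.ofReal (wt u a b t / T))

lemma muT_le {u : ℂ} (hu : ‖u‖ ≤ 1) (a b : ℕ) {T : ℝ} (hT : 0 < T) (S : Set ℝ) (hS : MeasurableSet S) :
    muT u a b T S ≤ ENNReal.ofReal (3 / T) * volume (Set.Icc 0 T ∩ S) := by
  unfold muT
  rw [withDensity_apply _ hS]
  refine (lintegral_mono (g := fun _ => ENNReal.ofReal (3 / T)) fun t => ?_).trans ?_
  · refine ENNReal.ofReal_le_ofReal ?_
    exact div_le_div_of_nonneg_right (wt_bd hu a b t).2 hT.le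
  · rw [setLIntegral_const, Measure.restrict_apply hS, Set.inter_comm]

lemma muT_fin {u : ℂ} (hu : ‖u‖ ≤ 1) (a b : ℕ) {T : ℝ} (hT : 0 < T) : IsFiniteMeasure (muT u a b T) := by
  refine ⟨(muT_le hu a b hT Set.univ MeasurableSet.univ).trans_lt ?_⟩
  refine ENNReal.mul_lt_top ENNReal.ofReal_lt_top ?_
  refine (measure_mono Set.inter_subset_left).trans_lt ?_
  rw [Real.volume_Icc]
  exact ENNReal.ofReal_lt_top

lemma int_muT {E : Type*} [NormedAddCommGroup E] [NormedSpace ℝ E] {u : ℂ} (hu : ‖u‖ ≤ 1) (a b : ℕ) {T : ℝ} (hT : 0 < T)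
    (S : Set ℝ) (hS : MeasurableSet S) (f : ℝ → E) :
    ∫ t in S, f t ∂(muT u a b T) = ∫ t in S ∩ Set.Icc 0 T, (wt u a b t / T) • f t := by
  unfold muT
  rw [restrict_withDensity hS, Measure.restrict_restrict hS]
  have h2 : (fun t => ENNReal.ofReal (wt u a b t / T)) =
      fun t => (((wt u a b t / T).toNNReal : NNReal) : ENNReal) := rfl
  rw [h2, integral_withDensity_eq_integral_smul
    ((wt_cont u a b).measurable.div_const T).real_toNNReal]
  refine integral_congr_ae (Eventually.of_forall fun t => ?_)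
  show (wt u a b t / T).toNNReal • f t = (wt u a b t / T) • f t
  rw [NNReal.smul_def, Real.coe_toNNReal]
  exact div_nonneg (by linarith [(wt_bd hu a b t).1]) hT.le

lemma TC_comm (s : ℂ) (δ : ℝ) (a b : ℕ) : TC s δ a b = TC s δ b a := by
  unfold TC
  refine tsum_congr fun g => ?_
  unfold tfc
  push_cast
  ring

lemma tw_comm (k : ℝ) (a b : ℕ) : tw k a b = tw k b a := by
  unfold tw
  rw [mul_comm a b]
  refine Finset.prod_congr rfl fun p _ => ?_
  congr 1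
  unfold LF
  refine tsum_congr fun m => ?_
  ring

lemma tw_one (k : ℝ) : tw k 1 1 = 1 := by
  unfold tw
  simp

lemma tw_nonneg {k : ℝ} (hk : 0 < k) {a b : ℕ} (ha : 1 ≤ a) (hb : 1 ≤ b) (hab : Nat.Coprime a b) : 0 ≤ tw k a b := by
  refine ge_of_tendsto (t_tdl k hk a b ha hb hab) ?_
  filter_upwards [self_mem_nhdsWithin] with δ hδ
  have h := t_tdb k δ hk hδ a b ha hb
  exact div_nonneg h.2.2.1 h.2.1.le

/-- the law with the weight -/
theorem wld (hC : S_CTW) (d : ℝ → ℝ) (hd : Ad d) (V : ℝ) (hV : 0 < V) (a b : ℕ) (ha : 1 ≤ a) (hb : 1 ≤ b)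
    (hab : Nat.Coprime a b) (u : ℂ) (hu : ‖u‖ ≤ 1) (hu0 : 0 ≤ u.re)
    (h : ℝ → ℝ) (S : Finset ℝ) (hm : Measurable h) (hc : ∀ x, x ∉ S → ContinuousAt h x) (hb1 : ∃ C : ℝ, ∀ x, |h x| ≤ C)
    (hb2 : ∃ C : ℝ, ∀ x, |h x| * (1 + x ^ 2) ≤ C * Real.exp (2 * V * x)) :
    Tendsto (fun T : ℝ => Real.sqrt (Real.pi * Real.log (1 / (2 * d T))) * (2 * d T) ^ (-(V ^ 2)) *
      ∫ t, h (Real.log ‖riemannZeta (pw (d T) t)‖ - V * Real.log (1 / (2 * d T))) ∂(muT u a b T)) atTop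
      (𝓝 (((aC V).re * (2 + u.re * tw V a b)) * ∫ x, Real.exp (-(2 * V * x)) * h x)) := by
  obtain ⟨A1, hA1c, hA1v, hA1⟩ := t_ltc 1 1 le_rfl le_rfl (Nat.coprime_one_left 1)
  obtain ⟨A2, hA2c, hA2v, hA2⟩ := t_ltc a b ha hb hab
  obtain ⟨V0, hV0⟩ : ∃ r : ℝ, 0 < r ∧ aC V = r := CON.real_pos V
  have hre : (aC V).re = V0 := by rw [hV0.2, Complex.ofReal_re]
  have htw := tw_nonneg hV ha hb hab
  obtain ⟨A, hA⟩ : ∃ A : ℂ → ℂ, A = fun s => 2 * A1 s + (u * A2 s + (starRingEnd ℂ) u * A2 s) / 2 := ⟨_, rfl⟩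
  have hAc : Continuous A := by rw [hA]; fun_prop
  have hAV : A V = (((aC V).re * (2 + u.re * tw V a b) : ℝ) : ℂ) := by
    rw [hA]
    simp only
    rw [hA1v V hV, hA2v V hV, tw_one]
    have h1 : u * (((aC V).re * tw V a b : ℝ) : ℂ) + (starRingEnd ℂ) u * (((aC V).re * tw V a b : ℝ) : ℂ) =
        (((2 * u.re : ℝ)) : ℂ) * (((aC V).re * tw V a b : ℝ) : ℂ) := by
      rw [← add_mul, Complex.add_conj]
    rw [h1]
    push_cast
    ring
  refine GLD.main (muT u a b) d A V _ ?_ hd.pos hd.t0 hAc ?_ hAV ?_ h S hm hc hb1 hb2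
  · filter_upwards [eventually_gt_atTop 0] with T hT
    exact muT_fin hu a b hT
  · rw [hre]
    exact mul_pos hV0.1 (by positivity)
  intro R D ε hR hD hε
  -- constants
  obtain ⟨D', hD'⟩ : ∃ D', D' = D + R ^ 2 + 2 := ⟨_, rfl⟩
  have hD'0 : 0 < D' := by rw [hD']; positivity
  obtain ⟨C1, δ1, hC1, hδ1, hT1⟩ := t_tct R D' hR hD'0 1 1 le_rfl le_rfl (Nat.coprime_one_left 1)
  obtain ⟨C2, δ2, hC2, hδ2, hT2⟩ := t_tct R D' hR hD'0 a b ha hb hab
  obtain ⟨C3, δ3, hC3, hδ3, hT3⟩ := t_tct R D' hR hD'0 b a hb ha hab.symm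
  obtain ⟨δ4, hδ4, hL1⟩ := hA1 R (ε / 8) hR (by positivity)
  obtain ⟨δ5, hδ5, hL2⟩ := hA2 R (ε / 8) hR (by positivity)
  have hEv := Ev.app ((hC R D' (max C1 (max C2 C3)) hR hD'0 (lt_max_of_lt_left hC1)).and
    ((((Ev.of_le hδ1).and (Ev.of_le hδ2)).and ((Ev.of_le hδ3).and (Ev.of_le hδ4))).and ((Ev.of_le hδ5).and
      ((Ev.small (C := 3) (c := 1) (e := 1) one_pos one_pos).and
        (Ev.small (C := 8 + 4 * (a * b)) (c := 1) (e := ε / 4) one_pos (by positivity)))))) hd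
  filter_upwards [hEv, hd.pos, hd.t0.eventually_le_const (show (0:ℝ) < 1 / 16 by norm_num),
    eventually_ge_atTop 1] with T hE h0 h16 hT1'
  obtain ⟨⟨y, K, N, hy, hy1, hK1, hNm, hNX, hNv, hNz, hJ⟩, ⟨⟨hs1, hs2⟩, hs3, hs4⟩, hs5, hs6, hs7⟩ := hE
  obtain ⟨δ, hδ⟩ : ∃ δ, δ = d T := ⟨_, rfl⟩
  rw [← hδ] at hy1 hK1 hNv hNz hJ hs1 hs2 hs3 hs4 hs5 hs6 hs7 h0 h16 ⊢
  rw [Real.rpow_one] at hs6 hs7
  have hT0 : 0 < T := by linarith
  have hL0 : 0 ≤ Real.log (1 / δ) := by linarith [log_inv_ge h0 h16]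
  have hmx : ∀ C, C ≤ max C1 (max C2 C3) → C * Real.log (1 / δ) ≤ δ * Real.log y ∧ C * Real.log (1 / δ) ≤ K :=
    fun C hC => ⟨(mul_le_mul_of_nonneg_right hC hL0).trans hy1, (mul_le_mul_of_nonneg_right hC hL0).trans hK1⟩
  have q1 := hT1 δ h0 hs1 y K hy (hmx C1 (le_max_left _ _)).1 (hmx C1 (le_max_left _ _)).2
  have q2 := hT2 δ h0 hs2 y K hy (hmx C2 ((le_max_left _ _).trans (le_max_right _ _))).1
    (hmx C2 ((le_max_left _ _).trans (le_max_right _ _))).2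
  have q3 := hT3 δ h0 hs3 y K hy (hmx C3 ((le_max_right _ _).trans (le_max_right _ _))).1
    (hmx C3 ((le_max_right _ _).trans (le_max_right _ _))).2
  have hδ1' : δ ≤ 1 := by linarith
  refine ⟨N, hNm, ?_, hNz, fun s hs => ?_⟩
  · refine (muT_le hu a b hT0 _ hNm.compl).trans ?_
    have h1 : volume (Set.Icc 0 T ∩ Nᶜ) ≤ ENNReal.ofReal (δ ^ D' * T) := hNv
    refine (mul_le_mul_right h1 _).trans ?_
    rw [← ENNReal.ofReal_mul (by positivity)]
    refine ENNReal.ofReal_le_ofReal ?_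
    have e1 : 3 / T * (δ ^ D' * T) = 3 * δ ^ D' := by field_simp
    rw [e1, hD', show D + R ^ 2 + 2 = D + (R ^ 2 + 1) + 1 by ring, Real.rpow_add h0, Real.rpow_one, Real.rpow_add h0]
    have h2 : δ ^ (R ^ 2 + 1) ≤ 1 := Real.rpow_le_one h0.le hδ1' (by positivity)
    have h3 : 0 < δ ^ (R ^ 2 + 1) := Real.rpow_pos_of_pos h0 _
    have h4 : 0 < δ ^ D := Real.rpow_pos_of_pos h0 _
    calc 3 * (δ ^ D * δ ^ (R ^ 2 + 1) * δ) = δ ^ D * δ ^ (R ^ 2 + 1) * (3 * δ) := by ring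
      _ ≤ δ ^ D * 1 * 1 := by gcongr
      _ = δ ^ D := by ring
  obtain ⟨hint, hJ2⟩ := hJ s hs
  have hsub : N ∩ Set.Icc 0 T = N := Set.inter_eq_left.2 hNX
  obtain ⟨f, hf⟩ : ∃ f : ℝ → ℂ, f = fun t => ((‖riemannZeta (pw δ t)‖ : ℝ) : ℂ) ^ (2 * s) := ⟨_, rfl⟩
  rw [← hf] at hint
  have hint' : ∀ a b : ℕ, IntegrableOn (fun t => f t * ph a b t) N := fun a b =>
    hint.mul_bdd (c := 1) (ph_cont a b).aestronglyMeasurable (Eventually.of_forall fun t => (ph_norm a b t).le)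
  constructor
  · -- integrability
    show IntegrableOn (fun t => ((‖riemannZeta (pw δ t)‖ : ℝ) : ℂ) ^ (2 * s)) N (muT u a b T)
    rw [← hf]
    unfold IntegrableOn muT
    rw [restrict_withDensity hNm, Measure.restrict_restrict hNm, hsub]
    have h2 : (fun t => ENNReal.ofReal (wt u a b t / T)) =
      fun t => (((wt u a b t / T).toNNReal : NNReal) : ENNReal) := rfl
    rw [h2, integrable_withDensity_iff_integrable_smul ((wt_cont u a b).measurable.div_const T).real_toNNReal]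
    have h3 : Integrable (fun t => f t * (((wt u a b t / T : ℝ)) : ℂ)) (volume.restrict N) := by
      refine Integrable.mul_bdd (c := 3 / T) hint ?_ (Eventually.of_forall fun t => ?_)
      · exact (Complex.continuous_ofReal.comp ((wt_cont u a b).div_const T)).aestronglyMeasurable
      · rw [Complex.norm_real, Real.norm_of_nonneg (div_nonneg (by linarith [(wt_bd hu a b t).1]) hT0.le)]
        exact div_le_div_of_nonneg_right (wt_bd hu a b t).2 hT0.le
    refine h3.congr (Eventually.of_forall fun t => ?_)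
    simp only
    rw [NNReal.smul_def, Real.coe_toNNReal _ (div_nonneg (by linarith [(wt_bd hu a b t).1]) hT0.le), Complex.real_smul,
      mul_comm]
  -- the integral
  show ‖((2 * δ : ℝ) : ℂ) ^ (s ^ 2) * (∫ t in N, ((‖riemannZeta (pw δ t)‖ : ℝ) : ℂ) ^ (2 * s) ∂(muT u a b T)) - A s‖ ≤ ε
  have e1 : ∫ t in N, ((‖riemannZeta (pw δ t)‖ : ℝ) : ℂ) ^ (2 * s) ∂(muT u a b T) =
      (1 / T : ℂ) * (2 * (∫ t in N, f t * ph 1 1 t) +
        (u * (∫ t in N, f t * ph a b t) + (starRingEnd ℂ) u * (∫ t in N, f t * ph b a t)) / 2) := by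
    rw [int_muT hu a b hT0 N hNm, hsub, ← integral_const_mul, ← integral_const_mul, ← integral_const_mul, ← integral_add,
      ← integral_div, ← integral_add, ← integral_const_mul]
    · refine integral_congr_ae (Eventually.of_forall fun t => ?_)
      simp only
      rw [Complex.real_smul, hf]
      push_cast
      rw [wt_eq]
      ring
    · exact (hint' 1 1).const_mul 2
    · exact (((hint' a b).const_mul u).add ((hint' b a).const_mul _)).div_const 2
    · exact (hint' a b).const_mul u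
    · exact (hint' b a).const_mul _
  rw [e1]
  have j1 := hJ2 1 1 le_rfl le_rfl
  have j2 := hJ2 a b ha hb
  have j3 := hJ2 b a hb ha
  have hf' : ∀ t, ((‖riemannZeta (pw δ t)‖ : ℝ) : ℂ) ^ (2 * s) = f t := fun t => by rw [hf]
  simp only [hf'] at j1 j2 j3
  obtain ⟨I1, hI1⟩ : ∃ I1, I1 = ∫ t in N, f t * ph 1 1 t := ⟨_, rfl⟩
  obtain ⟨I2, hI2⟩ : ∃ I1, I1 = ∫ t in N, f t * ph a b t := ⟨_, rfl⟩
  obtain ⟨I3, hI3⟩ : ∃ I1, I1 = ∫ t in N, f t * ph b a t := ⟨_, rfl⟩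
  rw [← hI1] at j1 ⊢
  rw [← hI2] at j2 ⊢
  rw [← hI3] at j3 ⊢
  obtain ⟨z, hz⟩ : ∃ z : ℂ, z = ((2 * δ : ℝ) : ℂ) ^ (s ^ 2) := ⟨_, rfl⟩
  have hzn : ‖z‖ ≤ δ ^ (-(R ^ 2)) := by rw [hz]; exact CM.cpow_norm h0 h16 s hs
  have hzD : ‖z‖ * δ ^ D' ≤ δ := by
    calc ‖z‖ * δ ^ D' ≤ δ ^ (-(R ^ 2)) * δ ^ D' := mul_le_mul_of_nonneg_right hzn (by positivity)
      _ = δ ^ (D + 1) * δ := by
        rw [← Real.rpow_add h0, hD', show -(R ^ 2) + (D + R ^ 2 + 2) = (D + 1) + 1 by ring, Real.rpow_add h0, Real.rpow_one]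
      _ ≤ 1 * δ := mul_le_mul_of_nonneg_right (Real.rpow_le_one h0.le hδ1' (by linarith)) h0.le
      _ = δ := one_mul _
  have hTc : (T:ℂ) ≠ 0 := by exact_mod_cast hT0.ne'
  -- one term
  have one : ∀ (J W L : ℂ) (cc e : ℝ) (X : ℂ), ‖J - T * W‖ ≤ δ ^ D' * T * cc → ‖W - X‖ ≤ δ ^ D' → ‖z * X - L‖ ≤ e →
      0 ≤ cc → ‖z * ((1 / T : ℂ) * J) - L‖ ≤ δ * cc + δ + e := by
    intro J W L cc e X g1 g2 g3 hcc
    have e1 : z * ((1 / T : ℂ) * J) - L = z * ((1 / T : ℂ) * (J - T * W)) + z * (W - X) + (z * X - L) := by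
      field_simp
      ring
    rw [e1]
    refine (norm_add₃_le).trans ?_
    have k1 : ‖z * ((1 / T : ℂ) * (J - T * W))‖ ≤ δ * cc := by
      rw [norm_mul, norm_mul, norm_div, norm_one, Complex.norm_real, Real.norm_of_nonneg hT0.le]
      calc ‖z‖ * (1 / T * ‖J - T * W‖) ≤ ‖z‖ * (1 / T * (δ ^ D' * T * cc)) := by gcongr
        _ = (‖z‖ * δ ^ D') * cc := by field_simp
        _ ≤ δ * cc := mul_le_mul_of_nonneg_right hzD hcc
    have k2 : ‖z * (W - X)‖ ≤ δ := by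
      rw [norm_mul]
      exact (mul_le_mul_of_nonneg_left g2 (norm_nonneg _)).trans hzD
    linarith
  have m1 := one I1 (TCt s δ y K 1 1) (A1 s) (((1:ℕ):ℝ) * ((1:ℕ):ℝ)) (ε / 8) (TC s δ 1 1) j1 (q1 s hs)
    (by rw [hz]; exact hL1 δ h0 hs4 s hs) (by positivity)
  have m2 := one I2 (TCt s δ y K a b) (A2 s) (a * b) (ε / 8) (TC s δ a b) j2 (q2 s hs)
    (by rw [hz]; exact hL2 δ h0 hs5 s hs) (by positivity)
  have m3 := one I3 (TCt s δ y K b a) (A2 s) (b * a) (ε / 8) (TC s δ b a) j3 (q3 s hs)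
    (by rw [hz, TC_comm]; exact hL2 δ h0 hs5 s hs) (by positivity)
  rw [← hz, hA]
  simp only
  have e2 : z * ((1 / T : ℂ) * (2 * I1 + (u * I2 + (starRingEnd ℂ) u * I3) / 2)) -
      (2 * A1 s + (u * A2 s + (starRingEnd ℂ) u * A2 s) / 2) =
      2 * (z * ((1 / T : ℂ) * I1) - A1 s) + (u / 2) * (z * ((1 / T : ℂ) * I2) - A2 s) +
        ((starRingEnd ℂ) u / 2) * (z * ((1 / T : ℂ) * I3) - A2 s) := by ring
  rw [e2]
  refine (norm_add₃_le).trans ?_
  rw [norm_mul, norm_mul, norm_mul, norm_div, norm_div, RCLike.norm_conj, Complex.norm_two]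
  have n1 : 2 * ‖z * ((1 / T : ℂ) * I1) - A1 s‖ ≤ 2 * (δ * (((1:ℕ):ℝ) * ((1:ℕ):ℝ)) + δ + ε / 8) :=
    mul_le_mul_of_nonneg_left m1 (by norm_num)
  have n2 : ‖u‖ / 2 * ‖z * ((1 / T : ℂ) * I2) - A2 s‖ ≤ 1 * (δ * (a * b) + δ + ε / 8) :=
    mul_le_mul (by linarith) m2 (norm_nonneg _) (by norm_num)
  have n3 : ‖u‖ / 2 * ‖z * ((1 / T : ℂ) * I3) - A2 s‖ ≤ 1 * (δ * (b * a) + δ + ε / 8) :=
    mul_le_mul (by linarith) m3 (norm_nonneg _) (by norm_num)
  push_cast at n1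
  have hab0 : (0:ℝ) ≤ a * b := by positivity
  nlinarith

/-- (TLD) -/
theorem t_tld (hC : S_CTW) : S_TLD := by
  intro d hd V hV a b ha hb hab h S hm hc hb1 hb2
  obtain ⟨C, hCb⟩ := hb1
  have w0 := wld hC d hd V hV a b ha hb hab 0 (by simp) (by simp) h S hm hc ⟨C, hCb⟩ hb2
  have w1 := wld hC d hd V hV a b ha hb hab 1 (by simp) (by simp) h S hm hc ⟨C, hCb⟩ hb2
  have w2 := wld hC d hd V hV a b ha hb hab Complex.I (by simp) (by simp) h S hm hc ⟨C, hCb⟩ hb2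
  obtain ⟨H, hH⟩ : ∃ H, H = ∫ x, Real.exp (-(2 * V * x)) * h x := ⟨_, rfl⟩
  rw [← hH] at w0 w1 w2 ⊢
  obtain ⟨G, hG⟩ : ∃ G : ℝ → ℝ, G = fun T => Real.sqrt (Real.pi * Real.log (1 / (2 * d T))) * (2 * d T) ^ (-(V ^ 2)) := ⟨_, rfl⟩
  obtain ⟨hX, hhX⟩ : ∃ hX : ℝ → ℝ → ℝ, hX = fun T t =>
    h (Real.log ‖riemannZeta (pw (d T) t)‖ - V * Real.log (1 / (2 * d T))) := ⟨_, rfl⟩
  have e : ∀ T, 0 < T → 0 < d T → d T ≤ 1 / 16 → ∀ u : ℂ, ‖u‖ ≤ 1 → ∫ t, hX T t ∂(muT u a b T) =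
      (1 / T) * ∫ t in (0:ℝ)..T, hX T t * wt u a b t := by
    intro T hT _ _ u hu
    have h1 := int_muT hu a b hT Set.univ MeasurableSet.univ (hX T)
    rw [Measure.restrict_univ, Set.univ_inter] at h1
    rw [h1, intervalIntegral.integral_of_le hT.le, ← integral_Icc_eq_integral_Ioc, ← integral_const_mul]
    refine integral_congr_ae (Eventually.of_forall fun t => ?_)
    simp only [smul_eq_mul]
    ring
  have hsm : ∀ᶠ T in atTop, 0 < T ∧ 0 < d T ∧ d T ≤ 1 / 16 := by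
    filter_upwards [eventually_gt_atTop 0, hd.pos, hd.t0.eventually_le_const (show (0:ℝ) < 1 / 16 by norm_num)]
      with T g1 g2 g3
    exact ⟨g1, g2, g3⟩
  have hi : ∀ T, 0 < T → 0 < d T → d T ≤ 1 / 16 → ∀ w : ℝ → ℝ, Continuous w → IntervalIntegrable (fun t => hX T t * w t) volume 0 T := by
    intro T hT h0 h16 w hw
    have hcw : IntervalIntegrable w volume 0 T := hw.intervalIntegrable _ _
    have hmm : Measurable (hX T) := by rw [hhX]; exact hm.comp (LD.X_meas h0 h16 V)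
    rw [intervalIntegrable_iff] at hcw ⊢
    refine (hcw.bdd_mul (c := C) hmm.aestronglyMeasurable (Eventually.of_forall fun t => ?_))
    rw [hhX]
    exact hCb _
  -- differences
  have l1 : Tendsto (fun T => G T * ((1 / T) * ∫ t in (0:ℝ)..T, hX T t * (ph a b t).re)) atTop
      (𝓝 ((aC V).re * tw V a b * H)) := by
    have h1 := w1.sub w0
    have e1 : (aC V).re * (2 + (1:ℂ).re * tw V a b) * H - (aC V).re * (2 + (0:ℂ).re * tw V a b) * H =
        (aC V).re * tw V a b * H := by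
      simp only [Complex.one_re, Complex.zero_re]
      ring
    rw [e1] at h1
    refine h1.congr' ?_
    filter_upwards [hsm] with T ⟨g1, g2, g3⟩
    have k1 := e T g1 g2 g3 1 (by simp)
    have k0 := e T g1 g2 g3 0 (by simp)
    rw [hhX] at k1 k0
    simp only at k1 k0
    rw [k1, k0, hG, ← mul_sub, ← mul_sub, ← intervalIntegral.integral_sub]
    · rw [hhX]
      congr 2
      refine intervalIntegral.integral_congr fun t _ => ?_
      simp only
      unfold wt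
      rw [one_mul, zero_mul, Complex.zero_re]
      ring
    · have := hi T g1 g2 g3 _ (wt_cont 1 a b)
      rw [hhX] at this
      exact this
    · have := hi T g1 g2 g3 _ (wt_cont 0 a b)
      rw [hhX] at this
      exact this
  have l2 : Tendsto (fun T => G T * ((1 / T) * ∫ t in (0:ℝ)..T, hX T t * (ph a b t).im)) atTop (𝓝 0) := by
    have h1 := w0.sub w2
    have e1 : (aC V).re * (2 + (0:ℂ).re * tw V a b) * H - (aC V).re * (2 + (Complex.I).re * tw V a b) * H = 0 := by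
      simp only [Complex.I_re, Complex.zero_re]
      ring
    rw [e1] at h1
    refine h1.congr' ?_
    filter_upwards [hsm] with T ⟨g1, g2, g3⟩
    have k1 := e T g1 g2 g3 Complex.I (by simp)
    have k0 := e T g1 g2 g3 0 (by simp)
    rw [hhX] at k1 k0
    simp only at k1 k0
    rw [k1, k0, hG, ← mul_sub, ← mul_sub, ← intervalIntegral.integral_sub]
    · rw [hhX]
      congr 2
      refine intervalIntegral.integral_congr fun t _ => ?_
      simp only
      unfold wt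
      rw [zero_mul, Complex.zero_re, Complex.mul_re, Complex.I_re, Complex.I_im]
      ring
    · have := hi T g1 g2 g3 _ (wt_cont 0 a b)
      rw [hhX] at this
      exact this
    · have := hi T g1 g2 g3 _ (wt_cont Complex.I a b)
      rw [hhX] at this
      exact this
  have l3 : Tendsto (fun T => (((G T * ((1 / T) * ∫ t in (0:ℝ)..T, hX T t * (ph a b t).re) : ℝ)) : ℂ) +
      (((G T * ((1 / T) * ∫ t in (0:ℝ)..T, hX T t * (ph a b t).im) : ℝ)) : ℂ) * Complex.I) atTop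
      (𝓝 ((((aC V).re * tw V a b * H : ℝ) : ℂ) + ((0:ℝ) : ℂ) * Complex.I)) :=
    ((Complex.continuous_ofReal.tendsto _).comp l1).add
      (((Complex.continuous_ofReal.tendsto _).comp l2).mul_const _)
  rw [Complex.ofReal_zero, zero_mul, add_zero] at l3
  refine l3.congr' ?_
  filter_upwards [hsm] with T ⟨g1, g2, g3⟩
  have hcre : Continuous fun t => (ph a b t).re := Complex.continuous_re.comp (ph_cont a b)
  have hcim : Continuous fun t => (ph a b t).im := Complex.continuous_im.comp (ph_cont a b)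
  have i1 := hi T g1 g2 g3 _ hcre
  have i2 := hi T g1 g2 g3 _ hcim
  have e3 : ∫ t in (0:ℝ)..T, ((hX T t : ℝ) : ℂ) * ph a b t =
      ((∫ t in (0:ℝ)..T, hX T t * (ph a b t).re : ℝ) : ℂ) + ((∫ t in (0:ℝ)..T, hX T t * (ph a b t).im : ℝ) : ℂ) * Complex.I := by
    rw [← intervalIntegral.integral_ofReal, ← intervalIntegral.integral_ofReal, ← intervalIntegral.integral_mul_const,
      ← intervalIntegral.integral_add]
    · refine intervalIntegral.integral_congr fun t _ => ?_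
      have := Complex.re_add_im (ph a b t)
      calc ((hX T t : ℝ) : ℂ) * ph a b t = ((hX T t : ℝ) : ℂ) * (((ph a b t).re : ℂ) + ((ph a b t).im : ℂ) * Complex.I) := by
            rw [this]
        _ = _ := by push_cast; ring
    · rw [intervalIntegrable_iff] at i1 ⊢
      exact i1.ofReal
    · rw [intervalIntegrable_iff] at i2 ⊢
      exact (i2.ofReal (𝕜 := ℂ)).mul_const _
  have e4 : (fun t => ((h (Real.log ‖riemannZeta (pw (d T) t)‖ - V * Real.log (1 / (2 * d T))) : ℝ) : ℂ) * ph a b t) =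
      fun t => ((hX T t : ℝ) : ℂ) * ph a b t := by rw [hhX]
  rw [e4, e3, hG]
  push_cast
  ring

end Run7.h310.SQ
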