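import Pool.Agent.Run7.h310.SQ.E1
import Pool.Agent.Run7.h310.SP.A7

set_option autoImplicit false

/-! # Project SQ: the local limit theorem for `log |ζ|` jointly with the phases of the primes -/

namespace Run7.h310.SQ

open Finset Filter MeasureTheory Topology Complex
open Pool.Agent.N748.MG Run7.h310.SP

/-- from the monomials to the continuous functions on the torus -/
theorem torus_law {P : Finset ℕ} (A : ℝ → C(UnitAddTorus P, ℂ) → ℂ) (Λ : C(UnitAddTorus P, ℂ) → ℂ) (B : ℝ)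
    (hB : 0 ≤ B)
    (hadd : ∀ F G : C(UnitAddTorus P, ℂ), ∀ᶠ T in atTop, A T (F + G) = A T F + A T G)
    (hsmul : ∀ (c : ℂ) (F : C(UnitAddTorus P, ℂ)), ∀ T, A T (c • F) = c * A T F)
    (hzero : ∀ T, A T 0 = 0) (hzeroΛ : Λ 0 = 0)
    (haddΛ : ∀ F G : C(UnitAddTorus P, ℂ), Λ (F + G) = Λ F + Λ G)
    (hsmulΛ : ∀ (c : ℂ) (F : C(UnitAddTorus P, ℂ)), Λ (c • F) = c * Λ F)
    (hbd : ∀ᶠ T in atTop, ∀ F : C(UnitAddTorus P, ℂ), ‖A T F‖ ≤ B * ‖F‖)
    (hbdΛ : ∀ F : C(UnitAddTorus P, ℂ), ‖Λ F‖ ≤ B * ‖F‖)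
    (hmono : ∀ n : P → ℤ, Tendsto (fun T => A T (UnitAddTorus.mFourier n)) atTop (𝓝 (Λ (UnitAddTorus.mFourier n))))
    (F : C(UnitAddTorus P, ℂ)) : Tendsto (fun T => A T F) atTop (𝓝 (Λ F)) := by
  have hspan : ∀ G ∈ Submodule.span ℂ (Set.range (UnitAddTorus.mFourier (d := P))),
      Tendsto (fun T => A T G) atTop (𝓝 (Λ G)) := by
    intro G hG
    induction hG using Submodule.span_induction with
    | mem x hx =>
      obtain ⟨n, rfl⟩ := hx
      exact hmono n
    | zero =>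
      rw [hzeroΛ]
      simp only [hzero]
      exact tendsto_const_nhds
    | add x y _ _ hx hy =>
      rw [haddΛ]
      refine (hx.add hy).congr' ?_
      filter_upwards [hadd x y] with T hT
      exact hT.symm
    | smul c x _ hx =>
      rw [hsmulΛ]
      simp only [hsmul]
      exact hx.const_mul c
  rw [Metric.tendsto_atTop']
  intro ε hε
  have hmem : F ∈ closure ((Submodule.span ℂ (Set.range (UnitAddTorus.mFourier (d := P))) : Submodule ℂ C(UnitAddTorus P, ℂ)) :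
      Set C(UnitAddTorus P, ℂ)) := by
    rw [← Submodule.topologicalClosure_coe, UnitAddTorus.span_mFourier_closure_eq_top]
    trivial
  obtain ⟨G, hG, hFG⟩ := Metric.mem_closure_iff.1 hmem (ε / (2 * (2 * B + 2))) (by positivity)
  have hG2 := hspan G hG
  have hGe : ∀ᶠ T in atTop, ‖A T G - Λ G‖ < ε / 2 := by
    have := (Metric.tendsto_nhds.1 hG2) (ε / 2) (by positivity)
    filter_upwards [this] with T hT
    rwa [dist_eq_norm] at hT
  obtain ⟨N, hN⟩ := eventually_atTop.1 (hGe.and (hbd.and (hadd (F - G) G)))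
  refine ⟨N, fun T hT => ?_⟩
  obtain ⟨g2, g3, g4⟩ := hN T hT.le
  rw [dist_eq_norm] at hFG ⊢
  rw [sub_add_cancel] at g4
  have e1 : Λ F = Λ (F - G) + Λ G := by rw [← haddΛ, sub_add_cancel]
  rw [g4, e1]
  have e2 : A T (F - G) + A T G - (Λ (F - G) + Λ G) = A T (F - G) - Λ (F - G) + (A T G - Λ G) := by ring
  rw [e2]
  have n1 := norm_add_le (A T (F - G) - Λ (F - G)) (A T G - Λ G)
  have n2 := norm_sub_le (A T (F - G)) (Λ (F - G))
  have n3 := g3 (F - G)
  have n4 := hbdΛ (F - G)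
  have n6 : (2 * B + 2) * ‖F - G‖ < ε / 2 := by
    have h5 := mul_lt_mul_of_pos_left hFG (show 0 < 2 * B + 2 by linarith)
    have h6 : (2 * B + 2) * (ε / (2 * (2 * B + 2))) = ε / 2 := by
      field_simp
    linarith
  nlinarith [norm_nonneg (F - G)]

/-- the variable `log |ζ| - V log (1/(2δ))` -/
noncomputable def XV (δ V t : ℝ) : ℝ := Real.log (mz δ t) - V * Real.log (1 / (2 * δ))

/-- the normalisation -/
noncomputable def GV (δ V : ℝ) : ℝ := Real.sqrt (Real.pi * Real.log (1 / (2 * δ))) * (2 * δ) ^ (-(V ^ 2))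

/-- the joint law -/
theorem joint (hC : S_CTW) (hLD : S_LD) (d : ℝ → ℝ) (hd : Ad d) (V : ℝ) (hV : 0 < V) (h : ℝ → ℝ) (S : Finset ℝ)
    (hm : Measurable h) (hc : ∀ x, x ∉ S → ContinuousAt h x) (hb1 : ∃ C : ℝ, ∀ x, |h x| ≤ C)
    (hb2 : ∃ C : ℝ, ∀ x, |h x| * (1 + x ^ 2) ≤ C * Real.exp (2 * V * x))
    (P : Finset ℕ) (hP : ∀ p ∈ P, p.Prime) (F : C(UnitAddTorus P, ℂ)) :
    Tendsto (fun T : ℝ => ((GV (d T) V * (1 / T) : ℝ) : ℂ) * ∫ t in (0:ℝ)..T, ((h (XV (d T) V t) : ℝ) : ℂ) * F (thP P t))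
      atTop (𝓝 ((((aC V).re * ∫ x, Real.exp (-(2 * V * x)) * h x : ℝ) : ℂ) * ∫ x, F x * ((dens V P x : ℝ) : ℂ) ∂(hT P))) := by
  obtain ⟨C1, hC1⟩ := hb1
  obtain ⟨C2, hC2⟩ := hb2
  obtain ⟨V0, hV0, hVe⟩ := CON.real_pos V
  have hre : (aC V).re = V0 := by rw [hVe, Complex.ofReal_re]
  -- the limit of the absolute values
  have habs := hLD d hd V (fun x => |h x|) S hm.abs (fun x hx => (hc x hx).abs)
    ⟨C1, fun x => by rw [abs_abs]; exact hC1 x⟩ ⟨C2, fun x => by rw [abs_abs]; exact hC2 x⟩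
  obtain ⟨Ha, hHa⟩ : ∃ H, H = (aC V).re * ∫ x, Real.exp (-(2 * V * x)) * |h x| := ⟨_, rfl⟩
  rw [← hHa] at habs
  have hHa0 : 0 ≤ Ha := by
    rw [hHa, hre]
    refine mul_nonneg hV0.le (integral_nonneg fun x => mul_nonneg (Real.exp_pos _).le (abs_nonneg _))
  obtain ⟨H, hH⟩ : ∃ H, H = ∫ x, Real.exp (-(2 * V * x)) * h x := ⟨_, rfl⟩
  have hHH : |(aC V).re * H| ≤ Ha := by
    rw [hHa, hH, abs_mul, hre, abs_of_pos hV0]
    refine mul_le_mul_of_nonneg_left ?_ hV0.le
    rw [← Real.norm_eq_abs]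
    refine (norm_integral_le_integral_norm _).trans (le_of_eq ?_)
    refine integral_congr_ae (Eventually.of_forall fun x => ?_)
    simp only
    rw [norm_mul, Real.norm_of_nonneg (Real.exp_pos _).le, Real.norm_eq_abs]
  rw [← hH]
  -- small distances
  have hsm : ∀ᶠ T in atTop, 0 < T ∧ 0 < d T ∧ d T ≤ 1 / 16 := by
    filter_upwards [eventually_gt_atTop 0, hd.pos, hd.t0.eventually_le_const (show (0:ℝ) < 1 / 16 by norm_num)]
      with T g1 g2 g3
    exact ⟨g1, g2, g3⟩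
  have hmeas : ∀ T, 0 < d T → d T ≤ 1 / 16 → Measurable fun t => h (XV (d T) V t) := fun T h0 h16 =>
    hm.comp (LD.X_meas h0 h16 V)
  have hGnn : ∀ T, 0 < d T → 0 ≤ GV (d T) V := fun T h0 => mul_nonneg (Real.sqrt_nonneg _) (Real.rpow_nonneg (by linarith) _)
  have hi : ∀ T, 0 < T → 0 < d T → d T ≤ 1 / 16 → ∀ F : C(UnitAddTorus P, ℂ),
      IntervalIntegrable (fun t => ((h (XV (d T) V t) : ℝ) : ℂ) * F (thP P t)) volume 0 T := by
    intro T hT h0 h16 F
    have hcw : IntervalIntegrable (fun t => F (thP P t)) volume 0 T := (F.continuous.comp (thP_cont P)).intervalIntegrable _ _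
    rw [intervalIntegrable_iff] at hcw ⊢
    refine (hcw.bdd_mul (c := C1) (Complex.measurable_ofReal.comp (hmeas T h0 h16)).aestronglyMeasurable
      (Eventually.of_forall fun t => ?_))
    rw [Complex.norm_real]
    exact hC1 _
  have hi0 : ∀ T, 0 < T → 0 < d T → d T ≤ 1 / 16 → IntervalIntegrable (fun t => |h (XV (d T) V t)|) volume 0 T := by
    intro T hT h0 h16
    rw [intervalIntegrable_iff]
    refine Measure.integrableOn_of_bounded (M := C1) ?_ (hmeas T h0 h16).abs.aestronglyMeasurable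
      (Eventually.of_forall fun t => ?_)
    · rw [Set.uIoc_of_le hT.le, Real.volume_Ioc]
      exact ENNReal.ofReal_ne_top
    · rw [Real.norm_eq_abs, abs_abs]
      exact hC1 _
  have hdi : Integrable (fun x => dens V P x) (hT P) :=
    Continuous.integrable_of_hasCompactSupport (dens_cont hP) (HasCompactSupport.of_compactSpace _)
  have hintΛ : ∀ F : C(UnitAddTorus P, ℂ), Integrable (fun x => F x * ((dens V P x : ℝ) : ℂ)) (hT P) := fun F =>
    Continuous.integrable_of_hasCompactSupport (F.continuous.mul (Complex.continuous_ofReal.comp (dens_cont hP)))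
      (HasCompactSupport.of_compactSpace _)
  refine torus_law (P := P) (fun T F => ((GV (d T) V * (1 / T) : ℝ) : ℂ) *
      ∫ t in (0:ℝ)..T, ((h (XV (d T) V t) : ℝ) : ℂ) * F (thP P t))
    (fun F => ((((aC V).re * H : ℝ)) : ℂ) * ∫ x, F x * ((dens V P x : ℝ) : ℂ) ∂(hT P)) (Ha + 1) (by linarith)
    ?_ ?_ ?_ ?_ ?_ ?_ ?_ ?_ ?_ F
  · intro F G
    filter_upwards [hsm] with T ⟨g1, g2, g3⟩
    rw [← mul_add, ← intervalIntegral.integral_add (hi T g1 g2 g3 F) (hi T g1 g2 g3 G)]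
    congr 1
    refine intervalIntegral.integral_congr fun t _ => ?_
    simp only [ContinuousMap.add_apply]
    ring
  · intro c F T
    have : (∫ t in (0:ℝ)..T, ((h (XV (d T) V t) : ℝ) : ℂ) * (c • F) (thP P t)) =
        c * ∫ t in (0:ℝ)..T, ((h (XV (d T) V t) : ℝ) : ℂ) * F (thP P t) := by
      rw [← intervalIntegral.integral_const_mul]
      refine intervalIntegral.integral_congr fun t _ => ?_
      simp only [ContinuousMap.smul_apply, smul_eq_mul]
      ring
    simp only [this]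
    ring
  · intro T
    simp
  · simp
  · intro F G
    rw [← mul_add, ← integral_add (hintΛ F) (hintΛ G)]
    congr 1
    refine integral_congr_ae (Eventually.of_forall fun t => ?_)
    simp only [ContinuousMap.add_apply]
    ring
  · intro c F
    have : (∫ x, (c • F) x * ((dens V P x : ℝ) : ℂ) ∂(hT P)) = c * ∫ x, F x * ((dens V P x : ℝ) : ℂ) ∂(hT P) := by
      rw [← integral_const_mul]
      refine integral_congr_ae (Eventually.of_forall fun t => ?_)
      simp only [ContinuousMap.smul_apply, smul_eq_mul]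
      ring
    simp only [this]
    ring
  · have hle : ∀ᶠ T in atTop, GV (d T) V * (1 / T * ∫ t in (0:ℝ)..T, |h (XV (d T) V t)|) ≤ Ha + 1 :=
      habs.eventually_le_const (by linarith)
    filter_upwards [hsm, hle] with T ⟨g1, g2, g3⟩ g4 F
    have hG0 := hGnn T g2
    rw [norm_mul, Complex.norm_real, Real.norm_of_nonneg (mul_nonneg hG0 (by positivity))]
    have g5 : ‖∫ t in (0:ℝ)..T, ((h (XV (d T) V t) : ℝ) : ℂ) * F (thP P t)‖ ≤
        (∫ t in (0:ℝ)..T, |h (XV (d T) V t)|) * ‖F‖ := by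
      refine (intervalIntegral.norm_integral_le_integral_norm g1.le).trans ?_
      rw [← intervalIntegral.integral_mul_const]
      refine intervalIntegral.integral_mono_on g1.le (hi T g1 g2 g3 F).norm ((hi0 T g1 g2 g3).mul_const _) fun t _ => ?_
      rw [norm_mul, Complex.norm_real, Real.norm_eq_abs]
      exact mul_le_mul_of_nonneg_left (F.norm_coe_le_norm _) (abs_nonneg _)
    calc GV (d T) V * (1 / T) * ‖∫ t in (0:ℝ)..T, ((h (XV (d T) V t) : ℝ) : ℂ) * F (thP P t)‖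
        ≤ GV (d T) V * (1 / T) * ((∫ t in (0:ℝ)..T, |h (XV (d T) V t)|) * ‖F‖) :=
          mul_le_mul_of_nonneg_left g5 (mul_nonneg hG0 (by positivity))
      _ = (GV (d T) V * (1 / T * ∫ t in (0:ℝ)..T, |h (XV (d T) V t)|)) * ‖F‖ := by ring
      _ ≤ (Ha + 1) * ‖F‖ := mul_le_mul_of_nonneg_right g4 (norm_nonneg _)
  · intro F
    rw [norm_mul, Complex.norm_real, Real.norm_eq_abs]
    have g1 : ‖∫ x, F x * ((dens V P x : ℝ) : ℂ) ∂(hT P)‖ ≤ ‖F‖ := by
      refine (norm_integral_le_integral_norm _).trans ?_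
      calc ∫ x, ‖F x * ((dens V P x : ℝ) : ℂ)‖ ∂(hT P) ≤ ∫ x, ‖F‖ * dens V P x ∂(hT P) := by
            refine integral_mono (hintΛ F).norm (hdi.const_mul _) fun x => ?_
            simp only [norm_mul, Complex.norm_real, Real.norm_of_nonneg (dens_nonneg hV hP x)]
            exact mul_le_mul_of_nonneg_right (F.norm_coe_le_norm _) (dens_nonneg hV hP x)
        _ = ‖F‖ := by rw [integral_const_mul, int_dens_one hV hP, mul_one]
    exact mul_le_mul (hHH.trans (by linarith)) g1 (norm_nonneg _) (by linarith)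
  · intro n
    have h3 := t_tld hC d hd V hV (nuP P n) (nuP P (-n)) (nuP_pos hP n) (nuP_pos hP (-n)) (nuP_coprime hP n) h S hm hc
      ⟨C1, hC1⟩ ⟨C2, hC2⟩
    have e1 : ((((aC V).re * H : ℝ)) : ℂ) * ∫ x, UnitAddTorus.mFourier n x * ((dens V P x : ℝ) : ℂ) ∂(hT P) =
        (((aC V).re * tw V (nuP P n) (nuP P (-n)) * ∫ x, Real.exp (-(2 * V * x)) * h x : ℝ) : ℂ) := by
      rw [int_dens hV hP n, hH]
      push_cast
      ring
    rw [e1]
    refine h3.congr fun T => ?_
    simp only [mono hP n]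
    unfold GV XV mz
    push_cast
    ring

end Run7.h310.SQ
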