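import Pool.Agent.Run7.h310.SQ.E2

set_option autoImplicit false

/-! # Project SQ: indicator functions of half lines, large values -/

namespace Run7.h310.SQ

open Finset Filter MeasureTheory Topology Complex
open Pool.Agent.N748.MG Run7.h310.SP

/-- the indicator function of the half line -/
noncomputable def hI (c x : ℝ) : ℝ := Set.indicator (Set.Ioi (Real.log c)) (fun _ => (1:ℝ)) x

lemma hI_meas (c : ℝ) : Measurable (hI c) := measurable_const.indicator measurableSet_Ioi

lemma hI_nonneg (c x : ℝ) : 0 ≤ hI c x := Set.indicator_nonneg (fun _ _ => zero_le_one) _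

lemma hI_le (c x : ℝ) : hI c x ≤ 1 := by
  unfold hI
  by_cases h : x ∈ Set.Ioi (Real.log c)
  · rw [Set.indicator_of_mem h]
  · rw [Set.indicator_of_notMem h]
    exact zero_le_one

lemma hI_cont (c : ℝ) : ∀ x, x ∉ ({Real.log c} : Finset ℝ) → ContinuousAt (hI c) x := by
  intro x hx
  rw [Finset.mem_singleton] at hx
  rcases lt_or_gt_of_ne hx with h | h
  · have : hI c =ᶠ[𝓝 x] fun _ => 0 := by
      filter_upwards [gt_mem_nhds h] with y hy
      unfold hI
      rw [Set.indicator_of_notMem]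
      rw [Set.mem_Ioi]
      exact not_lt.2 hy.le
    exact continuousAt_const.congr this.symm
  · have : hI c =ᶠ[𝓝 x] fun _ => 1 := by
      filter_upwards [lt_mem_nhds h] with y hy
      unfold hI
      rw [Set.indicator_of_mem]
      exact hy
    exact continuousAt_const.congr this.symm

lemma hI_bd1 (c : ℝ) : ∃ C : ℝ, ∀ x, |hI c x| ≤ C :=
  ⟨1, fun x => by rw [abs_of_nonneg (hI_nonneg c x)]; exact hI_le c x⟩

lemma hI_bd2 (c : ℝ) {V : ℝ} (hV : 0 < V) : ∃ C : ℝ, ∀ x, |hI c x| * (1 + x ^ 2) ≤ C * Real.exp (2 * V * x) := by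
  -- for positive arguments
  have h1 : ∀ y : ℝ, 0 ≤ y → 1 + y ^ 2 ≤ (1 + 1 / (2 * V ^ 2)) * Real.exp (2 * V * y) := by
    intro y hy
    have h2 := Real.quadratic_le_exp_of_nonneg (x := 2 * V * y) (by positivity)
    have h3 : 1 ≤ Real.exp (2 * V * y) := Real.one_le_exp (by positivity)
    have h4 : y ^ 2 ≤ 1 / (2 * V ^ 2) * Real.exp (2 * V * y) := by
      have h5 : 2 * V ^ 2 * y ^ 2 ≤ Real.exp (2 * V * y) := by
        have : 0 ≤ 2 * V * y := by positivity
        nlinarith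
      rw [div_mul_eq_mul_div, one_mul, le_div_iff₀ (by positivity)]
      linarith
    linarith
  obtain ⟨l, hl⟩ : ∃ l, l = Real.log c := ⟨_, rfl⟩
  refine ⟨2 * (1 + l ^ 2) * (1 + 1 / (2 * V ^ 2)) * Real.exp (-(2 * V * l)), fun x => ?_⟩
  by_cases h : x ∈ Set.Ioi (Real.log c)
  · unfold hI
    rw [Set.indicator_of_mem h, abs_one, one_mul]
    have hx : 0 ≤ x - l := by
      rw [Set.mem_Ioi, ← hl] at h
      linarith
    have h2 := h1 (x - l) hx
    have h3 : 1 + x ^ 2 ≤ 2 * (1 + l ^ 2) * (1 + (x - l) ^ 2) := by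
      nlinarith [sq_nonneg (x - 2 * l), sq_nonneg (l * (x - l)), sq_nonneg (x - l - l)]
    have h4 : Real.exp (2 * V * (x - l)) = Real.exp (-(2 * V * l)) * Real.exp (2 * V * x) := by
      rw [← Real.exp_add]
      congr 1
      ring
    calc 1 + x ^ 2 ≤ 2 * (1 + l ^ 2) * (1 + (x - l) ^ 2) := h3
      _ ≤ 2 * (1 + l ^ 2) * ((1 + 1 / (2 * V ^ 2)) * Real.exp (2 * V * (x - l))) :=
          mul_le_mul_of_nonneg_left h2 (by positivity)
      _ = _ := by rw [h4]; ring
  · unfold hI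
    rw [Set.indicator_of_notMem h, abs_zero, zero_mul]
    positivity

lemma hI_int {c : ℝ} (hc : 0 < c) {V : ℝ} (hV : 0 < V) : ∫ x, Real.exp (-(2 * V * x)) * hI c x = c ^ (-(2 * V)) / (2 * V) := by
  have e : ∀ x, Real.exp (-(2 * V * x)) * hI c x =
      Set.indicator (Set.Ioi (Real.log c)) (fun x => Real.exp (-(2 * V) * x)) x := by
    intro x
    unfold hI
    by_cases h : x ∈ Set.Ioi (Real.log c)
    · rw [Set.indicator_of_mem h, Set.indicator_of_mem h, mul_one]
      congr 1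
      ring
    · rw [Set.indicator_of_notMem h, Set.indicator_of_notMem h, mul_zero]
  simp only [e]
  rw [integral_indicator measurableSet_Ioi, integral_exp_mul_Ioi (by linarith), Real.rpow_def_of_pos hc, neg_div_neg_eq]
  congr 2
  ring

/-- the points with a large value -/
lemma hI_XV {δ V t c : ℝ} (h0 : 0 < δ) (hc : 0 < c) (hs : 0 < Real.log c + V * Real.log (1 / (2 * δ))) :
    hI c (XV δ V t) = if c * (2 * δ) ^ (-V) < mz δ t then 1 else 0 := by
  have hlev : c * (2 * δ) ^ (-V) = Real.exp (Real.log c + V * Real.log (1 / (2 * δ))) := by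
    rw [Real.exp_add, Real.exp_log hc, Real.rpow_def_of_pos (by linarith), one_div, Real.log_inv]
    congr 2
    ring
  unfold hI XV
  by_cases h : c * (2 * δ) ^ (-V) < mz δ t
  · rw [if_pos h, Set.indicator_of_mem]
    rw [Set.mem_Ioi]
    rw [hlev] at h
    have hpos : 0 < mz δ t := (Real.exp_pos _).trans h
    have := (Real.lt_log_iff_exp_lt hpos).2 h
    linarith
  · rw [if_neg h, Set.indicator_of_notMem]
    rw [Set.mem_Ioi, not_lt]
    rw [not_lt, hlev] at h
    rcases (norm_nonneg (riemannZeta (pw δ t))).eq_or_lt with h1 | h1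
    · have : mz δ t = 0 := h1.symm
      rw [this, Real.log_zero]
      linarith
    · have h2 : Real.log (mz δ t) ≤ Real.log c + V * Real.log (1 / (2 * δ)) := (Real.log_le_iff_le_exp h1).2 h
      linarith

lemma ev_level {d : ℝ → ℝ} (hd0 : ∀ᶠ T : ℝ in atTop, 0 < d T) (hd : Tendsto d atTop (𝓝 0)) {V : ℝ} (hV : 0 < V) (c : ℝ) :
    ∀ᶠ T in atTop, 0 < Real.log c + V * Real.log (1 / (2 * d T)) := by
  have hΛ : Tendsto (fun T : ℝ => Real.log (1 / (2 * d T))) atTop atTop := by
    have h1 : Tendsto (fun T : ℝ => 2 * d T) atTop (𝓝[>] 0) := by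
      rw [tendsto_nhdsWithin_iff]
      refine ⟨?_, ?_⟩
      · have := hd.const_mul 2
        rwa [mul_zero] at this
      · filter_upwards [hd0] with T hT
        show 0 < 2 * d T
        linarith
    have h2 := Real.tendsto_log_nhdsGT_zero.comp h1
    have h3 := tendsto_neg_atBot_atTop.comp h2
    refine h3.congr fun T => ?_
    simp only [Function.comp_apply]
    rw [LD.log_eq]
  have h2 := (hΛ.const_mul_atTop hV).eventually_gt_atTop (-Real.log c)
  filter_upwards [h2] with T hT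
  linarith

/-- (PL) the phases on the set of large values -/
theorem large (hC : S_CTW) (hLD : S_LD) (d : ℝ → ℝ) (hd : Ad d) (V c : ℝ) (hV : 0 < V) (hc : 0 < c)
    (P : Finset ℕ) (hP : ∀ p ∈ P, p.Prime) (F : C(UnitAddTorus P, ℂ)) :
    Tendsto (fun T : ℝ => ((GV (d T) V : ℝ) : ℂ) * (((1 / T : ℝ) : ℂ) *
      ∫ t in {t : ℝ | t ∈ Set.Icc 0 T ∧ c * (2 * d T) ^ (-V) < mz (d T) t}, F (thP P t)))
      atTop (𝓝 ((((aC V).re * (c ^ (-(2 * V)) / (2 * V)) : ℝ) : ℂ) * ∫ x, F x * ((dens V P x : ℝ) : ℂ) ∂(hT P))) := by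
  have h1 := joint hC hLD d hd V hV (hI c) {Real.log c} (hI_meas c) (hI_cont c) (hI_bd1 c) (hI_bd2 c hV) P hP F
  rw [hI_int hc hV] at h1
  refine h1.congr' ?_
  filter_upwards [hd.pos, ev_level hd.pos hd.t0 hV c, eventually_ge_atTop 0,
    hd.t0.eventually_lt_const (show (0:ℝ) < 1 / 2 by norm_num)] with T g1 g2 g3 g4
  have hQ : MeasurableSet {t : ℝ | c * (2 * d T) ^ (-V) < mz (d T) t} := measurableSet_lt measurable_const (mz_measurable g4)
  have e1 : {t : ℝ | t ∈ Set.Icc 0 T ∧ c * (2 * d T) ^ (-V) < mz (d T) t} =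
      Set.Icc 0 T ∩ {t : ℝ | c * (2 * d T) ^ (-V) < mz (d T) t} := rfl
  have e2 : ∫ t in (0:ℝ)..T, ((hI c (XV (d T) V t) : ℝ) : ℂ) * F (thP P t) =
      ∫ t in {t : ℝ | t ∈ Set.Icc 0 T ∧ c * (2 * d T) ^ (-V) < mz (d T) t}, F (thP P t) := by
    rw [e1, ← setIntegral_indicator hQ, intervalIntegral.integral_of_le g3, ← integral_Icc_eq_integral_Ioc]
    refine integral_congr_ae (Eventually.of_forall fun t => ?_)
    simp only
    rw [hI_XV g1 hc g2]
    by_cases h : c * (2 * d T) ^ (-V) < mz (d T) t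
    · rw [if_pos h, Set.indicator_of_mem (show t ∈ {t : ℝ | c * (2 * d T) ^ (-V) < mz (d T) t} from h)]
      simp
    · rw [if_neg h, Set.indicator_of_notMem (show t ∉ {t : ℝ | c * (2 * d T) ^ (-V) < mz (d T) t} from h)]
      simp
  rw [e2, Complex.ofReal_mul, mul_assoc]

end Run7.h310.SQ
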