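import Pool.Agent.Run7.h310.SQ.D3
import Pool.Agent.Run7.h310.SP.B4

set_option autoImplicit false

/-! # Project SQ: bounds for the twisted sums, uniformly in the twist -/

namespace Run7.h310.SQ

open Finset Filter MeasureTheory Topology Complex
open Pool.Agent.N748.MG Run7.h310.SP

/-- powers with the number of prime factors as exponent -/
lemma omega_pow {B : ℝ} (hB : 1 ≤ B) : ∃ C : ℝ, 0 < C ∧ ∀ n : ℕ, 1 ≤ n → B ^ n.primeFactors.card ≤ C * (n:ℝ) ^ (1 / 8 : ℝ) := by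
  obtain ⟨P0, hP0⟩ : ∃ P0 : ℕ, ∀ p : ℕ, P0 ≤ p → B ≤ (p:ℝ) ^ (1 / 8 : ℝ) := by
    refine ⟨⌈B ^ (8:ℕ)⌉₊, fun p hp => ?_⟩
    have h1 : B ^ (8:ℕ) ≤ p := (Nat.le_ceil _).trans (by exact_mod_cast hp)
    have h2 : ((B ^ (8:ℕ)) : ℝ) ^ (1 / 8 : ℝ) = B := by
      rw [← Real.rpow_natCast, ← Real.rpow_mul (by linarith)]
      norm_num
    rw [← h2]
    exact Real.rpow_le_rpow (by positivity) h1 (by norm_num)
  refine ⟨B ^ P0, by positivity, fun n hn => ?_⟩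
  have hn0 : n ≠ 0 := by omega
  have hloc : ∀ p ∈ n.primeFactors, B ≤ (if p < P0 then B else 1) * (p:ℝ) ^ (1 / 8 : ℝ) := by
    intro p hp
    have hpp := Nat.prime_of_mem_primeFactors hp
    by_cases h : p < P0
    · rw [if_pos h]
      have : (1:ℝ) ≤ (p:ℝ) ^ (1 / 8 : ℝ) := Real.one_le_rpow (by exact_mod_cast hpp.one_lt.le) (by norm_num)
      nlinarith
    · rw [if_neg h, one_mul]
      exact hP0 p (not_lt.1 h)
  calc B ^ n.primeFactors.card = ∏ _p ∈ n.primeFactors, B := by rw [Finset.prod_const]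
    _ ≤ ∏ p ∈ n.primeFactors, ((if p < P0 then B else 1) * (p:ℝ) ^ (1 / 8 : ℝ)) :=
        Finset.prod_le_prod (fun _ _ => by linarith) hloc
    _ = (∏ p ∈ n.primeFactors, (if p < P0 then B else 1)) * ∏ p ∈ n.primeFactors, (p:ℝ) ^ (1 / 8 : ℝ) :=
        Finset.prod_mul_distrib
    _ ≤ B ^ P0 * (n:ℝ) ^ (1 / 8 : ℝ) := by
        refine mul_le_mul ?_ ?_ (Finset.prod_nonneg fun p _ => Real.rpow_nonneg (Nat.cast_nonneg _) _) (by positivity)
        · rw [← Finset.prod_filter, Finset.prod_const]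
          refine pow_le_pow_right₀ hB ?_
          calc (n.primeFactors.filter (fun p => p < P0)).card ≤ (range P0).card := by
                refine Finset.card_le_card fun p hp => ?_
                rw [Finset.mem_filter] at hp
                exact Finset.mem_range.2 hp.2
            _ = P0 := Finset.card_range P0
        · rw [Real.finsetProd_rpow _ _ fun p _ => Nat.cast_nonneg _]
          refine Real.rpow_le_rpow (Finset.prod_nonneg fun p _ => Nat.cast_nonneg _) ?_ (by norm_num)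
          rw [← Nat.cast_prod]
          exact_mod_cast Nat.le_of_dvd (by omega) (Nat.prod_primeFactors_dvd n)

lemma wN_prod (δ : ℝ) {a : ℕ} (ha0 : a ≠ 0) {T : Finset ℕ} (hT : a.primeFactors ⊆ T) :
    wN δ a = ∏ p ∈ T, wN δ (p ^ a.factorization p) := by
  have h1 : ∏ p ∈ T, p ^ a.factorization p = a := by
    rw [← Finset.prod_subset hT]
    · exact Nat.prod_factorization_pow_eq_self ha0
    · intro p _ hp
      have : a.factorization p = 0 := by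
        rw [← Finsupp.notMem_support_iff, Nat.support_factorization]
        exact hp
      rw [this, pow_zero]
  have h2 : ∀ (T : Finset ℕ) (f : ℕ → ℕ), wN δ (∏ p ∈ T, f p) = ∏ p ∈ T, wN δ (f p) := by
    intro T f
    classical
    induction T using Finset.induction_on with
    | empty => simp [wN_one]
    | insert x s hx ih => rw [Finset.prod_insert hx, Finset.prod_insert hx, wN_mul, ih]
  rw [← h2, h1]

/-- bound of the local series -/
lemma LF_le {R : ℝ} (hR : 0 < R) : ∃ B : ℝ, 1 ≤ B ∧ ∀ p : ℕ, p.Prime → ∀ u v : ℕ, LF R 0 p u v ≤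
    B * ((CON.lR (max R 1) u * wN 0 (p ^ u)) * (CON.lR (max R 1) v * wN 0 (p ^ v))) := by
  have hR1 : 0 < max R 1 := lt_max_of_lt_left hR
  have hs : Summable fun m : ℕ => CON.lR R m ^ 2 * (1 / 2 : ℝ) ^ m := by
    obtain ⟨K, hK⟩ := lR_poly hR
    have h1 : Summable (fun m : ℕ => (((m + 1 : ℕ) : ℝ) ^ (2 * K) * (1 / 2 : ℝ) ^ (m + 1))) :=
      (summable_nat_add_iff (f := fun n : ℕ => (n : ℝ) ^ (2 * K) * (1 / 2 : ℝ) ^ n) 1).2
        (summable_pow_mul_geometric_of_norm_lt_one (2 * K) (by norm_num))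
    refine Summable.of_nonneg_of_le (fun m => by positivity) (fun m => ?_) (h1.mul_left 2)
    have h2 : CON.lR R m ^ 2 ≤ ((m:ℝ) + 1) ^ (2 * K) := by
      rw [mul_comm 2 K, pow_mul]
      exact pow_le_pow_left₀ (lR_pos hR m).le (hK m) 2
    calc CON.lR R m ^ 2 * (1 / 2 : ℝ) ^ m ≤ ((m:ℝ) + 1) ^ (2 * K) * (1 / 2 : ℝ) ^ m :=
          mul_le_mul_of_nonneg_right h2 (by positivity)
      _ = 2 * (((m + 1 : ℕ) : ℝ) ^ (2 * K) * (1 / 2 : ℝ) ^ (m + 1)) := by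
          push_cast
          rw [pow_succ (1 / 2 : ℝ)]
          ring
  refine ⟨∑' m : ℕ, CON.lR R m ^ 2 * (1 / 2 : ℝ) ^ m, ?_, fun p hp u v => ?_⟩
  · have := hs.le_tsum 0 fun m _ => by positivity
    rw [lR_zero] at this
    norm_num at this
    exact this
  have hp0 : p ≠ 0 := hp.ne_zero
  have hl := lR_pos hR1 u
  have hl' := lR_pos hR1 v
  have hw := wN_nonneg 0 (p ^ u)
  have hw' := wN_nonneg 0 (p ^ v)
  have hsum := hs.mul_right ((CON.lR (max R 1) u * wN 0 (p ^ u)) * (CON.lR (max R 1) v * wN 0 (p ^ v)))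
  rw [← tsum_mul_right]
  unfold LF
  refine (LF_summable hR hp u v).tsum_le_tsum (fun m => ?_) hsum
  rw [lf_term]
  have h3 : wN 0 (p ^ m) * wN 0 (p ^ m) ≤ (1 / 2 : ℝ) ^ m := by
    rw [wN_sq 0 (pow_ne_zero _ hp0)]
    push_cast
    have e : -(1 + 2 * (0:ℝ)) = -1 := by norm_num
    rw [e, Real.rpow_neg_one, one_div, inv_pow]
    have h4 : (2:ℝ) ^ m ≤ (p:ℝ) ^ m := pow_le_pow_left₀ (by norm_num) (by exact_mod_cast hp.two_le) m
    exact inv_anti₀ (by positivity) h4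
  have h1 : CON.lR R (m + u) ≤ CON.lR (max R 1) u * CON.lR R m := by
    rw [add_comm]
    exact lR_add_le hR u m
  have h2 : CON.lR R (m + v) ≤ CON.lR (max R 1) v * CON.lR R m := by
    rw [add_comm]
    exact lR_add_le hR v m
  have hm := lR_pos hR m
  have h5 : CON.lR R (m + u) * CON.lR R (m + v) ≤ (CON.lR (max R 1) u * CON.lR R m) * (CON.lR (max R 1) v * CON.lR R m) :=
    mul_le_mul h1 h2 (lR_pos hR _).le (by positivity)
  calc CON.lR R (m + u) * CON.lR R (m + v) * (wN 0 (p ^ u) * wN 0 (p ^ v)) * (wN 0 (p ^ m) * wN 0 (p ^ m))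
      ≤ ((CON.lR (max R 1) u * CON.lR R m) * (CON.lR (max R 1) v * CON.lR R m)) * (wN 0 (p ^ u) * wN 0 (p ^ v)) *
          (1 / 2 : ℝ) ^ m := by
        refine mul_le_mul (mul_le_mul_of_nonneg_right h5 (mul_nonneg hw hw')) h3
          (mul_nonneg (wN_nonneg _ _) (wN_nonneg _ _)) (by positivity)
    _ = _ := by ring

/-- the majorants as products -/
lemma eM_prod (k : ℝ) {a : ℕ} (ha0 : a ≠ 0) {T : Finset ℕ} (hT : a.primeFactors ⊆ T) :
    ∏ p ∈ T, (CON.lR (max k 1) (a.factorization p) * wN 0 (p ^ a.factorization p)) = eM k a := by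
  rw [Finset.prod_mul_distrib, ← dR_eq (max k 1) a hT, ← wN_prod 0 ha0 hT]
  unfold eM wN
  congr 2
  norm_num

/-- the bound of the twisted sums, normalised -/
theorem TC_bd {R : ℝ} (hR : 0 < R) : ∃ C δ0 : ℝ, 0 < C ∧ 0 < δ0 ∧ ∀ δ : ℝ, 0 < δ → δ ≤ δ0 → ∀ a b : ℕ, 1 ≤ a → 1 ≤ b →
    Nat.Coprime a b → ∀ s : ℂ, ‖s‖ ≤ R →
      ‖((2 * δ : ℝ) : ℂ) ^ (s ^ 2) * TC s δ a b‖ ≤ C * ((a * b : ℕ) : ℝ) ^ (-(1 / 8 : ℝ)) := by
  obtain ⟨C1, δ1, hC1, hδ1, h1⟩ := sp_bd R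
  obtain ⟨B, hB, hLF⟩ := LF_le hR
  obtain ⟨C2, hC2, h2⟩ := omega_pow (B := C1 * B) (one_le_mul_of_one_le_of_one_le hC1 hB)
  obtain ⟨C3, hC3, h3⟩ := t_emb R hR
  refine ⟨C1 * C2 * C3 ^ 2, δ1, by positivity, hδ1, fun δ hδ hδ2 a b ha hb _ s hs => ?_⟩
  have ha0 : a ≠ 0 := by omega
  have hb0 : b ≠ 0 := by omega
  have haR : (0:ℝ) < a := by exact_mod_cast ha
  have hbR : (0:ℝ) < b := by exact_mod_cast hb
  obtain ⟨P, hPd⟩ : ∃ P, P = (a * b).primeFactors := ⟨_, rfl⟩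
  have hP : ∀ p ∈ P, p.Prime := fun p hp => by rw [hPd] at hp; exact Nat.prime_of_mem_primeFactors hp
  have hsa : a.primeFactors ⊆ P := by rw [hPd, Nat.primeFactors_mul ha0 hb0]; exact Finset.subset_union_left
  have hsb : b.primeFactors ⊆ P := by rw [hPd, Nat.primeFactors_mul ha0 hb0]; exact Finset.subset_union_right
  have e1 := TC_prod s hδ ha hb
  rw [← hPd] at e1
  rw [e1, ← mul_assoc, norm_mul]
  have g1 := h1 P hP δ hδ hδ2 s hs
  have g2 : ‖∏ p ∈ P, LFc s δ p (a.factorization p) (b.factorization p)‖ ≤ B ^ P.card * (eM R a * eM R b) := by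
    rw [norm_prod]
    calc ∏ p ∈ P, ‖LFc s δ p (a.factorization p) (b.factorization p)‖
        ≤ ∏ p ∈ P, (B * ((CON.lR (max R 1) (a.factorization p) * wN 0 (p ^ (a.factorization p))) *
            (CON.lR (max R 1) (b.factorization p) * wN 0 (p ^ (b.factorization p))))) := by
          refine Finset.prod_le_prod (fun _ _ => norm_nonneg _) fun p hp => ?_
          exact (LFc_norm_le hR hs hδ.le (hP p hp) _ _).trans (hLF p (hP p hp) _ _)
      _ = _ := by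
          rw [Finset.prod_mul_distrib, Finset.prod_const, Finset.prod_mul_distrib, eM_prod R ha0 hsa, eM_prod R hb0 hsb]
  have hea := eM_nonneg hR a
  have heb := eM_nonneg hR b
  have hC10 : 0 < C1 := by linarith
  have hB0 : 0 < B := by linarith
  have g3 := h2 (a * b) (Nat.mul_pos ha hb)
  rw [← hPd] at g3
  have g4 : eM R a * eM R b ≤ C3 ^ 2 * ((a * b : ℕ) : ℝ) ^ (-(1 / 4 : ℝ)) := by
    push_cast
    rw [Real.mul_rpow haR.le hbR.le]
    calc eM R a * eM R b ≤ (C3 * (a:ℝ) ^ (-(1 / 4 : ℝ))) * (C3 * (b:ℝ) ^ (-(1 / 4 : ℝ))) :=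
          mul_le_mul (h3 a ha) (h3 b hb) heb (by positivity)
      _ = _ := by ring
  have habR : (0:ℝ) < ((a * b : ℕ) : ℝ) := by push_cast; positivity
  calc ‖((2 * δ : ℝ) : ℂ) ^ (s ^ 2) * SPc P s δ‖ * ‖∏ p ∈ P, LFc s δ p (a.factorization p) (b.factorization p)‖
      ≤ (C1 * C1 ^ P.card) * (B ^ P.card * (eM R a * eM R b)) :=
        mul_le_mul g1 g2 (norm_nonneg _) (by positivity)
    _ = C1 * (C1 * B) ^ P.card * (eM R a * eM R b) := by rw [mul_pow]; ring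
    _ ≤ C1 * (C2 * ((a * b : ℕ) : ℝ) ^ (1 / 8 : ℝ)) * (C3 ^ 2 * ((a * b : ℕ) : ℝ) ^ (-(1 / 4 : ℝ))) := by
        refine mul_le_mul (mul_le_mul_of_nonneg_left g3 hC10.le) g4 (mul_nonneg hea heb) (by positivity)
    _ = C1 * C2 * C3 ^ 2 * (((a * b : ℕ) : ℝ) ^ (1 / 8 : ℝ) * ((a * b : ℕ) : ℝ) ^ (-(1 / 4 : ℝ))) := by ring
    _ = _ := by
        rw [← Real.rpow_add habR]
        norm_num

/-- (TDT) uniformly for `ab` up to a power of `1/δ` -/
theorem t_tdt3 (R D C' : ℝ) (hR : 0 < R) (hD : 0 < D) (hC' : 0 < C') : ∃ C δ0 : ℝ, 0 < C ∧ 0 < δ0 ∧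
    ∀ δ : ℝ, 0 < δ → δ ≤ δ0 → ∀ (y : ℝ) (K : ℕ), 2 ≤ y → C * Real.log (1 / δ) ≤ δ * Real.log y →
      C * Real.log (1 / δ) ≤ K → ∀ a b : ℕ, 1 ≤ a → 1 ≤ b → Nat.Coprime a b → ((a * b : ℕ) : ℝ) ≤ δ ^ (-C') →
      TD R δ a b - TDt R δ y K a b ≤ δ ^ D := by
  obtain ⟨C1, δ1, hC1, hδ1, h⟩ := DIA1.main R (D + 1) hR.le (by linarith)
  obtain ⟨C3, hC3, h3⟩ := t_emb R hR
  refine ⟨C1 + 4 * C' + 1, min δ1 (min (1 / 16) (1 / (C3 ^ 2 + 1))), by linarith, by positivity, ?_⟩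
  intro δ hδ hδ0 y K hy hy1 hK a b ha hb hab habC
  obtain ⟨M, hM⟩ : ∃ M, M = eM R a * eM R b := ⟨_, rfl⟩
  have haR : (1:ℝ) ≤ a := by exact_mod_cast ha
  have hbR : (1:ℝ) ≤ b := by exact_mod_cast hb
  have hM0 : 0 ≤ M := by rw [hM]; exact mul_nonneg (eM_nonneg hR a) (eM_nonneg hR b)
  have hMC : M ≤ C3 ^ 2 := by
    rw [hM, sq]
    have g1 : eM R a ≤ C3 := (h3 a ha).trans (mul_le_of_le_one_right hC3.le (Real.rpow_le_one_of_one_le_of_nonpos haR (by norm_num)))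
    have g2 : eM R b ≤ C3 := (h3 b hb).trans (mul_le_of_le_one_right hC3.le (Real.rpow_le_one_of_one_le_of_nonpos hbR (by norm_num)))
    exact mul_le_mul g1 g2 (eM_nonneg hR b) hC3.le
  have ha0 : a ≠ 0 := by omega
  have hb0 : b ≠ 0 := by omega
  obtain ⟨Ω, hΩ⟩ : ∃ Ω : ℕ, Ω = (a * b).primeFactorsList.length := ⟨_, rfl⟩
  have hΩe : Ω = a.primeFactorsList.length + b.primeFactorsList.length := by rw [hΩ]; exact len_mul ha0 hb0
  have hab1 : (1:ℝ) ≤ ((a * b : ℕ) : ℝ) := by exact_mod_cast Nat.mul_pos ha hb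
  have hlab : 0 ≤ Real.log ((a * b : ℕ) : ℝ) := Real.log_nonneg hab1
  have hδ1' : δ ≤ δ1 := hδ0.trans (min_le_left _ _)
  have hδ16 : δ ≤ 1 / 16 := hδ0.trans ((min_le_right _ _).trans (min_le_left _ _))
  have hδM : δ ≤ 1 / (C3 ^ 2 + 1) := hδ0.trans ((min_le_right _ _).trans (min_le_right _ _))
  have hL1 := log_inv_ge hδ hδ16
  obtain ⟨L, hL⟩ : ∃ L, L = Real.log (1 / δ) := ⟨_, rfl⟩
  rw [← hL] at hL1 hy1 hK
  have hL0 : 0 < L := by linarith
  have hlL : Real.log ((a * b : ℕ) : ℝ) ≤ C' * L := by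
    have h1 := Real.log_le_log (by linarith) habC
    rw [Real.log_rpow hδ] at h1
    have h2 : Real.log δ = -L := by rw [hL, one_div, Real.log_inv]; ring
    rw [h2] at h1
    linarith
  have hΩL : (Ω:ℝ) ≤ 2 * (C' * L) := by
    have h1 : 2 ^ Ω ≤ a * b := by
      have h2 : (a * b).primeFactorsList.prod = a * b := Nat.prod_primeFactorsList (mul_ne_zero ha0 hb0)
      rw [← h2, hΩ]
      have : ∀ l : List ℕ, (∀ p ∈ l, 2 ≤ p) → 2 ^ l.length ≤ l.prod := by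
        intro l
        induction l with
        | nil => simp
        | cons x l ih =>
          intro hl
          rw [List.length_cons, List.prod_cons, pow_succ, mul_comm]
          exact Nat.mul_le_mul (hl x (List.mem_cons_self)) (ih fun p hp => hl p (List.mem_cons_of_mem _ hp))
      exact this _ fun p hp => (Nat.prime_of_mem_primeFactorsList hp).two_le
    have h2 : ((2:ℝ) ^ Ω) ≤ ((a * b : ℕ) : ℝ) := by exact_mod_cast h1
    have h3 := Real.log_le_log (by positivity) h2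
    rw [Real.log_pow] at h3
    have h4 := Real.log_two_gt_d9
    have h5 : (0:ℝ) ≤ Ω := Nat.cast_nonneg _
    nlinarith
  have hC'L : 0 < C' * L := by positivity
  have hΩK : Ω ≤ K := by
    have : (Ω:ℝ) ≤ K := by
      refine le_trans ?_ hK
      nlinarith [mul_pos hC1 hL0]
    exact_mod_cast this
  have hK' : C1 * L ≤ ((K - Ω : ℕ) : ℝ) := by
    rw [Nat.cast_sub hΩK]
    nlinarith
  have hy0 : 0 < y := by linarith
  have hly : 0 < Real.log y := Real.log_pos (by linarith)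
  have hy1' : C1 * L ≤ δ * Real.log y := by
    refine le_trans ?_ hy1
    nlinarith
  have haby : ((a * b : ℕ) : ℝ) ≤ y := by
    rw [← Real.log_le_log_iff (by linarith) hy0]
    have h1 : δ * Real.log y ≤ Real.log y := by nlinarith
    nlinarith [mul_pos hC1 hL0]
  have hay : (a:ℝ) ≤ y := by
    refine le_trans ?_ haby
    exact_mod_cast Nat.le_mul_of_pos_right a hb
  have hby : (b:ℝ) ≤ y := by
    refine le_trans ?_ haby
    exact_mod_cast Nat.le_mul_of_pos_left b ha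
  -- the untwisted tail
  rw [hL] at hy1' hK'
  have h1 := h δ hδ hδ1' y (K - Ω) hy hy1' hK' (R:ℂ) (norm_k hR)
  have e1 : (∑ n ∈ FS y (K - Ω), dS (R:ℂ) n ^ 2 * (((n:ℝ) ^ (-(1 + 2 * δ)) : ℝ) : ℂ)) =
      ((∑ n ∈ FS y (K - Ω), tf R δ 1 1 n : ℝ) : ℂ) := by
    rw [Complex.ofReal_sum]
    exact sum_congr rfl fun n _ => (tf_one_eq R hδ n).symm
  have e2 : (∑' n : ℕ, dS (R:ℂ) n ^ 2 * (((n:ℝ) ^ (-(1 + 2 * δ)) : ℝ) : ℂ)) = ((TD R δ 1 1 : ℝ) : ℂ) := by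
    rw [TD_eq, Complex.ofReal_tsum]
    exact tsum_congr fun g => (tf_one_eq R hδ g).symm
  rw [e1, e2, ← Complex.ofReal_sub, Complex.norm_real, Real.norm_eq_abs] at h1
  have h2 : TD R δ 1 1 - ∑ n ∈ FS y (K - Ω), tf R δ 1 1 n ≤ δ ^ (D + 1) := by
    have := (abs_le.1 h1).1
    linarith
  -- the twisted tail
  have hs := tf_summable hR hδ ha hb
  have h3 : M * ∑ n ∈ FS y (K - Ω), tf R δ 1 1 n - ∑ n ∈ FS y (K - Ω), tf R δ a b n ≤
      M * TD R δ 1 1 - TD R δ a b := by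
    have hsu : Summable fun g => M * tf R δ 1 1 g - tf R δ a b g := ((tf11_summable hR hδ).mul_left M).sub hs
    have := hsu.sum_le_tsum (FS y (K - Ω)) fun g _ => sub_nonneg.2 (by rw [hM]; exact tf_le hR hδ ha hb g)
    rw [Finset.sum_sub_distrib, ← Finset.mul_sum, (((tf11_summable hR hδ).mul_left M).tsum_sub hs), tsum_mul_left] at this
    exact this
  obtain ⟨T, hT, hTe⟩ := TDt_eq R δ y K ha hb hab
  have h4 : ∑ n ∈ FS y (K - Ω), tf R δ a b n ≤ TDt R δ y K a b := by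
    rw [hTe]
    refine Finset.sum_le_sum_of_subset_of_nonneg (fun g hg => ?_) fun g _ _ => tf_nonneg hR δ a b g
    rw [hT]
    constructor
    · refine mem_FS_mul hy ha0 hay (by omega) (FS_mono hy (by omega) hg)
    · refine mem_FS_mul hy hb0 hby (by omega) (FS_mono hy (by omega) hg)
  have h6 : C3 ^ 2 * δ ^ (D + 1) ≤ δ ^ D := by
    rw [Real.rpow_add hδ, Real.rpow_one]
    have h7 : 0 < δ ^ D := Real.rpow_pos_of_pos hδ _
    have h8 : C3 ^ 2 * δ ≤ 1 := by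
      rw [le_div_iff₀ (by positivity)] at hδM
      nlinarith
    nlinarith
  have h9 : M * (TD R δ 1 1 - ∑ n ∈ FS y (K - Ω), tf R δ 1 1 n) ≤ C3 ^ 2 * δ ^ (D + 1) :=
    (mul_le_mul_of_nonneg_left h2 hM0).trans (mul_le_mul_of_nonneg_right hMC (Real.rpow_pos_of_pos hδ _).le)
  linarith

lemma TCt_le {s : ℂ} {R : ℝ} (hs : ‖s‖ ≤ R) (δ y : ℝ) (K a b : ℕ) : ‖TCt s δ y K a b‖ ≤ TDt R δ y K a b := by
  unfold TCt TDt
  refine (norm_sum_le _ _).trans (Finset.sum_le_sum fun q _ => ?_)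
  have hw : 0 ≤ wN δ q.1 * wN δ q.2 := mul_nonneg (wN_nonneg _ _) (wN_nonneg _ _)
  rw [norm_mul, norm_mul, Complex.norm_real, Real.norm_of_nonneg hw]
  refine mul_le_mul_of_nonneg_right ?_ hw
  exact mul_le_mul (dS_norm_le hs _) (dS_norm_le hs _) (norm_nonneg _) ((norm_nonneg _).trans (dS_norm_le hs _))

/-- the bound of the truncated twisted sums, normalised, for all twists -/
theorem TCt_bd {R : ℝ} (hR : 0 < R) : ∃ C C2 δ0 : ℝ, 0 < C ∧ 0 < C2 ∧ 0 < δ0 ∧ ∀ δ : ℝ, 0 < δ → δ ≤ δ0 →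
    ∀ (y : ℝ) (K : ℕ), 2 ≤ y → C2 * Real.log (1 / δ) ≤ δ * Real.log y → C2 * Real.log (1 / δ) ≤ K →
    ∀ a b : ℕ, 1 ≤ a → 1 ≤ b → Nat.Coprime a b → ∀ s : ℂ, ‖s‖ ≤ R →
      ‖((2 * δ : ℝ) : ℂ) ^ (s ^ 2) * TCt s δ y K a b‖ ≤ C * ((a * b : ℕ) : ℝ) ^ (-(1 / 8 : ℝ)) := by
  obtain ⟨C', hC'⟩ : ∃ C', C' = 16 * R ^ 2 + 1 := ⟨_, rfl⟩
  have hC'0 : 0 < C' := by rw [hC']; positivity
  obtain ⟨C1, δ1, hC1, hδ1, h1⟩ := TC_bd hR
  obtain ⟨C2, δ2, hC2, hδ2, h2⟩ := t_tdt3 R (R ^ 2 + C' / 8) C' hR (by positivity) hC'0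
  obtain ⟨C3, hC3, h3⟩ := t_emb R hR
  -- the untwisted sum
  have hT := t_td1 R hR
  obtain ⟨r, hr0, hr⟩ := CON.real_pos R
  have hre : (aC R).re = r := by rw [hr, Complex.ofReal_re]
  rw [hre] at hT
  have hT2 := hT.eventually_lt_const (show r < r + 1 by linarith)
  obtain ⟨δ3, hδ3, hT3⟩ := Metric.mem_nhdsWithin_iff.1 hT2
  refine ⟨C1 + 1 + C3 ^ 2 * (r + 1), C2, min (1 / 16) (min δ1 (min δ2 (δ3 / 2))), by positivity, hC2, by positivity, ?_⟩
  intro δ hδ hδm y K hy hy1 hK a b ha hb hab s hs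
  have m0 : δ ≤ 1 / 16 := hδm.trans (min_le_left _ _)
  have m1 : δ ≤ δ1 := hδm.trans ((min_le_right _ _).trans (min_le_left _ _))
  have m2 : δ ≤ δ2 := hδm.trans ((min_le_right _ _).trans ((min_le_right _ _).trans (min_le_left _ _)))
  have m3 : δ ≤ δ3 / 2 := hδm.trans ((min_le_right _ _).trans ((min_le_right _ _).trans (min_le_right _ _)))
  have haR : (0:ℝ) < a := by exact_mod_cast ha
  have hbR : (0:ℝ) < b := by exact_mod_cast hb
  have hab1 : (1:ℝ) ≤ ((a * b : ℕ) : ℝ) := by exact_mod_cast Nat.mul_pos ha hb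
  obtain ⟨x, hx⟩ : ∃ x : ℝ, x = ((a * b : ℕ) : ℝ) := ⟨_, rfl⟩
  rw [← hx] at hab1 ⊢
  have hx0 : 0 < x := by linarith
  have hx8 : 0 < x ^ (-(1 / 8 : ℝ)) := Real.rpow_pos_of_pos hx0 _
  have hzn := CM.cpow_norm hδ m0 s hs
  rcases le_or_gt x (δ ^ (-C')) with hle | hgt
  · -- small twists
    have g1 := h1 δ hδ m1 a b ha hb hab s hs
    have g2 := (TCt_sub_le hR hs hδ ha hb hab y K).trans (h2 δ hδ m2 y K hy hy1 hK a b ha hb hab (by rw [← hx]; exact hle))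
    rw [← hx] at g1
    have e : ((2 * δ : ℝ) : ℂ) ^ (s ^ 2) * TCt s δ y K a b =
        ((2 * δ : ℝ) : ℂ) ^ (s ^ 2) * TC s δ a b + ((2 * δ : ℝ) : ℂ) ^ (s ^ 2) * (TCt s δ y K a b - TC s δ a b) := by ring
    rw [e]
    refine (norm_add_le _ _).trans ?_
    have g3 : ‖((2 * δ : ℝ) : ℂ) ^ (s ^ 2) * (TCt s δ y K a b - TC s δ a b)‖ ≤ x ^ (-(1 / 8 : ℝ)) := by
      rw [norm_mul]
      calc ‖((2 * δ : ℝ) : ℂ) ^ (s ^ 2)‖ * ‖TCt s δ y K a b - TC s δ a b‖ ≤ δ ^ (-(R ^ 2)) * δ ^ (R ^ 2 + C' / 8) :=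
            mul_le_mul hzn g2 (norm_nonneg _) (by positivity)
        _ = (δ ^ (-C')) ^ (-(1 / 8 : ℝ)) := by
            rw [← Real.rpow_add hδ, ← Real.rpow_mul hδ.le]
            congr 1
            ring
        _ ≤ x ^ (-(1 / 8 : ℝ)) := Real.rpow_le_rpow_of_nonpos hx0 hle (by norm_num)
    have g4 : 0 ≤ C3 ^ 2 * (r + 1) * x ^ (-(1 / 8 : ℝ)) := by positivity
    nlinarith
  · -- large twists
    rw [norm_mul]
    have t0 := t_tdb R δ hR hδ a b ha hb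
    have g1 : ‖TCt s δ y K a b‖ ≤ eM R a * eM R b * TD R δ 1 1 :=
      (TCt_le hs δ y K a b).trans (((t0.2.2.2.2 y K hab).2).trans t0.2.2.2.1)
    have g2 : TD R δ 1 1 ≤ (r + 1) * δ ^ (-(R ^ 2)) := by
      have h5 : (2 * δ) ^ (R ^ 2) * TD R δ 1 1 < r + 1 :=
        hT3 ⟨by rw [Metric.mem_ball, dist_zero_right, Real.norm_of_nonneg hδ.le]; linarith, hδ⟩
      have h6 : 0 < (2 * δ) ^ (R ^ 2) := Real.rpow_pos_of_pos (by linarith) _
      have h7 : (2 * δ) ^ (-(R ^ 2)) ≤ δ ^ (-(R ^ 2)) :=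
        Real.rpow_le_rpow_of_nonpos hδ (by linarith) (by nlinarith [sq_nonneg R])
      have h8 : TD R δ 1 1 = ((2 * δ) ^ (R ^ 2) * TD R δ 1 1) * (2 * δ) ^ (-(R ^ 2)) := by
        rw [Real.rpow_neg (by linarith)]
        field_simp
      rw [h8]
      exact mul_le_mul h5.le h7 (Real.rpow_nonneg (by linarith) _) (by linarith)
    have g3 : eM R a * eM R b ≤ C3 ^ 2 * x ^ (-(1 / 4 : ℝ)) := by
      rw [hx]
      push_cast
      rw [Real.mul_rpow haR.le hbR.le]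
      calc eM R a * eM R b ≤ (C3 * (a:ℝ) ^ (-(1 / 4 : ℝ))) * (C3 * (b:ℝ) ^ (-(1 / 4 : ℝ))) :=
            mul_le_mul (h3 a ha) (h3 b hb) (eM_nonneg hR b) (by positivity)
        _ = _ := by ring
    have g4 : x ^ (-(1 / 4 : ℝ)) = x ^ (-(1 / 8 : ℝ)) * x ^ (-(1 / 8 : ℝ)) := by
      rw [← Real.rpow_add hx0]
      norm_num
    have g5 : x ^ (-(1 / 8 : ℝ)) ≤ δ ^ (2 * R ^ 2) := by
      calc x ^ (-(1 / 8 : ℝ)) ≤ (δ ^ (-C')) ^ (-(1 / 8 : ℝ)) :=
            Real.rpow_le_rpow_of_nonpos (Real.rpow_pos_of_pos hδ _) hgt.le (by norm_num)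
        _ = δ ^ (C' / 8) := by
            rw [← Real.rpow_mul hδ.le]
            congr 1
            ring
        _ ≤ δ ^ (2 * R ^ 2) := Real.rpow_le_rpow_of_exponent_ge hδ (by linarith) (by rw [hC']; linarith)
    have g6 : δ ^ (2 * R ^ 2) * δ ^ (-(R ^ 2)) * δ ^ (-(R ^ 2)) = 1 := by
      rw [← Real.rpow_add hδ, ← Real.rpow_add hδ]
      have : 2 * R ^ 2 + -(R ^ 2) + -(R ^ 2) = 0 := by ring
      rw [this, Real.rpow_zero]
    have hδR : 0 < δ ^ (-(R ^ 2)) := Real.rpow_pos_of_pos hδ _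
    have hTD0 : 0 ≤ TD R δ 1 1 := t0.2.1.le
    calc ‖((2 * δ : ℝ) : ℂ) ^ (s ^ 2)‖ * ‖TCt s δ y K a b‖
        ≤ δ ^ (-(R ^ 2)) * ((C3 ^ 2 * (x ^ (-(1 / 8 : ℝ)) * δ ^ (2 * R ^ 2))) * ((r + 1) * δ ^ (-(R ^ 2)))) := by
          refine mul_le_mul hzn (g1.trans (mul_le_mul (g3.trans ?_) g2 hTD0 (by positivity))) (norm_nonneg _) hδR.le
          rw [g4]
          exact mul_le_mul_of_nonneg_left (mul_le_mul_of_nonneg_left g5 hx8.le) (by positivity)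
      _ = C3 ^ 2 * (r + 1) * x ^ (-(1 / 8 : ℝ)) * (δ ^ (2 * R ^ 2) * δ ^ (-(R ^ 2)) * δ ^ (-(R ^ 2))) := by ring
      _ = C3 ^ 2 * (r + 1) * x ^ (-(1 / 8 : ℝ)) := by rw [g6, mul_one]
      _ ≤ (C1 + 1 + C3 ^ 2 * (r + 1)) * x ^ (-(1 / 8 : ℝ)) :=
          mul_le_mul_of_nonneg_right (by linarith) hx8.le

end Run7.h310.SQ
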