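import Pool.Agent.Run7.h310.SQ.F1
import Pool.Agent.Run7.h310.SP.B5

set_option autoImplicit false

/-! # Project SQ: the quadratic forms along arithmetic progressions, complex exponents -/

namespace Run7.h310.SQ

open Finset Filter MeasureTheory Topology Complex
open Pool.Agent.N748.MG Run7.h310.SP

/-- the coefficients of the quadratic form -/
noncomputable def cqc (s : ℂ) (δ : ℝ) (q : ℕ × ℕ) : ℂ := dS s q.1 * dS s q.2 * ((wN δ q.1 * wN δ q.2 : ℝ) : ℂ)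

lemma cqc_le {s : ℂ} {R : ℝ} (hs : ‖s‖ ≤ R) (δ : ℝ) (q : ℕ × ℕ) : ‖cqc s δ q‖ ≤ cq R δ q := by
  have hw : 0 ≤ wN δ q.1 * wN δ q.2 := mul_nonneg (wN_nonneg _ _) (wN_nonneg _ _)
  unfold cqc cq
  rw [norm_mul, norm_mul, Complex.norm_real, Real.norm_of_nonneg hw]
  refine mul_le_mul_of_nonneg_right ?_ hw
  exact mul_le_mul (dS_norm_le hs _) (dS_norm_le hs _) (norm_nonneg _) ((norm_nonneg _).trans (dS_norm_le hs _))

lemma quad_c (s : ℂ) (δ y : ℝ) (K : ℕ) (S : Finset ℝ) :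
    ∑ x ∈ S, AS s y K (pw δ x) * (starRingEnd ℂ) (AS ((starRingEnd ℂ) s) y K (pw δ x)) =
      ∑ q ∈ FS y K ×ˢ FS y K, cqc s δ q * ((Wc S (Real.log q.2 - Real.log q.1) : ℝ) : ℂ) := by
  have h1 : ∀ x : ℝ, AS s y K (pw δ x) * (starRingEnd ℂ) (AS ((starRingEnd ℂ) s) y K (pw δ x)) =
      ∑ q ∈ FS y K ×ˢ FS y K, cqc s δ q * exp ((x * (Real.log q.2 - Real.log q.1) : ℝ) * I) := by
    intro x
    unfold AS
    rw [map_sum, Finset.sum_mul_sum, Finset.sum_product]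
    refine Finset.sum_congr rfl fun n hn => Finset.sum_congr rfl fun m hm => ?_
    unfold cqc
    simp only
    rw [map_mul, CM.conj_dS, Complex.conj_conj, MVS.conj_cpow_eq δ x (Nat.one_le_iff_ne_zero.2 (FS_ne hm)),
      MVS.cpow_eq δ x (Nat.one_le_iff_ne_zero.2 (FS_ne hn)), wN_eq, wN_eq]
    have e : exp ((x * (Real.log m - Real.log n) : ℝ) * I) =
        exp (-(x * Real.log n : ℝ) * I) * exp ((x * Real.log m : ℝ) * I) := by
      rw [← Complex.exp_add]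
      congr 1
      push_cast
      ring
    rw [e]
    push_cast
    ring
  have h2 : ∀ x : ℝ, ∑ q ∈ FS y K ×ˢ FS y K, cqc s δ q * exp ((x * (Real.log q.2 - Real.log q.1) : ℝ) * I) =
      ∑ q ∈ FS y K ×ˢ FS y K, cqc s δ q * ((Real.cos (x * (Real.log q.2 - Real.log q.1)) : ℝ) : ℂ) := by
    intro x
    have h3 : ∑ q ∈ FS y K ×ˢ FS y K, cqc s δ q * ((Real.sin (x * (Real.log q.2 - Real.log q.1)) : ℝ) : ℂ) =
        ∑ q ∈ FS y K ×ˢ FS y K, -(cqc s δ q * ((Real.sin (x * (Real.log q.2 - Real.log q.1)) : ℝ) : ℂ)) := by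
      refine Finset.sum_nbij' Prod.swap Prod.swap ?_ ?_ ?_ ?_ ?_
      · intro q hq
        rw [Finset.mem_product] at hq ⊢
        exact ⟨hq.2, hq.1⟩
      · intro q hq
        rw [Finset.mem_product] at hq ⊢
        exact ⟨hq.2, hq.1⟩
      · intro q _
        exact Prod.swap_swap q
      · intro q _
        exact Prod.swap_swap q
      · intro q _
        have e1 : cqc s δ q.swap = cqc s δ q := by
          unfold cqc
          simp only [Prod.fst_swap, Prod.snd_swap]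
          rw [mul_comm (wN δ q.2), mul_comm (dS s q.2)]
        rw [e1]
        simp only [Prod.fst_swap, Prod.snd_swap]
        have e2 : x * (Real.log q.1 - Real.log q.2) = -(x * (Real.log q.2 - Real.log q.1)) := by ring
        rw [e2, Real.sin_neg]
        push_cast
        ring
    rw [Finset.sum_neg_distrib] at h3
    have h4 : ∑ q ∈ FS y K ×ˢ FS y K, cqc s δ q * ((Real.sin (x * (Real.log q.2 - Real.log q.1)) : ℝ) : ℂ) = 0 :=
      self_eq_neg.1 h3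
    have h5 : ∀ q : ℕ × ℕ, cqc s δ q * exp ((x * (Real.log q.2 - Real.log q.1) : ℝ) * I) =
        cqc s δ q * ((Real.cos (x * (Real.log q.2 - Real.log q.1)) : ℝ) : ℂ) +
        cqc s δ q * ((Real.sin (x * (Real.log q.2 - Real.log q.1)) : ℝ) : ℂ) * I := by
      intro q
      rw [Complex.exp_mul_I, ← Complex.ofReal_cos, ← Complex.ofReal_sin]
      ring
    simp only [h5]
    rw [Finset.sum_add_distrib, ← Finset.sum_mul, h4, zero_mul, add_zero]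
  simp only [h1, h2]
  rw [Finset.sum_comm]
  refine Finset.sum_congr rfl fun q _ => ?_
  unfold Wc
  rw [Complex.ofReal_sum, Finset.mul_sum]

/-- splitting the quadratic form -/
lemma split_c (α ρ : ℝ) (F : Finset ℕ) (f : ℕ × ℕ → ℂ) :
    ∑ q ∈ F ×ˢ F, f q = ∑ q ∈ FP α ρ F, f q + ∑' j : ℤ, ∑ q ∈ NR α ρ F j, f q := by
  classical
  obtain ⟨N, hN⟩ : ∃ N, N = (F ×ˢ F).filter fun q => ¬ ρ ≤ |fr α q - 2 * Real.pi * (round (fr α q / (2 * Real.pi)) : ℤ)| := ⟨_, rfl⟩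
  have h1 : ∑ q ∈ F ×ˢ F, f q = ∑ q ∈ FP α ρ F, f q + ∑ q ∈ N, f q := by
    rw [hN]
    unfold FP
    exact (Finset.sum_filter_add_sum_filter_not _ _ _).symm
  rw [h1]
  congr 1
  have h2 : ∀ j : ℤ, NR α ρ F j = N.filter fun q => round (fr α q / (2 * Real.pi)) = j := by
    intro j
    ext q
    rw [mem_NR, hN, Finset.mem_filter, Finset.mem_filter, Finset.mem_product, not_le]
    constructor
    · rintro ⟨a1, a2, a3⟩
      exact ⟨⟨a1, by rw [a3]; exact a2⟩, a3⟩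
    · rintro ⟨⟨a1, a2⟩, a3⟩
      exact ⟨a1, by rw [a3] at a2; exact a2, a3⟩
  have h3 : ∑' j : ℤ, ∑ q ∈ NR α ρ F j, f q = ∑ j ∈ N.image fun q => round (fr α q / (2 * Real.pi)),
      ∑ q ∈ NR α ρ F j, f q := by
    refine tsum_eq_sum fun j hj => ?_
    rw [h2]
    refine Finset.sum_eq_zero fun q hq => ?_
    exfalso
    rw [Finset.mem_filter] at hq
    exact hj (Finset.mem_image.2 ⟨q, hq.1, hq.2⟩)
  rw [h3]
  simp only [h2]
  exact (Finset.sum_fiberwise_of_maps_to (fun q hq => Finset.mem_image_of_mem _ hq) f).symm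

/-- the near resonant pairs -/
lemma near_eq {α ρ M : ℝ} (hα : 0 < α) (hM : 0 < M) (hρM : 2 * ρ * M ^ 2 < α) {F : Finset ℕ}
    (hF : ∀ n ∈ F, 1 ≤ n ∧ (n:ℝ) ≤ M) (j : ℤ) : NR α ρ F j = ∅ ∨ ∃ a b : ℕ, 1 ≤ a ∧ 1 ≤ b ∧ Nat.Coprime a b ∧
      |α * (Real.log b - Real.log a) - 2 * Real.pi * j| < ρ ∧
      NR α ρ F j = (F ×ˢ F).filter fun q => q.1 * b = q.2 * a := by
  classical
  rcases Finset.eq_empty_or_nonempty (NR α ρ F j) with h0 | ⟨q0, hq0⟩
  · exact Or.inl h0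
  right
  obtain ⟨⟨q1, q2⟩, q3, q4⟩ := mem_NR.1 hq0
  obtain ⟨a, b, g, ha, hb, hg, hab, e1, e2⟩ := reduced (hF _ q1).1 (hF _ q2).1
  have haR : (0:ℝ) < a := by exact_mod_cast ha
  have hbR : (0:ℝ) < b := by exact_mod_cast hb
  have hgR : (0:ℝ) < g := by exact_mod_cast hg
  have hfr : α * (Real.log b - Real.log a) = fr α q0 := by
    unfold fr
    rw [e1, e2]
    push_cast
    rw [Real.log_mul haR.ne' hgR.ne', Real.log_mul hbR.ne' hgR.ne']
    ring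
  refine ⟨a, b, ha, hb, hab, by rw [hfr]; exact q3, ?_⟩
  ext q
  rw [mem_NR, Finset.mem_filter, Finset.mem_product]
  refine and_congr_right fun hq => ?_
  have p1 : (0:ℝ) < q.1 := by exact_mod_cast (hF _ hq.1).1
  have p2 : (0:ℝ) < q.2 := by exact_mod_cast (hF _ hq.2).1
  constructor
  · rintro ⟨r3, -⟩
    have h5 := same_ratio hα hM hρM ⟨(hF _ hq.1).1, (hF _ hq.2).1⟩ ⟨(hF _ q1).1, (hF _ q2).1⟩
        ⟨(hF _ hq.1).2, (hF _ hq.2).2⟩ ⟨(hF _ q1).2, (hF _ q2).2⟩ j r3 q3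
    rw [e1, e2, ← mul_assoc, ← mul_assoc] at h5
    exact Nat.eq_of_mul_eq_mul_right hg h5
  · intro h1
    have h2 : fr α q = fr α q0 := by
      rw [← hfr]
      unfold fr
      congr 1
      have h3 : Real.log ((q.1 * b : ℕ) : ℝ) = Real.log ((q.2 * a : ℕ) : ℝ) := by rw [h1]
      push_cast at h3
      rw [Real.log_mul p1.ne' hbR.ne', Real.log_mul p2.ne' haR.ne'] at h3
      linarith
    rw [h2]
    exact ⟨q3, q4⟩

/-- the exactly resonant pairs -/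
lemma exact_eq {α ρ M : ℝ} (hα : 0 < α) (hρ : 0 < ρ) (hM : 0 < M) {F : Finset ℕ}
    (hF : ∀ n ∈ F, 1 ≤ n ∧ (n:ℝ) ≤ M) {a b : ℕ} (ha : 1 ≤ a) (hb : 1 ≤ b) {j : ℤ}
    (hj : α * (Real.log b - Real.log a) = 2 * Real.pi * j) (hρM : ρ * (M * (a * b)) < α) :
    NR α ρ F j = (F ×ˢ F).filter fun q => q.1 * b = q.2 * a := by
  classical
  have haR : (1:ℝ) ≤ a := by exact_mod_cast ha
  have hbR : (1:ℝ) ≤ b := by exact_mod_cast hb
  have hπ := Real.pi_pos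
  ext q
  rw [mem_NR, Finset.mem_filter, Finset.mem_product]
  refine and_congr_right fun hq => ?_
  have q1 := (hF _ hq.1).1
  have q2 := (hF _ hq.2).1
  have q1R : (1:ℝ) ≤ q.1 := by exact_mod_cast q1
  have q2R : (1:ℝ) ≤ q.2 := by exact_mod_cast q2
  constructor
  · rintro ⟨h1, -⟩
    by_contra hne
    have g1 := log_gap (u := q.2 * a) (v := q.1 * b) (M := M * (a * b)) (Nat.mul_pos q2 ha)
      (Nat.mul_pos q1 hb) (fun h => hne h.symm)
      (by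
        push_cast
        exact mul_le_mul (hF _ hq.2).2 (by nlinarith) (by linarith) hM.le)
      (by
        push_cast
        exact mul_le_mul (hF _ hq.1).2 (by nlinarith) (by linarith) hM.le)
    push_cast at g1
    rw [Real.log_mul (by linarith) (by linarith), Real.log_mul (by linarith) (by linarith)] at g1
    have e : fr α q - 2 * Real.pi * j = α * (Real.log q.2 + Real.log a - (Real.log q.1 + Real.log b)) := by
      rw [← hj]
      unfold fr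
      ring
    rw [e, abs_mul, abs_of_pos hα] at h1
    have g2 := (mul_le_mul_of_nonneg_left g1 hα.le).trans_lt h1
    rw [mul_one_div, div_lt_iff₀ (by positivity)] at g2
    linarith
  · intro h1
    have h2 : fr α q = 2 * Real.pi * j := by
      rw [← hj]
      unfold fr
      congr 1
      have h3 : Real.log ((q.1 * b : ℕ) : ℝ) = Real.log ((q.2 * a : ℕ) : ℝ) := by rw [h1]
      push_cast at h3
      rw [Real.log_mul (by linarith) (by linarith), Real.log_mul (by linarith) (by linarith)] at h3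
      linarith
    rw [h2, sub_self, abs_zero]
    refine ⟨hρ, ?_⟩
    have : 2 * Real.pi * (j:ℝ) / (2 * Real.pi) = j := by field_simp
    rw [this, round_intCast]

/-- the terms -/
noncomputable def fc (s : ℂ) (α β δ ρ y : ℝ) (K i0 n : ℕ) (j : ℤ) : ℂ :=
  ((2 * δ : ℝ) : ℂ) ^ (s ^ 2) * (((1 / ((SA α β i0 n).card : ℝ) : ℝ) : ℂ) *
    ∑ q ∈ NR α ρ (FS y K) j, cqc s δ q * ((Wc (SA α β i0 n) (Real.log q.2 - Real.log q.1) : ℝ) : ℂ))

/-- the terms for a set of pairs with the same ratio -/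
lemma fc_eq (s : ℂ) (α β δ ρ y : ℝ) (K i0 n : ℕ) (j : ℤ) {a b : ℕ} (ha : 1 ≤ a) (hb : 1 ≤ b)
    (hF : ∀ m ∈ FS y K, 1 ≤ m) (h : NR α ρ (FS y K) j = (FS y K ×ˢ FS y K).filter fun q => q.1 * b = q.2 * a) :
    fc s α β δ ρ y K i0 n j = ((2 * δ : ℝ) : ℂ) ^ (s ^ 2) * TCt s δ y K a b *
      (((1 / ((SA α β i0 n).card : ℝ) * Wc (SA α β i0 n) (Real.log b - Real.log a) : ℝ)) : ℂ) := by
  have haR : (0:ℝ) < a := by exact_mod_cast ha
  have hbR : (0:ℝ) < b := by exact_mod_cast hb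
  unfold fc
  rw [h]
  have h2 : ∀ q ∈ (FS y K ×ˢ FS y K).filter (fun q => q.1 * b = q.2 * a),
      cqc s δ q * ((Wc (SA α β i0 n) (Real.log q.2 - Real.log q.1) : ℝ) : ℂ) =
      cqc s δ q * ((Wc (SA α β i0 n) (Real.log b - Real.log a) : ℝ) : ℂ) := by
    intro q hq
    rw [Finset.mem_filter, Finset.mem_product] at hq
    have p1 : (0:ℝ) < q.1 := by exact_mod_cast hF _ hq.1.1
    have p2 : (0:ℝ) < q.2 := by exact_mod_cast hF _ hq.1.2
    have h3 : Real.log ((q.1 * b : ℕ) : ℝ) = Real.log ((q.2 * a : ℕ) : ℝ) := by rw [hq.2]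
    push_cast at h3
    rw [Real.log_mul p1.ne' hbR.ne', Real.log_mul p2.ne' haR.ne'] at h3
    have h4 : Real.log q.2 - Real.log q.1 = Real.log b - Real.log a := by linarith
    rw [h4]
  rw [Finset.sum_congr rfl h2, ← Finset.sum_mul]
  have h3 : ∑ q ∈ (FS y K ×ˢ FS y K).filter (fun q => q.1 * b = q.2 * a), cqc s δ q = TCt s δ y K a b := rfl
  rw [h3]
  push_cast
  ring

lemma card_Wc_le (S : Finset ℝ) (θ : ℝ) : |1 / (S.card : ℝ) * Wc S θ| ≤ 1 := by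
  rcases Nat.eq_zero_or_pos S.card with h | h
  · rw [h]
    simp
  · have hR : (0:ℝ) < S.card := by exact_mod_cast h
    rw [abs_mul, abs_of_pos (by positivity : (0:ℝ) < 1 / S.card), one_div, inv_mul_le_iff₀ hR, mul_one]
    exact Wc_le S θ

lemma ab_bound8 {α ρ : ℝ} (hα : 0 < α) (hρα : ρ ≤ α) {a b : ℕ} (ha : 1 ≤ a) (hb : 1 ≤ b) (j : ℤ)
    (h : |α * (Real.log b - Real.log a) - 2 * Real.pi * j| < ρ) :
    ((a * b : ℕ) : ℝ) ^ (-(1 / 8 : ℝ)) ≤ Real.exp (1 / 8) * Real.exp (-(Real.pi / (4 * α) * |(j:ℝ)|)) := by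
  have h1 := ab_bound hα hρα ha hb j h
  have h0 : (0:ℝ) ≤ ((a * b : ℕ) : ℝ) := Nat.cast_nonneg _
  have h2 : ((a * b : ℕ) : ℝ) ^ (-(1 / 8 : ℝ)) = (((a * b : ℕ) : ℝ) ^ (-(1 / 4 : ℝ))) ^ (1 / 2 : ℝ) := by
    rw [← Real.rpow_mul h0]
    norm_num
  rw [h2]
  refine (Real.rpow_le_rpow (Real.rpow_nonneg h0 _) h1 (by norm_num)).trans (le_of_eq ?_)
  rw [← Real.exp_add, ← Real.exp_mul, ← Real.exp_add]
  congr 1
  field_simp
  ring

/-- the bound of the terms -/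
lemma fc_bd {R : ℝ} (hR : 0 < R) : ∃ C C2 δ0 : ℝ, 0 < C ∧ 0 < C2 ∧ 0 < δ0 ∧ ∀ (C0 α β : ℝ) (i0 n : ℕ) (X δ y : ℝ) (K : ℕ),
    0 < α → St C0 α β i0 n X δ y K → δ ≤ δ0 → C2 * Real.log (1 / δ) ≤ δ * Real.log y → C2 * Real.log (1 / δ) ≤ K →
    ∀ j : ℤ, ∀ s : ℂ, ‖s‖ ≤ R →
    ‖fc s α β δ (X ^ (-(1 / 2) : ℝ)) y K i0 n j‖ ≤ C * Real.exp (-(Real.pi / (4 * α) * |(j:ℝ)|)) ∧
    (fc s α β δ (X ^ (-(1 / 2) : ℝ)) y K i0 n j = 0 ∨ ∃ a b : ℕ, 1 ≤ a ∧ 1 ≤ b ∧ Nat.Coprime a b ∧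
      |α * (Real.log b - Real.log a) - 2 * Real.pi * j| < X ^ (-(1 / 2) : ℝ) ∧
      ‖fc s α β δ (X ^ (-(1 / 2) : ℝ)) y K i0 n j‖ ≤ C * ((a * b : ℕ) : ℝ) ^ (-(1 / 8 : ℝ))) := by
  obtain ⟨C, C2, δ0, hC, hC2, hδ0, h⟩ := TCt_bd hR
  refine ⟨C * Real.exp (1 / 8) + C, C2, δ0, by positivity, hC2, hδ0, fun C0 α β i0 n X δ y K hα st hδ1 hy1 hK j s hs => ?_⟩
  have he : 0 < Real.exp (-(Real.pi / (4 * α) * |(j:ℝ)|)) := Real.exp_pos _
  rcases near_eq hα (Real.exp_pos _) st.hρ st.hF j with h0 | ⟨a, b, ha, hb, hab, h2, h3⟩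
  · have h4 : fc s α β δ (X ^ (-(1 / 2) : ℝ)) y K i0 n j = 0 := by
      unfold fc
      rw [h0]
      simp
    refine ⟨?_, Or.inl h4⟩
    rw [h4, norm_zero]
    positivity
  · have h4 : ‖fc s α β δ (X ^ (-(1 / 2) : ℝ)) y K i0 n j‖ ≤ C * ((a * b : ℕ) : ℝ) ^ (-(1 / 8 : ℝ)) := by
      rw [fc_eq s α β δ _ y K i0 n j ha hb (fun m hm => (st.hF m hm).1) h3, norm_mul, Complex.norm_real, Real.norm_eq_abs]
      have g1 := h δ st.hδ hδ1 y K st.hy hy1 hK a b ha hb hab s hs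
      exact mul_le_of_le_one_right (norm_nonneg _) (card_Wc_le _ _) |>.trans g1
    have h5 := ab_bound8 hα st.hρ1 ha hb j h2
    have h6 : 0 ≤ ((a * b : ℕ) : ℝ) ^ (-(1 / 8 : ℝ)) := Real.rpow_nonneg (Nat.cast_nonneg _) _
    refine ⟨?_, Or.inr ⟨a, b, ha, hb, hab, h2, ?_⟩⟩
    · calc ‖fc s α β δ (X ^ (-(1 / 2) : ℝ)) y K i0 n j‖ ≤ C * ((a * b : ℕ) : ℝ) ^ (-(1 / 8 : ℝ)) := h4
        _ ≤ C * (Real.exp (1 / 8) * Real.exp (-(Real.pi / (4 * α) * |(j:ℝ)|))) := mul_le_mul_of_nonneg_left h5 hC.le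
        _ ≤ (C * Real.exp (1 / 8) + C) * Real.exp (-(Real.pi / (4 * α) * |(j:ℝ)|)) := by nlinarith [mul_pos hC he]
    · refine h4.trans (mul_le_mul_of_nonneg_right ?_ h6)
      have : 0 < C * Real.exp (1 / 8) := by positivity
      linarith

/-- the parameters satisfy the standing assumptions -/
lemma ev_St2 {X δ : ℕ → ℝ} (hd : AdN X δ) {C0 : ℝ} (hC0 : 0 < C0)
    (hF : ∀ y : ℝ, 2 ≤ y → ∀ K : ℕ, ∀ m ∈ FS y K, 1 ≤ m ∧ (m:ℝ) ≤ Real.exp (K * Real.log y))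
    {α β : ℝ} (hα : 0 < α) (i0 : ℕ) {C : ℝ} (hC8 : 8 ≤ C) (hCC : 16 * C0 ≤ C) :
    ∀ᶠ n in atTop, ∀ (y : ℝ) (K : ℕ), 2 ≤ y → C * ((K + 1) * Real.log y) ≤ Real.log (X n) →
      St C0 α β i0 n (X n) (δ n) y K := by
  have h1 : ∀ᶠ n in atTop, X n ^ (-(1 / 2) : ℝ) ≤ α := (pow_small hd.X0 (by norm_num)).eventually_le_const hα
  have h2 : ∀ᶠ n in atTop, 2 * X n ^ (-(1 / 4) : ℝ) < α := by
    have := (pow_small hd.X0 (show (0:ℝ) < 1 / 4 by norm_num)).const_mul 2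
    rw [mul_zero] at this
    exact this.eventually_lt_const hα
  have hlt : ∀ᶠ n in atTop, δ n ≤ 1 / 16 := hd.t0.eventually_le_const (by norm_num)
  filter_upwards [hd.pos, hlt, hd.X0.eventually_ge_atTop 1, h1, h2, eventually_gt_atTop i0] with n a3 a4 a5 a6 a7 a8 y K a1 a2
  have hX0 : 0 < X n := by linarith
  have hly : 0 < Real.log y := Real.log_pos (by linarith)
  have hK0 : (0:ℝ) ≤ K := Nat.cast_nonneg _
  have hM : Real.exp (K * Real.log y) ≤ X n ^ (1 / 8 : ℝ) := by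
    rw [Real.rpow_def_of_pos hX0]
    apply Real.exp_le_exp.2
    nlinarith [mul_nonneg hK0 hly.le]
  refine ⟨a5, a3, a4, a1, hM, ?_, hF _ a1 _, ?_, a6, ?_⟩
  · rw [Real.rpow_def_of_pos hX0, ← Real.exp_nat_mul]
    apply Real.exp_le_exp.2
    push_cast
    have : 0 ≤ ((K:ℝ) + 1) * Real.log y := by positivity
    nlinarith
  · have hM2 : Real.exp (K * Real.log y) ^ 2 ≤ X n ^ (1 / 4 : ℝ) := by
      calc Real.exp (K * Real.log y) ^ 2 ≤ (X n ^ (1 / 8 : ℝ)) ^ 2 := pow_le_pow_left₀ (Real.exp_pos _).le hM 2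
        _ = X n ^ (1 / 4 : ℝ) := by
          rw [← Real.rpow_natCast, ← Real.rpow_mul hX0.le]
          norm_num
    have hρ0 : 0 < X n ^ (-(1 / 2) : ℝ) := Real.rpow_pos_of_pos hX0 _
    calc 2 * X n ^ (-(1 / 2) : ℝ) * Real.exp (K * Real.log y) ^ 2 ≤ 2 * X n ^ (-(1 / 2) : ℝ) * X n ^ (1 / 4 : ℝ) :=
          mul_le_mul_of_nonneg_left hM2 (by positivity)
      _ = 2 * X n ^ (-(1 / 4) : ℝ) := by
          rw [mul_assoc, ← Real.rpow_add hX0]
          norm_num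
      _ < α := a7
  · rw [SA_card hα]
    exact_mod_cast Nat.sub_pos_of_lt a8

/-- dominated convergence for series, uniformly in a parameter -/
lemma tannery_unif {ι : Type*} {u : ℤ → ℝ} (hu : Summable u) {P : ℕ → ι → Prop} {f g : ℕ → ι → ℤ → ℂ}
    (hf : ∀ᶠ n in atTop, ∀ i, P n i → ∀ j, ‖f n i j‖ ≤ u j) (hg : ∀ᶠ n in atTop, ∀ i, P n i → ∀ j, ‖g n i j‖ ≤ u j)
    (h : ∀ j : ℤ, ∀ ε : ℝ, 0 < ε → ∀ᶠ n in atTop, ∀ i, P n i → ‖f n i j - g n i j‖ ≤ ε) {ε : ℝ} (hε : 0 < ε) :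
    ∀ᶠ n in atTop, ∀ i, P n i → ‖(∑' j, f n i j) - ∑' j, g n i j‖ ≤ ε := by
  classical
  obtain ⟨J, hJ⟩ : ∃ J : Finset ℤ, ∑' j, u j - ε / 4 < ∑ j ∈ J, u j := by
    have h1 := hu.hasSum.eventually_const_lt (show ∑' j, u j - ε / 4 < ∑' j, u j by linarith)
    exact h1.exists
  obtain ⟨c, hc⟩ : ∃ c : ℝ, c = ε / (2 * (J.card + 1)) := ⟨_, rfl⟩
  have hc0 : 0 < c := by rw [hc]; positivity
  have hJc : J.card * c ≤ ε / 2 := by
    rw [hc, ← mul_div_assoc, div_le_div_iff₀ (by positivity) (by norm_num)]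
    nlinarith [(Nat.cast_nonneg J.card : (0:ℝ) ≤ J.card)]
  have hfin : ∀ᶠ n in atTop, ∀ j ∈ J, ∀ i, P n i → ‖f n i j - g n i j‖ ≤ c := by
    rw [Filter.eventually_all_finset]
    intro j _
    exact h j c hc0
  filter_upwards [hf, hg, hfin] with n a1 a2 a3 i hi
  have s1 : Summable (f n i) := Summable.of_norm_bounded hu fun j => a1 i hi j
  have s2 : Summable (g n i) := Summable.of_norm_bounded hu fun j => a2 i hi j
  rw [← s1.tsum_sub s2]
  have hv : HasSum (fun j => 2 * u j + (if j ∈ J then c - 2 * u j else 0)) (2 * ∑' j, u j + ∑ j ∈ J, (c - 2 * u j)) := by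
    refine (hu.hasSum.mul_left 2).add ?_
    have h1 : ∑ j ∈ J, (c - 2 * u j) = ∑ j ∈ J, (if j ∈ J then c - 2 * u j else 0) :=
      Finset.sum_congr rfl fun j hj => by rw [if_pos hj]
    rw [h1]
    exact hasSum_sum_of_ne_finset_zero fun j hj => by rw [if_neg hj]
  refine (tsum_of_norm_bounded hv fun j => ?_).trans ?_
  · by_cases hj : j ∈ J
    · rw [if_pos hj]
      have := a3 j hj i hi
      linarith
    · rw [if_neg hj, add_zero]
      refine (norm_sub_le _ _).trans ?_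
      linarith [a1 i hi j, a2 i hi j]
  · rw [Finset.sum_sub_distrib, Finset.sum_const, nsmul_eq_mul, ← Finset.mul_sum]
    linarith

end Run7.h310.SQ
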