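import Pool.Agent.Run7.h310.SQ.F2

set_option autoImplicit false

/-! # Project SQ: the asymptotics along arithmetic progressions, complex exponents -/

namespace Run7.h310.SQ

open Finset Filter MeasureTheory Topology Complex
open Pool.Agent.N748.MG Run7.h310.SP

/-- the limits of the twisted sums -/
noncomputable def aTf (a b : ℕ) : ℂ → ℂ := by
  classical
  exact if h : 1 ≤ a ∧ 1 ≤ b ∧ Nat.Coprime a b then (t_ltc a b h.1 h.2.1 h.2.2).choose else fun _ => 0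

lemma aTf_spec {a b : ℕ} (ha : 1 ≤ a) (hb : 1 ≤ b) (hab : Nat.Coprime a b) : Continuous (aTf a b) ∧
    (∀ V : ℝ, 0 < V → aTf a b V = (((aC V).re * tw V a b : ℝ) : ℂ)) ∧
    ∀ R ε : ℝ, 0 < R → 0 < ε → ∃ δ0 : ℝ, 0 < δ0 ∧ ∀ δ : ℝ, 0 < δ → δ ≤ δ0 → ∀ s : ℂ, ‖s‖ ≤ R →
      ‖((2 * δ : ℝ) : ℂ) ^ (s ^ 2) * TC s δ a b - aTf a b s‖ ≤ ε := by
  have h : 1 ≤ a ∧ 1 ≤ b ∧ Nat.Coprime a b := ⟨ha, hb, hab⟩
  have e : aTf a b = (t_ltc a b h.1 h.2.1 h.2.2).choose := by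
    unfold aTf
    rw [dif_pos h]
  rw [e]
  exact (t_ltc a b h.1 h.2.1 h.2.2).choose_spec

/-- the bound of the limits -/
lemma aTf_bd {R : ℝ} (hR : 0 < R) : ∃ C : ℝ, 0 < C ∧ ∀ a b : ℕ, 1 ≤ a → 1 ≤ b → Nat.Coprime a b → ∀ s : ℂ, ‖s‖ ≤ R →
    ‖aTf a b s‖ ≤ C * ((a * b : ℕ) : ℝ) ^ (-(1 / 8 : ℝ)) := by
  obtain ⟨C, δ0, hC, hδ0, h⟩ := TC_bd hR
  refine ⟨C, hC, fun a b ha hb hab s hs => ?_⟩
  refine le_of_forall_pos_le_add fun ε hε => ?_
  obtain ⟨δ1, hδ1, h1⟩ := (aTf_spec ha hb hab).2.2 R ε hR hε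
  have m0 : 0 < min δ0 δ1 := lt_min hδ0 hδ1
  have g1 := h (min δ0 δ1) m0 (min_le_left _ _) a b ha hb hab s hs
  have g2 := h1 (min δ0 δ1) m0 (min_le_right _ _) s hs
  rw [norm_sub_rev] at g2
  have g3 := norm_sub_norm_le (aTf a b s) (((2 * min δ0 δ1 : ℝ) : ℂ) ^ (s ^ 2) * TC s (min δ0 δ1) a b)
  linarith

/-- the resonant terms -/
noncomputable def resC (α : ℝ) (j : ℤ) (s : ℂ) : ℂ := by
  classical
  exact if h : ∃ q : ℕ × ℕ, 1 ≤ q.1 ∧ 1 ≤ q.2 ∧ Nat.Coprime q.1 q.2 ∧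
    α * (Real.log q.2 - Real.log q.1) = 2 * Real.pi * j then aTf h.choose.1 h.choose.2 s else 0

lemma resC_cases (α : ℝ) (j : ℤ) : (∃ a b : ℕ, 1 ≤ a ∧ 1 ≤ b ∧ Nat.Coprime a b ∧
      α * (Real.log b - Real.log a) = 2 * Real.pi * j ∧ (∀ s, resC α j s = aTf a b s) ∧ ∀ k, res k α j = tw k a b) ∨
    ((¬ ∃ q : ℕ × ℕ, 1 ≤ q.1 ∧ 1 ≤ q.2 ∧ Nat.Coprime q.1 q.2 ∧
      α * (Real.log q.2 - Real.log q.1) = 2 * Real.pi * j) ∧ (∀ s, resC α j s = 0) ∧ ∀ k, res k α j = 0) := by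
  classical
  by_cases h : ∃ q : ℕ × ℕ, 1 ≤ q.1 ∧ 1 ≤ q.2 ∧ Nat.Coprime q.1 q.2 ∧
    α * (Real.log q.2 - Real.log q.1) = 2 * Real.pi * j
  · left
    obtain ⟨ha, hb, hab, hj⟩ := h.choose_spec
    refine ⟨h.choose.1, h.choose.2, ha, hb, hab, hj, fun s => ?_, fun k => ?_⟩
    · unfold resC
      rw [dif_pos h]
    · unfold res
      rw [dif_pos h]
  · right
    refine ⟨h, fun s => ?_, fun k => ?_⟩
    · unfold resC
      rw [dif_neg h]
    · unfold res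
      rw [dif_neg h]

lemma resC_cont (α : ℝ) (j : ℤ) : Continuous (resC α j) := by
  rcases resC_cases α j with ⟨a, b, ha, hb, hab, -, h, -⟩ | ⟨-, h, -⟩
  · have : resC α j = aTf a b := funext h
    rw [this]
    exact (aTf_spec ha hb hab).1
  · have : resC α j = fun _ => 0 := funext h
    rw [this]
    exact continuous_const

lemma resC_bd {R : ℝ} (hR : 0 < R) : ∃ C : ℝ, 0 < C ∧ ∀ α : ℝ, 0 < α → ∀ (j : ℤ) (s : ℂ), ‖s‖ ≤ R →
    ‖resC α j s‖ ≤ C * Real.exp (-(Real.pi / (4 * α) * |(j:ℝ)|)) := by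
  obtain ⟨C, hC, h⟩ := aTf_bd hR
  refine ⟨C * Real.exp (1 / 8), by positivity, fun α hα j s hs => ?_⟩
  rcases resC_cases α j with ⟨a, b, ha, hb, hab, hj, h1, -⟩ | ⟨-, h1, -⟩
  · rw [h1]
    have g := ab_bound8 hα le_rfl ha hb j (ρ := α) (by rw [hj, sub_self, abs_zero]; exact hα)
    calc ‖aTf a b s‖ ≤ C * ((a * b : ℕ) : ℝ) ^ (-(1 / 8 : ℝ)) := h a b ha hb hab s hs
      _ ≤ C * (Real.exp (1 / 8) * Real.exp (-(Real.pi / (4 * α) * |(j:ℝ)|))) := mul_le_mul_of_nonneg_left g hC.le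
      _ = _ := by ring
  · rw [h1, norm_zero]
    positivity

/-- the asymptotics of the mean of the polynomials over the sample points, complex exponents -/
def QFC (X δ : ℕ → ℝ) (S : ℕ → Finset ℝ) (A : ℂ → ℂ) : Prop := ∀ R : ℝ, 0 < R → ∃ C : ℝ, 0 < C ∧ ∀ ε : ℝ, 0 < ε →
  ∀ᶠ n in atTop, ∀ (y : ℝ) (K : ℕ), 2 ≤ y → C * Real.log (1 / δ n) ≤ δ n * Real.log y → C * Real.log (1 / δ n) ≤ K →
    C * ((K + 1) * Real.log y) ≤ Real.log (X n) → ∀ s : ℂ, ‖s‖ ≤ R →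
    ‖((2 * δ n : ℝ) : ℂ) ^ (s ^ 2) * (((1 / ((S n).card : ℝ) : ℝ) : ℂ) * ∑ x ∈ S n, AS s y K (pw (δ n) x) *
      (starRingEnd ℂ) (AS ((starRingEnd ℂ) s) y K (pw (δ n) x))) - A s‖ ≤ ε

/-- the limit function of the arithmetic progression -/
noncomputable def AAP (α β : ℝ) (s : ℂ) : ℂ := ∑' j : ℤ, resC α j s * ((Real.cos (2 * Real.pi * j * β / α) : ℝ) : ℂ)

lemma term_bd {C α : ℝ} (β : ℝ) {j : ℤ} {s : ℂ} (h : ‖resC α j s‖ ≤ C * Real.exp (-(Real.pi / (4 * α) * |(j:ℝ)|))) :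
    ‖resC α j s * ((Real.cos (2 * Real.pi * j * β / α) : ℝ) : ℂ)‖ ≤ C * Real.exp (-(Real.pi / (4 * α) * |(j:ℝ)|)) := by
  rw [norm_mul, Complex.norm_real, Real.norm_eq_abs]
  exact (mul_le_of_le_one_right (norm_nonneg _) (Real.abs_cos_le_one _)).trans h

lemma AAP_cont {α : ℝ} (hα : 0 < α) (β : ℝ) : Continuous (AAP α β) := by
  rw [continuous_iff_continuousAt]
  intro s0
  obtain ⟨C, hC, h⟩ := resC_bd (R := ‖s0‖ + 1) (by positivity)
  have hsum : Summable fun j : ℤ => C * Real.exp (-(Real.pi / (4 * α) * |(j:ℝ)|)) :=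
    (exp_abs_summable (div_pos Real.pi_pos (by linarith))).mul_left C
  have h1 : ContinuousOn (AAP α β) (Metric.ball 0 (‖s0‖ + 1)) := by
    unfold AAP
    refine continuousOn_tsum (fun j => ?_) hsum fun j s hs => ?_
    · exact ((resC_cont α j).mul continuous_const).continuousOn
    · rw [mem_ball_zero_iff] at hs
      exact term_bd β (h α hα j s hs.le)
  refine h1.continuousAt (Metric.isOpen_ball.mem_nhds ?_)
  rw [mem_ball_zero_iff]
  linarith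

lemma AAP_real {α : ℝ} (β : ℝ) {V : ℝ} (hV : 0 < V) : AAP α β V = (((aC V).re * cAP V α β : ℝ) : ℂ) := by
  unfold AAP cAP
  rw [← tsum_mul_left, Complex.ofReal_tsum]
  refine tsum_congr fun j => ?_
  rcases resC_cases α j with ⟨a, b, ha, hb, hab, hj, h1, h2⟩ | ⟨-, h1, h2⟩
  · rw [h1, h2, (aTf_spec ha hb hab).2.1 V hV]
    push_cast
    ring
  · rw [h1, h2]
    simp

/-- the limits of the terms, uniformly -/
lemma fc_lim {R : ℝ} (hR : 0 < R) {X δ : ℕ → ℝ} (hd : AdN X δ) {α : ℝ} (hα : 0 < α) (β : ℝ) (i0 : ℕ) : ∃ C : ℝ, 0 < C ∧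
    ∀ (C0 : ℝ) (j : ℤ) (ε : ℝ), 0 < ε → ∀ᶠ n in atTop, ∀ (y : ℝ) (K : ℕ), St C0 α β i0 n (X n) (δ n) y K →
      C * Real.log (1 / δ n) ≤ δ n * Real.log y → C * Real.log (1 / δ n) ≤ K → ∀ s : ℂ, ‖s‖ ≤ R →
      ‖fc s α β (δ n) (X n ^ (-(1 / 2) : ℝ)) y K i0 n j -
        resC α j s * ((Real.cos (2 * Real.pi * j * β / α) : ℝ) : ℂ)‖ ≤ ε := by
  classical
  obtain ⟨C1, δ1, hC1, hδ1, hT⟩ := t_tdt3 R (R ^ 2 + 1) 1 hR (by positivity) one_pos
  obtain ⟨Ck, C2, δ2, hCk, hC2, hδ2, hb⟩ := fc_bd hR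
  refine ⟨max C1 C2, lt_max_of_lt_left hC1, fun C0 j ε hε => ?_⟩
  have hlt : ∀ᶠ n in atTop, δ n ≤ 1 / 16 := hd.t0.eventually_le_const (by norm_num)
  rcases resC_cases α j with ⟨a, b, ha, hb', hab, hj, h1, -⟩ | ⟨hno, h1, -⟩
  · obtain ⟨δ3, hδ3, hL⟩ := (aTf_spec ha hb' hab).2.2 R (ε / 2) hR (by positivity)
    have haR : (1:ℝ) ≤ a := by exact_mod_cast ha
    have hbR : (1:ℝ) ≤ b := by exact_mod_cast hb'
    have hXe : ∀ᶠ n in atTop, X n ^ (-(1 / 2) : ℝ) * (X n ^ (1 / 8 : ℝ) * (a * b)) < α := by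
      have h2 := (pow_small hd.X0 (show (0:ℝ) < 3 / 8 by norm_num)).mul_const ((a:ℝ) * b)
      rw [zero_mul] at h2
      filter_upwards [h2.eventually_lt_const hα, hd.X0.eventually_ge_atTop 1] with n h3 h4
      have : X n ^ (-(1 / 2) : ℝ) * (X n ^ (1 / 8 : ℝ) * (a * b)) = X n ^ (-(3 / 8) : ℝ) * (a * b) := by
        rw [← mul_assoc, ← Real.rpow_add (by linarith)]
        norm_num
      rw [this]
      exact h3
    have hsm : ∀ᶠ n in atTop, δ n ≤ 1 / ((a:ℝ) * b) := hd.t0.eventually_le_const (by positivity)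
    filter_upwards [hXe, hsm, hd.pos, hlt, hd.t0.eventually_le_const hδ1, hd.t0.eventually_le_const hδ3,
      hd.t0.eventually_le_const (show (0:ℝ) < ε / 2 by positivity)] with n a1 a2 a3 a4 a5 a6 a7 y K st hy1 hK s hs
    have hX0 : 0 < X n := by linarith [st.hX]
    have hρ0 : 0 < X n ^ (-(1 / 2) : ℝ) := Real.rpow_pos_of_pos hX0 _
    have hX8 : 0 < X n ^ (1 / 8 : ℝ) := Real.rpow_pos_of_pos hX0 _
    have hL0 : 0 ≤ Real.log (1 / δ n) := by linarith [log_inv_ge a3 a4]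
    have hset := exact_eq (F := FS y K) hα hρ0 hX8 (fun m hm => ⟨(st.hF m hm).1, (st.hF m hm).2.trans st.hM⟩) ha hb' hj a1
    rw [fc_eq s α β (δ n) _ y K i0 n j ha hb' (fun m hm => (st.hF m hm).1) hset, Wc_res hα β i0 n j hj, h1]
    have hcc : 1 / ((SA α β i0 n).card : ℝ) * (((SA α β i0 n).card : ℝ) * Real.cos (β * (Real.log b - Real.log a))) =
        Real.cos (2 * Real.pi * j * β / α) := by
      have hc := st.hc
      have e1 : β * (Real.log b - Real.log a) = 2 * Real.pi * j * β / α := by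
        rw [← hj]
        field_simp
      rw [e1]
      field_simp
    rw [hcc, ← sub_mul, norm_mul, Complex.norm_real, Real.norm_eq_abs]
    refine (mul_le_of_le_one_right (norm_nonneg _) (Real.abs_cos_le_one _)).trans ?_
    have e : ((2 * δ n : ℝ) : ℂ) ^ (s ^ 2) * TCt s (δ n) y K a b - aTf a b s =
        ((2 * δ n : ℝ) : ℂ) ^ (s ^ 2) * (TCt s (δ n) y K a b - TC s (δ n) a b) +
        (((2 * δ n : ℝ) : ℂ) ^ (s ^ 2) * TC s (δ n) a b - aTf a b s) := by ring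
    rw [e]
    refine (norm_add_le _ _).trans ?_
    have hab1 : ((a * b : ℕ) : ℝ) ≤ δ n ^ (-(1:ℝ)) := by
      rw [Real.rpow_neg a3.le, Real.rpow_one, ← one_div, le_div_iff₀ a3]
      rw [le_div_iff₀ (by positivity)] at a2
      push_cast
      linarith
    have g2 := (TCt_sub_le hR hs a3 ha hb' hab y K).trans (hT (δ n) a3 a5 y K st.hy
      ((mul_le_mul_of_nonneg_right (le_max_left _ _) hL0).trans hy1)
      ((mul_le_mul_of_nonneg_right (le_max_left _ _) hL0).trans hK) a b ha hb' hab hab1)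
    have g3 : ‖((2 * δ n : ℝ) : ℂ) ^ (s ^ 2) * (TCt s (δ n) y K a b - TC s (δ n) a b)‖ ≤ δ n := by
      rw [norm_mul]
      calc ‖((2 * δ n : ℝ) : ℂ) ^ (s ^ 2)‖ * ‖TCt s (δ n) y K a b - TC s (δ n) a b‖ ≤ δ n ^ (-(R ^ 2)) * δ n ^ (R ^ 2 + 1) :=
            mul_le_mul (CM.cpow_norm a3 a4 s hs) g2 (norm_nonneg _) (by positivity)
        _ = δ n := by
            rw [← Real.rpow_add a3]
            have : -(R ^ 2) + (R ^ 2 + 1) = 1 := by ring
            rw [this, Real.rpow_one]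
    linarith [hL (δ n) a3 a6 s hs]
  · -- choose B
    obtain ⟨B, hB⟩ : ∃ B : ℕ, ∀ m : ℕ, B < m → Ck * (m:ℝ) ^ (-(1 / 8 : ℝ)) < ε := by
      have h1 : Tendsto (fun m : ℕ => Ck * (m:ℝ) ^ (-(1 / 8 : ℝ))) atTop (𝓝 (Ck * 0)) :=
        ((tendsto_rpow_neg_atTop (by norm_num : (0:ℝ) < 1 / 8)).comp tendsto_natCast_atTop_atTop).const_mul Ck
      rw [mul_zero] at h1
      obtain ⟨B, hB⟩ := eventually_atTop.1 (h1.eventually_lt_const hε)
      exact ⟨B, fun m hm => hB m hm.le⟩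
    have hfin : ∀ᶠ n in atTop, ∀ q ∈ (Finset.Icc 1 B) ×ˢ (Finset.Icc 1 B), Nat.Coprime q.1 q.2 →
        X n ^ (-(1 / 2) : ℝ) ≤ |α * (Real.log q.2 - Real.log q.1) - 2 * Real.pi * j| := by
      rw [Filter.eventually_all_finset]
      intro q hq
      rw [Finset.mem_product, Finset.mem_Icc, Finset.mem_Icc] at hq
      by_cases hc : Nat.Coprime q.1 q.2
      · have hne : 0 < |α * (Real.log q.2 - Real.log q.1) - 2 * Real.pi * j| := by
          rw [abs_pos, sub_ne_zero]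
          intro h0
          exact hno ⟨q, hq.1.1, hq.2.1, hc, h0⟩
        filter_upwards [(pow_small hd.X0 (show (0:ℝ) < 1 / 2 by norm_num)).eventually_le_const hne] with n hn _
        exact hn
      · exact Eventually.of_forall fun n hc' => absurd hc' hc
    filter_upwards [hfin, hd.pos, hlt, hd.t0.eventually_le_const hδ2] with n g1 a3 a4 a5 y K st hy1 hK s hs
    have hL0 : 0 ≤ Real.log (1 / δ n) := by linarith [log_inv_ge a3 a4]
    rw [h1, zero_mul, sub_zero]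
    rcases (hb C0 α β i0 n (X n) (δ n) y K hα st a5 ((mul_le_mul_of_nonneg_right (le_max_right _ _) hL0).trans hy1)
      ((mul_le_mul_of_nonneg_right (le_max_right _ _) hL0).trans hK) j s hs).2 with h0 | ⟨a, b, ha, hb', hab, h2, h3⟩
    · rw [h0, norm_zero]
      exact hε.le
    · refine (h3.trans_lt (hB _ ?_)).le
      by_contra hle
      push Not at hle
      have haB : a ≤ B := le_trans (Nat.le_mul_of_pos_right a hb') hle
      have hbB : b ≤ B := le_trans (Nat.le_mul_of_pos_left b ha) hle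
      have := g1 (a, b) (Finset.mem_product.2 ⟨Finset.mem_Icc.2 ⟨ha, haB⟩, Finset.mem_Icc.2 ⟨hb', hbB⟩⟩) hab
      simp only at this
      linarith

/-- the mean of the polynomials along an arithmetic progression -/
theorem qfc_ap {X δ : ℕ → ℝ} (hd : AdN X δ) {α : ℝ} (hα : 0 < α) (β : ℝ) (i0 : ℕ) {c1 : ℝ} (hc1 : 0 < c1)
    (hcard : ∀ᶠ n in atTop, c1 * X n ≤ (SA α β i0 n).card) : QFC X δ (fun n => SA α β i0 n) (AAP α β) := by
  classical
  intro R hR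
  obtain ⟨C0, hC00, hC0⟩ := SIZ.main R hR.le
  obtain ⟨C1, hC1, hlim⟩ := fc_lim hR hd hα β i0
  obtain ⟨Ck, C2, δ2, hCk, hC2, hδ2, hb⟩ := fc_bd hR
  obtain ⟨Cr, hCr, hr⟩ := resC_bd hR
  obtain ⟨CC, hCC⟩ : ∃ CC, CC = C1 + C2 + (8 + 16 * C0) := ⟨_, rfl⟩
  refine ⟨CC, by rw [hCC]; positivity, fun ε hε => ?_⟩
  have hlt : ∀ᶠ n in atTop, δ n ≤ 1 / 16 := hd.t0.eventually_le_const (by norm_num)
  have hSt := ev_St2 hd hC00 (fun y hy K => (hC0 y hy K).1) (β := β) hα i0 (C := 8 + 16 * C0) (by linarith) (by linarith)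
  -- Tannery
  have hsum : Summable fun j : ℤ => (Ck + Cr) * Real.exp (-(Real.pi / (4 * α) * |(j:ℝ)|)) :=
    (exp_abs_summable (div_pos Real.pi_pos (by linarith))).mul_left _
  have hTan := tannery_unif (ι := ℝ × ℕ × ℂ) hsum
    (P := fun n i => St C0 α β i0 n (X n) (δ n) i.1 i.2.1 ∧ CC * Real.log (1 / δ n) ≤ δ n * Real.log i.1 ∧
      CC * Real.log (1 / δ n) ≤ i.2.1 ∧ ‖i.2.2‖ ≤ R)
    (f := fun n i j => fc i.2.2 α β (δ n) (X n ^ (-(1 / 2) : ℝ)) i.1 i.2.1 i0 n j)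
    (g := fun _ i j => resC α j i.2.2 * ((Real.cos (2 * Real.pi * j * β / α) : ℝ) : ℂ))
    (by
      filter_upwards [hd.pos, hlt, hd.t0.eventually_le_const hδ2] with n a3 a4 a5 i hi j
      obtain ⟨st, b1, b2, b3⟩ := hi
      have hL0 : 0 ≤ Real.log (1 / δ n) := by linarith [log_inv_ge a3 a4]
      have hc2 : C2 ≤ CC := by rw [hCC]; linarith
      refine (hb C0 α β i0 n (X n) (δ n) i.1 i.2.1 hα st a5 ((mul_le_mul_of_nonneg_right hc2 hL0).trans b1)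
        ((mul_le_mul_of_nonneg_right hc2 hL0).trans b2) j i.2.2 b3).1.trans ?_
      exact mul_le_mul_of_nonneg_right (by linarith) (Real.exp_pos _).le)
    (by
      refine Eventually.of_forall fun n i hi j => ?_
      refine (term_bd β (hr α hα j i.2.2 hi.2.2.2)).trans ?_
      exact mul_le_mul_of_nonneg_right (by linarith) (Real.exp_pos _).le)
    (by
      intro j e he
      filter_upwards [hlim C0 j e he, hd.pos, hlt] with n a1 a3 a4 i hi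
      obtain ⟨st, b1, b2, b3⟩ := hi
      have hL0 : 0 ≤ Real.log (1 / δ n) := by linarith [log_inv_ge a3 a4]
      have hc1' : C1 ≤ CC := by rw [hCC]; linarith
      exact a1 i.1 i.2.1 st ((mul_le_mul_of_nonneg_right hc1' hL0).trans b1)
        ((mul_le_mul_of_nonneg_right hc1' hL0).trans b2) i.2.2 b3)
    (show 0 < ε / 2 by positivity)
  -- the far part
  have hwin := AdN.app (Ev.win (D := R ^ 2) (c := 1) (e := 1 / 8) one_pos (by norm_num)) hd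
  have hfar : ∀ᶠ n in atTop, Real.pi / c1 * X n ^ (-(1 / 4) : ℝ) ≤ ε / 2 := by
    have := (pow_small hd.X0 (show (0:ℝ) < 1 / 4 by norm_num)).const_mul (Real.pi / c1)
    rw [mul_zero] at this
    exact this.eventually_le_const (by positivity)
  filter_upwards [hSt, hTan, hwin, hfar, hcard, hd.pos, hlt] with n a1 a2 a3 a4 a5 a6 a7 y K hy hy1 hK hX s hs
  have hL0 : 0 ≤ Real.log (1 / δ n) := by linarith [log_inv_ge a6 a7]
  have hly : 0 ≤ Real.log y := Real.log_nonneg (by linarith)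
  have st := a1 y K hy ((mul_le_mul_of_nonneg_right (by rw [hCC]; linarith) (by positivity)).trans hX)
  have hX0 : 0 < X n := by linarith [st.hX]
  have hρ0 : 0 < X n ^ (-(1 / 2) : ℝ) := Real.rpow_pos_of_pos hX0 _
  have hπ := Real.pi_pos
  have hc := st.hc
  have t1 := a2 (y, K, s) ⟨st, hy1, hK, hs⟩
  simp only at t1
  obtain ⟨z, hz⟩ : ∃ z : ℂ, z = ((2 * δ n : ℝ) : ℂ) ^ (s ^ 2) := ⟨_, rfl⟩
  have hzn : ‖z‖ ≤ δ n ^ (-(R ^ 2)) := by rw [hz]; exact CM.cpow_norm a6 a7 s hs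
  -- the far part
  have h2 : ‖∑ q ∈ FP α (X n ^ (-(1 / 2) : ℝ)) (FS y K), cqc s (δ n) q *
      ((Wc (SA α β i0 n) (Real.log q.2 - Real.log q.1) : ℝ) : ℂ)‖ ≤ (Real.pi / X n ^ (-(1 / 2) : ℝ)) * X n ^ (1 / 8 : ℝ) := by
    calc _ ≤ ∑ q ∈ FP α (X n ^ (-(1 / 2) : ℝ)) (FS y K), ‖cqc s (δ n) q *
            ((Wc (SA α β i0 n) (Real.log q.2 - Real.log q.1) : ℝ) : ℂ)‖ := norm_sum_le _ _
      _ ≤ ∑ q ∈ FP α (X n ^ (-(1 / 2) : ℝ)) (FS y K), cq R (δ n) q * (Real.pi / X n ^ (-(1 / 2) : ℝ)) := by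
          refine Finset.sum_le_sum fun q hq => ?_
          rw [norm_mul, Complex.norm_real, Real.norm_eq_abs]
          exact mul_le_mul (cqc_le hs _ q) (Wc_far hα β i0 n hρ0 (far_all hq)) (abs_nonneg _) (cq_nonneg hR _ q)
      _ ≤ ∑ q ∈ FS y K ×ˢ FS y K, cq R (δ n) q * (Real.pi / X n ^ (-(1 / 2) : ℝ)) :=
          Finset.sum_le_sum_of_subset_of_nonneg (Finset.filter_subset _ _) fun q _ _ =>
            mul_nonneg (cq_nonneg hR _ q) (by positivity)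
      _ = (Real.pi / X n ^ (-(1 / 2) : ℝ)) * ∑ q ∈ FS y K ×ˢ FS y K, cq R (δ n) q := by
          rw [← Finset.sum_mul, mul_comm]
      _ ≤ (Real.pi / X n ^ (-(1 / 2) : ℝ)) * (∑ m ∈ FS y K, |dR R m|) ^ 2 := by
          refine mul_le_mul_of_nonneg_left ?_ (by positivity)
          rw [sq, Finset.sum_mul_sum, Finset.sum_product]
          refine Finset.sum_le_sum fun m hm => Finset.sum_le_sum fun l hl => ?_
          unfold cq
          simp only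
          have w1 : wN (δ n) m ≤ 1 := MVS.cc_le_one st.hδ.le (st.hF m hm).1
          have w2 : wN (δ n) l ≤ 1 := MVS.cc_le_one st.hδ.le (st.hF l hl).1
          have w3 : wN (δ n) m * wN (δ n) l ≤ 1 := mul_le_one₀ w1 (wN_nonneg _ _) w2
          rw [abs_of_pos (dR_pos hR m), abs_of_pos (dR_pos hR l)]
          exact mul_le_of_le_one_right (mul_nonneg (dR_pos hR _).le (dR_pos hR _).le) w3
      _ ≤ (Real.pi / X n ^ (-(1 / 2) : ℝ)) * X n ^ (1 / 8 : ℝ) := by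
          refine mul_le_mul_of_nonneg_left ?_ (by positivity)
          rw [sum_abs_dR hR]
          exact (pow_le_pow_left₀ (Finset.sum_nonneg fun _ _ => norm_nonneg _)
            ((hC0 y st.hy K).2 (R:ℂ) (norm_k hR)) 2).trans st.hM2
  have e1 := quad_c s (δ n) y K (SA α β i0 n)
  rw [split_c α (X n ^ (-(1 / 2) : ℝ))] at e1
  rw [e1, ← hz]
  have e2 : ∑' j : ℤ, fc s α β (δ n) (X n ^ (-(1 / 2) : ℝ)) y K i0 n j =
      z * (((1 / ((SA α β i0 n).card : ℝ) : ℝ) : ℂ) * ∑' j : ℤ, ∑ q ∈ NR α (X n ^ (-(1 / 2) : ℝ)) (FS y K) j, cqc s (δ n) q *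
        ((Wc (SA α β i0 n) (Real.log q.2 - Real.log q.1) : ℝ) : ℂ)) := by
    rw [← tsum_mul_left, ← tsum_mul_left, hz]
    rfl
  obtain ⟨Fa, hFa⟩ : ∃ Fa, Fa = ∑ q ∈ FP α (X n ^ (-(1 / 2) : ℝ)) (FS y K), cqc s (δ n) q *
      ((Wc (SA α β i0 n) (Real.log q.2 - Real.log q.1) : ℝ) : ℂ) := ⟨_, rfl⟩
  rw [← hFa] at h2 ⊢
  rw [mul_add, mul_add, ← e2]
  have t2 : ‖z * (((1 / ((SA α β i0 n).card : ℝ) : ℝ) : ℂ) * Fa)‖ ≤ ε / 2 := by
    rw [norm_mul, norm_mul, Complex.norm_real, Real.norm_of_nonneg (by positivity)]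
    have h3 : 1 / ((SA α β i0 n).card : ℝ) ≤ 1 / (c1 * X n) := one_div_le_one_div_of_le (by positivity) a5
    have h4 : ‖z‖ ≤ X n ^ (1 / 8 : ℝ) := hzn.trans (a3.trans (le_of_eq (one_mul _)))
    have hX8 : 0 < X n ^ (1 / 8 : ℝ) := Real.rpow_pos_of_pos hX0 _
    calc ‖z‖ * (1 / ((SA α β i0 n).card : ℝ) * ‖Fa‖) ≤ X n ^ (1 / 8 : ℝ) * (1 / (c1 * X n) *
          ((Real.pi / X n ^ (-(1 / 2) : ℝ)) * X n ^ (1 / 8 : ℝ))) :=
          mul_le_mul h4 (mul_le_mul h3 h2 (norm_nonneg _) (by positivity)) (by positivity) hX8.le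
      _ = Real.pi / c1 * X n ^ (-(1 / 4) : ℝ) := by
          have h5 : X n ^ (1 / 8 : ℝ) * X n ^ (1 / 8 : ℝ) * X n ^ (1 / 2 : ℝ) = X n ^ (-(1 / 4) : ℝ) * X n := by
            rw [← Real.rpow_add hX0, ← Real.rpow_add hX0, ← Real.rpow_add_one hX0.ne']
            norm_num
          rw [Real.rpow_neg hX0.le (1 / 2), div_inv_eq_mul]
          calc X n ^ (1 / 8 : ℝ) * (1 / (c1 * X n) * (Real.pi * X n ^ (1 / 2 : ℝ) * X n ^ (1 / 8 : ℝ)))
              = Real.pi / c1 * (1 / X n) * (X n ^ (1 / 8 : ℝ) * X n ^ (1 / 8 : ℝ) * X n ^ (1 / 2 : ℝ)) := by field_simp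
            _ = Real.pi / c1 * (1 / X n) * (X n ^ (-(1 / 4) : ℝ) * X n) := by rw [h5]
            _ = _ := by field_simp
      _ ≤ ε / 2 := a4
  have e3 : z * (((1 / ((SA α β i0 n).card : ℝ) : ℝ) : ℂ) * Fa) + ∑' j : ℤ, fc s α β (δ n) (X n ^ (-(1 / 2) : ℝ)) y K i0 n j -
      AAP α β s = z * (((1 / ((SA α β i0 n).card : ℝ) : ℝ) : ℂ) * Fa) +
      (∑' j : ℤ, fc s α β (δ n) (X n ^ (-(1 / 2) : ℝ)) y K i0 n j - AAP α β s) := by ring
  rw [e3]
  refine (norm_add_le _ _).trans ?_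
  have t3 : ‖∑' j : ℤ, fc s α β (δ n) (X n ^ (-(1 / 2) : ℝ)) y K i0 n j - AAP α β s‖ ≤ ε / 2 := t1
  linarith

end Run7.h310.SQ
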