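import Pool.Agent.Run7.h310.SQ.Stm
import Pool.Agent.N748.MG.LLT
import Pool.Agent.N748.MG.LD

set_option autoImplicit false

/-!
# Project SQ: the local limit theorem for `log |ζ|`, general families of measures (GLD)
-/

namespace Run7.h310.SQ.GLD

open Finset Filter MeasureTheory Topology Complex
open Pool.Agent.N748.MG Run7.h310.SP

/-- the properties of the sets -/
structure Gd (μ : ℝ → Measure ℝ) (d : ℝ → ℝ) (A : ℂ → ℂ) (D : ℝ) (n : ℕ) (T : ℝ) (N : Set ℝ) : Prop where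
  meas : MeasurableSet N
  vol : μ T Nᶜ ≤ ENNReal.ofReal (d T ^ D)
  nz : ∀ t ∈ N, riemannZeta (pw (d T) t) ≠ 0
  int : ∀ s : ℂ, ‖s‖ ≤ n + 1 → IntegrableOn (fun t => ((‖riemannZeta (pw (d T) t)‖ : ℝ) : ℂ) ^ (2 * s)) N (μ T)
  est : ∀ s : ℂ, ‖s‖ ≤ n + 1 → ‖((2 * d T : ℝ) : ℂ) ^ (s ^ 2) *
    (∫ t in N, ((‖riemannZeta (pw (d T) t)‖ : ℝ) : ℂ) ^ (2 * s) ∂(μ T)) - A s‖ ≤ 1 / ((n : ℝ) + 1)

theorem Gd.mono {μ : ℝ → Measure ℝ} {d : ℝ → ℝ} {A : ℂ → ℂ} {D : ℝ} (m n : ℕ) (T : ℝ) (N : Set ℝ) (hmn : m ≤ n)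
    (h : Gd μ d A D n T N) : Gd μ d A D m T N := by
  have h1 : (m : ℝ) ≤ n := by exact_mod_cast hmn
  refine ⟨h.meas, h.vol, h.nz, fun s hs => h.int s (by linarith), fun s hs => (h.est s (by linarith)).trans ?_⟩
  exact one_div_le_one_div_of_le (by positivity) (by linarith)

/-- the density -/
noncomputable def rho (δ V r t : ℝ) : ℝ :=
  Real.exp (-(Real.log (1 / (2 * δ)) * V ^ 2)) / r * ‖riemannZeta (pw δ t)‖ ^ (2 * V)

/-- the measure -/
noncomputable def nu (m : Measure ℝ) (δ V r : ℝ) (N : Set ℝ) : Measure ℝ :=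
  ((m.restrict N).withDensity (fun t => ENNReal.ofReal (rho δ V r t))).map (LD.X δ V)

theorem rho_meas {δ : ℝ} (h0 : 0 < δ) (h1 : δ ≤ 1 / 16) (V r : ℝ) : Measurable (rho δ V r) :=
  ((LD.zc h0 h1).norm.measurable.pow_const (2 * V)).const_mul _

theorem rho_nn {δ r : ℝ} (hr : 0 < r) (V t : ℝ) : 0 ≤ rho δ V r t := by
  unfold rho
  positivity

theorem int_nu {E : Type*} [NormedAddCommGroup E] [NormedSpace ℝ E] (m : Measure ℝ) {δ r : ℝ}
    (h0 : 0 < δ) (h1 : δ ≤ 1 / 16) (hr : 0 < r) (V : ℝ) (N : Set ℝ) {f : ℝ → E}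
    (hf : StronglyMeasurable f) :
    ∫ x, f x ∂(nu m δ V r N) = ∫ t in N, rho δ V r t • f (LD.X δ V t) ∂m := by
  unfold nu
  rw [integral_map (LD.X_meas h0 h1 V).aemeasurable hf.aestronglyMeasurable]
  have h2 : (fun t => ENNReal.ofReal (rho δ V r t)) =
      fun t => (((rho δ V r t).toNNReal : NNReal) : ENNReal) := rfl
  rw [h2, integral_withDensity_eq_integral_smul (rho_meas h0 h1 V r).real_toNNReal]
  refine integral_congr_ae (Eventually.of_forall fun t => ?_)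
  show (rho δ V r t).toNNReal • f (LD.X δ V t) = rho δ V r t • f (LD.X δ V t)
  rw [NNReal.smul_def, Real.coe_toNNReal _ (rho_nn hr V t)]

theorem four (m : Measure ℝ) {δ r : ℝ} (h0 : 0 < δ) (h1 : δ ≤ 1 / 16) (hr : 0 < r) (V ξ : ℝ)
    {N : Set ℝ} (hN : MeasurableSet N) (hnz : ∀ t ∈ N, riemannZeta (pw δ t) ≠ 0) :
    ∫ x, cexp (ξ * x * I) ∂(nu m δ V r N) =
      (1 / r : ℂ) * Real.exp (-(ξ ^ 2 * Real.log (1 / (2 * δ)) / 4)) *
        (((2 * δ : ℝ) : ℂ) ^ ((V + ξ / 2 * I : ℂ) ^ 2) *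
          ∫ t in N, ((‖riemannZeta (pw δ t)‖ : ℝ) : ℂ) ^ (2 * (V + ξ / 2 * I : ℂ)) ∂m) := by
  rw [int_nu m h0 h1 hr V N (by
    have : Continuous (fun x : ℝ => cexp (ξ * x * I)) := by fun_prop
    exact this.stronglyMeasurable)]
  rw [← mul_assoc, ← integral_const_mul]
  refine setIntegral_congr_fun hN fun t ht => ?_
  have hz : 0 < ‖riemannZeta (pw δ t)‖ := norm_pos_iff.2 (hnz t ht)
  have hz' : ((‖riemannZeta (pw δ t)‖ : ℝ) : ℂ) ≠ 0 := by
    rw [Ne, Complex.ofReal_eq_zero]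
    exact hz.ne'
  have hr' : (r : ℂ) ≠ 0 := by exact_mod_cast hr.ne'
  show rho δ V r t • cexp (ξ * (LD.X δ V t : ℝ) * I) = _
  rw [LD.cpow_eq h0, Complex.cpow_def_of_ne_zero hz', ← Complex.ofReal_log hz.le, Complex.real_smul]
  unfold rho LD.X
  rw [Real.rpow_def_of_pos hz]
  set l := Real.log ‖riemannZeta (pw δ t)‖ with hl
  set Λ := Real.log (1 / (2 * δ)) with hΛ
  push_cast
  have e1 : (cexp (-((Λ : ℂ) * (V : ℂ) ^ 2)) / r * cexp ((l : ℂ) * (2 * V))) *
      cexp (ξ * (l - V * Λ) * I) = (1 / r : ℂ) *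
        (cexp (-((Λ : ℂ) * (V : ℂ) ^ 2)) * cexp ((l : ℂ) * (2 * V)) *
          cexp (ξ * (l - V * Λ) * I)) := by
    field_simp
  have e2 : (1 / (r : ℂ)) * cexp (-((ξ : ℂ) ^ 2 * Λ / 4)) *
      cexp (-(Λ : ℂ) * (V + ξ / 2 * I) ^ 2) * cexp ((l : ℂ) * (2 * (V + ξ / 2 * I))) =
      (1 / r : ℂ) * (cexp (-((ξ : ℂ) ^ 2 * Λ / 4)) *
      cexp (-(Λ : ℂ) * (V + ξ / 2 * I) ^ 2) * cexp ((l : ℂ) * (2 * (V + ξ / 2 * I)))) := by
    ring
  rw [e1, e2]
  congr 1
  rw [← Complex.exp_add, ← Complex.exp_add, ← Complex.exp_add, ← Complex.exp_add]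
  congr 1
  linear_combination (-(Λ : ℂ) * ξ ^ 2 / 4 * (-1)) * Complex.I_sq

theorem fin {μ : ℝ → Measure ℝ} {d : ℝ → ℝ} {A : ℂ → ℂ} {D V r T : ℝ} {n : ℕ} {N : Set ℝ} (h : Gd μ d A D n T N)
    (h0 : 0 < d T) (h1 : d T ≤ 1 / 16) (hr : 0 < r) (hV : |V| ≤ n + 1) :
    IsFiniteMeasure (nu (μ T) (d T) V r N) := by
  have hc : IntegrableOn (fun t : ℝ => ((‖riemannZeta (pw (d T) t)‖ : ℝ) : ℂ) ^ (2 * (V : ℂ)))
      N (μ T) := h.int V (by rw [Complex.norm_real]; exact hV)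
  have hre : IntegrableOn (rho (d T) V r) N (μ T) := by
    have h3 := hc.norm.const_mul (Real.exp (-(Real.log (1 / (2 * d T)) * V ^ 2)) / r)
    refine h3.congr ?_
    filter_upwards [ae_restrict_mem h.meas] with t ht
    have hz : 0 < ‖riemannZeta (pw (d T) t)‖ := norm_pos_iff.2 (h.nz t ht)
    unfold rho
    rw [Complex.norm_cpow_eq_rpow_re_of_pos hz]
    congr 2
    simp
  have h4 : IsFiniteMeasure (((μ T).restrict N).withDensity
      (fun t => ENNReal.ofReal (rho (d T) V r t))) :=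
    isFiniteMeasure_withDensity_ofReal hre.2
  unfold nu
  infer_instance

/-- the integral of `exp (-2 V x) h(x)` -/
theorem int_h (m : Measure ℝ) {δ r : ℝ} (h0 : 0 < δ) (h1 : δ ≤ 1 / 16) (hr : 0 < r) (V : ℝ)
    {N : Set ℝ} (hN : MeasurableSet N) (hnz : ∀ t ∈ N, riemannZeta (pw δ t) ≠ 0) {h : ℝ → ℝ}
    (hm : Measurable h) :
    r * ∫ x, Real.exp (-(2 * V * x)) * h x ∂(nu m δ V r N) =
      (2 * δ) ^ (-(V ^ 2)) * ∫ t in N, h (LD.X δ V t) ∂m := by
  rw [int_nu m h0 h1 hr V N (f := fun x => Real.exp (-(2 * V * x)) * h x) (by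
    have h2 : Measurable (fun x : ℝ => Real.exp (-(2 * V * x))) := by fun_prop
    exact (h2.mul hm).stronglyMeasurable), ← integral_const_mul, ← integral_const_mul]
  refine setIntegral_congr_fun hN fun t ht => ?_
  have hz : 0 < ‖riemannZeta (pw δ t)‖ := norm_pos_iff.2 (hnz t ht)
  simp only [smul_eq_mul]
  have e : rho δ V r t * Real.exp (-(2 * V * LD.X δ V t)) = 1 / r * (2 * δ) ^ (-(V ^ 2)) := by
    unfold rho LD.X
    rw [Real.rpow_def_of_pos hz, Real.rpow_def_of_pos (by positivity : 0 < 2 * δ), LD.log_eq]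
    set l := Real.log ‖riemannZeta (pw δ t)‖ with hl
    have e1 : Real.exp (-(-Real.log (2 * δ) * V ^ 2)) / r * Real.exp (l * (2 * V)) *
        Real.exp (-(2 * V * (l - V * -Real.log (2 * δ)))) = 1 / r *
        (Real.exp (-(-Real.log (2 * δ) * V ^ 2)) * Real.exp (l * (2 * V)) *
        Real.exp (-(2 * V * (l - V * -Real.log (2 * δ))))) := by ring
    rw [e1, ← Real.exp_add, ← Real.exp_add]
    have e2 : -(-Real.log (2 * δ) * V ^ 2) + l * (2 * V) + -(2 * V * (l - V * -Real.log (2 * δ))) =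
        Real.log (2 * δ) * -V ^ 2 := by ring
    rw [e2]
  calc r * (rho δ V r t * (Real.exp (-(2 * V * LD.X δ V t)) * h (LD.X δ V t)))
      = r * ((rho δ V r t * Real.exp (-(2 * V * LD.X δ V t))) * h (LD.X δ V t)) := by ring
    _ = _ := by
        rw [e]
        field_simp

theorem main : S_GLD := by
  intro μ d A V r hfinite hpos ht0 hac hr hrV hN' h S hm hcont hb1 hb2
  obtain ⟨C1, hC1⟩ := hb1
  obtain ⟨C2, hC2⟩ := hb2
  have hD : 0 < V ^ 2 + 2 := by positivity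
  obtain ⟨N, hN⟩ : ∃ N : ℝ → Set ℝ, ∀ n, ∀ᶠ T : ℝ in atTop, Gd μ d A (V ^ 2 + 2) n T (N T) := by
    refine LD.diag (Gd μ d A (V ^ 2 + 2)) (fun n => ?_) Gd.mono
    have h1 := hN' (n + 1) (V ^ 2 + 2) (1 / ((n : ℝ) + 1)) (by positivity) hD (by positivity)
    filter_upwards [h1] with T ⟨N, a1, a2, a3, a4⟩
    exact ⟨N, a1, a2, a3, fun s hs => (a4 s hs).1, fun s hs => (a4 s hs).2⟩
  have hsm : ∀ᶠ T : ℝ in atTop, 0 < d T ∧ d T ≤ 1 / 16 ∧ IsFiniteMeasure (μ T) := by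
    filter_upwards [hpos, ht0.eventually_le_const (show (0 : ℝ) < 1 / 16 by norm_num),
      hfinite] with T a b c
    exact ⟨a, b, c⟩
  have hC1' : 0 ≤ C1 := (abs_nonneg _).trans (hC1 0)
  -- the parameter tends to infinity
  have hΛ : Tendsto (fun T : ℝ => Real.log (1 / (2 * d T))) atTop atTop := by
    have h1 : Tendsto (fun T : ℝ => 2 * d T) atTop (𝓝[>] 0) := by
      rw [tendsto_nhdsWithin_iff]
      refine ⟨?_, ?_⟩
      · have := ht0.const_mul 2
        rwa [mul_zero] at this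
      · filter_upwards [hpos] with T hT
        show 0 < 2 * d T
        linarith
    have h2 := Real.tendsto_log_nhdsGT_zero.comp h1
    have h3 := tendsto_neg_atBot_atTop.comp h2
    refine h3.congr fun T => ?_
    simp only [Function.comp_apply]
    rw [LD.log_eq]
  -- the local limit lemma
  have key := LLT.main (fun T => nu (μ T) (d T) V r (N T)) (fun T => Real.log (1 / (2 * d T)))
    (fun ξ : ℝ => A (V + ξ / 2 * I) / r) ?_ hΛ ?_ ?_ ?_
    (fun x => Real.exp (-(2 * V * x)) * h x) S ?_ ?_ ?_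
  rotate_left
  · obtain ⟨n, hn⟩ := exists_nat_gt |V|
    filter_upwards [hN n, hsm] with T hT hT2
    exact fin hT hT2.1 hT2.2.1 hr (by linarith)
  · have : Continuous (fun ξ : ℝ => (V : ℂ) + ξ / 2 * I) := by fun_prop
    exact (hac.comp this).div_const _
  · simp only [Complex.ofReal_zero, zero_div, zero_mul, add_zero]
    rw [hrV]
    exact div_self (by exact_mod_cast hr.ne')
  · intro R hR ε hε
    obtain ⟨n, hn⟩ := exists_nat_gt (max (|V| + R) (1 / (ε * r)))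
    filter_upwards [hN n, hsm] with T hT hT2 ξ hξ
    obtain ⟨h0, h1, hT1⟩ := hT2
    rw [four (μ T) h0 h1 hr V ξ hT.meas hT.nz]
    have h2 : ‖(V : ℂ) + ξ / 2 * I‖ ≤ (n : ℝ) + 1 := by
      have h3 : ‖(V : ℂ) + ξ / 2 * I‖ ≤ |V| + |ξ| / 2 := by
        refine (norm_add_le _ _).trans ?_
        rw [Complex.norm_real, norm_mul, Complex.norm_I, mul_one, norm_div, Complex.norm_real,
          Real.norm_eq_abs, Real.norm_eq_abs]
        norm_num
      have := le_max_left (|V| + R) (1 / (ε * r))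
      linarith [abs_nonneg ξ]
    have h4 := hT.est _ h2
    have h5 : 1 / ((n : ℝ) + 1) ≤ ε * r := by
      have h6 := le_max_right (|V| + R) (1 / (ε * r))
      have h7 : 1 / (ε * r) < (n : ℝ) + 1 := by linarith
      rw [div_lt_iff₀ (by positivity)] at h7
      rw [div_le_iff₀ (by positivity)]
      linarith
    set W : ℂ := ((2 * d T : ℝ) : ℂ) ^ ((V + ξ / 2 * I : ℂ) ^ 2) *
          ∫ t in N T, ((‖riemannZeta (pw (d T) t)‖ : ℝ) : ℂ) ^ (2 * (V + ξ / 2 * I : ℂ)) ∂(μ T) with hW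
    set ex : ℝ := Real.exp (-(ξ ^ 2 * Real.log (1 / (2 * d T)) / 4)) with hex
    have hex0 : 0 < ex := Real.exp_pos _
    have hr' : (r : ℂ) ≠ 0 := by exact_mod_cast hr.ne'
    have e : (1 / r : ℂ) * (ex : ℂ) * W - A (V + ξ / 2 * I) / r * (ex : ℂ) =
        (1 / r : ℂ) * (ex : ℂ) * (W - A (V + ξ / 2 * I)) := by
      field_simp
    rw [e, norm_mul, norm_mul, Complex.norm_real, Real.norm_of_nonneg hex0.le]
    have e2 : ‖(1 / r : ℂ)‖ = 1 / r := by
      rw [norm_div, norm_one, Complex.norm_real, Real.norm_of_nonneg hr.le]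
    rw [e2]
    calc 1 / r * ex * ‖W - A (V + ξ / 2 * I)‖ ≤ 1 / r * ex * (ε * r) := by
          refine mul_le_mul_of_nonneg_left (h4.trans h5) (by positivity)
      _ = ε * ex := by field_simp
  · have h2 : Measurable (fun x : ℝ => Real.exp (-(2 * V * x))) := by fun_prop
    exact h2.mul hm
  · intro x hx
    have h2 : ContinuousAt (fun x : ℝ => Real.exp (-(2 * V * x))) x := by fun_prop
    exact h2.mul (hcont x hx)
  · refine ⟨C2, fun x => ?_⟩
    rw [abs_mul, Real.abs_exp, mul_assoc]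
    calc Real.exp (-(2 * V * x)) * (|h x| * (1 + x ^ 2)) ≤
          Real.exp (-(2 * V * x)) * (C2 * Real.exp (2 * V * x)) :=
          mul_le_mul_of_nonneg_left (hC2 x) (Real.exp_pos _).le
      _ = C2 * (Real.exp (-(2 * V * x)) * Real.exp (2 * V * x)) := by ring
      _ = C2 := by rw [← Real.exp_add, neg_add_cancel, Real.exp_zero, mul_one]
  -- the rest
  set E : ℝ → ℝ := fun T => Real.sqrt (Real.pi * Real.log (1 / (2 * d T))) *
    (2 * d T) ^ (-(V ^ 2)) * ∫ t in (N T)ᶜ, h (LD.X (d T) V t) ∂(μ T) with hE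
  have hE0 : Tendsto E atTop (𝓝 0) := by
    have hb : ∀ᶠ T : ℝ in atTop, ‖E T‖ ≤ C1 * (d T ^ 2 + 2 * d T) := by
      filter_upwards [hN 0, hsm] with T hT hT2
      obtain ⟨h0, h1, hT1⟩ := hT2
      have h2 : ‖∫ t in (N T)ᶜ, h (LD.X (d T) V t) ∂(μ T)‖ ≤ C1 * d T ^ (V ^ 2 + 2) := by
        have hfin : μ T (N T)ᶜ < ⊤ := lt_of_le_of_lt hT.vol ENNReal.ofReal_lt_top
        refine (norm_setIntegral_le_of_norm_le_const (C := C1) hfin fun t _ => ?_).trans ?_
        · exact hC1 _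
        · refine mul_le_mul_of_nonneg_left ?_ hC1'
          have h3 := ENNReal.toReal_mono ENNReal.ofReal_ne_top hT.vol
          rw [ENNReal.toReal_ofReal (by positivity)] at h3
          exact h3
      have h5 : 0 ≤ Real.log (1 / (2 * d T)) := by
        apply Real.log_nonneg
        rw [le_div_iff₀ (by positivity)]
        linarith
      have h3 : Real.sqrt (Real.pi * Real.log (1 / (2 * d T))) ≤ 1 + 2 / d T := by
        have h4 : Real.log (1 / (2 * d T)) ≤ 1 / (2 * d T) := Real.log_le_self (by positivity)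
        have h6 : Real.pi * Real.log (1 / (2 * d T)) ≤ 2 / d T := by
          calc Real.pi * Real.log (1 / (2 * d T)) ≤ 4 * (1 / (2 * d T)) :=
                mul_le_mul Real.pi_le_four h4 h5 (by norm_num)
            _ = 2 / d T := by field_simp; norm_num
        have h7 : 0 ≤ 2 / d T := by positivity
        rw [Real.sqrt_le_left (by positivity)]
        nlinarith
      have h8 : (2 * d T) ^ (-(V ^ 2)) * d T ^ (V ^ 2 + 2) ≤ d T ^ 2 := by
        rw [Real.mul_rpow (by norm_num) h0.le, mul_assoc, ← Real.rpow_add h0]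
        have h9 : (2 : ℝ) ^ (-(V ^ 2)) ≤ 1 :=
          Real.rpow_le_one_of_one_le_of_nonpos (by norm_num) (by nlinarith [sq_nonneg V])
        have h10 : d T ^ (-(V ^ 2) + (V ^ 2 + 2)) = d T ^ 2 := by
          rw [show -(V ^ 2) + (V ^ 2 + 2) = ((2 : ℕ) : ℝ) by push_cast; ring, Real.rpow_natCast]
        rw [h10]
        calc (2 : ℝ) ^ (-(V ^ 2)) * d T ^ 2 ≤ 1 * d T ^ 2 :=
              mul_le_mul_of_nonneg_right h9 (by positivity)
          _ = d T ^ 2 := one_mul _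
      rw [hE]
      simp only
      rw [norm_mul, norm_mul, Real.norm_of_nonneg (Real.sqrt_nonneg _),
        Real.norm_of_nonneg (by positivity : (0 : ℝ) ≤ (2 * d T) ^ (-(V ^ 2)))]
      calc Real.sqrt (Real.pi * Real.log (1 / (2 * d T))) * (2 * d T) ^ (-(V ^ 2)) *
            ‖∫ t in (N T)ᶜ, h (LD.X (d T) V t) ∂(μ T)‖
          ≤ (1 + 2 / d T) * (2 * d T) ^ (-(V ^ 2)) * (C1 * d T ^ (V ^ 2 + 2)) := by
            gcongr
        _ = C1 * (1 + 2 / d T) * ((2 * d T) ^ (-(V ^ 2)) * d T ^ (V ^ 2 + 2)) := by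
            ring
        _ ≤ C1 * (1 + 2 / d T) * d T ^ 2 := mul_le_mul_of_nonneg_left h8 (by positivity)
        _ = C1 * (d T ^ 2 + 2 * d T) := by
            field_simp
    have h0 : Tendsto (fun T : ℝ => C1 * (d T ^ 2 + 2 * d T)) atTop (𝓝 0) := by
      have h1 := ((ht0.pow 2).add (ht0.const_mul 2)).const_mul C1
      simpa using h1
    exact squeeze_zero_norm' hb h0
  have hlim := (key.const_mul r).add hE0
  rw [add_zero] at hlim
  refine hlim.congr' ?_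
  filter_upwards [hN 0, hsm] with T hT hT2
  obtain ⟨h0, h1, hT1⟩ := hT2
  have hint : Integrable (fun t => h (LD.X (d T) V t)) (μ T) := by
    refine Integrable.of_bound (C := C1) ?_ ?_
    · exact (hm.comp (LD.X_meas h0 h1 V)).aestronglyMeasurable
    · exact Eventually.of_forall fun t => hC1 _
  have hsplit : ∫ t, h (LD.X (d T) V t) ∂(μ T) =
      (∫ t in N T, h (LD.X (d T) V t) ∂(μ T)) + ∫ t in (N T)ᶜ, h (LD.X (d T) V t) ∂(μ T) :=
    (integral_add_compl hT.meas hint).symm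
  have hX : (∫ t, h (Real.log ‖riemannZeta (pw (d T) t)‖ -
      V * Real.log (1 / (2 * d T))) ∂(μ T)) = ∫ t, h (LD.X (d T) V t) ∂(μ T) := rfl
  have h3 := int_h (μ T) h0 h1 hr V hT.meas hT.nz hm
  rw [hX, hsplit, hE]
  simp only
  rw [mul_left_comm, h3]
  ring

end Run7.h310.SQ.GLD
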