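import Pool.Agent.Run7.h310.SQ.F3
import Pool.Agent.Run7.h310.SQ.GLD
import Pool.Agent.Run7.h310.SQ.E1

set_option autoImplicit false

/-! # Project SQ: large values at sample points -/

namespace Run7.h310.SQ

open Finset Filter MeasureTheory Topology Complex
open Pool.Agent.N748.MG Run7.h310.SP

/-- the measures: sample points and a continuous part -/
noncomputable def muS (S : Finset ℝ) (X : ℝ) : Measure ℝ :=
  ENNReal.ofReal (1 / (S.card : ℝ)) • (∑ x ∈ S, Measure.dirac x) + ENNReal.ofReal (1 / X) • volume.restrict (Set.Icc 0 X)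

lemma muS_apply (S : Finset ℝ) (X : ℝ) (N : Set ℝ) (hN : MeasurableSet N) :
    muS S X N = ENNReal.ofReal (1 / (S.card : ℝ)) * (∑ x ∈ S, N.indicator 1 x) +
      ENNReal.ofReal (1 / X) * volume (N ∩ Set.Icc 0 X) := by
  unfold muS
  rw [Measure.add_apply, Measure.smul_apply, Measure.smul_apply, Measure.finsetSum_apply, Measure.restrict_apply hN,
    smul_eq_mul, smul_eq_mul]
  congr 2
  exact Finset.sum_congr rfl fun x _ => Measure.dirac_apply' x hN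

lemma muS_fin (S : Finset ℝ) (X : ℝ) : IsFiniteMeasure (muS S X) := by
  classical
  refine ⟨?_⟩
  rw [muS_apply S X _ MeasurableSet.univ]
  refine ENNReal.add_lt_top.2 ⟨?_, ?_⟩
  · refine ENNReal.mul_lt_top ENNReal.ofReal_lt_top ?_
    simp
  · refine ENNReal.mul_lt_top ENNReal.ofReal_lt_top ?_
    rw [Set.univ_inter, Real.volume_Icc]
    exact ENNReal.ofReal_lt_top

lemma muS_int {E : Type*} [NormedAddCommGroup E] [NormedSpace ℝ E] [CompleteSpace E] (S : Finset ℝ) {X : ℝ} (hX : 0 < X)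
    {g : ℝ → E} (hg : IntegrableOn g (Set.Icc 0 X)) : Integrable g (muS S X) ∧
    ∫ t, g t ∂(muS S X) = (1 / (S.card : ℝ)) • ∑ x ∈ S, g x + (1 / X) • ∫ t in Set.Icc 0 X, g t := by
  have h0 : ∀ x ∈ S, Integrable g (Measure.dirac x) := fun x _ => integrable_dirac enorm_lt_top
  have h1 : Integrable g (∑ x ∈ S, Measure.dirac x) := integrable_finsetSum_measure.2 h0
  have h2 : Integrable g (ENNReal.ofReal (1 / (S.card : ℝ)) • (∑ x ∈ S, Measure.dirac x)) :=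
    h1.smul_measure ENNReal.ofReal_ne_top
  have h3 : Integrable g (ENNReal.ofReal (1 / X) • volume.restrict (Set.Icc 0 X)) := hg.smul_measure ENNReal.ofReal_ne_top
  refine ⟨h2.add_measure h3, ?_⟩
  unfold muS
  rw [integral_add_measure h2 h3, integral_smul_measure, integral_smul_measure, integral_finsetSum_measure h0,
    ENNReal.toReal_ofReal (by positivity), ENNReal.toReal_ofReal (by positivity)]
  congr 2
  exact Finset.sum_congr rfl fun x _ => integral_dirac g x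

/-- the limit is nonnegative -/
lemma qfc_nonneg (hR : S_CRED) {X δ : ℕ → ℝ} (hd : AdN X δ) {S : ℕ → Finset ℝ} {A : ℂ → ℂ} {V r : ℝ}
    (hAV : A V = (r:ℂ)) (hq : QFC X δ S A) : 0 ≤ r := by
  refine le_of_forall_pos_le_add fun ε hε => ?_
  have hV : 0 < |V| + 1 := by positivity
  obtain ⟨C, hC, h⟩ := hq (|V| + 1) hV
  have hEv := AdN.app (hR 1 (|V| + 1) 1 one_pos hV one_pos C hC) hd
  have hlt : ∀ᶠ n in atTop, δ n ≤ 1 / 16 := hd.t0.eventually_le_const (by norm_num)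
  obtain ⟨n, ⟨y, K, a1, a2, a3, a4, -⟩, b1, b2⟩ := (hEv.and ((h ε hε).and hd.pos)).exists
  have g := b1 y K a1 a2 a3 a4 V (by rw [Complex.norm_real, Real.norm_eq_abs]; linarith)
  have h2δ : 0 < 2 * δ n := by linarith
  obtain ⟨m, hm⟩ : ∃ m : ℝ, m = (2 * δ n) ^ (V ^ 2) * (1 / ((S n).card : ℝ) * ∑ x ∈ S n, ‖AS (V:ℂ) y K (pw (δ n) x)‖ ^ 2) := ⟨_, rfl⟩
  have hm0 : 0 ≤ m := by
    rw [hm]
    exact mul_nonneg (Real.rpow_nonneg h2δ.le _) (mul_nonneg (by positivity) (Finset.sum_nonneg fun _ _ => by positivity))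
  have e : ((2 * δ n : ℝ) : ℂ) ^ ((V:ℂ) ^ 2) * (((1 / ((S n).card : ℝ) : ℝ) : ℂ) * ∑ x ∈ S n, AS V y K (pw (δ n) x) *
      (starRingEnd ℂ) (AS ((starRingEnd ℂ) V) y K (pw (δ n) x))) = (m : ℂ) := by
    have e1 : ((2 * δ n : ℝ) : ℂ) ^ ((V:ℂ) ^ 2) = (((2 * δ n) ^ (V ^ 2) : ℝ) : ℂ) := by
      rw [Complex.ofReal_cpow h2δ.le]
      push_cast
      rfl
    have e2 : ∑ x ∈ S n, AS V y K (pw (δ n) x) * (starRingEnd ℂ) (AS ((starRingEnd ℂ) V) y K (pw (δ n) x)) =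
        ((∑ x ∈ S n, ‖AS (V:ℂ) y K (pw (δ n) x)‖ ^ 2 : ℝ) : ℂ) := by
      rw [Complex.ofReal_sum]
      refine Finset.sum_congr rfl fun x _ => ?_
      rw [Complex.conj_ofReal, Complex.mul_conj', Complex.ofReal_pow]
    rw [e1, e2, hm, ← Complex.ofReal_mul, ← Complex.ofReal_mul]
  rw [e, hAV, ← Complex.ofReal_sub, Complex.norm_real, Real.norm_eq_abs] at g
  have := (abs_le.1 g).2
  linarith

/-- the law for the sample points together with the continuous part -/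
theorem key_ld (hC : S_CTW) (hR : S_CRED) {X δ : ℕ → ℝ} (hd : AdN X δ) {c : ℝ} (hc : 0 < c) {S : ℕ → Finset ℝ}
    (hS : ∀ᶠ n in atTop, Sep c (X n) (S n)) {D' : ℝ} (hcard : ∀ᶠ n in atTop, δ n ^ D' * X n * (1 / ((S n).card : ℝ)) ≤ 1)
    {A : ℂ → ℂ} (hA : Continuous A) {V r : ℝ} (hV : aTf 1 1 V = (((aC V).re : ℝ) : ℂ)) (hAV : A V = (r:ℂ)) (hq : QFC X δ S A)
    (h : ℝ → ℝ) (S0 : Finset ℝ) (hm : Measurable h) (hcc : ∀ x, x ∉ S0 → ContinuousAt h x) (hb1 : ∃ C : ℝ, ∀ x, |h x| ≤ C)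
    (hb2 : ∃ C : ℝ, ∀ x, |h x| * (1 + x ^ 2) ≤ C * Real.exp (2 * V * x)) :
    Tendsto (fun n : ℕ => Real.sqrt (Real.pi * Real.log (1 / (2 * δ n))) * (2 * δ n) ^ (-(V ^ 2)) *
      ∫ t, h (Real.log ‖riemannZeta (pw (δ n) t)‖ - V * Real.log (1 / (2 * δ n))) ∂(muS (S n) (X n))) atTop
      (𝓝 ((r + (aC V).re) * ∫ x, Real.exp (-(2 * V * x)) * h x)) := by
  classical
  have hr0 := qfc_nonneg hR hd hAV hq
  obtain ⟨V0, hV0⟩ : ∃ r : ℝ, 0 < r ∧ aC V = r := CON.real_pos V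
  have hre : (aC V).re = V0 := by rw [hV0.2, Complex.ofReal_re]
  obtain ⟨hA1c, hA1v, hA1⟩ := aTf_spec (a := 1) (b := 1) le_rfl le_rfl (Nat.coprime_one_left 1)
  have hfl : Tendsto (fun T : ℝ => ⌊T⌋₊) atTop atTop := tendsto_nat_floor_atTop
  obtain ⟨B, hB⟩ : ∃ B : ℂ → ℂ, B = fun s => A s + aTf 1 1 s := ⟨_, rfl⟩
  have hBc : Continuous B := by rw [hB]; exact hA.add hA1c
  have hBV : B V = ((r + (aC V).re : ℝ) : ℂ) := by
    rw [hB]
    simp only
    rw [hAV, hV]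
    push_cast
    rfl
  have main := GLD.main (fun T => muS (S ⌊T⌋₊) (X ⌊T⌋₊)) (fun T => δ ⌊T⌋₊) B V (r + (aC V).re)
    (Eventually.of_forall fun T => muS_fin _ _) (hfl.eventually hd.pos) (hd.t0.comp hfl) hBc (by rw [hre]; linarith [hV0.1])
    hBV ?_ h S0 hm hcc hb1 hb2
  · have h1 := main.comp tendsto_natCast_atTop_atTop
    refine h1.congr fun n => ?_
    simp only [Function.comp_apply, Nat.floor_natCast]
  intro R D ε hR0 hD hε
  have hnat : ∀ᶠ n in atTop, ∃ N : Set ℝ, MeasurableSet N ∧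
      muS (S n) (X n) Nᶜ ≤ ENNReal.ofReal (δ n ^ D) ∧ (∀ t ∈ N, riemannZeta (pw (δ n) t) ≠ 0) ∧
      ∀ s : ℂ, ‖s‖ ≤ R → IntegrableOn (fun t => ((‖riemannZeta (pw (δ n) t)‖ : ℝ) : ℂ) ^ (2 * s)) N (muS (S n) (X n)) ∧
        ‖((2 * δ n : ℝ) : ℂ) ^ (s ^ 2) * (∫ t in N, ((‖riemannZeta (pw (δ n) t)‖ : ℝ) : ℂ) ^ (2 * s) ∂(muS (S n) (X n))) -
          B s‖ ≤ ε := by
    obtain ⟨Cq, hCq, hq1⟩ := hq R hR0
    obtain ⟨D1, hD1⟩ : ∃ D1, D1 = D + R ^ 2 + 1 := ⟨_, rfl⟩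
    have hD10 : 0 < D1 := by rw [hD1]; positivity
    obtain ⟨D2, hD2⟩ : ∃ D2, D2 = D1 + |D'| := ⟨_, rfl⟩
    have hD20 : 0 < D2 := by rw [hD2]; positivity
    obtain ⟨C1, δ1, hC1, hδ1, hT1⟩ := t_tct R D1 hR0 hD10 1 1 le_rfl le_rfl (Nat.coprime_one_left 1)
    obtain ⟨δ2, hδ2, hL1⟩ := hA1 R (ε / 8) hR0 (by positivity)
    have hEv := AdN.app ((hC R D1 C1 hR0 hD10 hC1).and ((hR c R D2 hc hR0 hD20 Cq hCq).and
      (((Ev.of_le hδ1).and (Ev.of_le hδ2)).and ((Ev.small (C := 2) (c := 1) (e := 1) one_pos one_pos).and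
        (Ev.small (C := 8) (c := 1) (e := ε / 4) one_pos (by positivity)))))) hd
    have hlt : ∀ᶠ n in atTop, δ n ≤ 1 / 16 := hd.t0.eventually_le_const (by norm_num)
    filter_upwards [hEv, hS, hcard, hq1 (ε / 4) (by positivity), hd.pos, hlt, hd.X0.eventually_ge_atTop 1] with n hE hSn hcn hqn h0 h16 hX1
    obtain ⟨⟨y, K, N0, hy, hy1, hK1, hNm, hNX, hNv, hNz, hJ⟩, ⟨y', K', hy', hy1', hK1', hyK', hG'⟩, ⟨hs1, hs2⟩, hs3, hs4⟩ := hE
    obtain ⟨G, hGS, hGc, hGz, hGs⟩ := hG' (S n) hSn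
    obtain ⟨d, hdd⟩ : ∃ d, d = δ n := ⟨_, rfl⟩
    obtain ⟨T, hTT⟩ : ∃ T, T = X n := ⟨_, rfl⟩
    obtain ⟨P, hPP⟩ : ∃ P, P = S n := ⟨_, rfl⟩
    rw [← hdd] at hy1 hK1 hNv hNz hJ hs1 hs2 hs3 hs4 h0 h16 hcn hqn hy1' hK1' hGc hGz hGs ⊢
    rw [← hTT] at hNX hNv hJ hyK' hGc hGs hcn hX1 hqn ⊢
    rw [← hPP] at hGS hGc hGs hcn hqn ⊢
    clear hPP hTT hdd
    have hpc : 0 ≤ 1 / (P.card : ℝ) := div_nonneg zero_le_one (Nat.cast_nonneg _)
    rw [Real.rpow_one] at hs3 hs4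
    have hT0 : 0 < T := by linarith
    have hd1 : d ≤ 1 := by linarith
    have q1 := hT1 d h0 hs1 y K hy hy1 hK1
    -- the good set
    obtain ⟨N, hN⟩ : ∃ N : Set ℝ, N = (N0 \ (P : Set ℝ)) ∪ (G : Set ℝ) := ⟨_, rfl⟩
    have hNmm : MeasurableSet N := by
      rw [hN]
      exact (hNm.diff P.measurableSet).union G.measurableSet
    have hPG : ∀ x ∈ P, (x ∈ N ↔ x ∈ G) := by
      intro x hx
      rw [hN]
      constructor
      · rintro (h1 | h1)
        · exact absurd hx h1.2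
        · exact h1
      · intro h1
        exact Or.inr h1
    have hPv : volume (P : Set ℝ) = 0 := P.measure_zero volume
    have hae : (N : Set ℝ) =ᵐ[volume] N0 := by
      rw [Filter.eventuallyEq_set]
      have h1 : ∀ᵐ x : ℝ, x ∉ (P : Set ℝ) := measure_eq_zero_iff_ae_notMem.1 hPv
      filter_upwards [h1] with x hx
      rw [hN]
      constructor
      · rintro (h1 | h1)
        · exact h1.1
        · exact absurd (hGS h1) hx
      · intro h1
        exact Or.inl ⟨h1, hx⟩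
    have hc1 : 1 / (P.card : ℝ) * d ^ D2 * T ≤ d ^ D1 := by
      have e1 : d ^ D2 = d ^ D1 * d ^ |D'| := by rw [hD2, Real.rpow_add h0]
      have h6 : d ^ |D'| ≤ d ^ D' := Real.rpow_le_rpow_of_exponent_ge h0 hd1 (le_abs_self _)
      calc 1 / (P.card : ℝ) * d ^ D2 * T = d ^ D1 * (d ^ |D'| * T * (1 / (P.card : ℝ))) := by rw [e1]; ring
        _ ≤ d ^ D1 * (d ^ D' * T * (1 / (P.card : ℝ))) :=
            mul_le_mul_of_nonneg_left (mul_le_mul_of_nonneg_right (mul_le_mul_of_nonneg_right h6 hT0.le) hpc)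
              (Real.rpow_nonneg h0.le _)
        _ ≤ d ^ D1 * 1 := mul_le_mul_of_nonneg_left hcn (Real.rpow_nonneg h0.le _)
        _ = d ^ D1 := mul_one _
    refine ⟨N, hNmm, ?_, ?_, fun s hs => ?_⟩
    · -- the measure of the complement
      rw [muS_apply P T _ hNmm.compl]
      have h1 : ∑ x ∈ P, Nᶜ.indicator (1 : ℝ → ENNReal) x = ENNReal.ofReal ((P \ G).card : ℝ) := by
        have h2 : ∀ x ∈ P, Nᶜ.indicator (1 : ℝ → ENNReal) x = if x ∈ P \ G then 1 else 0 := by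
          intro x hx
          by_cases hxG : x ∈ G
          · rw [if_neg (fun h => (Finset.mem_sdiff.1 h).2 hxG), Set.indicator_of_notMem]
            exact fun h => h ((hPG x hx).2 hxG)
          · rw [if_pos (Finset.mem_sdiff.2 ⟨hx, hxG⟩), Set.indicator_of_mem]
            · rfl
            · exact fun h => hxG ((hPG x hx).1 h)
        rw [Finset.sum_congr rfl h2, Finset.sum_ite_mem, Finset.inter_eq_right.2 Finset.sdiff_subset, Finset.sum_const,
          nsmul_eq_mul, mul_one, ENNReal.ofReal_natCast]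
      rw [h1, ← ENNReal.ofReal_mul hpc]
      have h3 : volume (Nᶜ ∩ Set.Icc 0 T) ≤ ENNReal.ofReal (d ^ D1 * T) := by
        have h4 : volume (Nᶜ ∩ Set.Icc 0 T) ≤ volume (Set.Icc 0 T \ N0) + volume (P : Set ℝ) := by
          refine (measure_mono ?_).trans (measure_union_le _ _)
          intro x hx
          by_cases hxP : x ∈ (P : Set ℝ)
          · exact Or.inr hxP
          · refine Or.inl ⟨hx.2, fun h5 => hx.1 ?_⟩
            rw [hN]
            exact Or.inl ⟨h5, hxP⟩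
        rw [hPv, add_zero] at h4
        exact h4.trans hNv
      have h5 : ENNReal.ofReal (1 / T) * volume (Nᶜ ∩ Set.Icc 0 T) ≤ ENNReal.ofReal (d ^ D1) := by
        refine (mul_le_mul_right h3 _).trans ?_
        rw [← ENNReal.ofReal_mul (by positivity)]
        refine ENNReal.ofReal_le_ofReal (le_of_eq ?_)
        field_simp
      have h6 : ENNReal.ofReal (1 / (P.card : ℝ) * ((P \ G).card : ℝ)) ≤ ENNReal.ofReal (d ^ D1) := by
        refine ENNReal.ofReal_le_ofReal ?_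
        refine (mul_le_mul_of_nonneg_left hGc hpc).trans ?_
        rw [← mul_assoc]
        exact hc1
      refine (add_le_add h6 h5).trans ?_
      rw [← ENNReal.ofReal_add (by positivity) (by positivity)]
      refine ENNReal.ofReal_le_ofReal ?_
      have e1 : d ^ D1 = d ^ D * d ^ (R ^ 2) * d := by
        rw [hD1, Real.rpow_add h0, Real.rpow_add h0, Real.rpow_one]
      have h7 : d ^ (R ^ 2) ≤ 1 := Real.rpow_le_one h0.le hd1 (by positivity)
      have h8 : 0 < d ^ D := Real.rpow_pos_of_pos h0 _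
      have h9 : 0 < d ^ (R ^ 2) := Real.rpow_pos_of_pos h0 _
      calc d ^ D1 + d ^ D1 = d ^ D * d ^ (R ^ 2) * (2 * d) := by rw [e1]; ring
        _ ≤ d ^ D * 1 * 1 := by gcongr
        _ = d ^ D := by ring
    · intro t ht
      rw [hN] at ht
      rcases ht with h1 | h1
      · exact hNz t h1.1
      · exact hGz t h1
    obtain ⟨hint, hJ2⟩ := hJ s hs
    have hGs' := hGs s hs
    have hqs := hqn y' K' hy' hy1' hK1' hyK' s hs
    obtain ⟨f, hf⟩ : ∃ f : ℝ → ℂ, f = fun t => ((‖riemannZeta (pw d t)‖ : ℝ) : ℂ) ^ (2 * s) := ⟨_, rfl⟩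
    have hf' : ∀ t, ((‖riemannZeta (pw d t)‖ : ℝ) : ℂ) ^ (2 * s) = f t := fun t => by rw [hf]
    simp only [hf'] at hint hJ2 hGs' ⊢
    have hintN : IntegrableOn f N := hint.congr_set_ae hae
    have hg : IntegrableOn (N.indicator f) (Set.Icc 0 T) := ((integrable_indicator_iff hNmm).2 hintN).integrableOn
    obtain ⟨k1, k2⟩ := muS_int P hT0 hg
    constructor
    · exact (integrable_indicator_iff hNmm).1 k1
    have e1 : ∫ t in N, f t ∂(muS P T) = ((1 / (P.card : ℝ) : ℝ) : ℂ) * ∑ x ∈ G, f x + ((1 / T : ℝ) : ℂ) * ∫ t in N0, f t := by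
      rw [← integral_indicator hNmm, k2, Complex.real_smul, Complex.real_smul]
      congr 2
      · have h2 : ∀ x ∈ P, N.indicator f x = if x ∈ G then f x else 0 := by
          intro x hx
          by_cases hxG : x ∈ G
          · rw [if_pos hxG, Set.indicator_of_mem ((hPG x hx).2 hxG)]
          · rw [if_neg hxG, Set.indicator_of_notMem (fun h => hxG ((hPG x hx).1 h))]
        rw [Finset.sum_congr rfl h2, Finset.sum_ite_mem, Finset.inter_eq_right.2 hGS]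
      · rw [setIntegral_indicator hNmm]
        refine setIntegral_congr_set ?_
        have h3 : (Set.Icc 0 T ∩ N : Set ℝ) =ᵐ[volume] (Set.Icc 0 T ∩ N0 : Set ℝ) := (ae_eq_refl _).inter hae
        rw [Set.inter_eq_right.2 hNX] at h3
        exact h3
    rw [e1]
    have j1 := hJ2 1 1 le_rfl le_rfl
    have hph : ∀ t, f t * ph 1 1 t = f t := by
      intro t
      unfold ph
      simp
    simp only [hph] at j1
    obtain ⟨z, hz⟩ : ∃ z : ℂ, z = ((2 * d : ℝ) : ℂ) ^ (s ^ 2) := ⟨_, rfl⟩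
    have hzn : ‖z‖ ≤ d ^ (-(R ^ 2)) := by rw [hz]; exact CM.cpow_norm h0 h16 s hs
    have hzD : ‖z‖ * d ^ D1 ≤ d := by
      calc ‖z‖ * d ^ D1 ≤ d ^ (-(R ^ 2)) * d ^ D1 := mul_le_mul_of_nonneg_right hzn (by positivity)
        _ = d ^ D * d := by
          rw [← Real.rpow_add h0, hD1, show -(R ^ 2) + (D + R ^ 2 + 1) = D + 1 by ring, Real.rpow_add h0, Real.rpow_one]
        _ ≤ 1 * d := mul_le_mul_of_nonneg_right (Real.rpow_le_one h0.le hd1 hD.le) h0.le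
        _ = d := one_mul _
    rw [← hz] at hqs ⊢
    obtain ⟨I1, hI1⟩ : ∃ I1, I1 = ∫ t in N0, f t := ⟨_, rfl⟩
    rw [← hI1] at j1 ⊢
    obtain ⟨U, hU⟩ : ∃ U, U = ∑ x ∈ P, AS s y' K' (pw d x) * (starRingEnd ℂ) (AS ((starRingEnd ℂ) s) y' K' (pw d x)) := ⟨_, rfl⟩
    rw [← hU] at hGs' hqs
    obtain ⟨W, hW⟩ : ∃ W, W = ∑ x ∈ G, f x := ⟨_, rfl⟩
    rw [← hW] at hGs' ⊢
    have hTc : (T:ℂ) ≠ 0 := by exact_mod_cast hT0.ne'
    have q2 := q1 s hs
    have q3 : ‖z * TC s d 1 1 - aTf 1 1 s‖ ≤ ε / 8 := by rw [hz]; exact hL1 d h0 hs2 s hs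
    have e2 : z * (((1 / (P.card : ℝ) : ℝ) : ℂ) * W + ((1 / T : ℝ) : ℂ) * I1) - B s =
        z * (((1 / (P.card : ℝ) : ℝ) : ℂ) * (W - U)) + (z * (((1 / (P.card : ℝ) : ℝ) : ℂ) * U) - A s) +
        (z * (((1 / T : ℝ) : ℂ) * (I1 - T * TCt s d y K 1 1)) + z * (TCt s d y K 1 1 - TC s d 1 1) +
          (z * TC s d 1 1 - aTf 1 1 s)) := by
      rw [hB]
      push_cast
      field_simp
      ring
    rw [e2]
    have n1 : ‖z * (((1 / (P.card : ℝ) : ℝ) : ℂ) * (W - U))‖ ≤ d := by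
      rw [norm_mul, norm_mul, Complex.norm_real, Real.norm_of_nonneg hpc]
      calc ‖z‖ * (1 / (P.card : ℝ) * ‖W - U‖) ≤ ‖z‖ * (1 / (P.card : ℝ) * (d ^ D2 * T)) :=
            mul_le_mul_of_nonneg_left (mul_le_mul_of_nonneg_left hGs' hpc) (norm_nonneg _)
        _ = ‖z‖ * (1 / (P.card : ℝ) * d ^ D2 * T) := by ring
        _ ≤ ‖z‖ * d ^ D1 := mul_le_mul_of_nonneg_left hc1 (norm_nonneg _)
        _ ≤ d := hzD
    have n2 : ‖z * (((1 / T : ℝ) : ℂ) * (I1 - T * TCt s d y K 1 1))‖ ≤ d := by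
      rw [norm_mul, norm_mul, Complex.norm_real, Real.norm_of_nonneg (by positivity)]
      have j2 : ‖I1 - T * TCt s d y K 1 1‖ ≤ d ^ D1 * T := by
        have := j1
        simpa using this
      calc ‖z‖ * (1 / T * ‖I1 - T * TCt s d y K 1 1‖) ≤ ‖z‖ * (1 / T * (d ^ D1 * T)) := by gcongr
        _ = ‖z‖ * d ^ D1 := by field_simp
        _ ≤ d := hzD
    have n3 : ‖z * (TCt s d y K 1 1 - TC s d 1 1)‖ ≤ d := by
      rw [norm_mul]
      exact (mul_le_mul_of_nonneg_left q2 (norm_nonneg _)).trans hzD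
    refine (norm_add_le _ _).trans ?_
    have m1 := norm_add_le (z * (((1 / (P.card : ℝ) : ℝ) : ℂ) * (W - U))) (z * (((1 / (P.card : ℝ) : ℝ) : ℂ) * U) - A s)
    have m2 := norm_add₃_le (a := z * (((1 / T : ℝ) : ℂ) * (I1 - T * TCt s d y K 1 1)))
      (b := z * (TCt s d y K 1 1 - TC s d 1 1)) (c := z * TC s d 1 1 - aTf 1 1 s)
    linarith
  exact hfl.eventually hnat

end Run7.h310.SQ
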