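import Pool.Agent.Run7.h310.SQ.F4
import Pool.Agent.Run7.h310.SQ.E3
import Pool.Agent.Run7.h310.SP.B6

set_option autoImplicit false

/-! # Project SQ: large values at sample points and along arithmetic progressions -/

namespace Run7.h310.SQ

open Finset Filter MeasureTheory Topology Complex
open Pool.Agent.N748.MG Run7.h310.SP

/-- the variable -/
noncomputable def LV (V δ t : ℝ) : ℝ := Real.log ‖riemannZeta (pw δ t)‖ - V * Real.log (1 / (2 * δ))

/-- the normalisation -/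
noncomputable def GN (V δ : ℝ) : ℝ := Real.sqrt (Real.pi * Real.log (1 / (2 * δ))) * (2 * δ) ^ (-(V ^ 2))

/-- large values at sample points -/
theorem samp_ld (hC : S_CTW) (hR : S_CRED) {X δ : ℕ → ℝ} (hd : AdN X δ) {c : ℝ} (hc : 0 < c) {S : ℕ → Finset ℝ}
    (hS : ∀ᶠ n in atTop, Sep c (X n) (S n)) {D' : ℝ} (hcard : ∀ᶠ n in atTop, δ n ^ D' * X n ≤ (S n).card)
    {A : ℂ → ℂ} (hA : Continuous A) {V r : ℝ} (hV : aTf 1 1 V = (((aC V).re : ℝ) : ℂ)) (hAV : A V = (r:ℂ)) (hq : QFC X δ S A)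
    (h : ℝ → ℝ) (S0 : Finset ℝ) (hm : Measurable h) (hcc : ∀ x, x ∉ S0 → ContinuousAt h x) (hb1 : ∃ C : ℝ, ∀ x, |h x| ≤ C)
    (hb2 : ∃ C : ℝ, ∀ x, |h x| * (1 + x ^ 2) ≤ C * Real.exp (2 * V * x)) :
    Tendsto (fun n : ℕ => GN V (δ n) * ((1 / ((S n).card : ℝ)) * ∑ x ∈ S n, h (LV V (δ n) x))) atTop
      (𝓝 (r * ∫ x, Real.exp (-(2 * V * x)) * h x)) := by
  classical
  have hlt : ∀ᶠ n in atTop, δ n ≤ 1 / 16 := hd.t0.eventually_le_const (by norm_num)
  have hX1 : ∀ᶠ n in atTop, 1 ≤ X n := hd.X0.eventually_ge_atTop 1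
  have hcard' : ∀ᶠ n in atTop, δ n ^ D' * X n * (1 / ((S n).card : ℝ)) ≤ 1 := by
    filter_upwards [hcard, hd.pos, hX1] with n a1 a2 a3
    have h1 : 0 < δ n ^ D' * X n := by positivity
    have h2 : (0:ℝ) < (S n).card := h1.trans_le a1
    rw [mul_one_div, div_le_one h2]
    exact a1
  have key1 := key_ld hC hR hd hc hS hcard' hA hV hAV hq h S0 hm hcc hb1 hb2
  have hq0 : QFC X δ (fun _ => (∅ : Finset ℝ)) (fun _ => 0) := by
    intro R _
    refine ⟨1, one_pos, fun ε hε => Eventually.of_forall fun n y K _ _ _ _ s _ => ?_⟩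
    rw [Finset.sum_empty, mul_zero, mul_zero, sub_zero, norm_zero]
    exact hε.le
  have key2 := key_ld hC hR hd hc (S := fun _ => (∅ : Finset ℝ))
    (Eventually.of_forall fun n => ⟨fun s hs => absurd hs (Finset.notMem_empty s), fun s hs => absurd hs (Finset.notMem_empty s),
      fun s hs => absurd hs (Finset.notMem_empty s)⟩) (D' := 0)
    (Eventually.of_forall fun n => by simp) (A := fun _ => 0) continuous_const (V := V) (r := 0) hV (by simp) hq0
    h S0 hm hcc hb1 hb2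
  have key3 := key1.sub key2
  have e : (r + (aC V).re) * (∫ x, Real.exp (-(2 * V * x)) * h x) - (0 + (aC V).re) * (∫ x, Real.exp (-(2 * V * x)) * h x) =
      r * ∫ x, Real.exp (-(2 * V * x)) * h x := by ring
  rw [e] at key3
  refine key3.congr' ?_
  obtain ⟨C, hCb⟩ := hb1
  filter_upwards [hd.pos, hlt, hX1] with n a1 a2 a3
  have hX0 : 0 < X n := by linarith
  have hmm : Measurable fun t => h (LV V (δ n) t) := hm.comp (LD.X_meas a1 a2 V)
  have hint : IntegrableOn (fun t => h (LV V (δ n) t)) (Set.Icc 0 (X n)) := by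
    refine Measure.integrableOn_of_bounded (M := C) ?_ hmm.aestronglyMeasurable (Eventually.of_forall fun t => ?_)
    · rw [Real.volume_Icc]
      exact ENNReal.ofReal_ne_top
    · exact hCb _
  have g1 := (muS_int (S n) hX0 hint).2
  have g2 := (muS_int (∅ : Finset ℝ) hX0 hint).2
  unfold LV at g1 g2
  rw [g1, g2]
  unfold LV GN
  simp only [Finset.sum_empty, smul_zero, zero_add, smul_eq_mul]
  ring

lemma GN_le {X δ : ℕ → ℝ} (hd : AdN X δ) (V : ℝ) : ∀ᶠ n in atTop, 0 ≤ GN V (δ n) ∧ GN V (δ n) ≤ X n ^ (1 / 4 : ℝ) := by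
  have h1 := AdN.app (Ev.win (D := V ^ 2 + 2) (c := 1) (e := 1 / 4) one_pos (by norm_num)) hd
  have hlt : ∀ᶠ n in atTop, δ n ≤ 1 / 16 := hd.t0.eventually_le_const (by norm_num)
  filter_upwards [h1, hd.pos, hlt] with n a1 a2 a3
  have h2δ : 0 < 2 * δ n := by linarith
  have hG0 : 0 ≤ GN V (δ n) := mul_nonneg (Real.sqrt_nonneg _) (Real.rpow_nonneg h2δ.le _)
  refine ⟨hG0, le_trans ?_ (a1.trans (le_of_eq (one_mul _)))⟩
  have e : -(V ^ 2 + 2) = -(V ^ 2) + -2 := by ring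
  rw [e, Real.rpow_add a2, mul_comm]
  unfold GN
  refine mul_le_mul ?_ ?_ (Real.rpow_nonneg h2δ.le _) (Real.rpow_nonneg a2.le _) |>.trans (le_of_eq (mul_comm _ _)) |> fun t => by
    rw [mul_comm (δ n ^ (-2:ℝ))]; exact t
  · -- the square root
    have g1 : Real.log (1 / (2 * δ n)) ≤ 1 / (2 * δ n) := (Real.log_le_sub_one_of_pos (by positivity)).trans (by linarith)
    have g2 : Real.pi * Real.log (1 / (2 * δ n)) ≤ (1 / (δ n)) ^ 2 := by
      have h3 := Real.pi_le_four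
      have h4 : (1:ℝ) / (2 * δ n) = (1 / 2) * (1 / δ n) := by field_simp
      have h5 : 16 ≤ 1 / δ n := by rw [le_div_iff₀ a2]; linarith
      have h6 : 0 ≤ Real.log (1 / (2 * δ n)) := Real.log_nonneg (by rw [h4]; linarith)
      nlinarith [Real.pi_pos]
    calc Real.sqrt (Real.pi * Real.log (1 / (2 * δ n))) ≤ Real.sqrt ((1 / (δ n)) ^ 2) := Real.sqrt_le_sqrt g2
      _ = 1 / δ n := Real.sqrt_sq (by positivity)
      _ ≤ δ n ^ (-2:ℝ) := by
          rw [Real.rpow_neg a2.le, one_div]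
          refine inv_anti₀ (by positivity) ?_
          rw [Real.rpow_two]
          nlinarith
  · exact Real.rpow_le_rpow_of_nonpos a2 (by linarith) (by nlinarith [sq_nonneg V])

/-- from the sample sets to the sequence: finitely many points may be left out -/
lemma HI_of {x : ℕ → ℝ} (hx : Function.Injective x) {X δ : ℕ → ℝ} (hd : AdN X δ) {E : ℕ} {I : ℕ → Finset ℕ}
    (hI : ∀ n, I n ⊆ Finset.range n) (hE : ∀ n, (Finset.range n \ I n).card ≤ E) {D' : ℝ}
    (hX : ∀ᶠ n : ℕ in atTop, X n ≤ n * δ n ^ (-D')) {V l : ℝ} {h : ℝ → ℝ} {C : ℝ} (hC : ∀ x, |h x| ≤ C)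
    (hh : Tendsto (fun n : ℕ => GN V (δ n) * ((1 / (((I n).image x).card : ℝ)) * ∑ t ∈ (I n).image x, h (LV V (δ n) t))) atTop
      (𝓝 l)) :
    Tendsto (fun n : ℕ => GN V (δ n) * ((1 / (n : ℝ)) * ∑ i ∈ Finset.range n, h (LV V (δ n) (x i)))) atTop (𝓝 l) := by
  classical
  have hC0 : 0 ≤ C := (abs_nonneg _).trans (hC 0)
  have hlt : ∀ᶠ n in atTop, δ n ≤ 1 / 16 := hd.t0.eventually_le_const (by norm_num)
  -- n is large
  have hnX : ∀ᶠ n : ℕ in atTop, X n ^ (1 / 2 : ℝ) ≤ n := by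
    have h1 := AdN.app (Ev.win (D := |D'|) (c := 1) (e := 1 / 2) one_pos (by norm_num)) hd
    filter_upwards [h1, hX, hd.pos, hlt, hd.X0.eventually_ge_atTop 1, eventually_ge_atTop 1] with n a1 a2 a3 a4 a5 a6
    have hX0 : 0 < X n := by linarith
    have h2 : δ n ^ (-D') ≤ X n ^ (1 / 2 : ℝ) := by
      refine le_trans ?_ (a1.trans (le_of_eq (one_mul _)))
      exact Real.rpow_le_rpow_of_exponent_ge a3 (by linarith) (neg_le_neg (le_abs_self _))
    have h3 : X n ≤ n * X n ^ (1 / 2 : ℝ) := a2.trans (mul_le_mul_of_nonneg_left h2 (Nat.cast_nonneg _))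
    have h4 : X n = X n ^ (1 / 2 : ℝ) * X n ^ (1 / 2 : ℝ) := by
      rw [← Real.rpow_add hX0]; norm_num
    have h5 : 0 < X n ^ (1 / 2 : ℝ) := Real.rpow_pos_of_pos hX0 _
    by_contra hcon
    push Not at hcon
    have h6 := mul_lt_mul_of_pos_right hcon h5
    linarith
  have hcardI : ∀ n : ℕ, (n:ℝ) - E ≤ ((I n).card : ℝ) ∧ ((I n).card : ℝ) ≤ n := by
    intro n
    have h1 := Finset.card_sdiff_add_card_eq_card (hI n)
    rw [Finset.card_range] at h1
    have h2 := hE n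
    constructor
    · have : (n:ℝ) ≤ (I n).card + E := by exact_mod_cast (by omega : n ≤ (I n).card + E)
      linarith
    · exact_mod_cast (by omega : (I n).card ≤ n)
  have hn : Tendsto (fun n : ℕ => (n:ℝ)) atTop atTop := tendsto_natCast_atTop_atTop
  have hrat : Tendsto (fun n : ℕ => ((I n).card : ℝ) / n) atTop (𝓝 1) := by
    have h1 : Tendsto (fun n : ℕ => 1 - (E:ℝ) / n) atTop (𝓝 1) := by
      have := (tendsto_const_nhds (x := (1:ℝ))).sub ((tendsto_const_nhds (x := (E:ℝ))).div_atTop hn)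
      simpa using this
    refine tendsto_of_tendsto_of_tendsto_of_le_of_le' h1 tendsto_const_nhds ?_ ?_
    · filter_upwards [eventually_ge_atTop 1] with n hn1
      have hnR : (0:ℝ) < n := by exact_mod_cast hn1
      rw [le_div_iff₀ hnR]
      have : (1 - (E:ℝ) / n) * n = n - E := by field_simp
      rw [this]
      exact (hcardI n).1
    · filter_upwards [eventually_ge_atTop 1] with n hn1
      have hnR : (0:ℝ) < n := by exact_mod_cast hn1
      rw [div_le_one hnR]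
      exact (hcardI n).2
  -- the difference
  have hz : Tendsto (fun n => GN V (δ n) * ((1 / (n : ℝ)) * ∑ i ∈ Finset.range n, h (LV V (δ n) (x i))) -
      ((I n).card : ℝ) / n * (GN V (δ n) * ((1 / (((I n).image x).card : ℝ)) * ∑ t ∈ (I n).image x, h (LV V (δ n) t)))) atTop
      (𝓝 0) := by
    have h1 : Tendsto (fun n => (E:ℝ) * C * X n ^ (-(1 / 4) : ℝ)) atTop (𝓝 0) := by
      have := (pow_small hd.X0 (show (0:ℝ) < 1 / 4 by norm_num)).const_mul ((E:ℝ) * C)
      rwa [mul_zero] at this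
    refine squeeze_zero_norm' ?_ h1
    have hcpos : ∀ᶠ n : ℕ in atTop, (E:ℝ) < n := hn.eventually_gt_atTop _
    filter_upwards [GN_le hd V, hnX, hd.pos, hlt, hd.X0.eventually_ge_atTop 1, eventually_ge_atTop 1, hcpos]
      with n ⟨b1, b2⟩ a2 a3 a4 a5 a6 a7
    have hX0 : 0 < X n := by linarith
    have hnR : (0:ℝ) < n := by exact_mod_cast a6
    have hIc : (0:ℝ) < (I n).card := by linarith [(hcardI n).1]
    obtain ⟨G, hG⟩ : ∃ G, G = GN V (δ n) := ⟨_, rfl⟩
    obtain ⟨f, hf⟩ : ∃ f : ℕ → ℝ, f = fun i => h (LV V (δ n) (x i)) := ⟨_, rfl⟩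
    have e1 : ∑ t ∈ (I n).image x, h (LV V (δ n) t) = ∑ i ∈ I n, f i := by
      rw [Finset.sum_image fun i _ j _ h => hx h, hf]
    have e0 : ((I n).image x).card = (I n).card := Finset.card_image_of_injective _ hx
    have e2 : ∑ i ∈ Finset.range n, h (LV V (δ n) (x i)) = ∑ i ∈ I n, f i + ∑ i ∈ Finset.range n \ I n, f i := by
      rw [← Finset.sum_union Finset.disjoint_sdiff, Finset.union_sdiff_of_subset (hI n), hf]
    rw [e0, e1, e2, ← hG]
    rw [← hG] at b1 b2
    have e5 : G * (1 / (n:ℝ) * (∑ i ∈ I n, f i + ∑ i ∈ Finset.range n \ I n, f i)) -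
        ((I n).card : ℝ) / n * (G * (1 / ((I n).card : ℝ) * ∑ i ∈ I n, f i)) =
        G * ((∑ i ∈ Finset.range n \ I n, f i) / n) := by
      field_simp
      ring
    rw [e5, norm_mul, Real.norm_of_nonneg b1, Real.norm_eq_abs, abs_div, abs_of_pos hnR]
    have e4 : |∑ i ∈ Finset.range n \ I n, f i| ≤ E * C := by
      refine (Finset.abs_sum_le_sum_abs _ _).trans ?_
      calc ∑ i ∈ Finset.range n \ I n, |f i| ≤ ∑ _i ∈ Finset.range n \ I n, C :=
            Finset.sum_le_sum fun i _ => by rw [hf]; exact hC _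
        _ = ((Finset.range n \ I n).card : ℝ) * C := by rw [Finset.sum_const, nsmul_eq_mul]
        _ ≤ E * C := by
            refine mul_le_mul_of_nonneg_right ?_ hC0
            exact_mod_cast hE n
    have hX2 : 0 < X n ^ (1 / 2 : ℝ) := Real.rpow_pos_of_pos hX0 _
    have hEC : 0 ≤ (E:ℝ) * C := mul_nonneg (Nat.cast_nonneg _) hC0
    calc G * (|∑ i ∈ Finset.range n \ I n, f i| / n) ≤ X n ^ (1 / 4 : ℝ) * ((E * C) / X n ^ (1 / 2 : ℝ)) := by
          refine mul_le_mul b2 ?_ (div_nonneg (abs_nonneg _) hnR.le) (Real.rpow_nonneg hX0.le _)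
          exact div_le_div₀ hEC e4 hX2 a2
      _ = E * C * (X n ^ (1 / 4 : ℝ) / X n ^ (1 / 2 : ℝ)) := by ring
      _ = E * C * X n ^ (-(1 / 4) : ℝ) := by
          rw [← Real.rpow_sub hX0]
          norm_num
  have h3 := hz.add (hrat.mul hh)
  simpa using h3

/-- large values along every vertical arithmetic progression -/
theorem ap_ld (hC : S_CTW) (hR : S_CRED) {α : ℝ} (hα : 0 < α) (β : ℝ) {d : ℕ → ℝ} (hd0 : ∀ᶠ n in atTop, 0 < d n)
    (hd : Tendsto d atTop (𝓝 0))
    (hdL : Tendsto (fun n : ℕ => d n * Real.log n / Real.log (1 / d n) ^ 2) atTop atTop) {V : ℝ} (hV : 0 < V)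
    (h : ℝ → ℝ) (S0 : Finset ℝ) (hm : Measurable h) (hcc : ∀ x, x ∉ S0 → ContinuousAt h x) (hb1 : ∃ C : ℝ, ∀ x, |h x| ≤ C)
    (hb2 : ∃ C : ℝ, ∀ x, |h x| * (1 + x ^ 2) ≤ C * Real.exp (2 * V * x)) :
    Tendsto (fun n : ℕ => GN V (d n) * ((1 / (n : ℝ)) * ∑ i ∈ Finset.range n, h (LV V (d n) (α * i + β)))) atTop
      (𝓝 ((aC V).re * cAP V α β * ∫ x, Real.exp (-(2 * V * x)) * h x)) := by
  obtain ⟨i0, hi0⟩ := exists_nat_ge ((1 - β) / α)
  rw [div_le_iff₀ hα] at hi0
  obtain ⟨X, hX⟩ : ∃ X : ℕ → ℝ, X = fun n : ℕ => α * n + |β| + 1 := ⟨_, rfl⟩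
  have hn : Tendsto (fun n : ℕ => (n:ℝ)) atTop atTop := tendsto_natCast_atTop_atTop
  have hAd : AdN X d := by
    refine adN_of hd0 hd hdL hα (Eventually.of_forall fun n => ?_)
    rw [hX]
    simp only
    have := abs_nonneg β
    linarith
  have hlt : ∀ᶠ n in atTop, d n ≤ 1 / 16 := hd.eventually_le_const (by norm_num)
  have hXn : ∀ᶠ n : ℕ in atTop, X n ≤ 2 * α * n := by
    filter_upwards [hn.eventually_ge_atTop ((|β| + 1) / α)] with n h1
    rw [div_le_iff₀ hα] at h1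
    rw [hX]
    simp only
    linarith
  have hcard : ∀ᶠ n in atTop, 1 / (4 * α) * X n ≤ (SA α β i0 n).card := by
    filter_upwards [hXn, eventually_ge_atTop (2 * i0)] with n h1 h2
    rw [SA_card hα, Nat.cast_sub (by omega)]
    have h3 : (2:ℝ) * i0 ≤ n := by exact_mod_cast h2
    calc 1 / (4 * α) * X n ≤ 1 / (4 * α) * (2 * α * n) := mul_le_mul_of_nonneg_left h1 (by positivity)
      _ = n / 2 := by field_simp; norm_num
      _ ≤ n - i0 := by linarith
  have hS : ∀ᶠ n in atTop, Sep α (X n) (SA α β i0 n) := by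
    refine Eventually.of_forall fun n => ⟨?_, ?_, ?_⟩
    · intro s hs
      obtain ⟨i, hi, rfl⟩ := Finset.mem_image.1 hs
      rw [Finset.mem_Ico] at hi
      have : (i0:ℝ) ≤ i := by exact_mod_cast hi.1
      nlinarith
    · intro s hs
      obtain ⟨i, hi, rfl⟩ := Finset.mem_image.1 hs
      rw [Finset.mem_Ico] at hi
      have h1 : (i:ℝ) ≤ n := by exact_mod_cast hi.2.le
      have h2 := le_abs_self β
      rw [hX]
      simp only
      nlinarith
    · intro s hs s' hs' hne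
      obtain ⟨i, hi, rfl⟩ := Finset.mem_image.1 hs
      obtain ⟨i', hi', rfl⟩ := Finset.mem_image.1 hs'
      have hii : (i:ℤ) ≠ i' := by
        intro h0
        apply hne
        have : i = i' := by exact_mod_cast h0
        rw [this]
      have h1 : (1:ℝ) ≤ |(i:ℝ) - i'| := by
        have : (1:ℤ) ≤ |(i:ℤ) - i'| := Int.one_le_abs (sub_ne_zero.2 hii)
        exact_mod_cast this
      have e : α * (i:ℝ) + β - (α * i' + β) = α * (i - i') := by ring
      rw [e, abs_mul, abs_of_pos hα]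
      nlinarith
  have hcard2 : ∀ᶠ n in atTop, d n ^ (1:ℝ) * X n ≤ (SA α β i0 n).card := by
    filter_upwards [hcard, hd.eventually_le_const (show (0:ℝ) < 1 / (4 * α) by positivity),
      hAd.X0.eventually_ge_atTop 0] with n h1 h2 h3
    rw [Real.rpow_one]
    exact (mul_le_mul_of_nonneg_right h2 h3).trans h1
  have hVV : aTf 1 1 V = (((aC V).re : ℝ) : ℂ) := by
    rw [(aTf_spec (a := 1) (b := 1) le_rfl le_rfl (Nat.coprime_one_left 1)).2.1 V hV, tw_one, mul_one]
  have key := samp_ld hC hR hAd hα hS hcard2 (AAP_cont hα β) hVV (AAP_real β hV) (qfc_ap hAd hα β i0 (by positivity) hcard)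
    h S0 hm hcc hb1 hb2
  obtain ⟨C, hCb⟩ := hb1
  refine HI_of (SA_inj hα β) hAd (E := i0) (I := fun n => Finset.Ico i0 n) ?_ ?_ (D' := 1) ?_ hCb key
  · intro n i hi
    rw [Finset.mem_Ico] at hi
    exact Finset.mem_range.2 hi.2
  · intro n
    refine (Finset.card_le_card (t := Finset.range i0) ?_).trans (by rw [Finset.card_range])
    intro i hi
    rw [Finset.mem_sdiff, Finset.mem_range, Finset.mem_Ico, not_and] at hi
    rw [Finset.mem_range]
    by_contra hcon
    exact hi.2 (not_lt.1 hcon) hi.1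
  · have h1 : ∀ᶠ n in atTop, d n ≤ 1 / (2 * α) := hd.eventually_le_const (by positivity)
    filter_upwards [hXn, h1, hd0] with n a1 a2 a3
    rw [Real.rpow_neg a3.le, Real.rpow_one]
    refine a1.trans ?_
    rw [le_div_iff₀ (by positivity)] at a2
    have h2 : 2 * α ≤ (d n)⁻¹ := by
      rw [← one_div, le_div_iff₀ a3]
      linarith
    calc 2 * α * n = n * (2 * α) := by ring
      _ ≤ n * (d n)⁻¹ := mul_le_mul_of_nonneg_left h2 (Nat.cast_nonneg _)

end Run7.h310.SQ
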