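import Pool.Agent.Run7.h310.SQ.G2
import Pool.Agent.Run7.h310.SP.B8

set_option autoImplicit false

/-! # Project SQ: the law of `log |ζ|` along dilated sequences -/

namespace Run7.h310.SQ

open Finset Filter MeasureTheory Topology Complex
open Pool.Agent.N748.MG Run7.h310.SP

lemma wN_sq {δ : ℝ} (hδ : 0 < δ) (n : ℕ) : wN δ n * wN δ n = (n:ℝ) ^ (-(1 + 2 * δ)) := by
  unfold wN
  rcases Nat.eq_zero_or_pos n with h | h
  · rw [h]
    push_cast
    rw [Real.zero_rpow (by linarith), Real.zero_rpow (by linarith), zero_mul]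
  · have hn : (0:ℝ) < n := by exact_mod_cast h
    rw [← Real.rpow_add hn]
    congr 1
    ring

lemma aTf_one (s : ℂ) : aTf 1 1 s = aC s := by
  obtain ⟨-, -, h⟩ := aTf_spec (a := 1) (b := 1) le_rfl le_rfl (Nat.coprime_one_left 1)
  by_contra hne
  have hpos : 0 < ‖aTf 1 1 s - aC s‖ := norm_pos_iff.2 (sub_ne_zero.2 hne)
  obtain ⟨δ1, hδ1, h1⟩ := h (‖s‖ + 1) (‖aTf 1 1 s - aC s‖ / 4) (by positivity) (by positivity)
  obtain ⟨δ2, hδ2, h2⟩ := DIA2.main (‖s‖ + 1) (by positivity) (‖aTf 1 1 s - aC s‖ / 4) (by positivity)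
  have m0 : 0 < min δ1 δ2 := lt_min hδ1 hδ2
  have g1 := h1 (min δ1 δ2) m0 (min_le_left _ _) s (by linarith)
  have g2 := h2 (min δ1 δ2) m0 (min_le_right _ _) s (by linarith)
  have e : TC s (min δ1 δ2) 1 1 = ∑' n : ℕ, dS s n ^ 2 * (((n:ℝ) ^ (-(1 + 2 * (min δ1 δ2))) : ℝ) : ℂ) := by
    unfold TC tfc
    refine tsum_congr fun n => ?_
    rw [one_mul, wN_sq m0, sq]
  rw [e, norm_sub_rev] at g1
  have g3 := norm_sub_le_norm_sub_add_norm_sub (aTf 1 1 s) (((2 * (min δ1 δ2) : ℝ) : ℂ) ^ (s ^ 2) *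
    ∑' n : ℕ, dS s n ^ 2 * (((n:ℝ) ^ (-(1 + 2 * (min δ1 δ2))) : ℝ) : ℂ)) (aC s)
  linarith

lemma aTf_real (V : ℝ) : aTf 1 1 V = (((aC V).re : ℝ) : ℂ) := by
  obtain ⟨r, -, hr⟩ := CON.real_pos V
  rw [aTf_one, hr, Complex.ofReal_re]

/-- the mean of the polynomials along a dilated sequence -/
theorem qfc_ms {X δ : ℕ → ℝ} (hd : AdN X δ) {c : ℝ} (hc : 0 < c) {α : ℝ} (hα : 0 < α) (β : ℝ) {x : ℕ → ℝ}
    (hx : ∀ i j, i ≠ j → c ≤ |x i - x j|) (hG : Good x α) {E : ℕ} (hE : ∀ n, (Finset.range n \ IX α β x n).card ≤ E)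
    (hXn : ∀ᶠ n : ℕ in atTop, X n ≤ (n:ℝ) ^ 2) :
    QFC X δ (fun n => (IX α β x n).image fun i => α * x i + β) (aTf 1 1) := by
  classical
  intro R hR
  obtain ⟨C0, hC00, hC0⟩ := SIZ.main R hR.le
  obtain ⟨C1, δ1, hC1, hδ1, hT1⟩ := t_tct R (R ^ 2 + 1) hR (by positivity) 1 1 le_rfl le_rfl (Nat.coprime_one_left 1)
  refine ⟨max C1 (64 + 128 * C0), lt_max_of_lt_left hC1, fun ε hε => ?_⟩
  obtain ⟨δ2, hδ2, hL⟩ := (aTf_spec (a := 1) (b := 1) le_rfl le_rfl (Nat.coprime_one_left 1)).2.2 R (ε / 4) hR (by positivity)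
  have hinj : Function.Injective fun i => α * x i + β := by
    intro i j h
    by_contra hne
    have h1 := hx i j hne
    simp only at h
    have : x i = x j := mul_left_cancel₀ hα.ne' (by linarith)
    rw [this, sub_self, abs_zero] at h1
    linarith
  have hlt : ∀ᶠ n in atTop, δ n ≤ 1 / 16 := hd.t0.eventually_le_const (by norm_num)
  have hn : Tendsto (fun n : ℕ => (n:ℝ)) atTop atTop := tendsto_natCast_atTop_atTop
  have hcardn : ∀ n : ℕ, (n:ℝ) - E ≤ ((IX α β x n).card : ℝ) := by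
    intro n
    have hsub : IX α β x n ⊆ Finset.range n := fun i hi => Finset.mem_range.2 (mem_IX.1 hi).1
    have h1 := Finset.card_sdiff_add_card_eq_card hsub
    rw [Finset.card_range] at h1
    have h2 := hE n
    have : (n:ℝ) ≤ (IX α β x n).card + E := by exact_mod_cast (by omega : n ≤ (IX α β x n).card + E)
    linarith
  have hzz : ∀ᶠ n : ℕ in atTop, 2 * (2 ^ 20 + E) * (n:ℝ) ^ (-(1 / 64) : ℝ) ≤ ε / 4 := by
    have := ((tendsto_rpow_neg_atTop (by norm_num : (0:ℝ) < 1 / 64)).comp hn).const_mul (2 * (2 ^ 20 + (E:ℝ)))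
    rw [mul_zero] at this
    exact this.eventually_le_const (by positivity)
  have hwin := AdN.app (Ev.win (D := R ^ 2) (c := 1) (e := 1 / 128) one_pos (by norm_num)) hd
  filter_upwards [hwin, hd.pos, hlt, hXn, hG.all, hn.eventually_ge_atTop (2 * E + 1), hzz,
    hd.X0.eventually_ge_atTop 1, hd.t0.eventually_le_const hδ1, hd.t0.eventually_le_const hδ2,
    hd.t0.eventually_le_const (show (0:ℝ) < ε / 4 by positivity)] with n w1 a5 a6 a7 a8 a9 w2 a10 w3 w4 w5 y K a1 a2 a3 a4 s hs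
  have hE0 : (0:ℝ) ≤ E := Nat.cast_nonneg _
  have hnR : (1:ℝ) ≤ n := by linarith
  have hn0 : (0:ℝ) < n := by linarith
  have hX0 : 0 < X n := by linarith
  have hly : 0 < Real.log y := Real.log_pos (by linarith)
  have hK0 : (0:ℝ) ≤ K := Nat.cast_nonneg _
  have hL0 : 0 ≤ Real.log (1 / δ n) := by linarith [log_inv_ge a5 a6]
  have hL2 : Real.log (X n) ≤ 2 * Real.log n := by
    have := Real.log_le_log hX0 a7
    rwa [Real.log_pow] at this
  have hKL : 0 ≤ ((K:ℝ) + 1) * Real.log y := by positivity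
  have hKC : (64 + 128 * C0) * (((K:ℝ) + 1) * Real.log y) ≤ 2 * Real.log n :=
    ((mul_le_mul_of_nonneg_right (le_max_right _ _) hKL).trans a4).trans hL2
  have hM : Real.exp (K * Real.log y) ≤ (n:ℝ) ^ (1 / 32 : ℝ) := by
    rw [Real.rpow_def_of_pos hn0]
    apply Real.exp_le_exp.2
    nlinarith [mul_nonneg hC00.le hKL]
  have hM2 : Real.exp (C0 * ((K + 1) * Real.log y)) ^ 2 ≤ (n:ℝ) ^ (1 / 32 : ℝ) := by
    rw [Real.rpow_def_of_pos hn0, ← Real.exp_nat_mul]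
    apply Real.exp_le_exp.2
    push_cast
    nlinarith
  obtain ⟨S, hS⟩ : ∃ S, S = (IX α β x n).image fun i => α * x i + β := ⟨_, rfl⟩
  have hSc : (S.card : ℝ) = (IX α β x n).card := by rw [hS, Finset.card_image_of_injective _ hinj]
  have hSn : (n:ℝ) / 2 ≤ S.card := by
    rw [hSc]
    have := hcardn n
    linarith
  have hSpos : (0:ℝ) < S.card := by linarith
  rw [← hS]
  have hF := (hC0 y a1 K).1
  -- splitting the quadratic form
  have e1 := quad_c s (δ n) y K S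
  rw [← Finset.sum_filter_add_sum_filter_not _ (fun q : ℕ × ℕ => q.1 * 1 = q.2 * 1)] at e1
  have e2 : ∑ q ∈ (FS y K ×ˢ FS y K).filter (fun q : ℕ × ℕ => q.1 * 1 = q.2 * 1), cqc s (δ n) q *
      ((Wc S (Real.log q.2 - Real.log q.1) : ℝ) : ℂ) = (S.card : ℂ) * TCt s (δ n) y K 1 1 := by
    have : ∀ q ∈ (FS y K ×ˢ FS y K).filter (fun q : ℕ × ℕ => q.1 * 1 = q.2 * 1), cqc s (δ n) q *
      ((Wc S (Real.log q.2 - Real.log q.1) : ℝ) : ℂ) = (S.card : ℂ) * cqc s (δ n) q := by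
      intro q hq
      have h1 := (Finset.mem_filter.1 hq).2
      rw [mul_one, mul_one] at h1
      rw [h1, sub_self]
      have : Wc S 0 = S.card := by unfold Wc; simp
      rw [this]
      push_cast
      ring
    rw [Finset.sum_congr rfl this, ← Finset.mul_sum]
    rfl
  rw [e2] at e1
  obtain ⟨O, hO⟩ : ∃ O, O = ∑ q ∈ (FS y K ×ˢ FS y K).filter (fun q : ℕ × ℕ => ¬ q.1 * 1 = q.2 * 1),
    cqc s (δ n) q * ((Wc S (Real.log q.2 - Real.log q.1) : ℝ) : ℂ) := ⟨_, rfl⟩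
  rw [← hO] at e1
  have hOb : ‖O‖ ≤ (2 ^ 20 * (n:ℝ) ^ (15 / 16 : ℝ) + E) * (n:ℝ) ^ (1 / 32 : ℝ) := by
    rw [hO]
    calc _ ≤ ∑ q ∈ (FS y K ×ˢ FS y K).filter (fun q : ℕ × ℕ => ¬ q.1 * 1 = q.2 * 1),
          ‖cqc s (δ n) q * ((Wc S (Real.log q.2 - Real.log q.1) : ℝ) : ℂ)‖ := norm_sum_le _ _
      _ ≤ ∑ q ∈ (FS y K ×ˢ FS y K).filter (fun q : ℕ × ℕ => ¬ q.1 * 1 = q.2 * 1),
          cq R (δ n) q * (2 ^ 20 * (n:ℝ) ^ (15 / 16 : ℝ) + E) := by
          refine Finset.sum_le_sum fun q hq => ?_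
          rw [norm_mul, Complex.norm_real, Real.norm_eq_abs]
          refine mul_le_mul (cqc_le hs _ q) ?_ (abs_nonneg _) (cq_nonneg hR _ q)
          obtain ⟨hq1, hq2⟩ := Finset.mem_filter.1 hq
          rw [Finset.mem_product] at hq1
          rw [mul_one, mul_one] at hq2
          have h1 := Wc_le_We hc hα β hx (hE n) (Real.log q.2 - Real.log q.1)
          rw [← hS] at h1
          have h2 := a8 q.2 q.1 (hF _ hq1.2).1 (hF _ hq1.1).1 (Ne.symm hq2) ((hF _ hq1.2).2.trans hM)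
            ((hF _ hq1.1).2.trans hM)
          linarith
      _ ≤ ∑ q ∈ FS y K ×ˢ FS y K, cq R (δ n) q * (2 ^ 20 * (n:ℝ) ^ (15 / 16 : ℝ) + E) :=
          Finset.sum_le_sum_of_subset_of_nonneg (Finset.filter_subset _ _) fun q _ _ =>
            mul_nonneg (cq_nonneg hR _ q) (by positivity)
      _ = (2 ^ 20 * (n:ℝ) ^ (15 / 16 : ℝ) + E) * ∑ q ∈ FS y K ×ˢ FS y K, cq R (δ n) q := by
          rw [← Finset.sum_mul, mul_comm]
      _ ≤ (2 ^ 20 * (n:ℝ) ^ (15 / 16 : ℝ) + E) * (∑ m ∈ FS y K, |dR R m|) ^ 2 := by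
          refine mul_le_mul_of_nonneg_left ?_ (by positivity)
          rw [sq, Finset.sum_mul_sum, Finset.sum_product]
          refine Finset.sum_le_sum fun m hm => Finset.sum_le_sum fun l hl => ?_
          unfold cq
          simp only
          have w1 : wN (δ n) m ≤ 1 := MVS.cc_le_one a5.le (hF m hm).1
          have w2 : wN (δ n) l ≤ 1 := MVS.cc_le_one a5.le (hF l hl).1
          have w3 : wN (δ n) m * wN (δ n) l ≤ 1 := mul_le_one₀ w1 (wN_nonneg _ _) w2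
          rw [abs_of_pos (dR_pos hR m), abs_of_pos (dR_pos hR l)]
          exact mul_le_of_le_one_right (mul_nonneg (dR_pos hR _).le (dR_pos hR _).le) w3
      _ ≤ (2 ^ 20 * (n:ℝ) ^ (15 / 16 : ℝ) + E) * (n:ℝ) ^ (1 / 32 : ℝ) := by
          refine mul_le_mul_of_nonneg_left ?_ (by positivity)
          rw [sum_abs_dR hR]
          exact (pow_le_pow_left₀ (Finset.sum_nonneg fun _ _ => norm_nonneg _)
            ((hC0 y a1 K).2 (R:ℂ) (norm_k hR)) 2).trans hM2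
  rw [e1]
  obtain ⟨z, hz⟩ : ∃ z : ℂ, z = ((2 * δ n : ℝ) : ℂ) ^ (s ^ 2) := ⟨_, rfl⟩
  have hzn : ‖z‖ ≤ δ n ^ (-(R ^ 2)) := by rw [hz]; exact CM.cpow_norm a5 a6 s hs
  have hSc0 : (S.card : ℂ) ≠ 0 := by exact_mod_cast hSpos.ne'
  have e3 : z * (((1 / (S.card : ℝ) : ℝ) : ℂ) * ((S.card : ℂ) * TCt s (δ n) y K 1 1 + O)) - aTf 1 1 s =
      z * (TCt s (δ n) y K 1 1 - TC s (δ n) 1 1) + (z * TC s (δ n) 1 1 - aTf 1 1 s) +
      z * (((1 / (S.card : ℝ) : ℝ) : ℂ) * O) := by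
    push_cast
    field_simp
    ring
  rw [← hz, e3]
  refine norm_add₃_le.trans ?_
  have p1 : ‖z * (TCt s (δ n) y K 1 1 - TC s (δ n) 1 1)‖ ≤ δ n := by
    have q1 := hT1 (δ n) a5 w3 y K a1 ((mul_le_mul_of_nonneg_right (le_max_left _ _) hL0).trans a2)
      ((mul_le_mul_of_nonneg_right (le_max_left _ _) hL0).trans a3) s hs
    rw [norm_mul]
    calc ‖z‖ * ‖TCt s (δ n) y K 1 1 - TC s (δ n) 1 1‖ ≤ δ n ^ (-(R ^ 2)) * δ n ^ (R ^ 2 + 1) :=
          mul_le_mul hzn q1 (norm_nonneg _) (Real.rpow_nonneg a5.le _)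
      _ = δ n := by
          rw [← Real.rpow_add a5]
          have : -(R ^ 2) + (R ^ 2 + 1) = 1 := by ring
          rw [this, Real.rpow_one]
  have p2 : ‖z * TC s (δ n) 1 1 - aTf 1 1 s‖ ≤ ε / 4 := by rw [hz]; exact hL (δ n) a5 w4 s hs
  have p3 : ‖z * (((1 / (S.card : ℝ) : ℝ) : ℂ) * O)‖ ≤ ε / 4 := by
    rw [norm_mul, norm_mul, Complex.norm_real, Real.norm_of_nonneg (div_nonneg zero_le_one hSpos.le)]
    have hX128 : δ n ^ (-(R ^ 2)) ≤ (n:ℝ) ^ (1 / 64 : ℝ) := by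
      refine w1.trans ?_
      rw [one_mul]
      calc X n ^ (1 / 128 : ℝ) ≤ ((n:ℝ) ^ 2) ^ (1 / 128 : ℝ) := Real.rpow_le_rpow hX0.le a7 (by norm_num)
        _ = (n:ℝ) ^ (1 / 64 : ℝ) := by
            rw [← Real.rpow_natCast, ← Real.rpow_mul hn0.le]
            norm_num
    have hE1 : (E:ℝ) ≤ E * (n:ℝ) ^ (15 / 16 : ℝ) :=
      le_mul_of_one_le_right hE0 (Real.one_le_rpow hnR (by norm_num))
    have h15 : (0:ℝ) < (n:ℝ) ^ (15 / 16 : ℝ) := Real.rpow_pos_of_pos hn0 _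
    have h32 : (0:ℝ) < (n:ℝ) ^ (1 / 32 : ℝ) := Real.rpow_pos_of_pos hn0 _
    have h64 : (0:ℝ) < (n:ℝ) ^ (1 / 64 : ℝ) := Real.rpow_pos_of_pos hn0 _
    have hO2 : ‖O‖ ≤ (2 ^ 20 + E) * (n:ℝ) ^ (15 / 16 : ℝ) * (n:ℝ) ^ (1 / 32 : ℝ) := by
      refine hOb.trans (mul_le_mul_of_nonneg_right ?_ h32.le)
      linarith
    have hc2 : 1 / (S.card : ℝ) ≤ 2 / n := by
      rw [div_le_div_iff₀ hSpos hn0]
      linarith
    calc ‖z‖ * (1 / (S.card : ℝ) * ‖O‖) ≤ (n:ℝ) ^ (1 / 64 : ℝ) * (2 / n * ((2 ^ 20 + E) * (n:ℝ) ^ (15 / 16 : ℝ) *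
          (n:ℝ) ^ (1 / 32 : ℝ))) :=
          mul_le_mul (hzn.trans hX128) (mul_le_mul hc2 hO2 (norm_nonneg _) (by positivity))
            (mul_nonneg (div_nonneg zero_le_one hSpos.le) (norm_nonneg _)) h64.le
      _ = 2 * (2 ^ 20 + E) * ((n:ℝ) ^ (1 / 64 : ℝ) * (n:ℝ) ^ (15 / 16 : ℝ) * (n:ℝ) ^ (1 / 32 : ℝ) / n) := by ring
      _ = 2 * (2 ^ 20 + E) * (n:ℝ) ^ (-(1 / 64) : ℝ) := by
          congr 1
          rw [← Real.rpow_add hn0, ← Real.rpow_add hn0]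
          conv_lhs => rw [← Real.rpow_one (n:ℝ)]
          rw [← Real.rpow_mul hn0.le, ← Real.rpow_sub hn0]
          norm_num
      _ ≤ ε / 4 := w2
  linarith

/-- the law along almost every dilation of a separated sequence -/
theorem ms_ld (hC : S_CTW) (hR : S_CRED) {c : ℝ} (hc : 0 < c) {x : ℕ → ℝ} (hx0 : ∀ i, 0 ≤ x i)
    (hx : ∀ i j, i ≠ j → c ≤ |x i - x j|) : ∀ᵐ α : ℝ, 0 < α → ∀ (β : ℝ) (d : ℕ → ℝ) (D : ℝ), (∀ᶠ n in atTop, 0 < d n) →
    Tendsto d atTop (𝓝 0) →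
    Tendsto (fun n : ℕ => d n * Real.log n / Real.log (1 / d n) ^ 2) atTop atTop →
    (∀ᶠ n : ℕ in atTop, ∀ i < n, x i ≤ n * d n ^ (-D)) → ∀ V : ℝ,
    Law d (fun i => α * x i + β) V (aC V).re ∧ Zf d (fun i => α * x i + β) V := by
  classical
  filter_upwards [ae_good hc hx] with α hG hα β d D hd0 hd hdL hgr V
  have hn : Tendsto (fun n : ℕ => (n:ℝ)) atTop atTop := tendsto_natCast_atTop_atTop
  obtain ⟨E, hE⟩ := IX_card hc hα β hx0 hx
  obtain ⟨X, hX⟩ : ∃ X : ℕ → ℝ, X = fun n : ℕ => α * (n * d n ^ (-|D|)) + |β| + 1 := ⟨_, rfl⟩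
  have hlt : ∀ᶠ n in atTop, d n ≤ 1 / 16 := hd.eventually_le_const (by norm_num)
  have hAd : AdN X d := by
    refine adN_of hd0 hd hdL hα ?_
    filter_upwards [hd0, hlt] with n a1 a2
    rw [hX]
    simp only
    have h1 := abs_nonneg β
    have h2 : 1 ≤ d n ^ (-|D|) := Real.one_le_rpow_of_pos_of_le_one_of_nonpos a1 (by linarith) (by simp)
    have h3 : (n:ℝ) ≤ n * d n ^ (-|D|) := le_mul_of_one_le_right (Nat.cast_nonneg _) h2
    nlinarith
  have hXb : ∀ᶠ n : ℕ in atTop, X n ≤ n * d n ^ (-(|D| + 1)) := by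
    have h1 : ∀ᶠ n in atTop, d n ≤ 1 / (α + 1) := hd.eventually_le_const (by positivity)
    filter_upwards [hd0, hlt, h1, hn.eventually_ge_atTop (|β| + 1)] with n a1 a2 a3 a4
    rw [hX]
    simp only
    have h2 : 1 ≤ d n ^ (-|D|) := Real.one_le_rpow_of_pos_of_le_one_of_nonpos a1 (by linarith) (by simp)
    have h3 : d n ^ (-(|D| + 1)) = d n ^ (-|D|) * (d n)⁻¹ := by
      rw [neg_add, Real.rpow_add a1, Real.rpow_neg_one]
    have h4 : α + 1 ≤ (d n)⁻¹ := by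
      rw [le_div_iff₀ (by positivity)] at a3
      rw [← one_div, le_div_iff₀ a1]
      linarith
    rw [h3]
    have h5 : (n:ℝ) ≤ n * d n ^ (-|D|) := le_mul_of_one_le_right (Nat.cast_nonneg _) h2
    have h6 : 0 ≤ (n:ℝ) * d n ^ (-|D|) := by positivity
    calc α * (n * d n ^ (-|D|)) + |β| + 1 ≤ (n * d n ^ (-|D|)) * (α + 1) := by linarith
      _ ≤ (n * d n ^ (-|D|)) * (d n)⁻¹ := mul_le_mul_of_nonneg_left h4 h6
      _ = _ := by ring
  have hXn : ∀ᶠ n : ℕ in atTop, X n ≤ (n:ℝ) ^ 2 := by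
    have h1 := AdN.app (Ev.win (D := |D| + 1) (c := 1) (e := 1 / 2) one_pos (by norm_num)) hAd
    filter_upwards [h1, hXb, hAd.X0.eventually_ge_atTop 1] with n a1 a2 a5
    have hX0 : 0 < X n := by linarith
    have h3 : X n ≤ n * X n ^ (1 / 2 : ℝ) := a2.trans (mul_le_mul_of_nonneg_left (a1.trans (le_of_eq (one_mul _))) (Nat.cast_nonneg _))
    have h4 : X n = X n ^ (1 / 2 : ℝ) * X n ^ (1 / 2 : ℝ) := by
      rw [← Real.rpow_add hX0]; norm_num
    have h5 : 0 < X n ^ (1 / 2 : ℝ) := Real.rpow_pos_of_pos hX0 _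
    have h6 : X n ^ (1 / 2 : ℝ) ≤ n := by
      by_contra hcon
      push Not at hcon
      have h6 := mul_lt_mul_of_pos_right hcon h5
      linarith
    rw [h4, sq]
    exact mul_le_mul h6 h6 h5.le (Nat.cast_nonneg _)
  have hinj : Function.Injective fun i => α * x i + β := by
    intro i j h
    by_contra hne
    have h1 := hx i j hne
    simp only at h
    have : x i = x j := mul_left_cancel₀ hα.ne' (by linarith)
    rw [this, sub_self, abs_zero] at h1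
    linarith
  have hS : ∀ᶠ n in atTop, Sep (α * c) (X n) ((IX α β x n).image fun i => α * x i + β) := by
    filter_upwards [hgr, hd0, hlt] with n a1 a2 a3
    refine ⟨?_, ?_, ?_⟩
    · intro s hs
      obtain ⟨i, hi, rfl⟩ := Finset.mem_image.1 hs
      exact (mem_IX.1 hi).2
    · intro s hs
      obtain ⟨i, hi, rfl⟩ := Finset.mem_image.1 hs
      have h1 := a1 i (mem_IX.1 hi).1
      have h2 : d n ^ (-D) ≤ d n ^ (-|D|) :=
        Real.rpow_le_rpow_of_exponent_ge a2 (by linarith) (neg_le_neg (le_abs_self _))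
      have h3 : x i ≤ n * d n ^ (-|D|) := h1.trans (mul_le_mul_of_nonneg_left h2 (Nat.cast_nonneg _))
      have h4 := le_abs_self β
      rw [hX]
      simp only
      nlinarith
    · intro s hs s' hs' hne
      obtain ⟨i, hi, rfl⟩ := Finset.mem_image.1 hs
      obtain ⟨i', hi', rfl⟩ := Finset.mem_image.1 hs'
      have hii : i ≠ i' := by
        rintro rfl
        exact hne rfl
      have e : α * x i + β - (α * x i' + β) = α * (x i - x i') := by ring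
      rw [e, abs_mul, abs_of_pos hα]
      exact mul_le_mul_of_nonneg_left (hx i i' hii) hα.le
  have hcard : ∀ᶠ n in atTop, d n ^ (|D| + 2) * X n ≤ (((IX α β x n).image fun i => α * x i + β).card : ℝ) := by
    filter_upwards [hXb, hd0, hlt, hn.eventually_ge_atTop (2 * E)] with n a1 a2 a3 a4
    rw [Finset.card_image_of_injective _ hinj]
    have hsub : IX α β x n ⊆ Finset.range n := fun i hi => Finset.mem_range.2 (mem_IX.1 hi).1
    have h1 := Finset.card_sdiff_add_card_eq_card hsub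
    rw [Finset.card_range] at h1
    have h2 := hE n
    have h3 : (n:ℝ) ≤ (IX α β x n).card + E := by exact_mod_cast (by omega : n ≤ (IX α β x n).card + E)
    have h4 : d n ^ (|D| + 2) * d n ^ (-(|D| + 1)) = d n := by
      rw [← Real.rpow_add a2]
      have : |D| + 2 + -(|D| + 1) = 1 := by ring
      rw [this, Real.rpow_one]
    have h5 : 0 ≤ d n ^ (|D| + 2) := Real.rpow_nonneg a2.le _
    calc d n ^ (|D| + 2) * X n ≤ d n ^ (|D| + 2) * (n * d n ^ (-(|D| + 1))) := mul_le_mul_of_nonneg_left a1 h5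
      _ = n * (d n ^ (|D| + 2) * d n ^ (-(|D| + 1))) := by ring
      _ = n * d n := by rw [h4]
      _ ≤ n * (1 / 16) := mul_le_mul_of_nonneg_left a3 (Nat.cast_nonneg _)
      _ ≤ (IX α β x n).card := by linarith
  refine ⟨?_, zf_of hR hinj hAd hE hXb (mul_pos hα hc) hS V⟩
  intro h S0 hm hcc hb1 hb2
  have key := samp_ld hC hR hAd (mul_pos hα hc) hS hcard
    (aTf_spec (a := 1) (b := 1) le_rfl le_rfl (Nat.coprime_one_left 1)).1 (aTf_real V) (aTf_real V)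
    (qfc_ms hAd hc hα β hx hG hE hXn) h S0 hm hcc hb1 hb2
  obtain ⟨C, hCb⟩ := hb1
  exact HI_of hinj hAd (E := E) (I := fun n => IX α β x n) (fun n i hi => Finset.mem_range.2 (mem_IX.1 hi).1) hE
    (D' := |D| + 1) hXb hCb key

end Run7.h310.SQ
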