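import Pool.Agent.Run7.h310.SQ.F5

set_option autoImplicit false

/-! # Project SQ: counting large, small and intermediate values -/

namespace Run7.h310.SQ

open Finset Filter MeasureTheory Topology Complex
open Pool.Agent.N748.MG Run7.h310.SP

/-- the law of `log |ζ|` at the scale `V log (1/(2d))` for the points `y_n` -/
def Law (d y : ℕ → ℝ) (V k : ℝ) : Prop := ∀ (h : ℝ → ℝ) (S0 : Finset ℝ), Measurable h →
  (∀ x, x ∉ S0 → ContinuousAt h x) → (∃ C : ℝ, ∀ x, |h x| ≤ C) →
  (∃ C : ℝ, ∀ x, |h x| * (1 + x ^ 2) ≤ C * Real.exp (2 * V * x)) →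
  Tendsto (fun n : ℕ => GN V (d n) * ((1 / (n : ℝ)) * ∑ i ∈ Finset.range n, h (LV V (d n) (y i)))) atTop
    (𝓝 (k * ∫ x, Real.exp (-(2 * V * x)) * h x))

/-- zeros are rare -/
def Zf (d y : ℕ → ℝ) (V : ℝ) : Prop := Tendsto (fun n : ℕ => GN V (d n) * ((1 / (n : ℝ)) *
  (((Finset.range n).filter fun i => mz (d n) (y i) = 0).card : ℝ))) atTop (𝓝 0)

lemma evN {d : ℕ → ℝ} (hd0 : ∀ᶠ N in atTop, 0 < d N) (hd : Tendsto d atTop (𝓝 0)) {V : ℝ} (hV : 0 < V) (c : ℝ) :
    ∀ᶠ N in atTop, 0 < Real.log c + V * Real.log (1 / (2 * d N)) := by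
  have hfl : Tendsto (fun T : ℝ => ⌊T⌋₊) atTop atTop := tendsto_nat_floor_atTop
  have h := ev_level (d := fun T : ℝ => d ⌊T⌋₊) (hfl.eventually hd0) (hd.comp hfl) hV c
  have h2 := tendsto_natCast_atTop_atTop.eventually h
  filter_upwards [h2] with N hN
  rwa [Nat.floor_natCast] at hN

/-- the level in terms of the exponential -/
lemma lev_eq {δ c : ℝ} (h0 : 0 < δ) (hc : 0 < c) (V : ℝ) : c * (2 * δ) ^ (-V) = Real.exp (Real.log c + V * Real.log (1 / (2 * δ))) := by
  rw [Real.exp_add, Real.exp_log hc, Real.rpow_def_of_pos (by linarith), one_div, Real.log_inv]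
  congr 2
  ring

/-- away from the zeros the indicator function gives the points above the level -/
lemma hI_LV {δ V t c : ℝ} (h0 : 0 < δ) (hc : 0 < c) (hz : mz δ t ≠ 0) :
    hI c (LV V δ t) = if c * (2 * δ) ^ (-V) < mz δ t then 1 else 0 := by
  have hpos : 0 < mz δ t := lt_of_le_of_ne (norm_nonneg _) (Ne.symm hz)
  have e : LV V δ t = Real.log (mz δ t) - V * Real.log (1 / (2 * δ)) := rfl
  unfold hI
  rw [e, lev_eq h0 hc]
  by_cases h : Real.exp (Real.log c + V * Real.log (1 / (2 * δ))) < mz δ t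
  · rw [if_pos h, Set.indicator_of_mem]
    rw [Set.mem_Ioi]
    have := (Real.lt_log_iff_exp_lt hpos).2 h
    linarith
  · rw [if_neg h, Set.indicator_of_notMem]
    rw [Set.mem_Ioi, not_lt]
    have := (Real.log_le_iff_le_exp hpos).2 (not_lt.1 h)
    linarith

/-- a general comparison: functions which agree except at the zeros -/
lemma law_count {d y : ℕ → ℝ} {V k : ℝ} (hd0 : ∀ᶠ N in atTop, 0 < d N) (hd : Tendsto d atTop (𝓝 0)) (hz : Zf d y V) {h : ℝ → ℝ} {I : ℝ}
    (h01 : ∀ x, 0 ≤ h x ∧ h x ≤ 1)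
    (hl : Tendsto (fun n : ℕ => GN V (d n) * ((1 / (n : ℝ)) * ∑ i ∈ Finset.range n, h (LV V (d n) (y i)))) atTop (𝓝 (k * I)))
    {P : ℕ → ℝ → Prop} [∀ n, DecidablePred (P n)]
    (hP : ∀ᶠ n in atTop, ∀ t, mz (d n) t ≠ 0 → h (LV V (d n) t) = if P n t then 1 else 0) :
    Tendsto (fun n : ℕ => GN V (d n) * ((((Finset.range n).filter fun i => P n (y i)).card : ℝ) / n)) atTop (𝓝 (k * I)) := by
  classical
  have h1 : Tendsto (fun n : ℕ => GN V (d n) * ((((Finset.range n).filter fun i => P n (y i)).card : ℝ) / n) -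
      GN V (d n) * ((1 / (n : ℝ)) * ∑ i ∈ Finset.range n, h (LV V (d n) (y i)))) atTop (𝓝 0) := by
    refine squeeze_zero_norm' ?_ hz
    filter_upwards [hP, hd0, hd.eventually_le_const (show (0:ℝ) < 1 / 16 by norm_num)] with n a1 a2 a3
    have hG0 : 0 ≤ GN V (d n) := mul_nonneg (Real.sqrt_nonneg _) (Real.rpow_nonneg (by linarith) _)
    have e1 : (((Finset.range n).filter fun i => P n (y i)).card : ℝ) = ∑ i ∈ Finset.range n, (if P n (y i) then (1:ℝ) else 0) := by
      rw [Finset.card_filter]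
      push_cast
      rfl
    have e2 : GN V (d n) * ((((Finset.range n).filter fun i => P n (y i)).card : ℝ) / n) -
      GN V (d n) * ((1 / (n : ℝ)) * ∑ i ∈ Finset.range n, h (LV V (d n) (y i))) =
      GN V (d n) * ((1 / (n : ℝ)) * ∑ i ∈ Finset.range n, ((if P n (y i) then (1:ℝ) else 0) - h (LV V (d n) (y i)))) := by
      rw [e1, Finset.sum_sub_distrib]
      ring
    rw [e2, norm_mul, norm_mul, Real.norm_of_nonneg hG0, Real.norm_of_nonneg (by positivity : (0:ℝ) ≤ 1 / n)]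
    refine mul_le_mul_of_nonneg_left (mul_le_mul_of_nonneg_left ?_ (by positivity)) hG0
    refine (norm_sum_le _ _).trans ?_
    rw [Finset.card_filter]
    push_cast
    refine Finset.sum_le_sum fun i _ => ?_
    by_cases hzi : mz (d n) (y i) = 0
    · rw [if_pos hzi, Real.norm_eq_abs, abs_le]
      obtain ⟨b1, b2⟩ := h01 (LV V (d n) (y i))
      split_ifs <;> constructor <;> linarith
    · rw [if_neg hzi, a1 (y i) hzi, sub_self, norm_zero]
  have h2 := h1.add hl
  rw [zero_add] at h2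
  refine h2.congr fun n => ?_
  ring

/-- large values -/
lemma law_large {d y : ℕ → ℝ} {V k : ℝ} (hd0 : ∀ᶠ N in atTop, 0 < d N) (hd : Tendsto d atTop (𝓝 0)) (hz : Zf d y V)
    (hL : Law d y V k) (hV : 0 < V) {c : ℝ} (hc : 0 < c) :
    Tendsto (fun n : ℕ => GN V (d n) * ((((Finset.range n).filter fun i => c * (2 * d n) ^ (-V) < mz (d n) (y i)).card : ℝ) / n))
      atTop (𝓝 (k * (c ^ (-(2 * V)) / (2 * V)))) := by
  classical
  have h1 := hL (hI c) {Real.log c} (hI_meas c) (hI_cont c) (hI_bd1 c) (hI_bd2 c hV)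
  rw [hI_int hc hV] at h1
  refine law_count hd0 hd hz (h := hI c) (fun x => ⟨hI_nonneg c x, hI_le c x⟩) h1
    (P := fun n t => c * (2 * d n) ^ (-V) < mz (d n) t) ?_
  filter_upwards [hd0] with n a1 t ht
  exact hI_LV a1 hc ht

/-- the values in an interval -/
lemma law_mid {d y : ℕ → ℝ} {V k : ℝ} (hd0 : ∀ᶠ N in atTop, 0 < d N) (hd : Tendsto d atTop (𝓝 0)) (hz : Zf d y V)
    (hL : Law d y V k) {a b : ℝ} (ha : 0 < a) (hab : a ≤ b) :
    Tendsto (fun n : ℕ => GN V (d n) * ((((Finset.range n).filter fun i => a * (2 * d n) ^ (-V) < mz (d n) (y i) ∧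
      mz (d n) (y i) ≤ b * (2 * d n) ^ (-V)).card : ℝ) / n))
      atTop (𝓝 (k * ∫ u in (Real.log a)..(Real.log b), Real.exp (-(2 * V * u)))) := by
  classical
  have hb : 0 < b := ha.trans_le hab
  have hlab : Real.log a ≤ Real.log b := Real.log_le_log ha hab
  obtain ⟨h, hh⟩ : ∃ h : ℝ → ℝ, h = fun x => hI a x - hI b x := ⟨_, rfl⟩
  have hind : ∀ x, h x = Set.indicator (Set.Ioc (Real.log a) (Real.log b)) (fun _ => (1:ℝ)) x := by
    intro x
    rw [hh]
    simp only
    unfold hI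
    by_cases h1 : Real.log a < x
    · by_cases h2 : Real.log b < x
      · rw [Set.indicator_of_mem (show x ∈ Set.Ioi (Real.log a) from h1), Set.indicator_of_mem (show x ∈ Set.Ioi (Real.log b) from h2),
          Set.indicator_of_notMem (fun h => absurd h.2 (not_le.2 h2)), sub_self]
      · rw [Set.indicator_of_mem (show x ∈ Set.Ioi (Real.log a) from h1), Set.indicator_of_notMem (show x ∉ Set.Ioi (Real.log b) from h2),
          Set.indicator_of_mem (show x ∈ Set.Ioc (Real.log a) (Real.log b) from ⟨h1, not_lt.1 h2⟩), sub_zero]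
    · have h2 : ¬ Real.log b < x := fun h => h1 (hlab.trans_lt h)
      rw [Set.indicator_of_notMem (show x ∉ Set.Ioi (Real.log a) from h1), Set.indicator_of_notMem (show x ∉ Set.Ioi (Real.log b) from h2),
          Set.indicator_of_notMem (fun h => h1 h.1), sub_self]
  have h01 : ∀ x, 0 ≤ h x ∧ h x ≤ 1 := by
    intro x
    rw [hind]
    exact ⟨Set.indicator_nonneg (fun _ _ => zero_le_one) _, Set.indicator_le_self' (fun _ _ => zero_le_one) _⟩
  have hbd2 : ∃ C : ℝ, ∀ x, |h x| * (1 + x ^ 2) ≤ C * Real.exp (2 * V * x) := by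
    obtain ⟨M, hM⟩ : ∃ M : ℝ, M = |Real.log a| + |Real.log b| := ⟨_, rfl⟩
    have hM0 : 0 ≤ M := by rw [hM]; positivity
    refine ⟨(1 + M ^ 2) * Real.exp (2 * |V| * M), fun x => ?_⟩
    by_cases hx : x ∈ Set.Ioc (Real.log a) (Real.log b)
    · rw [hind, Set.indicator_of_mem hx, abs_one, one_mul]
      have hxM : |x| ≤ M := by
        rw [abs_le, hM]
        constructor
        · linarith [hx.1, neg_abs_le (Real.log a), abs_nonneg (Real.log b)]
        · linarith [hx.2, le_abs_self (Real.log b), abs_nonneg (Real.log a)]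
      have h1 : x ^ 2 ≤ M ^ 2 := by
        rw [← sq_abs x]
        exact pow_le_pow_left₀ (abs_nonneg _) hxM 2
      have h2 : 1 ≤ Real.exp (2 * |V| * M) * Real.exp (2 * V * x) := by
        rw [← Real.exp_add]
        apply Real.one_le_exp
        have h3 : |V * x| ≤ |V| * M := by
          rw [abs_mul]
          exact mul_le_mul_of_nonneg_left hxM (abs_nonneg _)
        have h4 := neg_abs_le (V * x)
        nlinarith
      calc 1 + x ^ 2 ≤ (1 + M ^ 2) * 1 := by linarith
        _ ≤ (1 + M ^ 2) * (Real.exp (2 * |V| * M) * Real.exp (2 * V * x)) := mul_le_mul_of_nonneg_left h2 (by positivity)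
        _ = _ := by ring
    · rw [hind, Set.indicator_of_notMem hx, abs_zero, zero_mul]
      positivity
  have h1 := hL h {Real.log a, Real.log b} (by rw [hh]; exact (hI_meas a).sub (hI_meas b))
    (fun x hx => by
      rw [Finset.mem_insert, Finset.mem_singleton, not_or] at hx
      rw [hh]
      exact (hI_cont a x (by rw [Finset.mem_singleton]; exact hx.1)).sub (hI_cont b x (by rw [Finset.mem_singleton]; exact hx.2)))
    ⟨1, fun x => by rw [abs_of_nonneg (h01 x).1]; exact (h01 x).2⟩ hbd2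
  have e1 : ∫ x, Real.exp (-(2 * V * x)) * h x = ∫ u in (Real.log a)..(Real.log b), Real.exp (-(2 * V * u)) := by
    rw [intervalIntegral.integral_of_le hlab, ← integral_indicator measurableSet_Ioc]
    refine integral_congr_ae (Eventually.of_forall fun x => ?_)
    simp only
    rw [hind]
    by_cases hx : x ∈ Set.Ioc (Real.log a) (Real.log b)
    · rw [Set.indicator_of_mem hx, Set.indicator_of_mem hx, mul_one]
    · rw [Set.indicator_of_notMem hx, Set.indicator_of_notMem hx, mul_zero]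
  rw [e1] at h1
  refine law_count hd0 hd hz h01 h1 (P := fun n t => a * (2 * d n) ^ (-V) < mz (d n) t ∧ mz (d n) t ≤ b * (2 * d n) ^ (-V)) ?_
  filter_upwards [hd0] with n a1 t ht
  have hr : 0 < (2 * d n) ^ (-V) := Real.rpow_pos_of_pos (by linarith) _
  rw [hh]
  simp only
  rw [hI_LV a1 ha ht, hI_LV a1 hb ht]
  by_cases g1 : a * (2 * d n) ^ (-V) < mz (d n) t
  · by_cases g2 : b * (2 * d n) ^ (-V) < mz (d n) t
    · rw [if_pos g1, if_pos g2, if_neg (fun h => absurd h.2 (not_le.2 g2)), sub_self]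
    · rw [if_pos g1, if_neg g2, if_pos ⟨g1, not_lt.1 g2⟩, sub_zero]
  · have g2 : ¬ b * (2 * d n) ^ (-V) < mz (d n) t := fun h => g1 ((mul_le_mul_of_nonneg_right hab hr.le).trans_lt h)
    rw [if_neg g1, if_neg g2, if_neg (fun h => g1 h.1), sub_self]

/-- small values -/
lemma law_small {d y : ℕ → ℝ} {V k : ℝ} (hd0 : ∀ᶠ N in atTop, 0 < d N) (hd : Tendsto d atTop (𝓝 0)) (hz : Zf d y V)
    (hL : Law d y V k) (hV : V < 0) {c : ℝ} (hc : 0 < c) :
    Tendsto (fun n : ℕ => GN V (d n) * ((((Finset.range n).filter fun i => mz (d n) (y i) < c * (2 * d n) ^ (-V)).card : ℝ) / n))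
      atTop (𝓝 (k * (c ^ (-(2 * V)) / (-(2 * V))))) := by
  classical
  obtain ⟨h, hh⟩ : ∃ h : ℝ → ℝ, h = fun x => hI (c⁻¹) (-x) := ⟨_, rfl⟩
  have hVn : 0 < -V := by linarith
  obtain ⟨C, hC⟩ := hI_bd2 (c⁻¹) hVn
  have hm : Measurable h := by rw [hh]; exact (hI_meas _).comp measurable_neg
  have hcn : ∀ x, x ∉ ({Real.log c} : Finset ℝ) → ContinuousAt h x := by
    intro x hx
    rw [Finset.mem_singleton] at hx
    rw [hh]
    have h1 : ContinuousAt (hI (c⁻¹)) (-x) := by
      refine hI_cont _ _ ?_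
      rw [Finset.mem_singleton, Real.log_inv]
      intro h0
      exact hx (neg_injective h0)
    exact ContinuousAt.comp (f := fun x : ℝ => -x) h1 continuous_neg.continuousAt
  have h1 := hL h {Real.log c} hm hcn ⟨1, fun x => by
    rw [hh]
    simp only
    rw [abs_of_nonneg (hI_nonneg _ _)]
    exact hI_le _ _⟩ ⟨C, fun x => by
      have := hC (-x)
      rw [hh]
      simp only
      have e1 : (-x) ^ 2 = x ^ 2 := by ring
      have e2 : 2 * -V * -x = 2 * V * x := by ring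
      rwa [e1, e2] at this⟩
  have e1 : ∫ x, Real.exp (-(2 * V * x)) * h x = c ^ (-(2 * V)) / (-(2 * V)) := by
    have h2 := hI_int (inv_pos.2 hc) hVn
    have h3 : ∫ x, Real.exp (-(2 * V * x)) * h x = ∫ x, Real.exp (-(2 * -V * x)) * hI (c⁻¹) x := by
      rw [← integral_neg_eq_self]
      refine integral_congr_ae (Eventually.of_forall fun x => ?_)
      rw [hh]
      simp only [neg_neg]
      congr 2
      ring
    rw [h3, h2]
    rw [Real.inv_rpow hc.le, ← Real.rpow_neg hc.le]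
    congr 1
    · congr 1
      ring
    · ring
  rw [e1] at h1
  refine law_count hd0 hd hz (h := h) (fun x => by rw [hh]; exact ⟨hI_nonneg _ _, hI_le _ _⟩) h1
    (P := fun n t => mz (d n) t < c * (2 * d n) ^ (-V)) ?_
  filter_upwards [hd0] with n a1 t ht
  have hpos : 0 < mz (d n) t := lt_of_le_of_ne (norm_nonneg _) (Ne.symm ht)
  have e : LV V (d n) t = Real.log (mz (d n) t) - V * Real.log (1 / (2 * d n)) := rfl
  rw [hh]
  simp only
  unfold hI
  rw [e, lev_eq a1 hc]
  by_cases hlt : mz (d n) t < Real.exp (Real.log c + V * Real.log (1 / (2 * d n)))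
  · rw [if_pos hlt, Set.indicator_of_mem]
    rw [Set.mem_Ioi, Real.log_inv]
    have := (Real.log_lt_iff_lt_exp hpos).2 hlt
    linarith
  · rw [if_neg hlt, Set.indicator_of_notMem]
    rw [Set.mem_Ioi, Real.log_inv, not_lt]
    have := (Real.le_log_iff_exp_le hpos).2 (not_lt.1 hlt)
    linarith

lemma GN_le2 (V : ℝ) {δ : ℝ} (a2 : 0 < δ) (a3 : δ ≤ 1 / 16) : GN V δ ≤ δ ^ (-(V ^ 2 + 2)) := by
  have h2δ : 0 < 2 * δ := by linarith
  have e : -(V ^ 2 + 2) = -2 + -(V ^ 2) := by ring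
  rw [e, Real.rpow_add a2]
  unfold GN
  refine mul_le_mul ?_ ?_ (Real.rpow_nonneg h2δ.le _) (Real.rpow_nonneg a2.le _)
  · -- the square root
    have g1 : Real.log (1 / (2 * δ)) ≤ 1 / (2 * δ) := (Real.log_le_sub_one_of_pos (by positivity)).trans (by linarith)
    have g2 : Real.pi * Real.log (1 / (2 * δ)) ≤ (1 / δ) ^ 2 := by
      have h3 := Real.pi_le_four
      have h4 : (1:ℝ) / (2 * δ) = (1 / 2) * (1 / δ) := by field_simp
      have h5 : 16 ≤ 1 / δ := by rw [le_div_iff₀ a2]; linarith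
      have h6 : 0 ≤ Real.log (1 / (2 * δ)) := Real.log_nonneg (by rw [h4]; linarith)
      nlinarith [Real.pi_pos]
    calc Real.sqrt (Real.pi * Real.log (1 / (2 * δ))) ≤ Real.sqrt ((1 / δ) ^ 2) := Real.sqrt_le_sqrt g2
      _ = 1 / δ := Real.sqrt_sq (by positivity)
      _ ≤ δ ^ (-2:ℝ) := by
          rw [Real.rpow_neg a2.le, one_div]
          refine inv_anti₀ (by positivity) ?_
          rw [Real.rpow_two]
          nlinarith
  · exact Real.rpow_le_rpow_of_nonpos a2 (by linarith) (by nlinarith [sq_nonneg V])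

/-- zeros are rare at separated points -/
lemma zf_of (hR : S_CRED) {x : ℕ → ℝ} (hx : Function.Injective x) {X δ : ℕ → ℝ} (hd : AdN X δ) {E : ℕ} {I : ℕ → Finset ℕ}
    (hE : ∀ n, (Finset.range n \ I n).card ≤ E) {D' : ℝ}
    (hX : ∀ᶠ n : ℕ in atTop, X n ≤ n * δ n ^ (-D')) {c : ℝ} (hc : 0 < c) (hS : ∀ᶠ n in atTop, Sep c (X n) ((I n).image x))
    (V : ℝ) : Zf δ x V := by
  classical
  have hlt : ∀ᶠ n in atTop, δ n ≤ 1 / 16 := hd.t0.eventually_le_const (by norm_num)
  obtain ⟨D, hD⟩ : ∃ D, D = V ^ 2 + 3 + |D'| := ⟨_, rfl⟩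
  have hD0 : 0 < D := by rw [hD]; positivity
  have hEv := AdN.app (hR c 1 D hc one_pos hD0 1 one_pos) hd
  have hnX : ∀ᶠ n : ℕ in atTop, X n ^ (1 / 2 : ℝ) ≤ n := by
    have h1 := AdN.app (Ev.win (D := |D'|) (c := 1) (e := 1 / 2) one_pos (by norm_num)) hd
    filter_upwards [h1, hX, hd.pos, hlt, hd.X0.eventually_ge_atTop 1, eventually_ge_atTop 1] with n a1 a2 a3 a4 a5 a6
    have hX0 : 0 < X n := by linarith
    have h2 : δ n ^ (-D') ≤ X n ^ (1 / 2 : ℝ) := by
      refine le_trans ?_ (a1.trans (le_of_eq (one_mul _)))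
      exact Real.rpow_le_rpow_of_exponent_ge a3 (by linarith) (neg_le_neg (le_abs_self _))
    have h3 : X n ≤ n * X n ^ (1 / 2 : ℝ) := a2.trans (mul_le_mul_of_nonneg_left h2 (Nat.cast_nonneg _))
    have h4 : X n = X n ^ (1 / 2 : ℝ) * X n ^ (1 / 2 : ℝ) := by
      rw [← Real.rpow_add hX0]; norm_num
    have h5 : 0 < X n ^ (1 / 2 : ℝ) := Real.rpow_pos_of_pos hX0 _
    by_contra hcon
    push Not at hcon
    have h6 := mul_lt_mul_of_pos_right hcon h5
    linarith
  have hlim : Tendsto (fun n => (E:ℝ) * X n ^ (-(1 / 4) : ℝ) + δ n) atTop (𝓝 0) := by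
    have := ((pow_small hd.X0 (show (0:ℝ) < 1 / 4 by norm_num)).const_mul (E:ℝ)).add hd.t0
    simpa using this
  refine squeeze_zero_norm' ?_ hlim
  filter_upwards [hEv, hS, hX, hnX, GN_le hd V, hd.pos, hlt, hd.X0.eventually_ge_atTop 1, eventually_ge_atTop 1]
    with n ⟨y, K, _, _, _, _, hG'⟩ a1 a2 a3 ⟨b1, b2⟩ a5 a6 a7 a8
  obtain ⟨G, hGS, hGc, hGz, -⟩ := hG' _ a1
  have hX0 : 0 < X n := by linarith
  have hnR : (0:ℝ) < n := by exact_mod_cast a8
  have hcount : (((Finset.range n).filter fun i => mz (δ n) (x i) = 0).card : ℝ) ≤ E + δ n ^ D * X n := by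
    have h1 : ((Finset.range n).filter fun i => mz (δ n) (x i) = 0).card ≤ (Finset.range n \ I n).card +
        ((I n).image x \ G).card := by
      have h2 : (Finset.range n).filter (fun i => mz (δ n) (x i) = 0) ⊆ (Finset.range n \ I n) ∪
          (I n).filter (fun i => x i ∉ G) := by
        intro i hi
        rw [Finset.mem_filter] at hi
        rw [Finset.mem_union, Finset.mem_sdiff, Finset.mem_filter]
        by_cases h3 : i ∈ I n
        · right
          refine ⟨h3, fun h4 => hGz _ h4 ?_⟩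
          exact norm_eq_zero.1 hi.2
        · exact Or.inl ⟨hi.1, h3⟩
      refine (Finset.card_le_card h2).trans ((Finset.card_union_le _ _).trans (Nat.add_le_add_left ?_ _))
      rw [← Finset.card_image_of_injective _ hx]
      refine Finset.card_le_card fun t ht => ?_
      obtain ⟨i, hi, rfl⟩ := Finset.mem_image.1 ht
      rw [Finset.mem_filter] at hi
      exact Finset.mem_sdiff.2 ⟨Finset.mem_image_of_mem _ hi.1, hi.2⟩
    have h3 : (((Finset.range n).filter fun i => mz (δ n) (x i) = 0).card : ℝ) ≤ ((Finset.range n \ I n).card : ℝ) +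
        (((I n).image x \ G).card : ℝ) := by exact_mod_cast h1
    have h4 : ((Finset.range n \ I n).card : ℝ) ≤ E := by exact_mod_cast hE n
    linarith
  have hc0 : (0:ℝ) ≤ (((Finset.range n).filter fun i => mz (δ n) (x i) = 0).card : ℝ) := Nat.cast_nonneg _
  rw [norm_mul, norm_mul, Real.norm_of_nonneg b1, Real.norm_of_nonneg (by positivity : (0:ℝ) ≤ 1 / n), Real.norm_of_nonneg hc0]
  have hX2 : 0 < X n ^ (1 / 2 : ℝ) := Real.rpow_pos_of_pos hX0 _
  have t1 : GN V (δ n) * (1 / (n:ℝ) * E) ≤ E * X n ^ (-(1 / 4) : ℝ) := by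
    calc GN V (δ n) * (1 / (n:ℝ) * E) ≤ X n ^ (1 / 4 : ℝ) * (1 / X n ^ (1 / 2 : ℝ) * E) := by
          refine mul_le_mul b2 (mul_le_mul_of_nonneg_right (one_div_le_one_div_of_le hX2 a3) (Nat.cast_nonneg _)) (by positivity)
            (Real.rpow_nonneg hX0.le _)
      _ = E * (X n ^ (1 / 4 : ℝ) / X n ^ (1 / 2 : ℝ)) := by ring
      _ = E * X n ^ (-(1 / 4) : ℝ) := by
          rw [← Real.rpow_sub hX0]
          norm_num
  have t2 : GN V (δ n) * (1 / (n:ℝ) * (δ n ^ D * X n)) ≤ δ n := by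
    have h1 := GN_le2 V a5 a6
    have h2 : X n ≤ n * δ n ^ (-|D'|) := a2.trans (mul_le_mul_of_nonneg_left
      (Real.rpow_le_rpow_of_exponent_ge a5 (by linarith) (neg_le_neg (le_abs_self _))) hnR.le)
    have hδD : 0 < δ n ^ D := Real.rpow_pos_of_pos a5 _
    calc GN V (δ n) * (1 / (n:ℝ) * (δ n ^ D * X n)) ≤ δ n ^ (-(V ^ 2 + 2)) * (1 / (n:ℝ) * (δ n ^ D * (n * δ n ^ (-|D'|)))) := by
          refine mul_le_mul h1 ?_ (by positivity) (Real.rpow_nonneg a5.le _)
          exact mul_le_mul_of_nonneg_left (mul_le_mul_of_nonneg_left h2 hδD.le) (by positivity)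
      _ = δ n ^ (-(V ^ 2 + 2)) * δ n ^ D * δ n ^ (-|D'|) := by field_simp
      _ = δ n := by
          rw [← Real.rpow_add a5, ← Real.rpow_add a5, hD]
          have : -(V ^ 2 + 2) + (V ^ 2 + 3 + |D'|) + -|D'| = 1 := by ring
          rw [this, Real.rpow_one]
  calc GN V (δ n) * (1 / (n:ℝ) * (((Finset.range n).filter fun i => mz (δ n) (x i) = 0).card : ℝ))
      ≤ GN V (δ n) * (1 / (n:ℝ) * (E + δ n ^ D * X n)) :=
        mul_le_mul_of_nonneg_left (mul_le_mul_of_nonneg_left hcount (by positivity)) b1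
    _ = GN V (δ n) * (1 / (n:ℝ) * E) + GN V (δ n) * (1 / (n:ℝ) * (δ n ^ D * X n)) := by ring
    _ ≤ _ := add_le_add t1 t2

end Run7.h310.SQ
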