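import Pool.Agent.Run7.h310.SQ.G1

set_option autoImplicit false

/-! # Project SQ: the law of `log |ζ|` along progressions for all real exponents, truncated moments below the critical level -/

namespace Run7.h310.SQ

open Finset Filter MeasureTheory Topology Complex
open Pool.Agent.N748.MG Run7.h310.SP

lemma LFc_tendsto (s : ℂ) {p : ℕ} (hp : p.Prime) (u v : ℕ) :
    Tendsto (fun δ : ℝ => LFc s δ p u v) (𝓝[>] 0) (𝓝 (LFc s 0 p u v)) := by
  have hR : 0 < ‖s‖ + 1 := by positivity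
  have h1 : Tendsto (fun δ : ℝ => LF (‖s‖ + 1) 0 p u v - LF (‖s‖ + 1) δ p u v) (𝓝[>] 0) (𝓝 0) := by
    have := (tendsto_const_nhds (x := LF (‖s‖ + 1) 0 p u v)).sub (LF_tendsto hR hp u v)
    rwa [sub_self] at this
  have h2 : Tendsto (fun δ : ℝ => LFc s δ p u v - LFc s 0 p u v) (𝓝[>] 0) (𝓝 0) := by
    refine squeeze_zero_norm' ?_ h1
    filter_upwards [self_mem_nhdsWithin] with δ hδ
    exact LFc_sub_le hR (by linarith) (le_of_lt hδ) hp u v
  have h3 := h2.add_const (LFc s 0 p u v)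
  simpa using h3

lemma LF_zero_pos (V : ℝ) {p : ℕ} (hp : p.Prime) : 0 < LF V 0 p 0 0 := by
  have hR : 0 < |V| + 1 := by positivity
  have h1 := ltc_summable (s := (V:ℂ)) hR (by rw [Complex.norm_real, Real.norm_eq_abs]; linarith) (le_refl (0:ℝ)) hp 0 0
  have h2 : Summable fun m : ℕ => CON.lR V (m + 0) * CON.lR V (m + 0) * (wN 0 (p ^ (m + 0)) * wN 0 (p ^ (m + 0))) := by
    have h3 : (fun m : ℕ => lC (V:ℂ) (m + 0) * lC (V:ℂ) (m + 0) * ((wN 0 (p ^ (m + 0)) * wN 0 (p ^ (m + 0)) : ℝ) : ℂ)) =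
        fun m : ℕ => ((CON.lR V (m + 0) * CON.lR V (m + 0) * (wN 0 (p ^ (m + 0)) * wN 0 (p ^ (m + 0))) : ℝ) : ℂ) := by
      funext m
      rw [CON.lC_ofReal]
      push_cast
      ring
    rw [h3] at h1
    exact Complex.summable_ofReal.1 h1
  have h4 : ∀ m : ℕ, 0 ≤ CON.lR V (m + 0) * CON.lR V (m + 0) * (wN 0 (p ^ (m + 0)) * wN 0 (p ^ (m + 0))) := fun m =>
    mul_nonneg (mul_self_nonneg _) (mul_self_nonneg _)
  have h5 := h2.le_tsum 0 fun m _ => h4 m
  have h6 : CON.lR V (0 + 0) * CON.lR V (0 + 0) * (wN 0 (p ^ (0 + 0)) * wN 0 (p ^ (0 + 0))) = 1 := by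
    rw [add_zero, pow_zero, wN_one]
    unfold CON.lR
    simp
  unfold LF
  linarith

/-- the value of the limit for all real exponents -/
lemma aTf_val {a b : ℕ} (ha : 1 ≤ a) (hb : 1 ≤ b) (hab : Nat.Coprime a b) (V : ℝ) :
    aTf a b V = (((aC V).re * tw V a b : ℝ) : ℂ) := by
  obtain ⟨P, hPd⟩ : ∃ P : Finset ℕ, P = (a * b).primeFactors := ⟨_, rfl⟩
  have hP : ∀ p ∈ P, p.Prime := fun p hp => by rw [hPd] at hp; exact Nat.prime_of_mem_primeFactors hp
  have lim : ∀ {a b : ℕ}, 1 ≤ a → 1 ≤ b → Nat.Coprime a b →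
      Tendsto (fun δ : ℝ => ((2 * δ : ℝ) : ℂ) ^ ((V:ℂ) ^ 2) * TC V δ a b) (𝓝[>] 0) (𝓝 (aTf a b V)) := by
    intro a b ha hb hab
    rw [Metric.tendsto_nhdsWithin_nhds]
    intro ε hε
    obtain ⟨δ0, hδ0, h⟩ := (aTf_spec ha hb hab).2.2 (|V| + 1) (ε / 2) (by positivity) (by positivity)
    refine ⟨δ0, hδ0, fun δ hδ hd => ?_⟩
    have hδ' : (0:ℝ) < δ := hδ
    rw [dist_zero_right, Real.norm_of_nonneg hδ'.le] at hd
    have h1 := h δ hδ' hd.le (V:ℂ) (by rw [Complex.norm_real, Real.norm_eq_abs]; linarith)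
    rw [dist_eq_norm]
    linarith
  have l1 := (lim ha hb hab).mul (tendsto_finsetProd P fun p hp => LFc_tendsto (V:ℂ) (hP p hp) 0 0)
  have l2 := (lim (a := 1) (b := 1) le_rfl le_rfl (Nat.coprime_one_left 1)).mul
    (tendsto_finsetProd P fun p hp => LFc_tendsto (V:ℂ) (hP p hp) (a.factorization p) (b.factorization p))
  have l3 : Tendsto (fun δ : ℝ => ((2 * δ : ℝ) : ℂ) ^ ((V:ℂ) ^ 2) * TC V δ a b * ∏ p ∈ P, LFc (V:ℂ) δ p 0 0) (𝓝[>] 0)
      (𝓝 (aTf 1 1 V * ∏ p ∈ P, LFc (V:ℂ) 0 p (a.factorization p) (b.factorization p))) := by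
    refine l2.congr' ?_
    filter_upwards [self_mem_nhdsWithin] with δ hδ
    have hδ' : (0:ℝ) < δ := hδ
    have e1 := TC_prod (V:ℂ) hδ' ha hb
    have e2 := SPc_mul hP (V:ℂ) hδ'
    rw [← hPd] at e1
    rw [e1, ← e2]
    ring
  have key := tendsto_nhds_unique l1 l3
  rw [aTf_real] at key
  have e3 : ∏ p ∈ P, LFc (V:ℂ) 0 p 0 0 = ((∏ p ∈ P, LF V 0 p 0 0 : ℝ) : ℂ) := by
    rw [Complex.ofReal_prod]
    exact Finset.prod_congr rfl fun p _ => LFc_real V 0 p 0 0
  have e4 : ∏ p ∈ P, LFc (V:ℂ) 0 p (a.factorization p) (b.factorization p) =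
      ((∏ p ∈ P, LF V 0 p (a.factorization p) (b.factorization p) : ℝ) : ℂ) := by
    rw [Complex.ofReal_prod]
    exact Finset.prod_congr rfl fun p _ => LFc_real V 0 p _ _
  rw [e3, e4] at key
  have h0 : 0 < ∏ p ∈ P, LF V 0 p 0 0 := Finset.prod_pos fun p hp => LF_zero_pos V (hP p hp)
  have h0c : ((∏ p ∈ P, LF V 0 p 0 0 : ℝ) : ℂ) ≠ 0 := by exact_mod_cast h0.ne'
  have e5 : tw V a b = (∏ p ∈ P, LF V 0 p (a.factorization p) (b.factorization p)) / ∏ p ∈ P, LF V 0 p 0 0 := by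
    unfold tw
    rw [← hPd, Finset.prod_div_distrib]
  rw [eq_div_of_mul_eq h0c key, e5, ← Complex.ofReal_mul, ← Complex.ofReal_div, mul_div_assoc]

lemma AAP_all {α : ℝ} (β V : ℝ) : AAP α β V = (((aC V).re * cAP V α β : ℝ) : ℂ) := by
  unfold AAP cAP
  rw [← tsum_mul_left, Complex.ofReal_tsum]
  refine tsum_congr fun j => ?_
  rcases resC_cases α j with ⟨a, b, ha, hb, hab, hj, h1, h2⟩ | ⟨-, h1, h2⟩
  · rw [h1, h2, aTf_val ha hb hab V]
    push_cast
    ring
  · rw [h1, h2]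
    simp

/-- the resonance series converges absolutely for all real exponents -/
lemma res_summable_all (V : ℝ) {α : ℝ} (hα : 0 < α) (β : ℝ) :
    Summable fun j : ℤ => res V α j * Real.cos (2 * Real.pi * j * β / α) := by
  obtain ⟨C, hC, h⟩ := resC_bd (R := |V| + 1) (by positivity)
  obtain ⟨r, hr, hrV⟩ := CON.real_pos V
  have h1 : Summable fun j : ℤ => r⁻¹ * (C * Real.exp (-(Real.pi / (4 * α) * |(j:ℝ)|))) :=
    ((exp_abs_summable (div_pos Real.pi_pos (by linarith))).mul_left C).mul_left _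
  refine Summable.of_norm_bounded h1 fun j => ?_
  have h2 := h α hα j (V:ℂ) (by rw [Complex.norm_real, Real.norm_eq_abs]; linarith)
  have h3 : resC α j V = ((r * res V α j : ℝ) : ℂ) := by
    rcases resC_cases α j with ⟨a, b, ha, hb, hab, hj, g1, g2⟩ | ⟨-, g1, g2⟩
    · rw [g1, g2, aTf_val ha hb hab V, hrV, Complex.ofReal_re]
    · rw [g1, g2]
      simp
  rw [h3, Complex.norm_real, Real.norm_eq_abs, abs_mul, abs_of_pos hr] at h2
  rw [Real.norm_eq_abs, abs_mul]
  have h4 : |res V α j| ≤ r⁻¹ * (C * Real.exp (-(Real.pi / (4 * α) * |(j:ℝ)|))) := by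
    rw [inv_mul_eq_div, le_div_iff₀ hr]
    linarith
  exact (mul_le_of_le_one_right (abs_nonneg _) (Real.abs_cos_le_one _)).trans h4

/-- the law along every vertical arithmetic progression -/
theorem ap_law (hC : S_CTW) (hR : S_CRED) {α : ℝ} (hα : 0 < α) (β : ℝ) {d : ℕ → ℝ} (hd0 : ∀ᶠ n in atTop, 0 < d n)
    (hd : Tendsto d atTop (𝓝 0))
    (hdL : Tendsto (fun n : ℕ => d n * Real.log n / Real.log (1 / d n) ^ 2) atTop atTop) (V : ℝ) :
    Law d (fun i => α * i + β) V ((aC V).re * cAP V α β) ∧ Zf d (fun i => α * i + β) V := by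
  obtain ⟨i0, hi0⟩ := exists_nat_ge ((1 - β) / α)
  rw [div_le_iff₀ hα] at hi0
  obtain ⟨X, hX⟩ : ∃ X : ℕ → ℝ, X = fun n : ℕ => α * n + |β| + 1 := ⟨_, rfl⟩
  have hn : Tendsto (fun n : ℕ => (n:ℝ)) atTop atTop := tendsto_natCast_atTop_atTop
  have hAd : AdN X d := by
    refine adN_of hd0 hd hdL hα (Eventually.of_forall fun n => ?_)
    rw [hX]
    simp only
    have := abs_nonneg β
    linarith
  have hlt : ∀ᶠ n in atTop, d n ≤ 1 / 16 := hd.eventually_le_const (by norm_num)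
  have hXn : ∀ᶠ n : ℕ in atTop, X n ≤ 2 * α * n := by
    filter_upwards [hn.eventually_ge_atTop ((|β| + 1) / α)] with n h1
    rw [div_le_iff₀ hα] at h1
    rw [hX]
    simp only
    linarith
  have hcard : ∀ᶠ n in atTop, 1 / (4 * α) * X n ≤ (SA α β i0 n).card := by
    filter_upwards [hXn, eventually_ge_atTop (2 * i0)] with n h1 h2
    rw [SA_card hα, Nat.cast_sub (by omega)]
    have h3 : (2:ℝ) * i0 ≤ n := by exact_mod_cast h2
    calc 1 / (4 * α) * X n ≤ 1 / (4 * α) * (2 * α * n) := mul_le_mul_of_nonneg_left h1 (by positivity)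
      _ = n / 2 := by field_simp; norm_num
      _ ≤ n - i0 := by linarith
  have hS : ∀ᶠ n in atTop, Sep α (X n) (SA α β i0 n) := by
    refine Eventually.of_forall fun n => ⟨?_, ?_, ?_⟩
    · intro s hs
      obtain ⟨i, hi, rfl⟩ := Finset.mem_image.1 hs
      rw [Finset.mem_Ico] at hi
      have : (i0:ℝ) ≤ i := by exact_mod_cast hi.1
      nlinarith
    · intro s hs
      obtain ⟨i, hi, rfl⟩ := Finset.mem_image.1 hs
      rw [Finset.mem_Ico] at hi
      have h1 : (i:ℝ) ≤ n := by exact_mod_cast hi.2.le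
      have h2 := le_abs_self β
      rw [hX]
      simp only
      nlinarith
    · intro s hs s' hs' hne
      obtain ⟨i, hi, rfl⟩ := Finset.mem_image.1 hs
      obtain ⟨i', hi', rfl⟩ := Finset.mem_image.1 hs'
      have hii : (i:ℤ) ≠ i' := by
        intro h0
        apply hne
        have : i = i' := by exact_mod_cast h0
        rw [this]
      have h1 : (1:ℝ) ≤ |(i:ℝ) - i'| := by
        have : (1:ℤ) ≤ |(i:ℤ) - i'| := Int.one_le_abs (sub_ne_zero.2 hii)
        exact_mod_cast this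
      have e : α * (i:ℝ) + β - (α * i' + β) = α * (i - i') := by ring
      rw [e, abs_mul, abs_of_pos hα]
      nlinarith
  have hcard2 : ∀ᶠ n in atTop, d n ^ (1:ℝ) * X n ≤ (SA α β i0 n).card := by
    filter_upwards [hcard, hd.eventually_le_const (show (0:ℝ) < 1 / (4 * α) by positivity),
      hAd.X0.eventually_ge_atTop 0] with n h1 h2 h3
    rw [Real.rpow_one]
    exact (mul_le_mul_of_nonneg_right h2 h3).trans h1
  have hE : ∀ n, (Finset.range n \ Finset.Ico i0 n).card ≤ i0 := by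
    intro n
    refine (Finset.card_le_card (t := Finset.range i0) ?_).trans (by rw [Finset.card_range])
    intro i hi
    rw [Finset.mem_sdiff, Finset.mem_range, Finset.mem_Ico, not_and] at hi
    rw [Finset.mem_range]
    by_contra hcon
    exact hi.2 (not_lt.1 hcon) hi.1
  have hXD : ∀ᶠ n : ℕ in atTop, X n ≤ n * d n ^ (-(1:ℝ)) := by
    have h1 : ∀ᶠ n in atTop, d n ≤ 1 / (2 * α) := hd.eventually_le_const (by positivity)
    filter_upwards [hXn, h1, hd0] with n a1 a2 a3
    rw [Real.rpow_neg a3.le, Real.rpow_one]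
    refine a1.trans ?_
    rw [le_div_iff₀ (by positivity)] at a2
    have h2 : 2 * α ≤ (d n)⁻¹ := by
      rw [← one_div, le_div_iff₀ a3]
      linarith
    calc 2 * α * n = n * (2 * α) := by ring
      _ ≤ n * (d n)⁻¹ := mul_le_mul_of_nonneg_left h2 (Nat.cast_nonneg _)
  refine ⟨?_, zf_of hR (SA_inj hα β) hAd (E := i0) (I := fun n => Finset.Ico i0 n) hE hXD hα hS V⟩
  intro h S0 hm hcc hb1 hb2
  have key := samp_ld hC hR hAd hα hS hcard2 (AAP_cont hα β) (aTf_real V) (AAP_all β V)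
    (qfc_ap hAd hα β i0 (by positivity) hcard) h S0 hm hcc hb1 hb2
  obtain ⟨C, hCb⟩ := hb1
  refine HI_of (SA_inj hα β) hAd (E := i0) (I := fun n => Finset.Ico i0 n) ?_ hE (D' := 1) hXD hCb key
  intro n i hi
  rw [Finset.mem_Ico] at hi
  exact Finset.mem_range.2 hi.2

/-! ### truncated moments below the critical level -/

/-- a general comparison: functions which agree except at the zeros -/
lemma law_gen {d y : ℕ → ℝ} {V L C : ℝ} (hd0 : ∀ᶠ N in atTop, 0 < d N) (hz : Zf d y V) {h : ℝ → ℝ} (hC : ∀ x, |h x| ≤ C)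
    (hl : Tendsto (fun n : ℕ => GN V (d n) * ((1 / (n : ℝ)) * ∑ i ∈ Finset.range n, h (LV V (d n) (y i)))) atTop (𝓝 L))
    {g : ℕ → ℝ → ℝ} (hg : ∀ᶠ n in atTop, ∀ t, |g n t| ≤ C)
    (hgh : ∀ᶠ n in atTop, ∀ t, mz (d n) t ≠ 0 → g n t = h (LV V (d n) t)) :
    Tendsto (fun n : ℕ => GN V (d n) * ((1 / (n : ℝ)) * ∑ i ∈ Finset.range n, g n (y i))) atTop (𝓝 L) := by
  classical
  have h1 : Tendsto (fun n : ℕ => GN V (d n) * ((1 / (n : ℝ)) * ∑ i ∈ Finset.range n, g n (y i)) -
      GN V (d n) * ((1 / (n : ℝ)) * ∑ i ∈ Finset.range n, h (LV V (d n) (y i)))) atTop (𝓝 0) := by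
    have hz2 : Tendsto (fun n : ℕ => 2 * C * (GN V (d n) * ((1 / (n : ℝ)) *
        (((Finset.range n).filter fun i => mz (d n) (y i) = 0).card : ℝ)))) atTop (𝓝 0) := by
      have := hz.const_mul (2 * C)
      rwa [mul_zero] at this
    refine squeeze_zero_norm' ?_ hz2
    filter_upwards [hg, hgh, hd0] with n a0 a1 a2
    have hG0 : 0 ≤ GN V (d n) := mul_nonneg (Real.sqrt_nonneg _) (Real.rpow_nonneg (by linarith) _)
    have e2 : GN V (d n) * ((1 / (n : ℝ)) * ∑ i ∈ Finset.range n, g n (y i)) -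
      GN V (d n) * ((1 / (n : ℝ)) * ∑ i ∈ Finset.range n, h (LV V (d n) (y i))) =
      GN V (d n) * ((1 / (n : ℝ)) * ∑ i ∈ Finset.range n, (g n (y i) - h (LV V (d n) (y i)))) := by
      rw [Finset.sum_sub_distrib]
      ring
    have e3 : 2 * C * (GN V (d n) * ((1 / (n : ℝ)) * (((Finset.range n).filter fun i => mz (d n) (y i) = 0).card : ℝ))) =
        GN V (d n) * ((1 / (n : ℝ)) * (2 * C * (((Finset.range n).filter fun i => mz (d n) (y i) = 0).card : ℝ))) := by ring
    rw [e2, e3, norm_mul, norm_mul, Real.norm_of_nonneg hG0, Real.norm_of_nonneg (by positivity : (0:ℝ) ≤ 1 / n)]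
    refine mul_le_mul_of_nonneg_left (mul_le_mul_of_nonneg_left ?_ (by positivity)) hG0
    refine (norm_sum_le _ _).trans ?_
    rw [Finset.card_filter]
    push_cast
    rw [Finset.mul_sum]
    refine Finset.sum_le_sum fun i _ => ?_
    by_cases hzi : mz (d n) (y i) = 0
    · rw [if_pos hzi, Real.norm_eq_abs]
      refine (abs_sub _ _).trans ?_
      have b1 := a0 (y i)
      have b2 := hC (LV V (d n) (y i))
      linarith
    · rw [if_neg hzi, a1 (y i) hzi, sub_self, norm_zero, mul_zero]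
  have h2 := h1.add hl
  rw [zero_add] at h2
  refine h2.congr fun n => ?_
  ring

/-- the truncated moments below the critical level are carried by the values near the level -/
lemma law_frozen {d y : ℕ → ℝ} {V k κ : ℝ} (hd0 : ∀ᶠ N in atTop, 0 < d N) (hz : Zf d y V)
    (hL : Law d y V k) (hκ : 0 < κ) (hV : V < κ) {c : ℝ} (hc : 0 < c) :
    Tendsto (fun n : ℕ => GN V (d n) * ((2 * d n) ^ (2 * κ * V) * MI κ (c * (2 * d n) ^ (-V)) (d n) y n)) atTop
      (𝓝 (k * (c ^ (2 * (κ - V)) / (2 * (κ - V))))) := by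
  classical
  obtain ⟨l, hl⟩ : ∃ l, l = Real.log c := ⟨_, rfl⟩
  obtain ⟨h, hh⟩ : ∃ h : ℝ → ℝ, h = fun x => Real.exp (2 * κ * x) * (1 - hI c x) := ⟨_, rfl⟩
  have hI1 : ∀ x, x ≤ l → hI c x = 0 := by
    intro x hx
    unfold hI
    rw [Set.indicator_of_notMem]
    rw [Set.mem_Ioi, ← hl]
    exact not_lt.2 hx
  have hI2 : ∀ x, l < x → hI c x = 1 := by
    intro x hx
    unfold hI
    rw [Set.indicator_of_mem]
    rw [Set.mem_Ioi, ← hl]
    exact hx
  have hhv : ∀ x, h x = Set.indicator (Set.Iic l) (fun x => Real.exp (2 * κ * x)) x := by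
    intro x
    rw [hh]
    simp only
    by_cases hx : x ≤ l
    · rw [hI1 x hx, Set.indicator_of_mem (show x ∈ Set.Iic l from hx)]
      ring
    · rw [hI2 x (not_le.1 hx), Set.indicator_of_notMem (show x ∉ Set.Iic l from hx)]
      ring
  have hpw : ∀ e : ℝ, Real.exp (e * l) = c ^ e := by
    intro e
    rw [Real.rpow_def_of_pos hc, hl, mul_comm]
  have hb : ∀ x, |h x| ≤ c ^ (2 * κ) := by
    intro x
    rw [hhv]
    by_cases hx : x ≤ l
    · rw [Set.indicator_of_mem (show x ∈ Set.Iic l from hx), abs_of_pos (Real.exp_pos _), ← hpw]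
      exact Real.exp_le_exp.2 (mul_le_mul_of_nonneg_left hx (by positivity))
    · rw [Set.indicator_of_notMem (show x ∉ Set.Iic l from hx), abs_zero]
      positivity
  have hb2 : ∃ C : ℝ, ∀ x, |h x| * (1 + x ^ 2) ≤ C * Real.exp (2 * V * x) := by
    have hκV : 0 < κ - V := by linarith
    obtain ⟨C, hC⟩ := hI_bd2 (c⁻¹ / 2) hκV
    refine ⟨C, fun x => ?_⟩
    rw [hhv]
    by_cases hx : x ≤ l
    · rw [Set.indicator_of_mem (show x ∈ Set.Iic l from hx), abs_of_pos (Real.exp_pos _)]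
      have h1 := hC (-x)
      have h2 : hI (c⁻¹ / 2) (-x) = 1 := by
        unfold hI
        rw [Set.indicator_of_mem]
        rw [Set.mem_Ioi, Real.log_div (inv_pos.2 hc).ne' (by norm_num), Real.log_inv, ← hl]
        have := Real.log_pos (show (1:ℝ) < 2 by norm_num)
        linarith
      rw [h2, abs_one, one_mul, neg_sq] at h1
      calc Real.exp (2 * κ * x) * (1 + x ^ 2) ≤ Real.exp (2 * κ * x) * (C * Real.exp (2 * (κ - V) * -x)) :=
            mul_le_mul_of_nonneg_left h1 (Real.exp_pos _).le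
        _ = C * (Real.exp (2 * κ * x) * Real.exp (2 * (κ - V) * -x)) := by ring
        _ = C * Real.exp (2 * V * x) := by
            rw [← Real.exp_add]
            congr 2
            ring
    · rw [Set.indicator_of_notMem (show x ∉ Set.Iic l from hx), abs_zero, zero_mul]
      have h3 := hC 0
      have h4 : 0 ≤ C := by
        have h5 : 0 ≤ |hI (c⁻¹ / 2) 0| * (1 + (0:ℝ) ^ 2) := by positivity
        have h6 := h5.trans h3
        rw [mul_zero, Real.exp_zero, mul_one] at h6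
        exact h6
      exact mul_nonneg h4 (Real.exp_pos _).le
  have hmeas : Measurable h := by
    rw [hh]
    exact (Real.measurable_exp.comp (measurable_const.mul measurable_id)).mul (measurable_const.sub (hI_meas c))
  have hcont : ∀ x, x ∉ ({Real.log c} : Finset ℝ) → ContinuousAt h x := by
    intro x hx
    rw [hh]
    exact (Continuous.continuousAt (by fun_prop)).mul (continuousAt_const.sub (hI_cont c x hx))
  have h1 := hL h {Real.log c} hmeas hcont ⟨_, hb⟩ hb2
  have e1 : ∫ x, Real.exp (-(2 * V * x)) * h x = c ^ (2 * (κ - V)) / (2 * (κ - V)) := by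
    have e : ∀ x, Real.exp (-(2 * V * x)) * h x = Set.indicator (Set.Iic l) (fun x => Real.exp ((2 * (κ - V)) * x)) x := by
      intro x
      rw [hhv]
      by_cases hx : x ≤ l
      · rw [Set.indicator_of_mem (show x ∈ Set.Iic l from hx), Set.indicator_of_mem (show x ∈ Set.Iic l from hx), ← Real.exp_add]
        congr 1
        ring
      · rw [Set.indicator_of_notMem (show x ∉ Set.Iic l from hx), Set.indicator_of_notMem (show x ∉ Set.Iic l from hx), mul_zero]
    simp only [e]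
    rw [integral_indicator measurableSet_Iic, integral_exp_mul_Iic (by linarith), hpw]
  rw [e1] at h1
  -- the function of the modulus
  obtain ⟨g, hg⟩ : ∃ g : ℕ → ℝ → ℝ, g = fun n t => if mz (d n) t ≤ c * (2 * d n) ^ (-V) then
      (mz (d n) t * (2 * d n) ^ V) ^ (2 * κ) else 0 := ⟨_, rfl⟩
  have h2 := law_gen hd0 hz hb h1 (g := g) (by
    filter_upwards [hd0] with n a1 t
    have h3 : 0 < (2 * d n) ^ V := Real.rpow_pos_of_pos (by linarith) _
    have hm0 : 0 ≤ mz (d n) t := norm_nonneg _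
    rw [hg]
    simp only
    split_ifs with h4
    · rw [abs_of_nonneg (Real.rpow_nonneg (mul_nonneg hm0 h3.le) _)]
      refine Real.rpow_le_rpow (mul_nonneg hm0 h3.le) ?_ (by positivity)
      have h5 := mul_le_mul_of_nonneg_right h4 h3.le
      rw [mul_assoc, ← Real.rpow_add (by linarith), neg_add_cancel, Real.rpow_zero, mul_one] at h5
      exact h5
    · rw [abs_zero]
      positivity) (by
    filter_upwards [hd0] with n a1 t ht
    have hpos : 0 < mz (d n) t := lt_of_le_of_ne (norm_nonneg _) (Ne.symm ht)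
    have e : LV V (d n) t = Real.log (mz (d n) t) - V * Real.log (1 / (2 * d n)) := rfl
    have h3 : 0 < (2 * d n) ^ V := Real.rpow_pos_of_pos (by linarith) _
    have h4 : Real.exp (LV V (d n) t) = mz (d n) t * (2 * d n) ^ V := by
      rw [e, Real.exp_sub, Real.exp_log hpos, Real.rpow_def_of_pos (by linarith), div_eq_mul_inv, ← Real.exp_neg]
      congr 2
      rw [one_div, Real.log_inv]
      ring
    have h5 : (LV V (d n) t ≤ l) ↔ mz (d n) t ≤ c * (2 * d n) ^ (-V) := by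
      rw [lev_eq a1 hc, ← Real.log_le_iff_le_exp hpos, e, hl]
      constructor <;> intro h <;> linarith
    rw [hg, hhv]
    simp only
    by_cases h6 : mz (d n) t ≤ c * (2 * d n) ^ (-V)
    · rw [if_pos h6, Set.indicator_of_mem (show LV V (d n) t ∈ Set.Iic l from h5.2 h6), ← h4, ← Real.exp_mul]
      congr 1
      ring
    · rw [if_neg h6, Set.indicator_of_notMem (show LV V (d n) t ∉ Set.Iic l from fun h => h6 (h5.1 h))])
  refine h2.congr' ?_
  filter_upwards [hd0] with n a1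
  have h2d : 0 < 2 * d n := by linarith
  have h3 : 0 < (2 * d n) ^ V := Real.rpow_pos_of_pos h2d _
  have e2 : ∑ i ∈ Finset.range n, g n (y i) = (2 * d n) ^ (2 * κ * V) *
      ∑ i ∈ (Finset.range n).filter (fun i => mz (d n) (y i) ≤ c * (2 * d n) ^ (-V)), mz (d n) (y i) ^ (2 * κ) := by
    rw [Finset.mul_sum, Finset.sum_filter]
    refine Finset.sum_congr rfl fun i _ => ?_
    have hm0 : 0 ≤ mz (d n) (y i) := norm_nonneg _
    rw [hg]
    simp only
    split_ifs
    · rw [Real.mul_rpow hm0 h3.le, ← Real.rpow_mul h2d.le, mul_comm]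
      congr 2
      ring
    · rfl
  rw [e2]
  unfold MI
  ring

end Run7.h310.SQ
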